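import Mathlib

set_option autoImplicit false

namespace Pool.Agent.TH390.Tw

open Finset

/-- the box of coefficient vectors -/
noncomputable def box (n : ℕ) (H : ℕ) : Finset (Fin n → ℤ) :=
  Fintype.piFinset fun _ => Icc (-(H : ℤ)) H

theorem mem_box {n H : ℕ} {f : Fin n → ℤ} : f ∈ box n H ↔ ∀ i, |f i| ≤ (H : ℤ) := by
  unfold box
  rw [Fintype.mem_piFinset]
  refine forall_congr' fun i => ?_
  rw [mem_Icc, abs_le]

/-- weighted digit sums -/
def val (a : ℤ) (w : ℕ → ℤ) (n : ℕ) (f : Fin n → ℤ) : ℤ :=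
  ∑ i : Fin n, f i * (w (i : ℕ) * a ^ (i : ℕ))

theorem val_succ (a : ℤ) (w : ℕ → ℤ) (n : ℕ) (f : Fin (n + 1) → ℤ) :
    val a w (n + 1) f = f 0 * w 0 + a * val a (fun i => w (i + 1)) n (Fin.tail f) := by
  unfold val
  rw [Fin.sum_univ_succ, Finset.mul_sum]
  congr 1
  · simp
  · refine Finset.sum_congr rfl fun i _ => ?_
    simp only [Fin.val_succ, Fin.tail, pow_succ]
    ring

theorem val_zero (a : ℤ) (w : ℕ → ℤ) (f : Fin 0 → ℤ) : val a w 0 f = 0 := by
  simp [val]

/-- number of integers of absolute value at most `X` in a residue class -/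
theorem card_class (S : Finset ℤ) (q : ℕ) (hq : 0 < q) (v : ℤ) (X : ℝ)
    (hX : 0 ≤ X) (h1 : ∀ c ∈ S, |(c : ℝ)| ≤ X) (h2 : ∀ c ∈ S, (q : ℤ) ∣ c - v) :
    (S.card : ℝ) ≤ 2 * X / q + 1 := by
  have hqR : (0 : ℝ) < q := by exact_mod_cast hq
  have hqZ : (q : ℤ) ≠ 0 := by exact_mod_cast hq.ne'
  set α : ℝ := (-X - v) / q with hα
  set β : ℝ := (X - v) / q with hβ
  have hαβ : α ≤ β := by
    rw [hα, hβ, div_le_div_iff_of_pos_right hqR]
    linarith
  have hle : S.card ≤ (Icc ⌈α⌉ ⌊β⌋).card := by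
    refine Finset.card_le_card_of_injOn (fun c => (c - v) / (q : ℤ)) ?_ ?_
    · intro c hc
      obtain ⟨t, ht⟩ := h2 c hc
      have e1 : (c - v) / (q : ℤ) = t := by rw [ht, Int.mul_ediv_cancel_left _ hqZ]
      show (c - v) / (q : ℤ) ∈ _
      have hc' := abs_le.mp (h1 c hc)
      have e2 : (c : ℝ) - v = q * t := by exact_mod_cast ht
      rw [e1, Finset.mem_coe, mem_Icc, Int.ceil_le, Int.le_floor, hα, hβ]
      constructor
      · rw [div_le_iff₀ hqR]; linarith
      · rw [le_div_iff₀ hqR]; linarith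
    · intro c hc c' hc' hcc
      obtain ⟨t, ht⟩ := h2 c hc
      obtain ⟨t', ht'⟩ := h2 c' hc'
      have hcc' : (c - v) / (q : ℤ) = (c' - v) / (q : ℤ) := hcc
      rw [ht, ht', Int.mul_ediv_cancel_left _ hqZ, Int.mul_ediv_cancel_left _ hqZ] at hcc'
      rw [hcc'] at ht
      linarith
  have hle2 : ((Icc ⌈α⌉ ⌊β⌋).card : ℝ) ≤ β - α + 1 := by
    rw [Int.card_Icc]
    by_cases h : 0 ≤ ⌊β⌋ + 1 - ⌈α⌉
    · have e1 : (((⌊β⌋ + 1 - ⌈α⌉).toNat : ℕ) : ℝ) = ((⌊β⌋ + 1 - ⌈α⌉ : ℤ) : ℝ) := by
        rw [← Int.cast_natCast, Int.toNat_of_nonneg h]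
      rw [e1]
      push_cast
      have := Int.floor_le β
      have := Int.le_ceil α
      linarith
    · rw [Int.toNat_of_nonpos (by omega)]
      simp only [Nat.cast_zero]
      linarith
  have e : β - α + 1 = 2 * X / q + 1 := by
    rw [hα, hβ, ← sub_div]
    congr 2
    ring
  rw [← e]
  exact (Nat.cast_le.mpr hle).trans hle2

/-- number of digits in a residue class -/
theorem card_digit (H q : ℕ) (hq : 0 < q) (hH : q ≤ 2 * H) (v : ℤ) :
    (((Icc (-(H : ℤ)) H).filter (fun x => (q : ℤ) ∣ x - v)).card : ℝ) ≤ 4 * H / q := by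
  have hqR : (0 : ℝ) < q := by exact_mod_cast hq
  have hHR : (q : ℝ) ≤ 2 * H := by exact_mod_cast hH
  have h := card_class ((Icc (-(H : ℤ)) H).filter (fun x => (q : ℤ) ∣ x - v)) q hq v H
    (Nat.cast_nonneg H) (fun c hc => by
      have h1 := mem_Icc.mp (Finset.mem_filter.mp hc).1
      have h2 : |c| ≤ (H : ℤ) := abs_le.mpr h1
      exact_mod_cast h2) (fun c hc => (Finset.mem_filter.mp hc).2)
  refine h.trans ?_
  rw [div_add_one hqR.ne', div_le_div_iff_of_pos_right hqR]
  linarith

/-- number of digits in a residue class, large modulus -/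
theorem card_digit_one (H q : ℕ) (hH : 2 * H < q) (v : ℤ) :
    (((Icc (-(H : ℤ)) H).filter (fun x => (q : ℤ) ∣ x - v)).card : ℝ) ≤ 1 := by
  have : ((Icc (-(H : ℤ)) H).filter (fun x => (q : ℤ) ∣ x - v)).card ≤ 1 := by
    rw [Finset.card_le_one]
    intro x hx y hy
    obtain ⟨hx1, hx2⟩ := Finset.mem_filter.mp hx
    obtain ⟨hy1, hy2⟩ := Finset.mem_filter.mp hy
    rw [mem_Icc] at hx1 hy1
    have h1 : (q : ℤ) ∣ x - y := by
      have := dvd_sub hx2 hy2
      rwa [sub_sub_sub_cancel_right] at this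
    by_contra hne
    have h2 := Int.le_of_dvd (by
      rcases lt_trichotomy x y with h | h | h
      · exact abs_pos.mpr (by omega : x - y ≠ 0)
      · exact absurd h hne
      · exact abs_pos.mpr (by omega : x - y ≠ 0)) ((dvd_abs _ _).mpr h1)
    have h3 : |x - y| ≤ 2 * H := abs_le.mpr ⟨by omega, by omega⟩
    have h4 : (2 * H : ℤ) < q := by exact_mod_cast hH
    omega
  exact_mod_cast this

/-- a fibration argument: the first digit lies in a residue class, and the other ones in fibres -/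
theorem card_fib (n : ℕ) (S : Finset (Fin (n + 1) → ℤ)) (Rs : Finset ℤ) (A B : ℝ)
    (hB : 0 ≤ B) (hR : (Rs.card : ℝ) ≤ A)
    (hmap : ∀ f ∈ S, f 0 ∈ Rs)
    (hfib : ∀ x ∈ Rs, ∀ g ∈ S, g 0 = x → ∃ T : Finset (Fin n → ℤ), (T.card : ℝ) ≤ B ∧
      ∀ f ∈ S, f 0 = x → Fin.tail f ∈ T) : (S.card : ℝ) ≤ A * B := by
  classical
  have hcard : (S.card : ℝ) = ∑ x ∈ Rs, ((S.filter (fun a => a 0 = x)).card : ℝ) := by
    exact_mod_cast Finset.card_eq_sum_card_fiberwise hmap
  have h1 : ∀ x ∈ Rs, ((S.filter (fun a => a 0 = x)).card : ℝ) ≤ B := by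
    intro x hx
    by_cases hne : (S.filter (fun a => a 0 = x)).Nonempty
    · obtain ⟨g, hg⟩ := hne
      obtain ⟨hg1, hg2⟩ := Finset.mem_filter.mp hg
      obtain ⟨T, hT, hT2⟩ := hfib x hx g hg1 hg2
      refine le_trans ?_ hT
      have : (S.filter (fun a => a 0 = x)).card ≤ T.card := by
        refine Finset.card_le_card_of_injOn (fun f => Fin.tail f) ?_ ?_
        · intro f hf
          obtain ⟨hf1, hf2⟩ := Finset.mem_filter.mp (Finset.mem_coe.mp hf)
          exact Finset.mem_coe.mpr (hT2 f hf1 hf2)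
        · intro f hf f' hf' hff
          obtain ⟨_, hf2⟩ := Finset.mem_filter.mp (Finset.mem_coe.mp hf)
          obtain ⟨_, hf2'⟩ := Finset.mem_filter.mp (Finset.mem_coe.mp hf')
          have hff' : Fin.tail f = Fin.tail f' := hff
          rw [← Fin.cons_self_tail f, ← Fin.cons_self_tail f', hff', hf2, hf2']
      exact_mod_cast this
    · rw [Finset.not_nonempty_iff_eq_empty] at hne
      rw [hne]
      simpa using hB
  rw [hcard]
  calc ∑ x ∈ Rs, ((S.filter (fun a => a 0 = x)).card : ℝ) ≤ ∑ _x ∈ Rs, B := Finset.sum_le_sum h1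
    _ = (Rs.card : ℝ) * B := by rw [Finset.sum_const, nsmul_eq_mul]
    _ ≤ A * B := mul_le_mul_of_nonneg_right hR hB

/-- number of solutions of one linear equation -/
theorem card_sol (H a : ℕ) (ha : 0 < a) (M : ℝ) (hM0 : 0 ≤ M)
    (hM : ∀ v : ℤ, (((Icc (-(H : ℤ)) H).filter (fun x => (a : ℤ) ∣ x - v)).card : ℝ) ≤ M) :
    ∀ (n : ℕ) (w : ℕ → ℤ) (_ : ∀ i, IsCoprime (w i) (a : ℤ)) (_ : w n ≠ 0) (N : ℤ),
      (((box (n + 1) H).filter (fun f => val a w (n + 1) f = N)).card : ℝ) ≤ M ^ n := by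
  intro n
  induction n with
  | zero =>
    intro w hw hwn N
    rw [pow_zero]
    have : ((box (0 + 1) H).filter (fun f => val a w (0 + 1) f = N)).card ≤ 1 := by
      rw [Finset.card_le_one]
      intro f hf g hg
      have h1 := (Finset.mem_filter.mp hf).2
      have h2 := (Finset.mem_filter.mp hg).2
      rw [val_succ, val_zero, mul_zero, add_zero] at h1 h2
      have h3 : f 0 = g 0 := mul_right_cancel₀ hwn (h1.trans h2.symm)
      ext i
      have hi : i = 0 := by
        apply Fin.ext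
        have := i.2
        simp only [Fin.val_zero]
        omega
      rw [hi, h3]
    exact_mod_cast this
  | succ n ih =>
    intro w hw hwn N
    set S := (box (n + 1 + 1) H).filter (fun f => val a w (n + 1 + 1) f = N) with hS
    by_cases hne : S.Nonempty
    · obtain ⟨f0, hf0⟩ := hne
      have haZ : (a : ℤ) ≠ 0 := by exact_mod_cast ha.ne'
      have hf0' := (Finset.mem_filter.mp hf0).2
      rw [val_succ] at hf0'
      rw [pow_succ']
      refine card_fib (n + 1) S ((Icc (-(H : ℤ)) H).filter (fun x => (a : ℤ) ∣ x - f0 0)) M (M ^ n)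
        (by positivity) (hM (f0 0)) ?_ ?_
      · intro f hf
        obtain ⟨hf1, hf2⟩ := Finset.mem_filter.mp hf
        rw [val_succ] at hf2
        rw [Finset.mem_filter]
        refine ⟨mem_Icc.mpr (abs_le.mp (mem_box.mp hf1 0)), ?_⟩
        have h3 : (a : ℤ) ∣ (f 0 - f0 0) * w 0 :=
          ⟨val a (fun i => w (i + 1)) (n + 1) (Fin.tail f0) -
            val a (fun i => w (i + 1)) (n + 1) (Fin.tail f), by linarith⟩
        exact (hw 0).symm.dvd_of_dvd_mul_right h3
      · intro x _ g hg hgx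
        obtain ⟨hg1, hg2⟩ := Finset.mem_filter.mp hg
        refine ⟨(box (n + 1) H).filter (fun f => val a (fun i => w (i + 1)) (n + 1) f =
          val a (fun i => w (i + 1)) (n + 1) (Fin.tail g)),
          ih (fun i => w (i + 1)) (fun i => hw (i + 1)) hwn _, ?_⟩
        intro f hf hfx
        obtain ⟨hf1, hf2⟩ := Finset.mem_filter.mp hf
        rw [val_succ, hfx] at hf2
        rw [val_succ, hgx] at hg2
        rw [Finset.mem_filter]
        refine ⟨mem_box.mpr fun i => mem_box.mp hf1 i.succ, ?_⟩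
        have h1 : (a : ℤ) * val a (fun i => w (i + 1)) (n + 1) (Fin.tail f) =
            a * val a (fun i => w (i + 1)) (n + 1) (Fin.tail g) := by linarith
        exact mul_left_cancel₀ haZ h1
    · rw [Finset.not_nonempty_iff_eq_empty] at hne
      rw [hne]
      simp only [Finset.card_empty, Nat.cast_zero]
      positivity

/-- number of initial segments of digits with value in a residue class -/
theorem card_low (H a : ℕ) (ha : 0 < a) :
    ∀ (j : ℕ) (w : ℕ → ℤ) (_ : ∀ i, IsCoprime (w i) (a : ℤ)) (e : ℕ) (_ : e ∣ a ^ j)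
      (_ : Nat.gcd e a ≤ 2 * H) (u : ℤ),
      (((box j H).filter (fun f => (e : ℤ) ∣ val a w j f - u)).card : ℝ) ≤ (4 * H) ^ j / e := by
  intro j
  induction j with
  | zero =>
    intro w hw e he hg u
    rw [pow_zero, Nat.dvd_one] at he
    subst he
    have e11 : (4 * (H : ℝ)) ^ 0 / ((1 : ℕ) : ℝ) = 1 := by simp
    rw [e11]
    have : ((box 0 H).filter (fun f => ((1 : ℕ) : ℤ) ∣ val a w 0 f - u)).card ≤ 1 := by
      rw [Finset.card_le_one]
      intro f _ g _
      exact Subsingleton.elim _ _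
    exact_mod_cast this
  | succ j ih =>
    intro w hw e he hg u
    have he0 : 0 < e := Nat.pos_of_dvd_of_pos he (by positivity)
    set S := (box (j + 1) H).filter (fun f => (e : ℤ) ∣ val a w (j + 1) f - u) with hS
    by_cases hne : S.Nonempty
    · obtain ⟨f0, hf0⟩ := hne
      obtain ⟨hf0b, hf0'⟩ := Finset.mem_filter.mp hf0
      rw [val_succ] at hf0'
      set e0 := Nat.gcd e a with he0def
      have he0pos : 0 < e0 := Nat.gcd_pos_of_pos_left _ he0
      obtain ⟨e', a', hcop, hee, haa⟩ : ∃ e' a', Nat.Coprime e' a' ∧ e = e' * e0 ∧ a = a' * e0 :=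
        Nat.exists_coprime e a
      have he'pos : 0 < e' := by
        rcases Nat.eq_zero_or_pos e' with h | h
        · rw [h, zero_mul] at hee; omega
        · exact h
      have he'dvd : e' ∣ a ^ j := by
        have h1 : e' * e0 ∣ (a' * a ^ j) * e0 := by
          have h2 : a ^ (j + 1) = (a' * a ^ j) * e0 := by
            calc a ^ (j + 1) = a ^ j * a := pow_succ _ _
              _ = a ^ j * (a' * e0) := by rw [← haa]
              _ = (a' * a ^ j) * e0 := by ring
          rw [← h2, ← hee]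
          exact he
        have h3 : e' ∣ a' * a ^ j := Nat.dvd_of_mul_dvd_mul_right he0pos h1
        exact hcop.dvd_of_dvd_mul_left h3
      have hgcd' : Nat.gcd e' a ≤ 2 * H := by
        refine le_trans (Nat.le_of_dvd he0pos ?_) hg
        exact Nat.gcd_dvd_gcd_of_dvd_left a ⟨e0, hee⟩
      have hprod : (4 * (H : ℝ)) ^ (j + 1) / e = (4 * H / e0) * ((4 * H) ^ j / e') := by
        have h1 : (e : ℝ) = e' * e0 := by exact_mod_cast hee
        rw [h1, pow_succ]
        field_simp
      rw [hprod]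
      refine card_fib j S ((Icc (-(H : ℤ)) H).filter (fun x => (e0 : ℤ) ∣ x - f0 0)) _ _
        (by positivity) (card_digit H e0 he0pos hg (f0 0)) ?_ ?_
      · intro f hf
        obtain ⟨hf1, hf2⟩ := Finset.mem_filter.mp hf
        rw [val_succ] at hf2
        rw [Finset.mem_filter]
        refine ⟨mem_Icc.mpr (abs_le.mp (mem_box.mp hf1 0)), ?_⟩
        have hd1 : (e0 : ℤ) ∣ (e : ℤ) := ⟨e', by rw [hee]; push_cast; ring⟩
        have hd2 : (e0 : ℤ) ∣ (a : ℤ) := ⟨a', by rw [haa]; push_cast; ring⟩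
        have h3 : (e0 : ℤ) ∣ (f 0 - f0 0) * w 0 := by
          have h4 := dvd_sub (hd1.trans hf2) (hd1.trans hf0')
          have h5 : (e0 : ℤ) ∣ a * (val a (fun i => w (i + 1)) j (Fin.tail f0) -
            val a (fun i => w (i + 1)) j (Fin.tail f)) := hd2.mul_right _
          have h6 := dvd_add h4 h5
          have e7 : (f 0 - f0 0) * w 0 = (f 0 * w 0 + a * val a (fun i => w (i + 1)) j (Fin.tail f)
              - u - (f0 0 * w 0 + a * val a (fun i => w (i + 1)) j (Fin.tail f0) - u)) +
              a * (val a (fun i => w (i + 1)) j (Fin.tail f0) -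
                val a (fun i => w (i + 1)) j (Fin.tail f)) := by ring
          rw [e7]
          exact h6
        have hc : IsCoprime (w 0) (e0 : ℤ) := by
          have := hw 0
          rw [haa] at this
          push_cast at this
          exact this.of_mul_right_right
        exact hc.symm.dvd_of_dvd_mul_right h3
      · intro x _ g hg' hgx
        obtain ⟨hg1, hg2⟩ := Finset.mem_filter.mp hg'
        refine ⟨(box j H).filter (fun f => (e' : ℤ) ∣ val a (fun i => w (i + 1)) j f -
          val a (fun i => w (i + 1)) j (Fin.tail g)),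
          ih (fun i => w (i + 1)) (fun i => hw (i + 1)) e' he'dvd hgcd' _, ?_⟩
        intro f hf hfx
        obtain ⟨hf1, hf2⟩ := Finset.mem_filter.mp hf
        rw [val_succ, hfx] at hf2
        rw [val_succ, hgx] at hg2
        rw [Finset.mem_filter]
        refine ⟨mem_box.mpr fun i => mem_box.mp hf1 i.succ, ?_⟩
        have h1 : (e : ℤ) ∣ (a : ℤ) * (val a (fun i => w (i + 1)) j (Fin.tail f) -
            val a (fun i => w (i + 1)) j (Fin.tail g)) := by
          have h4 := dvd_sub hf2 hg2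
          have e7 : (a : ℤ) * (val a (fun i => w (i + 1)) j (Fin.tail f) -
            val a (fun i => w (i + 1)) j (Fin.tail g)) =
            (x * w 0 + a * val a (fun i => w (i + 1)) j (Fin.tail f) - u) -
            (x * w 0 + a * val a (fun i => w (i + 1)) j (Fin.tail g) - u) := by ring
          rw [e7]
          exact h4
        obtain ⟨V, hV⟩ : ∃ V, V = val a (fun i => w (i + 1)) j (Fin.tail f) -
            val a (fun i => w (i + 1)) j (Fin.tail g) := ⟨_, rfl⟩
        rw [← hV] at h1 ⊢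
        have h2 : ((e' : ℤ) * e0) ∣ ((a' : ℤ) * V) * e0 := by
          have e1 : (e : ℤ) = e' * e0 := by exact_mod_cast hee
          have e2 : (a : ℤ) = a' * e0 := by exact_mod_cast haa
          have e3 : (a : ℤ) * V = ((a' : ℤ) * V) * e0 := by
            rw [e2]
            ring
          rw [← e3, ← e1]
          exact h1
        have he0Z : (e0 : ℤ) ≠ 0 := by exact_mod_cast he0pos.ne'
        have h3 := Int.dvd_of_mul_dvd_mul_right he0Z h2
        have hcopZ : IsCoprime (e' : ℤ) (a' : ℤ) := Nat.isCoprime_iff_coprime.mpr hcop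
        exact hcopZ.dvd_of_dvd_mul_left h3
    · rw [Finset.not_nonempty_iff_eq_empty] at hne
      rw [hne]
      simp only [Finset.card_empty, Nat.cast_zero]
      positivity

end Pool.Agent.TH390.Tw
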