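import Pool.Agent.TH390.Tw.SingleB

set_option autoImplicit false

namespace Pool.Agent.TH390.Tw

open Finset

/-- an integer which is squarefull outside `S` is `s k³ m²` with `|s| ≤ ∏ S` -/
theorem decomp (N : ℤ) (S : Finset ℕ) (hS : ∀ p ∈ S, p.Prime)
    (h : ∀ p : ℕ, p.Prime → p ∉ S → (p : ℤ) ∣ N → (p : ℤ) ^ 2 ∣ N) :
    ∃ (s : ℤ) (k : ℕ) (m : ℤ), s ≠ 0 ∧ s.natAbs ≤ ∏ p ∈ S, p ∧ 1 ≤ k ∧
      N = s * (k : ℤ) ^ 3 * m ^ 2 := by
  classical
  have hpos : 1 ≤ ∏ p ∈ S, p := Nat.succ_le_of_lt (Finset.prod_pos fun p hp => (hS p hp).pos)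
  by_cases hN : N = 0
  · exact ⟨1, 1, 0, one_ne_zero, by simpa using hpos, le_refl _, by rw [hN]; ring⟩
  have hn0 : N.natAbs ≠ 0 := Int.natAbs_ne_zero.mpr hN
  obtain ⟨r, t, htr, hr⟩ := Nat.sq_mul_squarefree N.natAbs
  have hr0 : r ≠ 0 := by
    intro h0
    rw [h0, mul_zero] at htr
    exact hn0 htr.symm
  set A : Finset ℕ := r.primeFactors.filter (fun p => p ∈ S) with hA
  set B : Finset ℕ := r.primeFactors.filter (fun p => p ∉ S) with hB
  have hprod : (∏ p ∈ A, p) * (∏ p ∈ B, p) = r := by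
    rw [hA, hB, Finset.prod_filter_mul_prod_filter_not]
    exact Nat.prod_primeFactors_of_squarefree hr
  have hAS : ∏ p ∈ A, p ≤ ∏ p ∈ S, p := by
    refine Finset.prod_le_prod_of_subset_of_one_le' (fun p hp => (Finset.mem_filter.mp hp).2) ?_
    intro p hp _
    exact (hS p hp).one_le
  have hBt : (∏ p ∈ B, p) ∣ t := by
    refine Finset.prod_primes_dvd t (fun p hp => ?_) (fun p hp => ?_)
    · exact (Nat.prime_of_mem_primeFactors (Finset.mem_filter.mp hp).1).prime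
    · obtain ⟨hp1, hp2⟩ := Finset.mem_filter.mp hp
      have hpp := Nat.prime_of_mem_primeFactors hp1
      have hpr : p ∣ r := Nat.dvd_of_mem_primeFactors hp1
      have hpN : (p : ℤ) ∣ N := by
        rw [Int.natCast_dvd, ← htr]
        exact hpr.mul_left _
      have h2 := h p hpp hp2 hpN
      have h3 : p ^ 2 ∣ t ^ 2 * r := by
        rw [htr]
        have : ((p ^ 2 : ℕ) : ℤ) ∣ N := by exact_mod_cast h2
        exact Int.natCast_dvd.mp this
      by_contra hpt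
      have hcop : Nat.Coprime (p ^ 2) (t ^ 2) :=
        Nat.Coprime.pow 2 2 ((Nat.Prime.coprime_iff_not_dvd hpp).mpr hpt)
      have h4 : p ^ 2 ∣ r := hcop.dvd_of_dvd_mul_left h3
      have h5 : p * p ∣ r := by rwa [← pow_two]
      exact hpp.one_lt.ne' (Nat.isUnit_iff.mp (hr p h5))
  obtain ⟨m, hm⟩ := hBt
  set k := ∏ p ∈ B, p with hk
  set s := ∏ p ∈ A, p with hs
  have hk0 : 1 ≤ k := Nat.succ_le_of_lt (Finset.prod_pos fun p hp =>
    (Nat.prime_of_mem_primeFactors (Finset.mem_filter.mp hp).1).pos)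
  have hs0 : 1 ≤ s := Nat.succ_le_of_lt (Finset.prod_pos fun p hp =>
    (Nat.prime_of_mem_primeFactors (Finset.mem_filter.mp hp).1).pos)
  have habs : (N.natAbs : ℤ) = s * k ^ 3 * m ^ 2 := by
    rw [← htr, hm, ← hprod]
    push_cast
    ring
  refine ⟨N.sign * s, k, m, ?_, ?_, hk0, ?_⟩
  · have : N.sign ≠ 0 := by
      intro h0
      exact hN (Int.sign_eq_zero_iff_zero.mp h0)
    have hs' : (s : ℤ) ≠ 0 := by exact_mod_cast (by omega : s ≠ 0)
    exact mul_ne_zero this hs'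
  · rw [Int.natAbs_mul, Int.natAbs_sign_of_ne_zero hN, one_mul, Int.natAbs_natCast]
    exact hAS
  · calc N = N.sign * (N.natAbs : ℤ) := (Int.sign_mul_natAbs N).symm
      _ = N.sign * (s : ℤ) * (k : ℤ) ^ 3 * (m : ℤ) ^ 2 := by rw [habs]; ring

end Pool.Agent.TH390.Tw
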