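import Pool.Agent.TH390.Tw.Sq

set_option autoImplicit false

namespace Pool.Agent.TH390.Tw

open Finset

theorem val_append (a : ℤ) (w : ℕ → ℤ) (j l : ℕ) (f : Fin (j + l) → ℤ) :
    val a w (j + l) f = val a w j (fun i => f (Fin.castAdd l i)) +
      a ^ j * val a (fun i => w (j + i)) l (fun i => f (Fin.natAdd j i)) := by
  unfold val
  rw [Fin.sum_univ_add, Finset.mul_sum]
  congr 1
  refine Finset.sum_congr rfl fun i _ => ?_
  simp only [Fin.val_natAdd, pow_add]
  ring

/-- large `a`: counting the forms with `val f = k c²` -/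
theorem card_large (H a : ℕ) (ha : 2 * H < a) (J l : ℕ) (w : ℕ → ℤ)
    (hw : ∀ i, IsCoprime (w i) (a : ℤ)) (hwl : w (J + 1 + l) ≠ 0) (k : ℤ) (hk : k ≠ 0) (X : ℝ)
    (hX : 0 ≤ X) (S : Finset (Fin (J + 1 + (l + 1)) → ℤ)) (hS : ∀ f ∈ S, f ∈ box _ H)
    (hS0 : ∀ f ∈ S, f 0 ≠ 0)
    (hSc : ∀ f ∈ S, ∃ c : ℤ, |(c : ℝ)| ≤ X ∧ val a w (J + 1 + (l + 1)) f = k * c ^ 2) :
    (S.card : ℝ) ≤ ((a ^ (J + 1)).divisors.card : ℝ) ^ 2 * (4 * H) ^ (J + 1) *
      (4 * X / (a : ℝ) ^ (J + 1) + 1) := by
  classical
  have ha0 : 0 < a := by omega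
  have haR : (0 : ℝ) < a := by exact_mod_cast ha0
  set q : ℕ := a ^ (J + 1) with hq
  have hq0 : 0 < q := by positivity
  have hqR : (0 : ℝ) < q := by exact_mod_cast hq0
  have hqR' : (a : ℝ) ^ (J + 1) = (q : ℝ) := by rw [hq]; push_cast; rfl
  have hqZ : ((a : ℤ)) ^ (J + 1) = (q : ℤ) := by rw [hq]; push_cast; rfl
  rw [hqR']
  -- low part and the square root
  set low : (Fin (J + 1 + (l + 1)) → ℤ) → (Fin (J + 1) → ℤ) := fun f i => f (Fin.castAdd (l + 1) i) with hlow
  set high : (Fin (J + 1 + (l + 1)) → ℤ) → (Fin (l + 1) → ℤ) := fun f i => f (Fin.natAdd (J + 1) i) with hhigh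
  choose! c hcX hcv using hSc
  set G : Finset (Fin (J + 1) → ℤ) := (box (J + 1) H).filter (fun g => g 0 ≠ 0) with hG
  set C : (Fin (J + 1) → ℤ) → Finset ℤ := fun g =>
    (Icc (-⌊X⌋) ⌊X⌋).filter (fun c => (q : ℤ) ∣ k * c ^ 2 - val a w (J + 1) g) with hC
  have hstep1 : S.card ≤ (G.sigma fun g => C g).card := by
    refine Finset.card_le_card_of_injOn (fun f => ⟨low f, c f⟩) ?_ ?_
    · intro f hf
      have hf' := Finset.mem_coe.mp hf
      rw [Finset.mem_coe, Finset.mem_sigma]
      constructor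
      · rw [hG, Finset.mem_filter]
        refine ⟨mem_box.mpr fun i => mem_box.mp (hS f hf') _, ?_⟩
        exact hS0 f hf'
      · rw [hC]
        simp only
        rw [Finset.mem_filter, mem_Icc]
        refine ⟨?_, ?_⟩
        · have h1 : |c f| ≤ ⌊X⌋ := by
            rw [Int.le_floor]
            push_cast
            exact hcX f hf'
          exact abs_le.mp h1
        · rw [← hcv f hf', val_append _ _ (J + 1) (l + 1) f, hqZ]
          refine ⟨val a (fun i => w (J + 1 + i)) (l + 1) (high f), ?_⟩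
          simp only [hlow, hhigh]
          ring
    · intro f hf f' hf' hff
      have hf1 := Finset.mem_coe.mp hf
      have hf1' := Finset.mem_coe.mp hf'
      have h1 : low f = low f' := congrArg Sigma.fst hff
      have h2 : c f = c f' := by
        have := congrArg Sigma.snd hff
        exact this
      have h3 := hcv f hf1
      have h3' := hcv f' hf1'
      rw [h2, ← h3', val_append _ _ (J + 1) (l + 1) f, val_append _ _ (J + 1) (l + 1) f'] at h3
      have h4 : val a w (J + 1) (fun i => f (Fin.castAdd (l + 1) i)) =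
          val a w (J + 1) (fun i => f' (Fin.castAdd (l + 1) i)) := congrArg _ h1
      rw [h4] at h3
      have h5 := add_left_cancel h3
      have haZ : (a : ℤ) ^ (J + 1) ≠ 0 := by positivity
      have h6 := mul_left_cancel₀ haZ h5
      have h7 := card_sol H a ha0 1 zero_le_one (card_digit_one H a ha) l
        (fun i => w (J + 1 + i)) (fun i => hw _) hwl
        (val a (fun i => w (J + 1 + i)) (l + 1) (high f'))
      rw [one_pow] at h7
      have h8 : ((box (l + 1) H).filter (fun g => val a (fun i => w (J + 1 + i)) (l + 1) g =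
        val a (fun i => w (J + 1 + i)) (l + 1) (high f'))).card ≤ 1 := by exact_mod_cast h7
      rw [Finset.card_le_one] at h8
      have h9 : high f = high f' := by
        refine h8 _ ?_ _ ?_
        · rw [Finset.mem_filter]
          exact ⟨mem_box.mpr fun i => mem_box.mp (hS f hf1) _, h6⟩
        · rw [Finset.mem_filter]
          exact ⟨mem_box.mpr fun i => mem_box.mp (hS f' hf1') _, rfl⟩
      ext i
      refine Fin.addCases (fun i => ?_) (fun i => ?_) i
      · exact congrFun h1 i
      · exact congrFun h9 i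
  have hstep2 : ((G.sigma fun g => C g).card : ℝ) = ∑ g ∈ G, ((C g).card : ℝ) := by
    rw [Finset.card_sigma]
    push_cast
    rfl
  set D : ℝ := (q.divisors.card : ℝ) with hD
  have hD0 : 0 ≤ D := Nat.cast_nonneg _
  have hstep3 : ∀ g ∈ G, ((C g).card : ℝ) ≤ D * (4 * X * (Int.gcd (val a w (J + 1) g) q) / q + 1) := by
    intro g _
    refine card_sq q hq0 k (val a w (J + 1) g) hk X hX (C g) ?_ ?_
    · intro c hc
      have h1 := mem_Icc.mp (Finset.mem_filter.mp hc).1
      have h2 : |c| ≤ ⌊X⌋ := abs_le.mpr h1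
      rw [Int.le_floor] at h2
      push_cast at h2
      exact h2
    · intro c hc
      exact (Finset.mem_filter.mp hc).2
  have hmaps : ∀ g ∈ G, Int.gcd (val a w (J + 1) g) q ∈ q.divisors := by
    intro g _
    rw [Nat.mem_divisors]
    refine ⟨?_, hq0.ne'⟩
    have : ((Int.gcd (val a w (J + 1) g) q : ℕ) : ℤ) ∣ (q : ℤ) := Int.gcd_dvd_right _ _
    exact_mod_cast this
  have hstep4 : ∑ g ∈ G, (D * (4 * X * (Int.gcd (val a w (J + 1) g) q) / q + 1)) =
      ∑ e ∈ q.divisors, ∑ g ∈ G.filter (fun g => Int.gcd (val a w (J + 1) g) q = e),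
        (D * (4 * X * (Int.gcd (val a w (J + 1) g) q) / q + 1)) :=
    (Finset.sum_fiberwise_of_maps_to hmaps _).symm
  have hstep5 : ∀ e ∈ q.divisors, ∑ g ∈ G.filter (fun g => Int.gcd (val a w (J + 1) g) q = e),
        (D * (4 * X * (Int.gcd (val a w (J + 1) g) q) / q + 1)) ≤
        D * ((4 * H) ^ (J + 1) * (4 * X / q + 1)) := by
    intro e he
    have heq : e ∣ q := Nat.dvd_of_mem_divisors he
    have he0 : 0 < e := Nat.pos_of_mem_divisors he
    have heR : (1 : ℝ) ≤ e := by exact_mod_cast he0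
    have heR0 : (0 : ℝ) < e := by linarith
    have e1 : ∑ g ∈ G.filter (fun g => Int.gcd (val a w (J + 1) g) q = e),
        (D * (4 * X * (Int.gcd (val a w (J + 1) g) q) / q + 1)) =
        ((G.filter (fun g => Int.gcd (val a w (J + 1) g) q = e)).card : ℝ) *
          (D * (4 * X * e / q + 1)) := by
      rw [← nsmul_eq_mul, ← Finset.sum_const]
      refine Finset.sum_congr rfl fun g hg => ?_
      rw [(Finset.mem_filter.mp hg).2]
    rw [e1]
    have e2 : ((G.filter (fun g => Int.gcd (val a w (J + 1) g) q = e)).card : ℝ) ≤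
        (4 * H) ^ (J + 1) / e := by
      by_cases hne : (G.filter (fun g => Int.gcd (val a w (J + 1) g) q = e)).Nonempty
      · obtain ⟨g, hg⟩ := hne
        obtain ⟨hgG, hge⟩ := Finset.mem_filter.mp hg
        obtain ⟨hgb, hg0⟩ := Finset.mem_filter.mp hgG
        have hgcd : Nat.gcd e a ≤ 2 * H := by
          have h1 : (e : ℤ) ∣ val a w (J + 1) g := by
            rw [← hge]
            exact Int.gcd_dvd_left _ _
          have h2 : ((Nat.gcd e a : ℕ) : ℤ) ∣ e := by exact_mod_cast Nat.gcd_dvd_left e a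
          have h3 : ((Nat.gcd e a : ℕ) : ℤ) ∣ a := by exact_mod_cast Nat.gcd_dvd_right e a
          have h4 := h2.trans h1
          rw [val_succ] at h4
          have h5 : ((Nat.gcd e a : ℕ) : ℤ) ∣ g 0 * w 0 := by
            have h6 := dvd_sub h4 (h3.mul_right (val a (fun i => w (i + 1)) J (Fin.tail g)))
            rwa [add_sub_cancel_right] at h6
          have h6 : IsCoprime ((Nat.gcd e a : ℕ) : ℤ) (w 0) := by
            obtain ⟨t, ht⟩ := h3
            have := hw 0
            rw [ht] at this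
            exact this.of_mul_right_left.symm
          have h7 := h6.dvd_of_dvd_mul_right h5
          have h8 := Int.le_of_dvd (abs_pos.mpr hg0) ((dvd_abs _ _).mpr h7)
          have h9 := mem_box.mp hgb 0
          have h10 : ((Nat.gcd e a : ℕ) : ℤ) ≤ (H : ℤ) := h8.trans h9
          have h11 : Nat.gcd e a ≤ H := by exact_mod_cast h10
          omega
        refine le_trans ?_ (card_low H a ha0 (J + 1) w hw e heq hgcd 0)
        have : (G.filter (fun g => Int.gcd (val a w (J + 1) g) q = e)).card ≤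
            ((box (J + 1) H).filter (fun f => (e : ℤ) ∣ val a w (J + 1) f - 0)).card := by
          refine Finset.card_le_card fun g hg => ?_
          obtain ⟨hgG, hge⟩ := Finset.mem_filter.mp hg
          rw [Finset.mem_filter]
          refine ⟨(Finset.mem_filter.mp hgG).1, ?_⟩
          rw [sub_zero, ← hge]
          exact Int.gcd_dvd_left _ _
        exact_mod_cast this
      · rw [Finset.not_nonempty_iff_eq_empty] at hne
        rw [hne]
        simp only [Finset.card_empty, Nat.cast_zero]
        positivity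
    have e3 : 0 ≤ D * (4 * X * e / q + 1) := by positivity
    calc ((G.filter (fun g => Int.gcd (val a w (J + 1) g) q = e)).card : ℝ) *
          (D * (4 * X * e / q + 1)) ≤ (4 * H) ^ (J + 1) / e * (D * (4 * X * e / q + 1)) :=
          mul_le_mul_of_nonneg_right e2 e3
      _ = D * ((4 * H) ^ (J + 1) * (4 * X / q + 1 / e)) := by
          field_simp
      _ ≤ D * ((4 * H) ^ (J + 1) * (4 * X / q + 1)) := by
          have : (1 : ℝ) / e ≤ 1 := by
            rw [div_le_one heR0]
            exact heR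
          gcongr
  calc (S.card : ℝ) ≤ ((G.sigma fun g => C g).card : ℝ) := by exact_mod_cast hstep1
    _ = ∑ g ∈ G, ((C g).card : ℝ) := hstep2
    _ ≤ ∑ g ∈ G, (D * (4 * X * (Int.gcd (val a w (J + 1) g) q) / q + 1)) :=
        Finset.sum_le_sum hstep3
    _ = ∑ e ∈ q.divisors, ∑ g ∈ G.filter (fun g => Int.gcd (val a w (J + 1) g) q = e),
        (D * (4 * X * (Int.gcd (val a w (J + 1) g) q) / q + 1)) := hstep4
    _ ≤ ∑ _e ∈ q.divisors, D * ((4 * H) ^ (J + 1) * (4 * X / q + 1)) := Finset.sum_le_sum hstep5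
    _ = D ^ 2 * (4 * H) ^ (J + 1) * (4 * X / q + 1) := by
        rw [Finset.sum_const, nsmul_eq_mul, ← hD]
        ring

end Pool.Agent.TH390.Tw
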