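import Pool.Agent.TH390.Tw.PairD

set_option autoImplicit false

namespace Pool.Agent.TH390.Tw

open Finset

/-- exponents of the monomials of degree `d` in `n + 1` variables -/
abbrev Idx (n d : ℕ) : Type :=
  {m : Fin (n + 1) →₀ ℕ // m ∈ Finset.finsuppAntidiag (Finset.univ : Finset (Fin (n + 1))) d}

theorem card_Idx (n d : ℕ) : Fintype.card (Idx n d) = (n + d).choose n := by
  have h := card_finsuppAntidiag_nat_eq_choose (s := (Finset.univ : Finset (Fin (n + 1)))) d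
  rw [Fintype.card_coe, h]
  simp only [Finset.card_univ, Fintype.card_fin]
  have e : n + 1 + d - 1 = n + d := by omega
  rw [e]
  exact (Nat.choose_symm_add).symm

/-- vectors of coefficients bounded by `H` -/
noncomputable def vbox (n d H : ℕ) : Finset (Idx n d → ℤ) :=
  Fintype.piFinset fun _ => Icc (-(H : ℤ)) H

theorem mem_vbox {n d H : ℕ} {f : Idx n d → ℤ} : f ∈ vbox n d H ↔ ∀ i, |f i| ≤ (H : ℤ) := by
  unfold vbox
  rw [Fintype.mem_piFinset]
  refine forall_congr' fun i => ?_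
  rw [mem_Icc, abs_le]

theorem card_vbox (n d H : ℕ) : (vbox n d H).card = (2 * H + 1) ^ ((n + d).choose n) := by
  unfold vbox
  rw [Fintype.card_piFinset]
  simp only [Int.card_Icc, Finset.prod_const, Finset.card_univ]
  rw [card_Idx]
  congr 1
  omega

theorem card_box (n H : ℕ) : (box n H).card = (2 * H + 1) ^ n := by
  unfold box
  rw [Fintype.card_piFinset]
  simp only [Int.card_Icc, Finset.prod_const, Finset.card_univ, Fintype.card_fin]
  congr 1
  omega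

/-- value at `x` of the form with coefficients `f` -/
def ev {n d : ℕ} (x : Fin (n + 1) → ℤ) (f : Idx n d → ℤ) : ℤ :=
  ∑ m : Idx n d, f m * ∏ j, x j ^ (m.1 j)

theorem ev_add {n d : ℕ} (x : Fin (n + 1) → ℤ) (f g : Idx n d → ℤ) :
    ev x (f + g) = ev x f + ev x g := by
  unfold ev
  rw [← Finset.sum_add_distrib]
  refine Finset.sum_congr rfl fun m _ => ?_
  simp only [Pi.add_apply]
  ring

theorem idx_sum {n d : ℕ} (m : Idx n d) : ∑ j, m.1 j = d := by
  have := (Finset.mem_finsuppAntidiag.mp m.2).1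
  exact this

theorem abs_ev_le {n d : ℕ} (H A : ℕ) (x : Fin (n + 1) → ℤ) (hx : ∀ j, |x j| ≤ (A : ℤ))
    (f : Idx n d → ℤ) (hf : f ∈ vbox n d H) :
    |ev x f| ≤ ((n + d).choose n * H * A ^ d : ℕ) := by
  unfold ev
  refine (Finset.abs_sum_le_sum_abs _ _).trans ?_
  have h1 : ∀ m ∈ (Finset.univ : Finset (Idx n d)), |f m * ∏ j, x j ^ (m.1 j)| ≤
      ((H * A ^ d : ℕ) : ℤ) := by
    intro m _
    rw [abs_mul, Finset.abs_prod]
    have h2 := mem_vbox.mp hf m
    have h3 : ∏ j, |x j ^ (m.1 j)| ≤ (A : ℤ) ^ d := by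
      calc ∏ j, |x j ^ (m.1 j)| ≤ ∏ j, (A : ℤ) ^ (m.1 j) := by
            refine Finset.prod_le_prod (fun j _ => abs_nonneg _) (fun j _ => ?_)
            rw [abs_pow]
            exact pow_le_pow_left₀ (abs_nonneg _) (hx j) _
        _ = (A : ℤ) ^ d := by
            rw [Finset.prod_pow_eq_pow_sum, idx_sum]
    have h4 : (0 : ℤ) ≤ ∏ j, |x j ^ (m.1 j)| := Finset.prod_nonneg fun j _ => abs_nonneg _
    push_cast
    exact mul_le_mul h2 h3 h4 (by positivity)
  refine (Finset.sum_le_sum h1).trans ?_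
  rw [Finset.sum_const, Finset.card_univ, card_Idx, nsmul_eq_mul]
  apply le_of_eq
  push_cast
  ring

/-- coefficient vector of a polynomial -/
noncomputable def vec {n : ℕ} (d : ℕ) (F : MvPolynomial (Fin (n + 1)) ℤ) : Idx n d → ℤ :=
  fun m => F.coeff m.1

theorem mem_finsuppAntidiag_of_hom {n d : ℕ} {F : MvPolynomial (Fin (n + 1)) ℤ}
    (hF : F.IsHomogeneous d) {m : Fin (n + 1) →₀ ℕ} (hm : F.coeff m ≠ 0) :
    m ∈ Finset.finsuppAntidiag (Finset.univ : Finset (Fin (n + 1))) d := by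
  rw [Finset.mem_finsuppAntidiag]
  refine ⟨?_, Finset.subset_univ _⟩
  have h := hF hm
  rw [Finsupp.weight_apply] at h
  simp only [Pi.one_apply, smul_eq_mul, mul_one] at h
  rw [Finsupp.sum_fintype _ _ (fun _ => rfl)] at h
  exact h

theorem ev_vec {n d : ℕ} (F : MvPolynomial (Fin (n + 1)) ℤ) (hF : F.IsHomogeneous d)
    (x : Fin (n + 1) → ℤ) : ev x (vec d F) = MvPolynomial.eval x F := by
  classical
  rw [MvPolynomial.eval_eq']
  unfold ev vec
  rw [Finset.sum_coe_sort (Finset.finsuppAntidiag (Finset.univ : Finset (Fin (n + 1))) d)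
    (fun m => F.coeff m * ∏ j, x j ^ (m j))]
  symm
  refine Finset.sum_subset ?_ ?_
  · intro m hm
    exact mem_finsuppAntidiag_of_hom hF (MvPolynomial.mem_support_iff.mp hm)
  · intro m _ hm
    rw [MvPolynomial.notMem_support_iff.mp hm, zero_mul]

theorem vec_inj {n d : ℕ} {F G : MvPolynomial (Fin (n + 1)) ℤ} (hF : F.IsHomogeneous d)
    (hG : G.IsHomogeneous d) (h : vec d F = vec d G) : F = G := by
  ext m
  by_cases hm : m ∈ Finset.finsuppAntidiag (Finset.univ : Finset (Fin (n + 1))) d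
  · exact congrFun h ⟨m, hm⟩
  · have h1 : F.coeff m = 0 := by
      by_contra h0
      exact hm (mem_finsuppAntidiag_of_hom hF h0)
    have h2 : G.coeff m = 0 := by
      by_contra h0
      exact hm (mem_finsuppAntidiag_of_hom hG h0)
    rw [h1, h2]

/-- linear form -/
noncomputable def lin {n : ℕ} (α : Fin (n + 1) → ℤ) : MvPolynomial (Fin (n + 1)) ℤ :=
  ∑ j, MvPolynomial.C (α j) * MvPolynomial.X j

theorem eval_lin {n : ℕ} (α x : Fin (n + 1) → ℤ) :
    MvPolynomial.eval x (lin α) = ∑ j, α j * x j := by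
  unfold lin
  simp

theorem lin_hom {n : ℕ} (α : Fin (n + 1) → ℤ) : (lin α).IsHomogeneous 1 := by
  unfold lin
  refine MvPolynomial.IsHomogeneous.sum _ _ _ fun j _ => ?_
  have := (MvPolynomial.isHomogeneous_C (Fin (n + 1)) (α j)).mul (MvPolynomial.isHomogeneous_X ℤ j)
  simpa using this

theorem coeff_lin_mul {n : ℕ} (α : Fin (n + 1) → ℤ) (T B : ℕ) (hα : ∀ j, |α j| ≤ (T : ℤ))
    (F : MvPolynomial (Fin (n + 1)) ℤ) (hF : ∀ m, |F.coeff m| ≤ (B : ℤ)) (m : Fin (n + 1) →₀ ℕ) :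
    |(lin α * F).coeff m| ≤ (((n + 1) * T * B : ℕ) : ℤ) := by
  classical
  unfold lin
  rw [Finset.sum_mul, MvPolynomial.coeff_sum]
  refine (Finset.abs_sum_le_sum_abs _ _).trans ?_
  have h1 : ∀ j ∈ (Finset.univ : Finset (Fin (n + 1))),
      |(MvPolynomial.C (α j) * MvPolynomial.X j * F).coeff m| ≤ ((T * B : ℕ) : ℤ) := by
    intro j _
    rw [mul_assoc, MvPolynomial.coeff_C_mul, abs_mul, MvPolynomial.coeff_X_mul']
    push_cast
    refine mul_le_mul (hα j) ?_ (abs_nonneg _) (by positivity)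
    split_ifs
    · exact hF _
    · simp
  refine (Finset.sum_le_sum h1).trans ?_
  rw [Finset.sum_const, Finset.card_univ, Fintype.card_fin, nsmul_eq_mul]
  apply le_of_eq
  push_cast
  ring

theorem coeff_lin_pow_mul {n : ℕ} (α : Fin (n + 1) → ℤ) (T B : ℕ) (hα : ∀ j, |α j| ≤ (T : ℤ))
    (F : MvPolynomial (Fin (n + 1)) ℤ) (hF : ∀ m, |F.coeff m| ≤ (B : ℤ)) (k : ℕ) :
    ∀ m : Fin (n + 1) →₀ ℕ, |(lin α ^ k * F).coeff m| ≤ ((((n + 1) * T) ^ k * B : ℕ) : ℤ) := by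
  induction k with
  | zero =>
    intro m
    simpa using hF m
  | succ k ih =>
    intro m
    have e : lin α ^ (k + 1) * F = lin α * (lin α ^ k * F) := by ring
    rw [e]
    have h := coeff_lin_mul α T (((n + 1) * T) ^ k * B) hα (lin α ^ k * F) ih m
    refine h.trans (le_of_eq ?_)
    congr 1
    ring

/-- the form `∑ g i u ^ i v ^ (d - i)` -/
noncomputable def Phi {n : ℕ} (d : ℕ) (α β : Fin (n + 1) → ℤ) (g : Fin (d + 1) → ℤ) :
    MvPolynomial (Fin (n + 1)) ℤ :=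
  ∑ i : Fin (d + 1), MvPolynomial.C (g i) * (lin α ^ (i : ℕ) * lin β ^ (d - (i : ℕ)))

theorem Phi_hom {n : ℕ} (d : ℕ) (α β : Fin (n + 1) → ℤ) (g : Fin (d + 1) → ℤ) :
    (Phi d α β g).IsHomogeneous d := by
  unfold Phi
  refine MvPolynomial.IsHomogeneous.sum _ _ _ fun i _ => ?_
  have hi : (i : ℕ) ≤ d := Nat.lt_succ_iff.mp i.2
  have h1 := ((lin_hom α).pow (i : ℕ)).mul ((lin_hom β).pow (d - (i : ℕ)))
  have h2 := (MvPolynomial.isHomogeneous_C (Fin (n + 1)) (g i)).mul h1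
  have e : 0 + (1 * (i : ℕ) + 1 * (d - (i : ℕ))) = d := by omega
  rwa [e] at h2

theorem eval_Phi {n : ℕ} (d : ℕ) (α β : Fin (n + 1) → ℤ) (g : Fin (d + 1) → ℤ)
    (x : Fin (n + 1) → ℤ) : MvPolynomial.eval x (Phi d α β g) =
      frm d g (∑ j, α j * x j) (∑ j, β j * x j) := by
  unfold Phi frm
  rw [map_sum]
  refine Finset.sum_congr rfl fun i _ => ?_
  rw [map_mul, map_mul, map_pow, map_pow, eval_lin, eval_lin, MvPolynomial.eval_C]
  ring

theorem coeff_Phi {n : ℕ} (d : ℕ) (α β : Fin (n + 1) → ℤ) (T : ℕ) (hα : ∀ j, |α j| ≤ (T : ℤ))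
    (hβ : ∀ j, |β j| ≤ (T : ℤ)) (L : ℕ) (g : Fin (d + 1) → ℤ) (hg : g ∈ box (d + 1) L)
    (m : Fin (n + 1) →₀ ℕ) :
    |(Phi d α β g).coeff m| ≤ (((d + 1) * L * ((n + 1) * T) ^ d : ℕ) : ℤ) := by
  classical
  unfold Phi
  rw [MvPolynomial.coeff_sum]
  refine (Finset.abs_sum_le_sum_abs _ _).trans ?_
  have h1 : ∀ i ∈ (Finset.univ : Finset (Fin (d + 1))),
      |(MvPolynomial.C (g i) * (lin α ^ (i : ℕ) * lin β ^ (d - (i : ℕ)))).coeff m| ≤
        ((L * ((n + 1) * T) ^ d : ℕ) : ℤ) := by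
    intro i _
    have hi : (i : ℕ) ≤ d := Nat.lt_succ_iff.mp i.2
    rw [MvPolynomial.coeff_C_mul, abs_mul]
    have h2 : ∀ m : Fin (n + 1) →₀ ℕ, |(lin β ^ (d - (i : ℕ))).coeff m| ≤
        ((((n + 1) * T) ^ (d - (i : ℕ)) * 1 : ℕ) : ℤ) := by
      intro m
      have := coeff_lin_pow_mul β T 1 hβ (1 : MvPolynomial (Fin (n + 1)) ℤ) (fun m => by
        rw [MvPolynomial.coeff_one]
        split_ifs <;> simp) (d - (i : ℕ)) m
      rwa [mul_one] at this
    have h3 := coeff_lin_pow_mul α T (((n + 1) * T) ^ (d - (i : ℕ)) * 1) hα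
      (lin β ^ (d - (i : ℕ))) h2 (i : ℕ) m
    have h4 : ((n + 1) * T) ^ (i : ℕ) * (((n + 1) * T) ^ (d - (i : ℕ)) * 1) =
        ((n + 1) * T) ^ d := by
      rw [mul_one, ← pow_add, Nat.add_sub_cancel' hi]
    rw [h4] at h3
    push_cast at h3 ⊢
    exact mul_le_mul (mem_box.mp hg i) h3 (abs_nonneg _) (by positivity)
  refine (Finset.sum_le_sum h1).trans ?_
  rw [Finset.sum_const, Finset.card_univ, Fintype.card_fin, nsmul_eq_mul]
  apply le_of_eq
  push_cast
  ring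

/-- averaging over translates -/
theorem card_avg {n d : ℕ} (H H' L : ℕ) (α β : Fin (n + 1) → ℤ) (T : ℕ)
    (hα : ∀ j, |α j| ≤ (T : ℤ)) (hβ : ∀ j, |β j| ≤ (T : ℤ))
    (hH' : H + (d + 1) * L * ((n + 1) * T) ^ d ≤ H') (S : Finset (Idx n d → ℤ))
    (hS : S ⊆ vbox n d H) (B : ℝ)
    (hB : ∀ R : Idx n d → ℤ, ∀ G : Finset (Fin (d + 1) → ℤ), G ⊆ box (d + 1) L →
      (∀ g ∈ G, R + vec d (Phi d α β g) ∈ S) → (G.card : ℝ) ≤ B) :
    (S.card : ℝ) ≤ ((2 * H' + 1 : ℕ) : ℝ) ^ ((n + d).choose n) / ((2 * L + 1 : ℕ) : ℝ) ^ (d + 1) * B := by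
  classical
  have hL : (0 : ℝ) < ((2 * L + 1 : ℕ) : ℝ) ^ (d + 1) := by positivity
  rw [div_mul_eq_mul_div, le_div_iff₀ hL]
  have hmap : ∀ z ∈ S ×ˢ box (d + 1) L, z.1 - vec d (Phi d α β z.2) ∈ vbox n d H' := by
    intro z hz
    obtain ⟨hz1, hz2⟩ := Finset.mem_product.mp hz
    rw [mem_vbox]
    intro m
    have h1 := mem_vbox.mp (hS hz1) m
    have h2 := coeff_Phi d α β T hα hβ L z.2 hz2 m.1
    rw [Pi.sub_apply]
    have h3 : |vec d (Phi d α β z.2) m| ≤ (((d + 1) * L * ((n + 1) * T) ^ d : ℕ) : ℤ) := h2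
    have h4 : ((H + (d + 1) * L * ((n + 1) * T) ^ d : ℕ) : ℤ) ≤ (H' : ℤ) := by exact_mod_cast hH'
    push_cast at h3 h4
    calc |z.1 m - vec d (Phi d α β z.2) m| ≤ |z.1 m| + |vec d (Phi d α β z.2) m| := abs_sub _ _
      _ ≤ _ := by linarith
  have hcard : ((S ×ˢ box (d + 1) L).card : ℝ) = ∑ h ∈ vbox n d H',
      (((S ×ˢ box (d + 1) L).filter (fun z => z.1 - vec d (Phi d α β z.2) = h)).card : ℝ) := by
    exact_mod_cast Finset.card_eq_sum_card_fiberwise hmap
  have hfib : ∀ h ∈ vbox n d H',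
      (((S ×ˢ box (d + 1) L).filter (fun z => z.1 - vec d (Phi d α β z.2) = h)).card : ℝ) ≤ B := by
    intro h _
    set Fh := (S ×ˢ box (d + 1) L).filter (fun z => z.1 - vec d (Phi d α β z.2) = h) with hFh
    have h1 : Fh.card = (Fh.image Prod.snd).card := by
      symm
      apply Finset.card_image_of_injOn
      intro z hz z' hz' hzz
      have e1 := (Finset.mem_filter.mp (Finset.mem_coe.mp hz)).2
      have e2 := (Finset.mem_filter.mp (Finset.mem_coe.mp hz')).2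
      have hzz' : z.2 = z'.2 := hzz
      rw [hzz'] at e1
      have e3 : z.1 = z'.1 := by
        have := e1.trans e2.symm
        exact sub_left_injective this
      exact Prod.ext e3 hzz'
    rw [h1]
    refine hB h (Fh.image Prod.snd) ?_ ?_
    · intro g hg
      obtain ⟨z, hz, rfl⟩ := Finset.mem_image.mp hg
      exact (Finset.mem_product.mp (Finset.mem_filter.mp hz).1).2
    · intro g hg
      obtain ⟨z, hz, rfl⟩ := Finset.mem_image.mp hg
      obtain ⟨hz1, hz2⟩ := Finset.mem_filter.mp hz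
      rw [← hz2, sub_add_cancel]
      exact (Finset.mem_product.mp hz1).1
  have h1 : ((S ×ˢ box (d + 1) L).card : ℝ) ≤ ((vbox n d H').card : ℝ) * B := by
    rw [hcard]
    refine (Finset.sum_le_sum hfib).trans ?_
    rw [Finset.sum_const, nsmul_eq_mul]
  rw [Finset.card_product, card_box, card_vbox] at h1
  push_cast at h1 ⊢
  exact h1

end Pool.Agent.TH390.Tw
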