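import Mathlib

set_option autoImplicit false

namespace Pool.Agent.TH390.Tw

open Finset

/-- a small multiplier making `y + t z` prime to `w`, as far as possible -/
theorem jac (w : ℕ) (y z : ℤ) : ∃ t : ℕ, t ≤ 8 ^ w.primeFactors.card ∧
    ∀ p ∈ w.primeFactors, ¬ ((p : ℤ) ∣ y ∧ (p : ℤ) ∣ z) → ¬ (p : ℤ) ∣ y + t * z := by
  classical
  set P := w.primeFactors with hP
  set r := P.card with hr
  have hprime : ∀ p ∈ P, p.Prime := fun p hp => Nat.prime_of_mem_primeFactors hp
  set A := P.filter (fun p => p ≤ r) with hA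
  set A' : Finset ℕ := A.filter (fun p : ℕ => ¬ (p : ℤ) ∣ y) with hA'
  set Q := ∏ p ∈ A, p with hQ
  set t₀ := ∏ p ∈ A', p with ht₀
  have hAP : ∀ p ∈ A, p ∈ P ∧ p ≤ r := fun p hp => Finset.mem_filter.mp hp
  have hQ4 : Q ≤ 4 ^ r := by
    refine le_trans ?_ (primorial_le_four_pow r)
    unfold primorial
    refine Finset.prod_le_prod_of_subset_of_one_le' ?_ ?_
    · intro p hp
      obtain ⟨h1, h2⟩ := hAP p hp
      rw [Finset.mem_filter, Finset.mem_range]
      exact ⟨by omega, hprime p h1⟩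
    · intro p hp _
      exact (Finset.mem_filter.mp hp).2.one_le
  have ht₀Q : t₀ ≤ Q := by
    refine Finset.prod_le_prod_of_subset_of_one_le' (Finset.filter_subset _ _) ?_
    intro p hp _
    exact (hprime p (hAP p hp).1).one_le
  -- small primes are fine for every `l`
  have hsmall : ∀ l : ℕ, ∀ p ∈ A, ¬ ((p : ℤ) ∣ y ∧ (p : ℤ) ∣ z) →
      ¬ (p : ℤ) ∣ y + ((t₀ + Q * l : ℕ) : ℤ) * z := by
    intro l p hp hnot hdvd
    have hpp := hprime p (hAP p hp).1
    have hpZ : Prime (p : ℤ) := Nat.prime_iff_prime_int.mp hpp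
    have hpQ : (p : ℤ) ∣ (Q : ℤ) := by exact_mod_cast Finset.dvd_prod_of_mem _ hp
    by_cases hy : (p : ℤ) ∣ y
    · have hz : ¬ (p : ℤ) ∣ z := fun h => hnot ⟨hy, h⟩
      have h1 : (p : ℤ) ∣ ((t₀ + Q * l : ℕ) : ℤ) * z := (dvd_add_right hy).mp hdvd
      rcases hpZ.dvd_or_dvd h1 with h2 | h2
      · push_cast at h2
        have h3 : (p : ℤ) ∣ (t₀ : ℤ) := (dvd_add_left (hpQ.mul_right _)).mp h2
        rw [ht₀] at h3
        push_cast at h3
        obtain ⟨q, hq, hpq⟩ := hpZ.exists_mem_finset_dvd h3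
        obtain ⟨hq1, hq2⟩ := Finset.mem_filter.mp hq
        have hpq' : p ∣ q := by exact_mod_cast hpq
        have := (Nat.prime_dvd_prime_iff_eq hpp (hprime q (hAP q hq1).1)).mp hpq'
        rw [← this] at hq2
        exact hq2 hy
      · exact hz h2
    · have hpt : (p : ℤ) ∣ (t₀ : ℤ) := by
        have : p ∈ A' := Finset.mem_filter.mpr ⟨hp, hy⟩
        exact_mod_cast Finset.dvd_prod_of_mem (fun p => p) this
      have h1 : (p : ℤ) ∣ ((t₀ + Q * l : ℕ) : ℤ) * z := by
        push_cast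
        exact (dvd_add hpt (hpQ.mul_right _)).mul_right _
      exact hy ((dvd_add_left h1).mp hdvd)
  -- large primes: pigeonhole
  have hlarge : ∃ l : ℕ, l ≤ r ∧ ∀ p ∈ P, r < p → ¬ ((p : ℤ) ∣ y ∧ (p : ℤ) ∣ z) →
      ¬ (p : ℤ) ∣ y + ((t₀ + Q * l : ℕ) : ℤ) * z := by
    by_contra hcon
    push Not at hcon
    choose! g hg1 hg2 hg3 hg4 using hcon
    have hmaps : ∀ l ∈ Finset.range (r + 1), g l ∈ P := fun l hl =>
      hg1 l (by have := Finset.mem_range.mp hl; omega)
    obtain ⟨l, hl, l', hl', hne, heq⟩ := Finset.exists_ne_map_eq_of_card_lt_of_maps_to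
      (by rw [Finset.card_range]; omega : P.card < (Finset.range (r + 1)).card) hmaps
    have hl2 : l ≤ r := by have := Finset.mem_range.mp hl; omega
    have hl2' : l' ≤ r := by have := Finset.mem_range.mp hl'; omega
    set p := g l with hp
    have hpp := hprime p (hg1 l hl2)
    have hpZ : Prime (p : ℤ) := Nat.prime_iff_prime_int.mp hpp
    have hrp := hg2 l hl2
    have hnot : ¬ ((p : ℤ) ∣ y ∧ (p : ℤ) ∣ z) := by
      rintro ⟨h1, h2⟩
      exact hg3 l hl2 h1 h2
    have hd1 := hg4 l hl2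
    have hd2 := hg4 l' hl2'
    rw [← heq] at hd2
    have hd3 : (p : ℤ) ∣ (Q : ℤ) * ((l : ℤ) - l') * z := by
      have := dvd_sub hd1 hd2
      have e : y + ((t₀ + Q * l : ℕ) : ℤ) * z - (y + ((t₀ + Q * l' : ℕ) : ℤ) * z) =
          (Q : ℤ) * ((l : ℤ) - l') * z := by
        push_cast
        ring
      rwa [e] at this
    rcases hpZ.dvd_or_dvd hd3 with h1 | h1
    · rcases hpZ.dvd_or_dvd h1 with h2 | h2
      · rw [hQ] at h2
        push_cast at h2
        obtain ⟨q, hq, hpq⟩ := hpZ.exists_mem_finset_dvd h2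
        have hpq' : p ∣ q := by exact_mod_cast hpq
        have := (Nat.prime_dvd_prime_iff_eq hpp (hprime q (hAP q hq).1)).mp hpq'
        have := (hAP q hq).2
        omega
      · have h3 : (l : ℤ) - l' ≠ 0 := by
          intro h0
          exact hne (by omega)
        have h4 := Int.le_of_dvd (abs_pos.mpr h3) ((dvd_abs _ _).mpr h2)
        have h5 : |(l : ℤ) - l'| ≤ r := abs_le.mpr ⟨by omega, by omega⟩
        omega
    · have hy : (p : ℤ) ∣ y := (dvd_add_left (h1.mul_left _)).mp hd1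
      exact hnot ⟨hy, h1⟩
  obtain ⟨l, hl, hlg⟩ := hlarge
  refine ⟨t₀ + Q * l, ?_, ?_⟩
  · have h1 : r + 1 ≤ 2 ^ r := Nat.lt_two_pow_self
    calc t₀ + Q * l ≤ Q + Q * r := Nat.add_le_add ht₀Q (Nat.mul_le_mul_left _ hl)
      _ = Q * (r + 1) := by ring
      _ ≤ 4 ^ r * 2 ^ r := Nat.mul_le_mul hQ4 h1
      _ = 8 ^ r := by
          rw [← mul_pow]
          norm_num
  · intro p hp hnot
    rcases Nat.lt_or_ge r p with h1 | h1
    · exact hlg p hp h1 hnot
    · exact hsmall l p (Finset.mem_filter.mpr ⟨hp, h1⟩) hnot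

/-- a linear form with small coefficients whose value at `x` is prime to `w` -/
theorem jacv {N : ℕ} (w : ℕ) (x : Fin N → ℤ) : ∃ β : Fin N → ℕ,
    (∀ j, β j ≤ 8 ^ w.primeFactors.card) ∧
    ∀ p ∈ w.primeFactors, (∃ j, ¬ (p : ℤ) ∣ x j) → ¬ (p : ℤ) ∣ ∑ j, (β j : ℤ) * x j := by
  classical
  have key : ∀ s : Finset (Fin N), ∃ β : Fin N → ℕ,
      (∀ j, β j ≤ 8 ^ w.primeFactors.card) ∧
      ∀ p ∈ w.primeFactors, (∃ j ∈ s, ¬ (p : ℤ) ∣ x j) → ¬ (p : ℤ) ∣ ∑ j ∈ s, (β j : ℤ) * x j := by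
    intro s
    induction s using Finset.induction_on with
    | empty => exact ⟨fun _ => 0, fun _ => Nat.zero_le _, fun p _ ⟨j, hj, _⟩ => absurd hj (by simp)⟩
    | insert i s hi ih =>
      obtain ⟨β, hβ1, hβ2⟩ := ih
      obtain ⟨t, ht1, ht2⟩ := jac w (∑ j ∈ s, (β j : ℤ) * x j) (x i)
      refine ⟨Function.update β i t, ?_, ?_⟩
      · intro j
        by_cases h : j = i
        · rw [h, Function.update_self]
          exact ht1
        · rw [Function.update_of_ne h]
          exact hβ1 j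
      · intro p hp hex
        rw [Finset.sum_insert hi, Function.update_self]
        have e : ∑ j ∈ s, ((Function.update β i t j : ℕ) : ℤ) * x j = ∑ j ∈ s, (β j : ℤ) * x j := by
          refine Finset.sum_congr rfl fun j hj => ?_
          have hji : j ≠ i := by
            rintro rfl
            exact hi hj
          rw [Function.update_of_ne hji]
        rw [e, add_comm]
        apply ht2 p hp
        rintro ⟨h1, h2⟩
        obtain ⟨j, hj, hjn⟩ := hex
        rcases Finset.mem_insert.mp hj with h3 | h3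
        · exact hjn (h3 ▸ h2)
        · exact hβ2 p hp ⟨j, h3, hjn⟩ h1
  obtain ⟨β, h1, h2⟩ := key Finset.univ
  exact ⟨β, h1, fun p hp ⟨j, hj⟩ => h2 p hp ⟨j, Finset.mem_univ j, hj⟩⟩

theorem gcd_prod_dvd (g : ℕ) (h : ℕ → ℕ) (m : ℕ) :
    Nat.gcd g (∏ s ∈ range m, h s) ∣ ∏ s ∈ range m, Nat.gcd g (h s) := by
  induction m with
  | zero => simp
  | succ m ih =>
    rw [Finset.prod_range_succ, Finset.prod_range_succ]
    exact (gcd_mul_dvd_mul_gcd g (∏ s ∈ range m, h s) (h m)).trans (mul_dvd_mul_right ih _)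

/-- among the numbers `a + t b` one has a small common divisor with `N` -/
theorem good_base (N : ℤ) (hN : N ≠ 0) (a b : ℤ) (hab : IsCoprime a b) (T G : ℕ) (hT : 1 ≤ T)
    (h : ∀ t : ℕ, t ≤ T → G ≤ Int.gcd N (a + t * b)) :
    G ^ (T + 1) ≤ N.natAbs * (T ^ T) ^ (T + 1) := by
  classical
  set g : ℕ → ℕ := fun t => Int.gcd N (a + t * b) with hg
  have hg0 : ∀ t, 0 < g t := fun t => Int.gcd_pos_of_ne_zero_left _ hN
  have hpair : ∀ s k : ℕ, s < k → k ≤ T → Nat.gcd (g k) (g s) ≤ T := by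
    intro s k hsk hkT
    set δ := Nat.gcd (g k) (g s) with hδ
    have h1 : (δ : ℤ) ∣ a + k * b := by
      have h2 : (δ : ℤ) ∣ (g k : ℤ) := by exact_mod_cast Nat.gcd_dvd_left _ _
      exact h2.trans (Int.gcd_dvd_right _ _)
    have h2 : (δ : ℤ) ∣ a + s * b := by
      have h2 : (δ : ℤ) ∣ (g s : ℤ) := by exact_mod_cast Nat.gcd_dvd_right _ _
      exact h2.trans (Int.gcd_dvd_right _ _)
    obtain ⟨u, v, huv⟩ := hab
    have h3 : (δ : ℤ) ∣ ((k : ℤ) - s) * b := by
      have := dvd_sub h1 h2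
      have e : a + k * b - (a + s * b) = ((k : ℤ) - s) * b := by ring
      rwa [e] at this
    have h4 : (δ : ℤ) ∣ ((k : ℤ) - s) * a := by
      have := dvd_sub (h2.mul_left (k : ℤ)) (h1.mul_left (s : ℤ))
      have e : (k : ℤ) * (a + s * b) - s * (a + k * b) = ((k : ℤ) - s) * a := by ring
      rwa [e] at this
    have h5 : (δ : ℤ) ∣ ((k : ℤ) - s) := by
      have := dvd_add (h4.mul_left u) (h3.mul_left v)
      have e : u * (((k : ℤ) - s) * a) + v * (((k : ℤ) - s) * b) = ((k : ℤ) - s) := by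
        calc u * (((k : ℤ) - s) * a) + v * (((k : ℤ) - s) * b) = ((k : ℤ) - s) * (u * a + v * b) := by
              ring
          _ = _ := by rw [huv, mul_one]
      rwa [e] at this
    have h6 := Int.le_of_dvd (by omega) h5
    omega
  have key : ∀ k : ℕ, k ≤ T + 1 → ∃ L : ℕ, L ∣ N.natAbs ∧ L ∣ ∏ s ∈ range k, g s ∧
      ∏ s ∈ range k, g s ≤ L * (T ^ T) ^ k := by
    intro k
    induction k with
    | zero => intro _; exact ⟨1, one_dvd _, by simp, by simp⟩
    | succ k ih =>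
      intro hk
      obtain ⟨L, hL1, hL2, hL3⟩ := ih (by omega)
      have hgN : g k ∣ N.natAbs := by
        have : (g k : ℤ) ∣ N := Int.gcd_dvd_left _ _
        exact Int.natCast_dvd.mp this
      refine ⟨Nat.lcm L (g k), Nat.lcm_dvd hL1 hgN, ?_, ?_⟩
      · rw [Finset.prod_range_succ]
        exact Nat.lcm_dvd (hL2.mul_right _) (Dvd.intro_left _ rfl)
      · have hgcd : Nat.gcd L (g k) ≤ T ^ T := by
          have h1 : Nat.gcd L (g k) ∣ Nat.gcd (g k) (∏ s ∈ range k, g s) :=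
            Nat.dvd_gcd (Nat.gcd_dvd_right _ _) ((Nat.gcd_dvd_left _ _).trans hL2)
          have h2 := h1.trans (gcd_prod_dvd (g k) g k)
          have h3 : ∏ s ∈ range k, Nat.gcd (g k) (g s) ≤ T ^ k := by
            calc ∏ s ∈ range k, Nat.gcd (g k) (g s) ≤ ∏ _s ∈ range k, T :=
                  Finset.prod_le_prod (fun _ _ => Nat.zero_le _) (fun s hs =>
                    hpair s k (Finset.mem_range.mp hs) (by omega))
              _ = T ^ k := by rw [Finset.prod_const, Finset.card_range]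
          have h4 : 0 < ∏ s ∈ range k, Nat.gcd (g k) (g s) :=
            Finset.prod_pos fun s _ => Nat.gcd_pos_of_pos_left _ (hg0 k)
          calc Nat.gcd L (g k) ≤ ∏ s ∈ range k, Nat.gcd (g k) (g s) := Nat.le_of_dvd h4 h2
            _ ≤ T ^ k := h3
            _ ≤ T ^ T := Nat.pow_le_pow_right hT (by omega)
        rw [Finset.prod_range_succ, pow_succ]
        calc (∏ s ∈ range k, g s) * g k ≤ (L * (T ^ T) ^ k) * g k := Nat.mul_le_mul_right _ hL3
          _ = (L * g k) * (T ^ T) ^ k := by ring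
          _ = (Nat.gcd L (g k) * Nat.lcm L (g k)) * (T ^ T) ^ k := by rw [Nat.gcd_mul_lcm]
          _ ≤ (T ^ T * Nat.lcm L (g k)) * (T ^ T) ^ k := by
              refine Nat.mul_le_mul_right _ (Nat.mul_le_mul_right _ hgcd)
          _ = Nat.lcm L (g k) * ((T ^ T) ^ k * T ^ T) := by ring
  obtain ⟨L, hL1, _, hL3⟩ := key (T + 1) le_rfl
  have h1 : G ^ (T + 1) ≤ ∏ s ∈ range (T + 1), g s := by
    calc G ^ (T + 1) = ∏ _s ∈ range (T + 1), G := by rw [Finset.prod_const, Finset.card_range]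
      _ ≤ ∏ s ∈ range (T + 1), g s := Finset.prod_le_prod (fun _ _ => Nat.zero_le _) (fun s hs =>
          h s (by have := Finset.mem_range.mp hs; omega))
  have h2 : L ≤ N.natAbs := Nat.le_of_dvd (Int.natAbs_pos.mpr hN) hL1
  calc G ^ (T + 1) ≤ ∏ s ∈ range (T + 1), g s := h1
    _ ≤ L * (T ^ T) ^ (T + 1) := hL3
    _ ≤ N.natAbs * (T ^ T) ^ (T + 1) := Nat.mul_le_mul_right _ h2

end Pool.Agent.TH390.Tw
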