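import Pool.Agent.TH390.Tw.M3

set_option autoImplicit false

namespace Pool.Agent.TH390.Tw

open Finset

/-- union of the members `T (± s k³)` of a family, `s ≤ K`, `s k³ ≤ M` -/
noncomputable def UG {G : Type*} [DecidableEq G] (T : ℤ → Finset G) (K M : ℕ) : Finset G := by
  classical
  exact (Icc 1 K).biUnion fun s : ℕ =>
    ((Icc 1 M).filter (fun k => s * k ^ 3 ≤ M)).biUnion
      fun k : ℕ => T ((s * k ^ 3 : ℕ) : ℤ) ∪ T (-((s * k ^ 3 : ℕ) : ℤ))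

theorem card_UG {G : Type*} [DecidableEq G] (T : ℤ → Finset G) (K M : ℕ) (σ₀ σ β : ℝ)
    (hβ : 0 ≤ β) (hσ0 : 2 / 3 < σ₀) (hσ : σ₀ ≤ σ) (hσ1 : σ ≤ 1)
    (h : ∀ c : ℤ, c ≠ 0 → |(c : ℝ)| ≤ M →
      ((T c).card : ℝ) ≤ β * (M / |(c : ℝ)|) ^ (σ / 2)) :
    ((UG T K M).card : ℝ) ≤ 4 * β * Zc σ₀ * (M : ℝ) ^ (σ / 2) * (K : ℝ) ^ (1 - σ / 2) := by
  classical
  have hM0 : (0 : ℝ) ≤ M := Nat.cast_nonneg _
  have hZ0 := Zc_nonneg σ₀
  have h1 : ∀ s ∈ Icc 1 K, ∀ k ∈ (Icc 1 M).filter (fun k => s * k ^ 3 ≤ M),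
      ((T ((s * k ^ 3 : ℕ) : ℤ) ∪ T (-((s * k ^ 3 : ℕ) : ℤ))).card : ℝ) ≤
        2 * β * (M : ℝ) ^ (σ / 2) * ((s : ℕ) : ℝ) ^ (-(σ / 2)) * ((k : ℕ) : ℝ) ^ (-(3 * σ / 2)) := by
    intro s hs k hk
    obtain ⟨hs1, _⟩ := mem_Icc.mp hs
    obtain ⟨hk1, hk2⟩ := Finset.mem_filter.mp hk
    obtain ⟨hk1, _⟩ := mem_Icc.mp hk1
    have hs0 : (0 : ℝ) < s := by exact_mod_cast hs1
    have hk0 : (0 : ℝ) < k := by exact_mod_cast hk1
    have hc0 : ((s * k ^ 3 : ℕ) : ℤ) ≠ 0 := by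
      have : s * k ^ 3 ≠ 0 := by positivity
      exact_mod_cast this
    have hcabs : |(((s * k ^ 3 : ℕ) : ℤ) : ℝ)| = (s : ℝ) * (k : ℝ) ^ 3 := by
      push_cast
      rw [abs_of_nonneg (by positivity)]
    have hcabs' : |((-((s * k ^ 3 : ℕ) : ℤ) : ℤ) : ℝ)| = (s : ℝ) * (k : ℝ) ^ 3 := by
      rw [Int.cast_neg, abs_neg, hcabs]
    have hcM : (s : ℝ) * (k : ℝ) ^ 3 ≤ M := by exact_mod_cast hk2
    have e1 := h _ hc0 (by rw [hcabs]; exact hcM)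
    have e2 := h _ (neg_ne_zero.mpr hc0) (by rw [hcabs']; exact hcM)
    rw [hcabs] at e1
    rw [hcabs'] at e2
    have e3 : ((M : ℝ) / ((s : ℝ) * (k : ℝ) ^ 3)) ^ (σ / 2) =
        (M : ℝ) ^ (σ / 2) * (s : ℝ) ^ (-(σ / 2)) * (k : ℝ) ^ (-(3 * σ / 2)) := by
      rw [Real.div_rpow hM0 (by positivity), Real.mul_rpow hs0.le (by positivity),
        ← Real.rpow_natCast, ← Real.rpow_mul hk0.le, Real.rpow_neg hs0.le, Real.rpow_neg hk0.le]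
      have : ((3 : ℕ) : ℝ) * (σ / 2) = 3 * σ / 2 := by push_cast; ring
      rw [this]
      field_simp
    rw [e3] at e1 e2
    have e4 : ((T ((s * k ^ 3 : ℕ) : ℤ) ∪ T (-((s * k ^ 3 : ℕ) : ℤ))).card : ℝ) ≤
        ((T ((s * k ^ 3 : ℕ) : ℤ)).card : ℝ) + (T (-((s * k ^ 3 : ℕ) : ℤ))).card := by
      exact_mod_cast Finset.card_union_le _ _
    linarith
  have h2 : ∀ s ∈ Icc 1 K, ((((Icc 1 M).filter (fun k => s * k ^ 3 ≤ M)).biUnion
      fun k : ℕ => T ((s * k ^ 3 : ℕ) : ℤ) ∪ T (-((s * k ^ 3 : ℕ) : ℤ))).card : ℝ)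
      ≤ 2 * β * (M : ℝ) ^ (σ / 2) * ((s : ℕ) : ℝ) ^ (-(σ / 2)) * Zc σ₀ := by
    intro s hs
    obtain ⟨hs1, _⟩ := mem_Icc.mp hs
    have hs0 : (0 : ℝ) < s := by exact_mod_cast hs1
    calc _ ≤ ∑ k ∈ (Icc 1 M).filter (fun k => s * k ^ 3 ≤ M),
        ((T ((s * k ^ 3 : ℕ) : ℤ) ∪ T (-((s * k ^ 3 : ℕ) : ℤ))).card : ℝ) := by
          exact_mod_cast Finset.card_biUnion_le
      _ ≤ ∑ k ∈ (Icc 1 M).filter (fun k => s * k ^ 3 ≤ M),
          2 * β * (M : ℝ) ^ (σ / 2) * ((s : ℕ) : ℝ) ^ (-(σ / 2)) *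
            ((k : ℕ) : ℝ) ^ (-(3 * σ / 2)) :=
          Finset.sum_le_sum (h1 s hs)
      _ ≤ ∑ k ∈ Icc 1 M,
          2 * β * (M : ℝ) ^ (σ / 2) * ((s : ℕ) : ℝ) ^ (-(σ / 2)) *
            ((k : ℕ) : ℝ) ^ (-(3 * σ / 2)) :=
          Finset.sum_le_sum_of_subset_of_nonneg (Finset.filter_subset _ _)
            (fun k _ _ => by positivity)
      _ = 2 * β * (M : ℝ) ^ (σ / 2) * ((s : ℕ) : ℝ) ^ (-(σ / 2)) *
          ∑ k ∈ Icc 1 M, ((k : ℕ) : ℝ) ^ (-(3 * σ / 2)) := by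
          rw [Finset.mul_sum]
      _ ≤ _ := by
          refine mul_le_mul_of_nonneg_left ?_ (by positivity)
          exact sum_k _ σ₀ σ hσ0 hσ
  unfold UG
  calc _ ≤ ∑ s ∈ Icc 1 K, ((((Icc 1 M).filter (fun k => s * k ^ 3 ≤ M)).biUnion
      fun k : ℕ => T ((s * k ^ 3 : ℕ) : ℤ) ∪ T (-((s * k ^ 3 : ℕ) : ℤ))).card : ℝ) := by
        exact_mod_cast Finset.card_biUnion_le
    _ ≤ ∑ s ∈ Icc 1 K, 2 * β * (M : ℝ) ^ (σ / 2) * ((s : ℕ) : ℝ) ^ (-(σ / 2)) * Zc σ₀ :=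
        Finset.sum_le_sum h2
    _ = 2 * β * (M : ℝ) ^ (σ / 2) * Zc σ₀ * ∑ s ∈ Icc 1 K, ((s : ℕ) : ℝ) ^ (-(σ / 2)) := by
        rw [Finset.mul_sum]
        refine Finset.sum_congr rfl fun s _ => ?_
        ring
    _ ≤ 2 * β * (M : ℝ) ^ (σ / 2) * Zc σ₀ * (2 * (K : ℝ) ^ (1 - σ / 2)) := by
        refine mul_le_mul_of_nonneg_left (sum_s K σ hσ1) (by positivity)
    _ = _ := by ring

theorem mem_UG {G : Type*} [DecidableEq G] (T : ℤ → Finset G) (K M : ℕ) (hK : 1 ≤ K) (hM : 1 ≤ M)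
    (g : G) (N : ℤ) (hNM : |N| ≤ (M : ℤ)) (hT : ∀ c : ℤ, c ≠ 0 → (∃ m : ℤ, N = c * m ^ 2) → g ∈ T c)
    (s : ℤ) (k : ℕ) (m : ℤ) (hs : s ≠ 0) (hsK : s.natAbs ≤ K) (hk : 1 ≤ k)
    (hN : N = s * (k : ℤ) ^ 3 * m ^ 2) : g ∈ UG T K M := by
  classical
  unfold UG
  rw [Finset.mem_biUnion]
  by_cases hm : m = 0
  · refine ⟨1, mem_Icc.mpr ⟨le_refl _, hK⟩, ?_⟩
    rw [Finset.mem_biUnion]
    refine ⟨1, ?_, ?_⟩
    · rw [Finset.mem_filter]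
      exact ⟨mem_Icc.mpr ⟨le_refl _, hM⟩, by simpa using hM⟩
    · rw [Finset.mem_union]
      left
      refine hT _ (by norm_num) ⟨0, ?_⟩
      rw [hN, hm]
      ring
  · have h3 : s.natAbs * k ^ 3 ≤ M := by
      have h4 : N.natAbs ≤ M := by
        rw [Int.abs_eq_natAbs] at hNM
        exact_mod_cast hNM
      rw [hN, Int.natAbs_mul, Int.natAbs_mul, Int.natAbs_pow, Int.natAbs_pow,
        Int.natAbs_natCast] at h4
      have h5 : 1 ≤ m.natAbs ^ 2 := Nat.one_le_pow _ _ (Int.natAbs_pos.mpr hm)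
      calc s.natAbs * k ^ 3 = s.natAbs * k ^ 3 * 1 := (mul_one _).symm
        _ ≤ s.natAbs * k ^ 3 * m.natAbs ^ 2 := Nat.mul_le_mul_left _ h5
        _ ≤ _ := h4
    have hs1 : 1 ≤ s.natAbs := Int.natAbs_pos.mpr hs
    have hkM : k ≤ M := by
      refine le_trans ?_ h3
      calc k = k ^ 1 := (pow_one k).symm
        _ ≤ k ^ 3 := Nat.pow_le_pow_right hk (by norm_num)
        _ = 1 * k ^ 3 := (one_mul _).symm
        _ ≤ _ := Nat.mul_le_mul_right _ hs1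
    refine ⟨s.natAbs, mem_Icc.mpr ⟨hs1, hsK⟩, ?_⟩
    rw [Finset.mem_biUnion]
    refine ⟨k, ?_, ?_⟩
    · rw [Finset.mem_filter]
      exact ⟨mem_Icc.mpr ⟨hk, hkM⟩, h3⟩
    · rw [Finset.mem_union]
      have hne : ((s.natAbs * k ^ 3 : ℕ) : ℤ) ≠ 0 := by
        have : s.natAbs * k ^ 3 ≠ 0 := by positivity
        exact_mod_cast this
      rcases le_or_gt 0 s with h6 | h6
      · left
        refine hT _ hne ⟨m, ?_⟩
        rw [hN]
        push_cast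
        rw [abs_of_nonneg h6]
      · right
        refine hT _ (neg_ne_zero.mpr hne) ⟨m, ?_⟩
        rw [hN]
        push_cast
        rw [abs_of_neg h6]
        ring

/-- the loss in the averaging argument -/
noncomputable def ratio (n d H L T : ℕ) : ℝ :=
  ((2 * (H + (d + 1) * L * ((n + 1) * T) ^ d) + 1 : ℕ) : ℝ) ^ ((n + d).choose n) /
    ((2 * L + 1 : ℕ) : ℝ) ^ (d + 1)

theorem ratio_nonneg (n d H L T : ℕ) : 0 ≤ ratio n d H L T := by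
  unfold ratio
  positivity

/-- the family for a small point -/
noncomputable def TS (n d H : ℕ) (x : Fin (n + 1) → ℤ) (c : ℤ) : Finset (Idx n d → ℤ) := by
  classical
  exact (vbox n d H).filter (fun f => ∃ m : ℤ, ev x f = c * m ^ 2)

/-- the family for a large point and a base `a` -/
noncomputable def TL (n d H L : ℕ) (x : Fin (n + 1) → ℤ) (a : ℕ) (c : ℤ) :
    Finset (Idx n d → ℤ) := by
  classical
  exact (vbox n d H).filter (fun f => Int.gcd (ev x f) a ≤ 2 * L ∧ ∃ m : ℤ, ev x f = c * m ^ 2)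

/-- the forms vanishing at `x` -/
noncomputable def TZ (n d H : ℕ) (x : Fin (n + 1) → ℤ) : Finset (Idx n d → ℤ) := by
  classical
  exact (vbox n d H).filter (fun f => ev x f = 0)

section
variable {n d H L T a : ℕ} {x α β : Fin (n + 1) → ℤ} {b : ℤ}

theorem ev_translate (hax : ∑ j, α j * x j = a) (hbx : ∑ j, β j * x j = b)
    (R : Idx n d → ℤ) (g : Fin (d + 1) → ℤ) :
    ev x (R + vec d (Phi d α β g)) = frm d g a b + ev x R := by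
  rw [ev_add, ev_vec _ (Phi_hom d α β g), eval_Phi, hax, hbx, add_comm]

theorem ev_bound (hNL : (n + d).choose n * H ≤ L) (hx : ∀ j, |x j| ≤ (a : ℤ))
    (f : Idx n d → ℤ) (hf : f ∈ vbox n d H) :
    |((ev x f : ℤ) : ℝ)| ≤ (d + 1) * L * (a : ℝ) ^ d := by
  have h1 := abs_ev_le H a x hx f hf
  have h2 : ((|ev x f| : ℤ) : ℝ) ≤ ((((n + d).choose n * H * a ^ d : ℕ) : ℤ) : ℝ) := by
    exact_mod_cast h1
  push_cast at h2
  have h3 : (((n + d).choose n * H : ℕ) : ℝ) ≤ L := by exact_mod_cast hNL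
  push_cast at h3
  have h4 : (0 : ℝ) ≤ (a : ℝ) ^ d := by positivity
  have h5 : (0 : ℝ) ≤ L := Nat.cast_nonneg L
  calc |((ev x f : ℤ) : ℝ)| ≤ (((n + d).choose n : ℕ) : ℝ) * H * (a : ℝ) ^ d := h2
    _ ≤ L * (a : ℝ) ^ d := mul_le_mul_of_nonneg_right h3 h4
    _ ≤ (d + 1) * L * (a : ℝ) ^ d := by
        refine mul_le_mul_of_nonneg_right ?_ h4
        have : (0 : ℝ) ≤ d := Nat.cast_nonneg d
        nlinarith

theorem card_TS (hα : ∀ j, |α j| ≤ (T : ℤ)) (hβ : ∀ j, |β j| ≤ (T : ℤ))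
    (hNL : (n + d).choose n * H ≤ L) (ha0 : 0 < a) (ha : a ≤ 2 * L)
    (hx : ∀ j, |x j| ≤ (a : ℤ)) (hax : ∑ j, α j * x j = a) (hbx : ∑ j, β j * x j = b)
    (hab : IsCoprime (a : ℤ) b) (c : ℤ) (hc : c ≠ 0)
    (hcM : |(c : ℝ)| ≤ (d + 1) * L * (a : ℝ) ^ d) :
    ((TS n d H x c).card : ℝ) ≤ (ratio n d H L T * (3 * (4 * L / a) ^ d)) *
      ((d + 1) * L * (a : ℝ) ^ d / |(c : ℝ)|) ^ ((1 : ℝ) / 2) := by
  classical
  have hsub : TS n d H x c ⊆ vbox n d H := by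
    unfold TS
    exact Finset.filter_subset _ _
  have h1 := card_avg H _ L α β T hα hβ (le_refl _) (TS n d H x c) hsub
    (3 * (4 * L / a) ^ d * ((d + 1) * L * (a : ℝ) ^ d / |(c : ℝ)|) ^ ((1 : ℝ) / 2)) ?_
  · rw [mul_assoc]
    exact h1
  · intro R G hG hGS
    refine ttR_small d L a ha0 ha b c (ev x R) hab hc hcM G (fun g hg => hG hg) ?_
    intro g hg
    have h2 := hGS g hg
    have h3 := ev_translate hax hbx R g
    rw [← h3]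
    have h4 := ev_bound hNL hx _ (hsub h2)
    unfold TS at h2
    obtain ⟨m, hm⟩ := (Finset.mem_filter.mp h2).2
    exact ⟨m, hm, h4⟩

theorem card_TL (hα : ∀ j, |α j| ≤ (T : ℤ)) (hβ : ∀ j, |β j| ≤ (T : ℤ))
    (hNL : (n + d).choose n * H ≤ L) (hd : 1 ≤ d) (hL : 1 ≤ L) (ha : 2 * L < a)
    (hx : ∀ j, |x j| ≤ (a : ℤ)) (hax : ∑ j, α j * x j = a) (hbx : ∑ j, β j * x j = b)
    (hab : IsCoprime (a : ℤ) b) (σ : ℝ) (hσ0 : 0 ≤ σ) (hσ1 : σ ≤ 1) (hHσ : (L : ℝ) ≤ (a : ℝ) ^ σ)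
    (c : ℤ) (hc : c ≠ 0) (hcM : |(c : ℝ)| ≤ (d + 1) * L * (a : ℝ) ^ d) :
    ((TL n d H L x a c).card : ℝ) ≤ (ratio n d H L T * (5 * 4 ^ d *
      ((a ^ d).divisors.card : ℝ) ^ 2 * (L : ℝ) ^ (1 - σ))) *
      ((d + 1) * L * (a : ℝ) ^ d / |(c : ℝ)|) ^ (σ / 2) := by
  classical
  have hsub : TL n d H L x a c ⊆ vbox n d H := by
    unfold TL
    exact Finset.filter_subset _ _
  have h1 := card_avg H _ L α β T hα hβ (le_refl _) (TL n d H L x a c) hsub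
    (5 * 4 ^ d * ((a ^ d).divisors.card : ℝ) ^ 2 * (L : ℝ) ^ (1 - σ) *
      ((d + 1) * L * (a : ℝ) ^ d / |(c : ℝ)|) ^ (σ / 2)) ?_
  · rw [mul_assoc]
    exact h1
  · intro R G hG hGS
    refine ttR_large d L a hd hL ha b c (ev x R) hab hc hcM σ hσ0 hσ1 hHσ G
      (fun g hg => hG hg) ?_ ?_
    · intro g hg
      have h2 := hGS g hg
      have h3 := ev_translate hax hbx R g
      rw [← h3]
      unfold TL at h2
      exact (Finset.mem_filter.mp h2).2.1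
    · intro g hg
      have h2 := hGS g hg
      have h3 := ev_translate hax hbx R g
      rw [← h3]
      have h4 := ev_bound hNL hx _ (hsub h2)
      unfold TL at h2
      obtain ⟨m, hm⟩ := (Finset.mem_filter.mp h2).2.2
      exact ⟨m, hm, h4⟩

theorem card_TZ (hα : ∀ j, |α j| ≤ (T : ℤ)) (hβ : ∀ j, |β j| ≤ (T : ℤ)) (ha : 2 * L < a)
    (hax : ∑ j, α j * x j = a) (hbx : ∑ j, β j * x j = b)
    (hab : IsCoprime (a : ℤ) b) : ((TZ n d H x).card : ℝ) ≤ ratio n d H L T := by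
  classical
  have hsub : TZ n d H x ⊆ vbox n d H := by
    unfold TZ
    exact Finset.filter_subset _ _
  have h1 := card_avg H _ L α β T hα hβ (le_refl _) (TZ n d H x) hsub 1 ?_
  · rw [mul_one] at h1
    exact h1
  · intro R G hG hGS
    refine ttR_zero d L a ha b (ev x R) hab G (fun g hg => hG hg) ?_
    intro g hg
    have h2 := hGS g hg
    have h3 := ev_translate hax hbx R g
    rw [← h3]
    unfold TZ at h2
    exact (Finset.mem_filter.mp h2).2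

end

end Pool.Agent.TH390.Tw
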