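import Pool.Agent.TH390.Tw.M4

set_option autoImplicit false

namespace Pool.Agent.TH390.Tw

open Finset

/-- `8 ^ ω(w)` -/
def wt (w : ℕ) : ℕ := 8 ^ w.primeFactors.card

theorem one_le_wt (w : ℕ) : 1 ≤ wt w := Nat.one_le_pow _ _ (by norm_num)

theorem wt_bound (ε : ℝ) (hε : 0 < ε) : ∃ C : ℝ, 1 ≤ C ∧ ∀ w : ℕ, 1 ≤ w →
    (wt w : ℝ) ≤ C * (w : ℝ) ^ ε := by
  obtain ⟨C₀, hC₀, hdiv⟩ := divisor_bound (ε / 3) (by linarith)
  refine ⟨max 1 (C₀ ^ 3), le_max_left _ _, ?_⟩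
  intro w hw
  have hw0 : w ≠ 0 := by omega
  have h1 : 2 ^ w.primeFactors.card ≤ w.divisors.card := by
    rw [Nat.card_divisors hw0, ← Finset.prod_const]
    refine Finset.prod_le_prod (fun _ _ => Nat.zero_le _) (fun p hp => ?_)
    have hpp := Nat.prime_of_mem_primeFactors hp
    have : 1 ≤ w.factorization p :=
      (hpp.dvd_iff_one_le_factorization hw0).mp (Nat.dvd_of_mem_primeFactors hp)
    omega
  have h2 : wt w ≤ w.divisors.card ^ 3 := by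
    unfold wt
    calc 8 ^ w.primeFactors.card = (2 ^ w.primeFactors.card) ^ 3 := by
          rw [← pow_mul, mul_comm, pow_mul]
          norm_num
      _ ≤ _ := Nat.pow_le_pow_left h1 3
  have h3 := hdiv w hw
  have hwR : (0 : ℝ) < w := by exact_mod_cast hw
  calc (wt w : ℝ) ≤ ((w.divisors.card ^ 3 : ℕ) : ℝ) := by exact_mod_cast h2
    _ = (w.divisors.card : ℝ) ^ 3 := by push_cast; rfl
    _ ≤ (C₀ * (w : ℝ) ^ (ε / 3)) ^ 3 := pow_le_pow_left₀ (Nat.cast_nonneg _) h3 3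
    _ = C₀ ^ 3 * (w : ℝ) ^ ε := by
        rw [mul_pow]
        congr 1
        rw [← Real.rpow_natCast, ← Real.rpow_mul hwR.le]
        congr 1
        push_cast
        ring
    _ ≤ max 1 (C₀ ^ 3) * (w : ℝ) ^ ε := by
        refine mul_le_mul_of_nonneg_right (le_max_right _ _) (by positivity)

/-- a primitive vector -/
def Prim {N : ℕ} (x : Fin N → ℤ) : Prop := ∀ p : ℕ, p.Prime → ∃ j, ¬ (p : ℤ) ∣ x j

/-- the two directions attached to a primitive vector -/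
theorem dirs {n : ℕ} (x : Fin (n + 1) → ℤ) (hx : Prim x) :
    ∃ (a₀ b : ℕ) (α β : Fin (n + 1) → ℤ), 0 < a₀ ∧ (∀ j, |x j| ≤ (a₀ : ℤ)) ∧
      (∃ j, |x j| = (a₀ : ℤ)) ∧ (∀ j, |α j| ≤ 1) ∧ (∀ j, |β j| ≤ (wt a₀ : ℤ)) ∧
      ∑ j, α j * x j = a₀ ∧ ∑ j, β j * x j = b ∧ IsCoprime (a₀ : ℤ) b ∧
      b ≤ (n + 1) * (wt a₀ * a₀) := by
  classical
  obtain ⟨j₀, _, hj₀⟩ := Finset.exists_mem_eq_sup (Finset.univ : Finset (Fin (n + 1)))
    Finset.univ_nonempty (fun j => (x j).natAbs)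
  set a₀ := Finset.univ.sup (fun j => (x j).natAbs) with ha₀
  have hle : ∀ j, (x j).natAbs ≤ a₀ := fun j => Finset.le_sup (f := fun j => (x j).natAbs)
    (Finset.mem_univ j)
  have hleZ : ∀ j, |x j| ≤ (a₀ : ℤ) := by
    intro j
    rw [Int.abs_eq_natAbs]
    exact_mod_cast hle j
  have hpos : 0 < a₀ := by
    rcases Nat.eq_zero_or_pos a₀ with h0 | h0
    · exfalso
      obtain ⟨j, hj⟩ := hx 2 Nat.prime_two
      have := hle j
      rw [h0] at this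
      have h1 : x j = 0 := Int.natAbs_eq_zero.mp (by omega)
      rw [h1] at hj
      exact hj (dvd_zero _)
    · exact h0
  obtain ⟨β, hβ1, hβ2⟩ := jacv a₀ x
  set b₀ : ℤ := ∑ j, (β j : ℤ) * x j with hb₀
  -- coprimality
  have hcop : Nat.Coprime a₀ b₀.natAbs := by
    rw [Nat.coprime_iff_gcd_eq_one]
    by_contra hne
    obtain ⟨p, hp, hpd⟩ := Nat.exists_prime_and_dvd hne
    have hpa : p ∣ a₀ := hpd.trans (Nat.gcd_dvd_left _ _)
    have hpb : p ∣ b₀.natAbs := hpd.trans (Nat.gcd_dvd_right _ _)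
    have hmem : p ∈ a₀.primeFactors := Nat.mem_primeFactors.mpr ⟨hp, hpa, hpos.ne'⟩
    exact hβ2 p hmem (hx p hp) (Int.natCast_dvd.mpr hpb)
  have hbsum : |b₀| ≤ (((n + 1) * (wt a₀ * a₀) : ℕ) : ℤ) := by
    rw [hb₀]
    refine (Finset.abs_sum_le_sum_abs _ _).trans ?_
    have h1 : ∀ j ∈ (Finset.univ : Finset (Fin (n + 1))), |(β j : ℤ) * x j| ≤
        ((wt a₀ * a₀ : ℕ) : ℤ) := by
      intro j _
      rw [abs_mul]
      push_cast
      refine mul_le_mul ?_ (hleZ j) (abs_nonneg _) (by positivity)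
      rw [abs_of_nonneg (by positivity)]
      exact_mod_cast hβ1 j
    refine (Finset.sum_le_sum h1).trans ?_
    rw [Finset.sum_const, Finset.card_univ, Fintype.card_fin, nsmul_eq_mul]
    apply le_of_eq
    push_cast
    ring
  refine ⟨a₀, b₀.natAbs, fun j => if j = j₀ then (x j₀).sign else 0,
    fun j => (if 0 ≤ b₀ then 1 else -1) * (β j : ℤ), hpos, hleZ, ⟨j₀, ?_⟩, ?_, ?_, ?_, ?_, ?_, ?_⟩
  · rw [Int.abs_eq_natAbs, hj₀]
  · intro j
    show |if j = j₀ then (x j₀).sign else 0| ≤ 1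
    split_ifs
    · rcases Int.sign_trichotomy (x j₀) with h | h | h <;> rw [h] <;> simp
    · simp
  · intro j
    have h2 : |(β j : ℤ)| ≤ (wt a₀ : ℤ) := by
      rw [abs_of_nonneg (by positivity)]
      exact_mod_cast hβ1 j
    show |(if 0 ≤ b₀ then (1 : ℤ) else -1) * (β j : ℤ)| ≤ (wt a₀ : ℤ)
    rw [abs_mul]
    split_ifs
    · simpa using h2
    · simpa using h2
  · show ∑ j, (if j = j₀ then (x j₀).sign else 0) * x j = (a₀ : ℤ)
    simp only [ite_mul, zero_mul, Finset.sum_ite_eq', Finset.mem_univ, if_true]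
    rw [Int.sign_mul_self_eq_natAbs, hj₀]
  · have e : ∑ j, (if 0 ≤ b₀ then (1 : ℤ) else -1) * (β j : ℤ) * x j =
        (if 0 ≤ b₀ then (1 : ℤ) else -1) * b₀ := by
      rw [hb₀, Finset.mul_sum]
      refine Finset.sum_congr rfl fun j _ => ?_
      ring
    rw [e]
    split_ifs with h
    · rw [one_mul, Int.natAbs_of_nonneg h]
    · rw [Int.ofNat_natAbs_of_nonpos (by omega)]
      ring
  · exact Nat.isCoprime_iff_coprime.mpr hcop
  · rw [Int.abs_eq_natAbs] at hbsum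
    exact_mod_cast hbsum

theorem ratio_bound (n d lam T : ℕ) (hlam : 1 ≤ lam) (ρ C₆ : ℝ) (hρ : 0 ≤ ρ) (hC₆ : 1 ≤ C₆) :
    ∃ C : ℝ, 0 < C ∧ ∀ (H W : ℕ), 1 ≤ H → (W : ℝ) ≤ C₆ * (H : ℝ) ^ ρ →
      ratio n d H (lam * H) (1 + T * W) ≤ C * (H : ℝ) ^
        (((n + d).choose n : ℝ) + ((n + d).choose n : ℝ) * d * ρ - (d + 1)) := by
  set N := (n + d).choose n with hN
  set C₇ : ℝ := 1 + (d + 1) * lam * ((n + 1) * (1 + T * C₆)) ^ d with hC₇
  have hC₇0 : 1 ≤ C₇ := by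
    rw [hC₇]
    have : 0 ≤ (d + 1) * (lam : ℝ) * ((n + 1) * (1 + T * C₆)) ^ d := by positivity
    linarith
  refine ⟨(3 * C₇) ^ N, by positivity, ?_⟩
  intro H W hH hW
  have hHR : (1 : ℝ) ≤ H := by exact_mod_cast hH
  have hHR0 : (0 : ℝ) < H := by linarith
  have hHρ : 1 ≤ (H : ℝ) ^ ρ := Real.one_le_rpow hHR hρ
  have h1 : (1 : ℝ) + T * W ≤ (1 + T * C₆) * (H : ℝ) ^ ρ := by
    have : (T : ℝ) * W ≤ T * (C₆ * (H : ℝ) ^ ρ) := mul_le_mul_of_nonneg_left hW (Nat.cast_nonneg _)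
    nlinarith
  have h2 : ((n + 1) * (1 + (T : ℝ) * W)) ^ d ≤
      ((n + 1) * (1 + T * C₆)) ^ d * (H : ℝ) ^ (d * ρ) := by
    calc ((n + 1) * (1 + (T : ℝ) * W)) ^ d ≤ ((n + 1) * ((1 + T * C₆) * (H : ℝ) ^ ρ)) ^ d := by
          gcongr
      _ = ((n + 1) * (1 + T * C₆)) ^ d * (H : ℝ) ^ (d * ρ) := by
          rw [← mul_assoc, mul_pow]
          congr 1
          rw [← Real.rpow_natCast, ← Real.rpow_mul hHR0.le]
          congr 1
          ring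
  have hHd : 1 ≤ (H : ℝ) ^ ((d : ℝ) * ρ) := Real.one_le_rpow hHR (by positivity)
  have h3 : ((2 * (H + (d + 1) * (lam * H) * ((n + 1) * (1 + T * W)) ^ d) + 1 : ℕ) : ℝ) ≤
      3 * C₇ * (H : ℝ) ^ (1 + (d : ℝ) * ρ) := by
    push_cast
    rw [Real.rpow_add hHR0, Real.rpow_one]
    have h4 : (H : ℝ) + (d + 1) * (lam * H) * ((n + 1) * (1 + (T : ℝ) * W)) ^ d ≤
        C₇ * (H * (H : ℝ) ^ ((d : ℝ) * ρ)) := by
      calc (H : ℝ) + (d + 1) * (lam * H) * ((n + 1) * (1 + (T : ℝ) * W)) ^ d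
          ≤ H * (H : ℝ) ^ ((d : ℝ) * ρ) + (d + 1) * (lam * H) *
            (((n + 1) * (1 + T * C₆)) ^ d * (H : ℝ) ^ (d * ρ)) := by
            refine add_le_add ?_ (mul_le_mul_of_nonneg_left h2 (by positivity))
            nlinarith
        _ = _ := by
            rw [hC₇]
            ring
    have h5 : (1 : ℝ) ≤ C₇ * (H * (H : ℝ) ^ ((d : ℝ) * ρ)) := by
      have : (1 : ℝ) ≤ H * (H : ℝ) ^ ((d : ℝ) * ρ) := one_le_mul_of_one_le_of_one_le hHR hHd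
      exact one_le_mul_of_one_le_of_one_le hC₇0 this
    linarith
  have h6 : (H : ℝ) ^ (d + 1) ≤ ((2 * (lam * H) + 1 : ℕ) : ℝ) ^ (d + 1) := by
    refine pow_le_pow_left₀ hHR0.le ?_ _
    push_cast
    have : (1 : ℝ) ≤ lam := by exact_mod_cast hlam
    nlinarith
  unfold ratio
  rw [← hN]
  calc _ ≤ (3 * C₇ * (H : ℝ) ^ (1 + (d : ℝ) * ρ)) ^ N / (H : ℝ) ^ (d + 1) := by
        gcongr
    _ = (3 * C₇) ^ N * (H : ℝ) ^ ((N : ℝ) + N * d * ρ - (d + 1)) := by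
        rw [mul_pow, mul_div_assoc]
        congr 1
        rw [← Real.rpow_natCast, ← Real.rpow_mul hHR0.le, ← Real.rpow_natCast,
          ← Real.rpow_sub hHR0]
        congr 1
        push_cast
        ring

/-- the analytic part of the bound for one large point and one base -/
theorem large_analysis (d : ℕ) (hd : 1 ≤ d) (θ σ₀ ε : ℝ) (hθ : 0 < θ) (hσ0 : 2 / 3 < σ₀)
    (hσ1 : σ₀ ≤ 1) (hθσ : 1 ≤ θ * σ₀) (hε : 0 < ε) :
    ∃ C : ℝ, 0 < C ∧ ∀ (H K a : ℕ), 1 ≤ H → 1 ≤ K → 2 * H < a → (a : ℝ) ≤ (H : ℝ) ^ θ →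
      ∃ σ : ℝ, σ₀ ≤ σ ∧ σ ≤ 1 ∧ (H : ℝ) ≤ (a : ℝ) ^ σ ∧ ∀ r : ℝ, 0 ≤ r →
        4 * (r * (5 * 4 ^ d * ((a ^ d).divisors.card : ℝ) ^ 2 * (H : ℝ) ^ (1 - σ))) * Zc σ₀ *
          (((d + 1) * H * a ^ d : ℕ) : ℝ) ^ (σ / 2) * (K : ℝ) ^ (1 - σ / 2) ≤
        r * (C * (H : ℝ) ^ ε * ((H : ℝ) ^ (1 - σ₀ / 2) * (K : ℝ) ^ (1 - σ₀ / 2) *
          (H : ℝ) ^ (θ * d * σ₀ / 2))) := by
  classical
  have hdR : (1 : ℝ) ≤ d := by exact_mod_cast hd
  set ε' : ℝ := ε / (2 * d * θ) with hε'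
  have hε'0 : 0 < ε' := by positivity
  obtain ⟨C₀, hC₀, hdiv⟩ := divisor_bound ε' hε'0
  have hZ0 := Zc_nonneg σ₀
  refine ⟨4 * (5 * 4 ^ d * C₀ ^ 2) * (Zc σ₀ + 1) * (d + 1), by positivity, ?_⟩
  intro H K a hH hK ha haθ
  have hHR : (1 : ℝ) ≤ H := by exact_mod_cast hH
  have hHR0 : (0 : ℝ) < H := by linarith
  have hKR : (1 : ℝ) ≤ K := by exact_mod_cast hK
  have ha0 : 0 < a := by omega
  have haR3 : (3 : ℝ) ≤ a := by exact_mod_cast (by omega : 3 ≤ a)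
  have haR0 : (0 : ℝ) < a := by linarith
  have hHa : (H : ℝ) ≤ a := by exact_mod_cast (by omega : H ≤ a)
  have hla : 0 < Real.log a := Real.log_pos (by linarith)
  have hlH : 0 ≤ Real.log H := Real.log_nonneg hHR
  set σ : ℝ := max σ₀ (Real.log H / Real.log a) with hσ
  have hσ₀σ : σ₀ ≤ σ := le_max_left _ _
  have hσ2 : Real.log H / Real.log a ≤ σ := le_max_right _ _
  have hσle : σ ≤ 1 := by
    refine max_le hσ1 ?_
    rw [div_le_one hla]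
    exact Real.log_le_log hHR0 hHa
  have hpowlog : (a : ℝ) ^ (Real.log H / Real.log a) = H := by
    rw [Real.rpow_def_of_pos haR0, mul_div_assoc', mul_comm, mul_div_assoc, div_self hla.ne',
      mul_one, Real.exp_log hHR0]
  have hHσ : (H : ℝ) ≤ (a : ℝ) ^ σ := by
    calc (H : ℝ) = (a : ℝ) ^ (Real.log H / Real.log a) := hpowlog.symm
      _ ≤ (a : ℝ) ^ σ := Real.rpow_le_rpow_of_exponent_le (by linarith) hσ2
  have haσ : (a : ℝ) ^ σ ≤ (H : ℝ) ^ (θ * σ₀) := by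
    rcases le_total (Real.log H / Real.log a) σ₀ with h1 | h1
    · have : σ = σ₀ := max_eq_left h1
      rw [this, Real.rpow_mul hHR0.le]
      exact Real.rpow_le_rpow haR0.le haθ (by linarith)
    · have : σ = Real.log H / Real.log a := max_eq_right h1
      rw [this, hpowlog]
      calc (H : ℝ) = (H : ℝ) ^ (1 : ℝ) := (Real.rpow_one _).symm
        _ ≤ (H : ℝ) ^ (θ * σ₀) := Real.rpow_le_rpow_of_exponent_le hHR hθσ
  refine ⟨σ, hσ₀σ, hσle, hHσ, ?_⟩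
  intro r hr
  -- the divisor bound
  have hτ : ((a ^ d).divisors.card : ℝ) ^ 2 ≤ C₀ ^ 2 * (H : ℝ) ^ ε := by
    have h2 := hdiv (a ^ d) (Nat.one_le_pow _ _ ha0)
    have h3 : ((a ^ d : ℕ) : ℝ) ^ ε' ≤ (H : ℝ) ^ (ε / 2) := by
      push_cast
      calc ((a : ℝ) ^ d) ^ ε' ≤ (((H : ℝ) ^ θ) ^ d) ^ ε' :=
            Real.rpow_le_rpow (by positivity) (pow_le_pow_left₀ haR0.le haθ d) hε'0.le
        _ = (H : ℝ) ^ (ε / 2) := by
            rw [← Real.rpow_natCast, ← Real.rpow_mul hHR0.le, ← Real.rpow_mul hHR0.le]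
            congr 1
            rw [hε']
            field_simp
    calc ((a ^ d).divisors.card : ℝ) ^ 2 ≤ (C₀ * (H : ℝ) ^ (ε / 2)) ^ 2 := by
          refine pow_le_pow_left₀ (Nat.cast_nonneg _) (h2.trans ?_) 2
          exact mul_le_mul_of_nonneg_left h3 hC₀.le
      _ = C₀ ^ 2 * (H : ℝ) ^ ε := by
          rw [mul_pow]
          congr 1
          rw [← Real.rpow_natCast, ← Real.rpow_mul hHR0.le]
          congr 1
          push_cast
          ring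
  have e1 : (((d + 1) * H * a ^ d : ℕ) : ℝ) ^ (σ / 2) ≤
      ((d : ℝ) + 1) * (H : ℝ) ^ (σ / 2) * (H : ℝ) ^ (θ * d * σ₀ / 2) := by
    push_cast
    rw [Real.mul_rpow (by positivity) (by positivity), Real.mul_rpow (by positivity) (by positivity)]
    have e2 : ((d : ℝ) + 1) ^ (σ / 2) ≤ (d : ℝ) + 1 := by
      calc ((d : ℝ) + 1) ^ (σ / 2) ≤ ((d : ℝ) + 1) ^ (1 : ℝ) :=
            Real.rpow_le_rpow_of_exponent_le (by linarith) (by linarith)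
        _ = _ := Real.rpow_one _
    have e3 : ((a : ℝ) ^ d) ^ (σ / 2) ≤ (H : ℝ) ^ (θ * d * σ₀ / 2) := by
      calc ((a : ℝ) ^ d) ^ (σ / 2) = ((a : ℝ) ^ σ) ^ ((d : ℝ) / 2) := by
            rw [← Real.rpow_natCast, ← Real.rpow_mul haR0.le, ← Real.rpow_mul haR0.le]
            congr 1
            ring
        _ ≤ ((H : ℝ) ^ (θ * σ₀)) ^ ((d : ℝ) / 2) :=
            Real.rpow_le_rpow (by positivity) haσ (by positivity)
        _ = _ := by
            rw [← Real.rpow_mul hHR0.le]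
            congr 1
            ring
    gcongr
  have e4 : (H : ℝ) ^ (1 - σ) * (H : ℝ) ^ (σ / 2) ≤ (H : ℝ) ^ (1 - σ₀ / 2) := by
    rw [← Real.rpow_add hHR0]
    refine Real.rpow_le_rpow_of_exponent_le hHR ?_
    linarith
  have e5 : (K : ℝ) ^ (1 - σ / 2) ≤ (K : ℝ) ^ (1 - σ₀ / 2) :=
    Real.rpow_le_rpow_of_exponent_le hKR (by linarith)
  calc 4 * (r * (5 * 4 ^ d * ((a ^ d).divisors.card : ℝ) ^ 2 * (H : ℝ) ^ (1 - σ))) * Zc σ₀ *
        (((d + 1) * H * a ^ d : ℕ) : ℝ) ^ (σ / 2) * (K : ℝ) ^ (1 - σ / 2)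
      ≤ 4 * (r * (5 * 4 ^ d * (C₀ ^ 2 * (H : ℝ) ^ ε) * (H : ℝ) ^ (1 - σ))) * (Zc σ₀ + 1) *
        (((d : ℝ) + 1) * (H : ℝ) ^ (σ / 2) * (H : ℝ) ^ (θ * d * σ₀ / 2)) *
          (K : ℝ) ^ (1 - σ₀ / 2) := by
        gcongr
        linarith
    _ = r * (4 * (5 * 4 ^ d * C₀ ^ 2) * (Zc σ₀ + 1) * (d + 1) * (H : ℝ) ^ ε *
        (((H : ℝ) ^ (1 - σ) * (H : ℝ) ^ (σ / 2)) * (K : ℝ) ^ (1 - σ₀ / 2) *
          (H : ℝ) ^ (θ * d * σ₀ / 2))) := by ring
    _ ≤ _ := by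
        gcongr

end Pool.Agent.TH390.Tw
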