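import Pool.Agent.TH390.Tw.M5

set_option autoImplicit false

namespace Pool.Agent.TH390.Tw

open Finset

/-- maximum norm -/
def nrm {n : ℕ} (x : Fin (n + 1) → ℤ) : ℕ := Finset.univ.sup fun j => (x j).natAbs

theorem le_nrm {n : ℕ} (x : Fin (n + 1) → ℤ) (j : Fin (n + 1)) : |x j| ≤ (nrm x : ℤ) := by
  rw [Int.abs_eq_natAbs]
  exact_mod_cast Finset.le_sup (f := fun j => (x j).natAbs) (Finset.mem_univ j)

theorem nrm_eq {n : ℕ} (x : Fin (n + 1) → ℤ) (a : ℕ) (h1 : ∀ j, |x j| ≤ (a : ℤ))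
    (h2 : ∃ j, |x j| = (a : ℤ)) : nrm x = a := by
  apply le_antisymm
  · unfold nrm
    refine Finset.sup_le fun j _ => ?_
    have := h1 j
    rw [Int.abs_eq_natAbs] at this
    exact_mod_cast this
  · obtain ⟨j, hj⟩ := h2
    have := le_nrm x j
    rw [hj] at this
    exact_mod_cast this

/-- the exceptional forms for one small point -/
theorem pt_small (n d lam T : ℕ) (hlam : (n + d).choose n ≤ lam) (hT : 1 ≤ T) (H K : ℕ)
    (hH : 1 ≤ H) (hK : 1 ≤ K) (x : Fin (n + 1) → ℤ) (hx : Prim x)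
    (hx2 : nrm x ≤ 2 * (lam * H)) : ∃ V : Finset (Idx n d → ℤ),
      (∀ f ∈ vbox n d H, ∀ (s : ℤ) (k : ℕ) (m : ℤ), s ≠ 0 → s.natAbs ≤ K → 1 ≤ k →
        ev x f = s * (k : ℤ) ^ 3 * m ^ 2 → f ∈ V) ∧
      (V.card : ℝ) ≤ (12 * 4 ^ d * (Zc 1 + 1) * ((d : ℝ) + 1) ^ ((1 : ℝ) / 2)) *
        (ratio n d H (lam * H) (1 + T * wt (nrm x)) * ((lam * H : ℕ) : ℝ) ^ ((d : ℝ) + 1 / 2) *
          (K : ℝ) ^ ((1 : ℝ) / 2) * (nrm x : ℝ) ^ (-((d : ℝ) / 2))) := by
  classical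
  obtain ⟨a₀, b, α, β, ha₀, hxa, hxa', hα, hβ, hax, hbx, hcop, _⟩ := dirs x hx
  have hnrm := nrm_eq x a₀ hxa hxa'
  rw [hnrm] at hx2 ⊢
  set L := lam * H with hL
  have hL1 : 1 ≤ L := by
    have : 0 < (n + d).choose n := Nat.choose_pos (by omega)
    exact Nat.mul_pos (by omega) hH
  have hNL : (n + d).choose n * H ≤ L := Nat.mul_le_mul_right _ hlam
  set T₁ := 1 + T * wt a₀ with hT₁
  have hwt := one_le_wt a₀
  have hα1 : ∀ j, |α j| ≤ (T₁ : ℤ) := fun j => (hα j).trans (by rw [hT₁]; push_cast; nlinarith)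
  have hβ1 : ∀ j, |β j| ≤ (T₁ : ℤ) := fun j => (hβ j).trans (by
    have : wt a₀ ≤ T₁ := by rw [hT₁]; nlinarith
    exact_mod_cast this)
  set M := (d + 1) * L * a₀ ^ d with hM
  have hM1 : 1 ≤ M := Nat.succ_le_of_lt (by positivity)
  have hMR : (M : ℝ) = (d + 1) * L * (a₀ : ℝ) ^ d := by rw [hM]; push_cast; ring
  have haR : (0 : ℝ) < a₀ := by exact_mod_cast ha₀
  have hLR : (0 : ℝ) < L := by exact_mod_cast hL1
  refine ⟨UG (TS n d H x) K M, ?_, ?_⟩
  · intro f hf s k m hs hsK hk hN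
    refine mem_UG (TS n d H x) K M hK hM1 f (ev x f) ?_ ?_ s k m hs hsK hk hN
    · refine (abs_ev_le H a₀ x hxa f hf).trans ?_
      have : (n + d).choose n * H * a₀ ^ d ≤ M := by
        rw [hM]
        refine Nat.mul_le_mul_right _ (hNL.trans ?_)
        exact Nat.le_mul_of_pos_left _ (by omega)
      exact_mod_cast this
    · intro c _ hm
      unfold TS
      exact Finset.mem_filter.mpr ⟨hf, hm⟩
  · have h1 := card_UG (TS n d H x) K M 1 1 (ratio n d H L T₁ * (3 * (4 * L / a₀) ^ d))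
      (mul_nonneg (ratio_nonneg _ _ _ _ _) (by positivity)) (by norm_num) (le_refl _) (le_refl _)
      (fun c hc hcM => by
        rw [hMR] at hcM ⊢
        exact card_TS hα1 hβ1 hNL ha₀ hx2 hxa hax hbx hcop c hc hcM)
    refine h1.trans ?_
    rw [hMR]
    have e1 : ((d + 1) * L * (a₀ : ℝ) ^ d) ^ ((1 : ℝ) / 2) =
        ((d : ℝ) + 1) ^ ((1 : ℝ) / 2) * (L : ℝ) ^ ((1 : ℝ) / 2) *
          ((a₀ : ℝ) ^ d) ^ ((1 : ℝ) / 2) := by
      rw [Real.mul_rpow (by positivity) (by positivity), Real.mul_rpow (by positivity) (by positivity)]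
    have e2 : ((a₀ : ℝ) ^ d) ^ ((1 : ℝ) / 2) / (a₀ : ℝ) ^ d = (a₀ : ℝ) ^ (-((d : ℝ) / 2)) := by
      rw [← Real.rpow_natCast, ← Real.rpow_mul haR.le, ← Real.rpow_sub haR]
      congr 1
      ring
    have e3 : (L : ℝ) ^ ((d : ℝ) + 1 / 2) = (L : ℝ) ^ d * (L : ℝ) ^ ((1 : ℝ) / 2) := by
      rw [Real.rpow_add hLR, Real.rpow_natCast]
    have e4 : ((1 : ℝ) - 1 / 2) = 1 / 2 := by norm_num
    have hr := ratio_nonneg n d H L T₁
    have hZ := Zc_nonneg 1
    calc 4 * (ratio n d H L T₁ * (3 * (4 * L / a₀) ^ d)) * Zc 1 *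
          ((d + 1) * L * (a₀ : ℝ) ^ d) ^ ((1 : ℝ) / 2) * (K : ℝ) ^ ((1 : ℝ) - 1 / 2)
        = (12 * 4 ^ d * Zc 1 * ((d : ℝ) + 1) ^ ((1 : ℝ) / 2)) *
          (ratio n d H L T₁ * ((L : ℝ) ^ d * (L : ℝ) ^ ((1 : ℝ) / 2)) *
            (K : ℝ) ^ ((1 : ℝ) / 2) * (((a₀ : ℝ) ^ d) ^ ((1 : ℝ) / 2) / (a₀ : ℝ) ^ d)) := by
          rw [e1, e4, div_pow, mul_pow]
          field_simp
          ring
      _ ≤ (12 * 4 ^ d * (Zc 1 + 1) * ((d : ℝ) + 1) ^ ((1 : ℝ) / 2)) *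
          (ratio n d H L T₁ * ((L : ℝ) ^ d * (L : ℝ) ^ ((1 : ℝ) / 2)) *
            (K : ℝ) ^ ((1 : ℝ) / 2) * (((a₀ : ℝ) ^ d) ^ ((1 : ℝ) / 2) / (a₀ : ℝ) ^ d)) := by
          gcongr
          linarith
      _ = _ := by rw [e2, e3]

/-- the exceptional forms for one large point -/
theorem pt_large (n d lam T : ℕ) (hlam : (n + d).choose n ≤ lam) (hT : 1 ≤ T) (hd : 1 ≤ d)
    (σ₀ C E : ℝ) (hσ0 : 2 / 3 < σ₀) (H K : ℕ)
    (hH : 1 ≤ H) (hK : 1 ≤ K) (x : Fin (n + 1) → ℤ) (hx : Prim x)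
    (hx2 : 2 * (lam * H) < nrm x)
    (hbase : lam * H * nrm x ^ d * (T ^ T) ^ (T + 1) < (2 * (lam * H)) ^ (T + 1))
    (hana : ∀ a : ℕ, nrm x ≤ a → a ≤ nrm x * (1 + T * ((n + 1) * wt (nrm x))) →
      ∃ σ : ℝ, σ₀ ≤ σ ∧ σ ≤ 1 ∧ ((lam * H : ℕ) : ℝ) ≤ (a : ℝ) ^ σ ∧ ∀ r : ℝ, 0 ≤ r →
        4 * (r * (5 * 4 ^ d * ((a ^ d).divisors.card : ℝ) ^ 2 *
          ((lam * H : ℕ) : ℝ) ^ (1 - σ))) * Zc σ₀ *
          (((d + 1) * (lam * H) * a ^ d : ℕ) : ℝ) ^ (σ / 2) * (K : ℝ) ^ (1 - σ / 2) ≤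
        r * (C * E)) : ∃ V : Finset (Idx n d → ℤ),
      (∀ f ∈ vbox n d H, ∀ (s : ℤ) (k : ℕ) (m : ℤ), s ≠ 0 → s.natAbs ≤ K → 1 ≤ k →
        ev x f = s * (k : ℤ) ^ 3 * m ^ 2 → f ∈ V) ∧
      (V.card : ℝ) ≤ ratio n d H (lam * H) (1 + T * wt (nrm x)) * (1 + (T + 1) * (C * E)) := by
  classical
  obtain ⟨a₀, b, α, β, ha₀, hxa, hxa', hα, hβ, hax, hbx, hcop, hbb⟩ := dirs x hx
  have hnrm := nrm_eq x a₀ hxa hxa'
  rw [hnrm] at hx2 hbase hana ⊢
  set L := lam * H with hL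
  have hL1 : 1 ≤ L := by
    have : 0 < (n + d).choose n := Nat.choose_pos (by omega)
    exact Nat.mul_pos (by omega) hH
  have hNL : (n + d).choose n * H ≤ L := Nat.mul_le_mul_right _ hlam
  set T₁ := 1 + T * wt a₀ with hT₁
  have hwt := one_le_wt a₀
  have hβ1 : ∀ j, |β j| ≤ (T₁ : ℤ) := fun j => (hβ j).trans (by
    have : wt a₀ ≤ T₁ := by rw [hT₁]; nlinarith
    exact_mod_cast this)
  have hαt : ∀ t : ℕ, t ≤ T → ∀ j, |α j + t * β j| ≤ (T₁ : ℤ) := by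
    intro t ht j
    have h1 : |(t : ℤ) * β j| ≤ (T : ℤ) * (wt a₀ : ℤ) := by
      rw [abs_mul, abs_of_nonneg (by positivity : (0 : ℤ) ≤ (t : ℤ))]
      exact mul_le_mul (by exact_mod_cast ht) (hβ j) (abs_nonneg _) (by positivity)
    calc |α j + t * β j| ≤ |α j| + |(t : ℤ) * β j| := abs_add_le _ _
      _ ≤ 1 + (T : ℤ) * (wt a₀ : ℤ) := add_le_add (hα j) h1
      _ = (T₁ : ℤ) := by rw [hT₁]; push_cast; ring
  have hαx : ∀ t : ℕ, ∑ j, (α j + t * β j) * x j = ((a₀ + t * b : ℕ) : ℤ) := by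
    intro t
    have e : ∑ j, (α j + t * β j) * x j = ∑ j, α j * x j + t * ∑ j, β j * x j := by
      rw [Finset.mul_sum, ← Finset.sum_add_distrib]
      refine Finset.sum_congr rfl fun j _ => ?_
      ring
    rw [e, hax, hbx]
    push_cast
    ring
  have hcopt : ∀ t : ℕ, IsCoprime ((a₀ + t * b : ℕ) : ℤ) (b : ℤ) := by
    intro t
    push_cast
    exact IsCoprime.add_mul_right_left hcop (t : ℤ)
  have hale : ∀ t : ℕ, a₀ ≤ a₀ + t * b := fun t => Nat.le_add_right _ _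
  have haup : ∀ t : ℕ, t ≤ T → a₀ + t * b ≤ a₀ * (1 + T * ((n + 1) * wt a₀)) := by
    intro t ht
    calc a₀ + t * b ≤ a₀ + T * ((n + 1) * (wt a₀ * a₀)) :=
          Nat.add_le_add_left (Nat.mul_le_mul ht hbb) _
      _ = _ := by ring
  have hxt : ∀ t : ℕ, ∀ j, |x j| ≤ ((a₀ + t * b : ℕ) : ℤ) := fun t j =>
    (hxa j).trans (by exact_mod_cast hale t)
  set Mt : ℕ → ℕ := fun t => (d + 1) * L * (a₀ + t * b) ^ d with hMt
  have hMtR : ∀ t, ((Mt t : ℕ) : ℝ) = (d + 1) * L * (((a₀ + t * b : ℕ) : ℝ)) ^ d := by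
    intro t
    simp only [hMt]
    push_cast
    ring
  have hr := ratio_nonneg n d H L T₁
  set V : Finset (Idx n d → ℤ) := TZ n d H x ∪ (Finset.range (T + 1)).biUnion fun t =>
    UG (TL n d H L x (a₀ + t * b)) K (Mt t) with hV
  refine ⟨V, ?_, ?_⟩
  · intro f hf s k m hs hsK hk hN
    by_cases h0 : ev x f = 0
    · rw [hV, Finset.mem_union]
      left
      unfold TZ
      exact Finset.mem_filter.mpr ⟨hf, h0⟩
    · obtain ⟨t, ht, hgt⟩ : ∃ t : ℕ, t ≤ T ∧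
          Int.gcd (ev x f) ((a₀ + t * b : ℕ) : ℤ) ≤ 2 * L := by
        by_contra hcon
        push Not at hcon
        have h1 := good_base (ev x f) h0 (a₀ : ℤ) (b : ℤ) hcop T (2 * L) hT (fun t ht => by
          have := hcon t ht
          push_cast at this
          exact this.le)
        have h2 : (ev x f).natAbs ≤ L * a₀ ^ d := by
          have h3 := abs_ev_le H a₀ x hxa f hf
          rw [Int.abs_eq_natAbs] at h3
          have h4 : (ev x f).natAbs ≤ (n + d).choose n * H * a₀ ^ d := by exact_mod_cast h3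
          exact h4.trans (Nat.mul_le_mul_right _ hNL)
        exact absurd (h1.trans (Nat.mul_le_mul_right _ h2)) (not_le.mpr hbase)
      rw [hV, Finset.mem_union]
      right
      rw [Finset.mem_biUnion]
      refine ⟨t, Finset.mem_range.mpr (by omega), ?_⟩
      refine mem_UG (TL n d H L x (a₀ + t * b)) K (Mt t) hK ?_ f (ev x f) ?_ ?_ s k m hs hsK hk hN
      · simp only [hMt]
        exact Nat.succ_le_of_lt (by positivity)
      · refine (abs_ev_le H (a₀ + t * b) x (hxt t) f hf).trans ?_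
        have : (n + d).choose n * H * (a₀ + t * b) ^ d ≤ Mt t := by
          simp only [hMt]
          refine Nat.mul_le_mul_right _ (hNL.trans ?_)
          exact Nat.le_mul_of_pos_left _ (by omega)
        exact_mod_cast this
      · intro c _ hm
        unfold TL
        exact Finset.mem_filter.mpr ⟨hf, hgt, hm⟩
  · have hUt : ∀ t ∈ Finset.range (T + 1),
        ((UG (TL n d H L x (a₀ + t * b)) K (Mt t)).card : ℝ) ≤ ratio n d H L T₁ * (C * E) := by
      intro t ht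
      have ht' : t ≤ T := by have := Finset.mem_range.mp ht; omega
      obtain ⟨σ, hσa, hσb, hσc, hσd⟩ := hana (a₀ + t * b) (hale t) (haup t ht')
      have h1 := card_UG (TL n d H L x (a₀ + t * b)) K (Mt t) σ₀ σ
        (ratio n d H L T₁ * (5 * 4 ^ d * (((a₀ + t * b) ^ d).divisors.card : ℝ) ^ 2 *
          (L : ℝ) ^ (1 - σ)))
        (mul_nonneg hr (by positivity)) hσ0 hσa hσb
        (fun c hc hcM => by
          rw [hMtR] at hcM ⊢
          exact card_TL (hαt t ht') hβ1 hNL hd hL1 (lt_of_lt_of_le hx2 (hale t)) (hxt t) (hαx t)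
            hbx (hcopt t) σ (by linarith) hσb hσc c hc hcM)
      refine h1.trans ?_
      have h2 := hσd (ratio n d H L T₁) hr
      exact h2
    have hZ : ((TZ n d H x).card : ℝ) ≤ ratio n d H L T₁ := by
      have h0 := hαt 0 (Nat.zero_le _)
      have h1 := hαx 0
      have h2 := hcopt 0
      have e : a₀ + 0 * b = a₀ := by ring
      rw [e] at h1 h2
      exact card_TZ h0 hβ1 hx2 h1 hbx h2
    have h3 : (V.card : ℝ) ≤ ((TZ n d H x).card : ℝ) + ∑ t ∈ Finset.range (T + 1),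
        ((UG (TL n d H L x (a₀ + t * b)) K (Mt t)).card : ℝ) := by
      have h4 := Finset.card_union_le (TZ n d H x) ((Finset.range (T + 1)).biUnion fun t =>
        UG (TL n d H L x (a₀ + t * b)) K (Mt t))
      have h5 : ((Finset.range (T + 1)).biUnion fun t =>
        UG (TL n d H L x (a₀ + t * b)) K (Mt t)).card ≤ ∑ t ∈ Finset.range (T + 1),
        (UG (TL n d H L x (a₀ + t * b)) K (Mt t)).card := Finset.card_biUnion_le
      have h6 := h4.trans (Nat.add_le_add_left h5 _)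
      exact_mod_cast h6
    calc (V.card : ℝ) ≤ _ := h3
      _ ≤ ratio n d H L T₁ + ∑ _t ∈ Finset.range (T + 1), ratio n d H L T₁ * (C * E) :=
          add_le_add hZ (Finset.sum_le_sum hUt)
      _ = _ := by
          rw [Finset.sum_const, Finset.card_range, nsmul_eq_mul]
          push_cast
          ring

/-- the weights for the summation over small points -/
noncomputable def psi (s : ℝ) (z : ℤ) : ℝ := |(z : ℝ)| ^ (-s) + if z = 0 then 1 else 0

theorem psi_nonneg (s : ℝ) (z : ℤ) : 0 ≤ psi s z := by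
  unfold psi
  have : (0 : ℝ) ≤ |(z : ℝ)| ^ (-s) := by positivity
  split_ifs <;> linarith

theorem psi_summable (s : ℝ) (hs : 1 < s) : Summable (psi s) := by
  unfold psi
  refine (Real.summable_abs_int_rpow hs).add ?_
  exact summable_of_ne_finset_zero (s := {0}) (fun z hz => by
    rw [Finset.mem_singleton] at hz
    rw [if_neg hz])

/-- the sum over small points -/
theorem sum_nrm (n : ℕ) : ∃ W : ℝ, 0 < W ∧ ∀ (d M : ℕ), 2 * n + 3 ≤ d →
    ∀ P : Finset (Fin (n + 1) → ℤ), (∀ x ∈ P, 1 ≤ nrm x ∧ nrm x ≤ M) →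
      ∑ x ∈ P, (nrm x : ℝ) ^ (-((d : ℝ) / 2)) ≤ W := by
  classical
  set s : ℝ := ((n : ℝ) + 3 / 2) / (n + 1) with hs
  have hs1 : 1 < s := by
    rw [hs, lt_div_iff₀ (by positivity)]
    linarith
  have hs0 : 0 < s := by linarith
  set W₁ : ℝ := ∑' z : ℤ, psi s z with hW₁
  have hW₁0 : 0 ≤ W₁ := tsum_nonneg fun z => psi_nonneg s z
  refine ⟨W₁ ^ (n + 1) + 1, by positivity, ?_⟩
  intro d M hd P hP
  have hdR : (2 : ℝ) * n + 3 ≤ d := by exact_mod_cast hd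
  have h1 : ∀ x ∈ P, (nrm x : ℝ) ^ (-((d : ℝ) / 2)) ≤ ∏ j, psi s (x j) := by
    intro x hx
    obtain ⟨hx1, hx2⟩ := hP x hx
    have hxR : (1 : ℝ) ≤ nrm x := by exact_mod_cast hx1
    have hxR0 : (0 : ℝ) < nrm x := by linarith
    have h2 : ∀ j, (nrm x : ℝ) ^ (-s) ≤ psi s (x j) := by
      intro j
      unfold psi
      by_cases h0 : x j = 0
      · rw [if_pos h0]
        have h3 : (nrm x : ℝ) ^ (-s) ≤ 1 := Real.rpow_le_one_of_one_le_of_nonpos hxR (by linarith)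
        have h4 : (0 : ℝ) ≤ |(x j : ℝ)| ^ (-s) := by positivity
        linarith
      · rw [if_neg h0, add_zero]
        have h3 : |(x j : ℝ)| ≤ nrm x := by exact_mod_cast le_nrm x j
        have h4 : (0 : ℝ) < |(x j : ℝ)| := abs_pos.mpr (by exact_mod_cast h0)
        exact Real.rpow_le_rpow_of_nonpos h4 h3 (by linarith)
    calc (nrm x : ℝ) ^ (-((d : ℝ) / 2)) ≤ (nrm x : ℝ) ^ ((-s) * ((n + 1 : ℕ) : ℝ)) := by
          refine Real.rpow_le_rpow_of_exponent_le hxR ?_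
          have e : (-s) * ((n + 1 : ℕ) : ℝ) = -((n : ℝ) + 3 / 2) := by
            rw [hs]
            push_cast
            field_simp
          rw [e]
          linarith
      _ = ∏ _j : Fin (n + 1), (nrm x : ℝ) ^ (-s) := by
          rw [Finset.prod_const, Finset.card_univ, Fintype.card_fin, ← Real.rpow_natCast,
            ← Real.rpow_mul hxR0.le]
      _ ≤ ∏ j, psi s (x j) := Finset.prod_le_prod (fun _ _ => by positivity) (fun j _ => h2 j)
  have hsub : P ⊆ Fintype.piFinset fun _ : Fin (n + 1) => Icc (-(M : ℤ)) M := by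
    intro x hx
    rw [Fintype.mem_piFinset]
    intro j
    have h3 := (le_nrm x j).trans (by exact_mod_cast (hP x hx).2 : (nrm x : ℤ) ≤ (M : ℤ))
    exact mem_Icc.mpr (abs_le.mp h3)
  calc ∑ x ∈ P, (nrm x : ℝ) ^ (-((d : ℝ) / 2)) ≤ ∑ x ∈ P, ∏ j, psi s (x j) :=
        Finset.sum_le_sum h1
    _ ≤ ∑ x ∈ Fintype.piFinset fun _ : Fin (n + 1) => Icc (-(M : ℤ)) M, ∏ j, psi s (x j) :=
        Finset.sum_le_sum_of_subset_of_nonneg hsub
          (fun x _ _ => Finset.prod_nonneg fun j _ => psi_nonneg s _)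
    _ = ∏ _j : Fin (n + 1), ∑ z ∈ Icc (-(M : ℤ)) M, psi s z :=
        (Finset.prod_univ_sum _ _).symm
    _ ≤ ∏ _j : Fin (n + 1), W₁ := by
        refine Finset.prod_le_prod (fun _ _ => Finset.sum_nonneg fun z _ => psi_nonneg s z)
          (fun _ _ => ?_)
        exact (psi_summable s hs1).sum_le_tsum _ (fun z _ => psi_nonneg s z)
    _ = W₁ ^ (n + 1) := by rw [Finset.prod_const, Finset.card_univ, Fintype.card_fin]
    _ ≤ W₁ ^ (n + 1) + 1 := by linarith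

end Pool.Agent.TH390.Tw
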