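import Pool.Agent.TH390.Tw.M6

set_option autoImplicit false

namespace Pool.Agent.TH390.Tw

open Finset

theorem Prim.nrm_pos {n : ℕ} {x : Fin (n + 1) → ℤ} (hx : Prim x) : 1 ≤ nrm x := by
  by_contra h
  have h0 : nrm x = 0 := by omega
  obtain ⟨j, hj⟩ := hx 2 Nat.prime_two
  have h1 := le_nrm x j
  rw [h0] at h1
  have h2 : x j = 0 := abs_eq_zero.mp (le_antisymm (by simpa using h1) (abs_nonneg _))
  rw [h2] at hj
  exact hj (dvd_zero _)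

theorem nrm_le_of {n : ℕ} {x : Fin (n + 1) → ℤ} {B : ℝ} (hB : 0 ≤ B)
    (h : ∀ j, |(x j : ℝ)| ≤ B) : (nrm x : ℝ) ≤ B := by
  have h1 : nrm x ≤ ⌊B⌋₊ := by
    unfold nrm
    refine Finset.sup_le fun j _ => ?_
    apply Nat.le_floor
    have h2 : ((x j).natAbs : ℝ) = |(x j : ℝ)| := by
      rw [Nat.cast_natAbs]
      push_cast
      rfl
    rw [h2]
    exact h j
  calc (nrm x : ℝ) ≤ (⌊B⌋₊ : ℝ) := by exact_mod_cast h1
    _ ≤ B := Nat.floor_le hB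

/-- the base condition for large points -/
theorem base_cond (d T L a : ℕ) (θ : ℝ) (hL : 1 ≤ L) (hT : 1 + θ * d ≤ T)
    (ha0 : 1 ≤ a) (ha : (a : ℝ) ≤ (L : ℝ) ^ θ) (hTL : (T ^ T) ^ (T + 1) ≤ L) :
    L * a ^ d * (T ^ T) ^ (T + 1) < (2 * L) ^ (T + 1) := by
  have hLR : (1 : ℝ) ≤ L := by exact_mod_cast hL
  have hLR0 : (0 : ℝ) < L := by linarith
  have haR0 : (0 : ℝ) < a := by exact_mod_cast ha0
  have h1 : ((L * a ^ d : ℕ) : ℝ) ≤ ((L ^ T : ℕ) : ℝ) := by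
    push_cast
    calc (L : ℝ) * (a : ℝ) ^ d ≤ (L : ℝ) ^ (1 : ℝ) * ((L : ℝ) ^ θ) ^ d := by
          rw [Real.rpow_one]
          gcongr
      _ = (L : ℝ) ^ (1 + θ * d) := by
          rw [Real.rpow_add hLR0, Real.rpow_mul hLR0.le, Real.rpow_natCast]
      _ ≤ (L : ℝ) ^ (T : ℝ) := Real.rpow_le_rpow_of_exponent_le hLR hT
      _ = (L : ℝ) ^ T := Real.rpow_natCast _ _
  have h2 : L * a ^ d ≤ L ^ T := by exact_mod_cast h1
  calc L * a ^ d * (T ^ T) ^ (T + 1) ≤ L ^ T * L := Nat.mul_le_mul h2 hTL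
    _ = L ^ (T + 1) := (pow_succ _ _).symm
    _ < (2 * L) ^ (T + 1) := Nat.pow_lt_pow_left (by omega) (by omega)

theorem mainSpace (n d : ℕ) (hd : 2 * n + 3 ≤ d) (κ θ σ φ : ℝ) (hκ0 : 0 ≤ κ) (hκ : κ < 1)
    (hσ0 : 2 / 3 < σ) (hσ1 : σ ≤ 1) (hθσ : 1 ≤ θ * σ)
    (hφ : φ + (1 + κ) * (1 - σ / 2) + θ * d * σ / 2 < d + 1) :
    ∃ η C : ℝ, 0 < η ∧ ∀ H : ℕ, 1 ≤ H → ∀ A : Finset (Fin (n + 1) → ℤ),
      (A.card : ℝ) ≤ 3 ^ (n + 1) * (H : ℝ) ^ φ →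
      (∀ x ∈ A, ∀ j, |(x j : ℝ)| ≤ (H : ℝ) ^ θ) →
      ∃ V : Finset (Idx n d → ℤ),
      (∀ f ∈ vbox n d H, ∀ (s : ℤ) (k : ℕ) (m : ℤ), s ≠ 0 → (s.natAbs : ℝ) ≤ (H : ℝ) ^ κ →
        1 ≤ k → ∀ x ∈ A, Prim x → ev x f = s * (k : ℤ) ^ 3 * m ^ 2 → f ∈ V) ∧
      (V.card : ℝ) ≤ C * (H : ℝ) ^ ((((n + d).choose n : ℕ) : ℝ) - η) := by
  classical
  have hd1 : 1 ≤ d := by omega
  have hdR : (1 : ℝ) ≤ d := by exact_mod_cast hd1
  have hdR0 : (0 : ℝ) < d := by linarith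
  have hθ1 : 1 ≤ θ := by
    by_contra h
    push Not at h
    rcases le_or_gt θ 0 with h1 | h1
    · have : θ * σ ≤ 0 := mul_nonpos_of_nonpos_of_nonneg h1 (by linarith)
      linarith
    · have : θ * σ ≤ θ * 1 := mul_le_mul_of_nonneg_left hσ1 h1.le
      linarith
  have hθ0 : 0 < θ := by linarith
  set N : ℕ := (n + d).choose n with hN
  have hN1 : 1 ≤ N := Nat.choose_pos (by omega)
  have hNR : (1 : ℝ) ≤ N := by exact_mod_cast hN1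
  have hNR0 : (0 : ℝ) < N := by linarith
  set gap : ℝ := d + 1 - φ - (1 + κ) * (1 - σ / 2) - θ * d * σ / 2 with hgap
  have hgap0 : 0 < gap := by rw [hgap]; linarith
  set μ : ℝ := min gap (1 - κ) with hμ
  have hμ0 : 0 < μ := lt_min hgap0 (by linarith)
  have hμ1 : μ ≤ gap := min_le_left _ _
  have hμ2 : μ ≤ 1 - κ := min_le_right _ _
  set ρ : ℝ := μ / (8 * N * d) with hρ
  have hρ0 : 0 < ρ := by positivity
  have hNdρ : (N : ℝ) * d * ρ = μ / 8 := by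
    rw [hρ]
    field_simp
  have hdρ : (d : ℝ) * ρ ≤ μ / 8 := by
    rw [← hNdρ, mul_assoc]
    exact le_mul_of_one_le_left (by positivity) hNR
  have hρ1 : ρ ≤ μ / 8 := (le_mul_of_one_le_left hρ0.le hdR).trans hdρ
  have hρle : ρ ≤ 1 := by linarith
  obtain ⟨C₁, hC₁, hwt⟩ := wt_bound (ρ / θ) (by positivity)
  obtain ⟨T, hT⟩ := exists_nat_ge (1 + θ * d)
  have hT1 : 1 ≤ T := by
    have : (1 : ℝ) ≤ T := by
      have : 0 ≤ θ * d := by positivity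
      linarith
    exact_mod_cast this
  obtain ⟨l₁, hl₁⟩ := exists_nat_ge (1 + T * ((n + 1) * C₁))
  set lam : ℕ := N + l₁ + (T ^ T) ^ (T + 1) with hlam
  have hlamN : N ≤ lam := by rw [hlam, add_assoc]; exact Nat.le_add_right _ _
  have hlaml : l₁ ≤ lam := by
    rw [hlam]
    exact (Nat.le_add_left _ _).trans (Nat.le_add_right _ _)
  have hlamT : (T ^ T) ^ (T + 1) ≤ lam := by rw [hlam]; exact Nat.le_add_left _ _
  clear_value lam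
  have hlam1 : 1 ≤ lam := hN1.trans hlamN
  have hlamR : (1 : ℝ) ≤ lam := by exact_mod_cast hlam1
  have hlamR0 : (0 : ℝ) < lam := by linarith
  have hlamC : 1 + T * ((n + 1) * C₁) ≤ lam := hl₁.trans (by exact_mod_cast hlaml)
  have hC₆ : 1 ≤ C₁ * (2 * lam) := one_le_mul_of_one_le_of_one_le hC₁ (by linarith)
  obtain ⟨C₂, hC₂, hratio⟩ := ratio_bound n d lam T hlam1 ρ (C₁ * (2 * lam)) hρ0.le hC₆
  have hθρσ : 1 ≤ (θ + ρ) * σ := by
    have h1 : 0 ≤ ρ * σ := mul_nonneg hρ0.le (by linarith)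
    rw [add_mul]
    linarith
  obtain ⟨C₃, hC₃, hana⟩ := large_analysis d hd1 (θ + ρ) σ (μ / 8) (by linarith) hσ0 hσ1
    hθρσ (by linarith)
  obtain ⟨W, hW, hsum⟩ := sum_nrm n
  set η : ℝ := min (gap / 4) ((1 - κ) / 4) with hη
  have hη0 : 0 < η := lt_min (by linarith) (by linarith)
  have hη1 : η ≤ gap / 4 := min_le_left _ _
  have hη2 : η ≤ (1 - κ) / 4 := min_le_right _ _
  set c₀ : ℝ := 12 * 4 ^ d * (Zc 1 + 1) * ((d : ℝ) + 1) ^ ((1 : ℝ) / 2) with hc₀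
  have hc₀0 : 0 ≤ c₀ := by
    have := Zc_nonneg 1
    positivity
  set e : ℝ := μ / 8 + ((1 - σ / 2) + κ * (1 - σ / 2) + (θ + ρ) * d * σ / 2) with he
  have he0 : 0 ≤ e := by
    have h1 : 0 ≤ κ * (1 - σ / 2) := mul_nonneg hκ0 (by linarith)
    have h2 : 0 ≤ (θ + ρ) * d * σ / 2 := by
      have : 0 < σ := by linarith
      positivity
    rw [he]
    linarith
  set Cs : ℝ := c₀ * (C₂ * (lam : ℝ) ^ ((d : ℝ) + 1 / 2)) * W with hCs
  have hCs0 : 0 ≤ Cs := by positivity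
  set Cl : ℝ := 3 ^ (n + 1) * (C₂ * ((1 + (T + 1) * C₃) * (lam : ℝ) ^ e)) with hCl
  refine ⟨η, Cs + Cl, hη0, ?_⟩
  intro H hH A hA hAB
  have hHR : (1 : ℝ) ≤ H := by exact_mod_cast hH
  have hHR0 : (0 : ℝ) < H := by linarith
  set K : ℕ := ⌊(H : ℝ) ^ κ⌋₊ with hK
  have hKr : (K : ℝ) ≤ (H : ℝ) ^ κ := Nat.floor_le (by positivity)
  have hK1 : 1 ≤ K := by
    rw [hK]
    apply Nat.le_floor
    push_cast
    exact Real.one_le_rpow hHR hκ0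
  have hKR : (1 : ℝ) ≤ K := by exact_mod_cast hK1
  have hL1 : 1 ≤ lam * H := Nat.mul_pos (by omega) hH
  have hLR : (1 : ℝ) ≤ ((lam * H : ℕ) : ℝ) := by exact_mod_cast hL1
  have hLR0 : (0 : ℝ) < ((lam * H : ℕ) : ℝ) := by linarith
  have hHL : (H : ℝ) ≤ ((lam * H : ℕ) : ℝ) := by exact_mod_cast Nat.le_mul_of_pos_left H (by omega)
  have hLmul : ((lam * H : ℕ) : ℝ) = lam * H := by push_cast; ring
  -- weights
  have hwts : ∀ a : ℕ, 1 ≤ a → ((a : ℝ) ≤ 2 * lam * H ∨ (a : ℝ) ≤ (H : ℝ) ^ θ) →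
      (wt a : ℝ) ≤ C₁ * (2 * lam) * (H : ℝ) ^ ρ := by
    intro a ha h
    have hρθ : ρ / θ ≤ ρ := div_le_self hρ0.le hθ1
    have hρθ0 : 0 ≤ ρ / θ := by positivity
    have h2l : (1 : ℝ) ≤ 2 * lam := by linarith
    have h1 : (a : ℝ) ^ (ρ / θ) ≤ (2 * lam) * (H : ℝ) ^ ρ := by
      rcases h with h | h
      · calc (a : ℝ) ^ (ρ / θ) ≤ (2 * lam * H) ^ (ρ / θ) :=
              Real.rpow_le_rpow (Nat.cast_nonneg _) h hρθ0
          _ = (2 * (lam : ℝ)) ^ (ρ / θ) * (H : ℝ) ^ (ρ / θ) :=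
              Real.mul_rpow (by positivity) hHR0.le
          _ ≤ (2 * (lam : ℝ)) ^ (1 : ℝ) * (H : ℝ) ^ ρ := by
              refine mul_le_mul ?_ ?_ (by positivity) (by positivity)
              · exact Real.rpow_le_rpow_of_exponent_le h2l (hρθ.trans hρle)
              · exact Real.rpow_le_rpow_of_exponent_le hHR hρθ
          _ = _ := by rw [Real.rpow_one]
      · calc (a : ℝ) ^ (ρ / θ) ≤ ((H : ℝ) ^ θ) ^ (ρ / θ) :=
              Real.rpow_le_rpow (Nat.cast_nonneg _) h hρθ0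
          _ = (H : ℝ) ^ ρ := by
              rw [← Real.rpow_mul hHR0.le]
              congr 1
              field_simp
          _ ≤ _ := le_mul_of_one_le_left (by positivity) h2l
    calc (wt a : ℝ) ≤ C₁ * (a : ℝ) ^ (ρ / θ) := hwt a ha
      _ ≤ C₁ * ((2 * lam) * (H : ℝ) ^ ρ) := mul_le_mul_of_nonneg_left h1 (by linarith)
      _ = _ := by ring
  have hwtl : ∀ a : ℕ, 1 ≤ a → (a : ℝ) ≤ (H : ℝ) ^ θ → (wt a : ℝ) ≤ C₁ * (H : ℝ) ^ ρ := by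
    intro a ha h
    refine (hwt a ha).trans (mul_le_mul_of_nonneg_left ?_ (by linarith))
    calc (a : ℝ) ^ (ρ / θ) ≤ ((H : ℝ) ^ θ) ^ (ρ / θ) :=
          Real.rpow_le_rpow (Nat.cast_nonneg _) h (by positivity)
      _ = (H : ℝ) ^ ρ := by
          rw [← Real.rpow_mul hHR0.le]
          congr 1
          field_simp
  -- exceptional sets
  have hs : ∀ x : Fin (n + 1) → ℤ, ∃ V : Finset (Idx n d → ℤ), Prim x →
      nrm x ≤ 2 * (lam * H) →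
      (∀ f ∈ vbox n d H, ∀ (s : ℤ) (k : ℕ) (m : ℤ), s ≠ 0 → s.natAbs ≤ K → 1 ≤ k →
        ev x f = s * (k : ℤ) ^ 3 * m ^ 2 → f ∈ V) ∧
      (V.card : ℝ) ≤ c₀ *
        (ratio n d H (lam * H) (1 + T * wt (nrm x)) * ((lam * H : ℕ) : ℝ) ^ ((d : ℝ) + 1 / 2) *
          (K : ℝ) ^ ((1 : ℝ) / 2) * (nrm x : ℝ) ^ (-((d : ℝ) / 2))) := by
    intro x
    by_cases h : Prim x ∧ nrm x ≤ 2 * (lam * H)
    · obtain ⟨V, hV1, hV2⟩ := pt_small n d lam T hlamN hT1 H K hH hK1 x h.1 h.2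
      exact ⟨V, fun _ _ => ⟨hV1, hV2⟩⟩
    · exact ⟨∅, fun h1 h2 => absurd ⟨h1, h2⟩ h⟩
  choose Vs hVs using hs
  have hl : ∀ x : Fin (n + 1) → ℤ, ∃ V : Finset (Idx n d → ℤ), Prim x →
      2 * (lam * H) < nrm x → (∀ j, |(x j : ℝ)| ≤ (H : ℝ) ^ θ) →
      (∀ f ∈ vbox n d H, ∀ (s : ℤ) (k : ℕ) (m : ℤ), s ≠ 0 → s.natAbs ≤ K → 1 ≤ k →
        ev x f = s * (k : ℤ) ^ 3 * m ^ 2 → f ∈ V) ∧
      (V.card : ℝ) ≤ ratio n d H (lam * H) (1 + T * wt (nrm x)) * (1 + (T + 1) *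
        ((C₃ * ((lam * H : ℕ) : ℝ) ^ (μ / 8)) * (((lam * H : ℕ) : ℝ) ^ (1 - σ / 2) *
          (K : ℝ) ^ (1 - σ / 2) * ((lam * H : ℕ) : ℝ) ^ ((θ + ρ) * d * σ / 2)))) := by
    intro x
    by_cases h : Prim x ∧ 2 * (lam * H) < nrm x ∧ (∀ j, |(x j : ℝ)| ≤ (H : ℝ) ^ θ)
    · obtain ⟨hx, hx2, hx3⟩ := h
      have hxn := hx.nrm_pos
      have hxH : (nrm x : ℝ) ≤ (H : ℝ) ^ θ := nrm_le_of (by positivity) hx3
      have hxL : (nrm x : ℝ) ≤ ((lam * H : ℕ) : ℝ) ^ θ :=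
        hxH.trans (Real.rpow_le_rpow hHR0.le hHL hθ0.le)
      have hbase := base_cond d T (lam * H) (nrm x) θ hL1 hT hxn hxL
        (hlamT.trans (Nat.le_mul_of_pos_right _ hH))
      obtain ⟨V, hV1, hV2⟩ := pt_large n d lam T hlamN hT1 hd1 σ
        (C₃ * ((lam * H : ℕ) : ℝ) ^ (μ / 8)) (((lam * H : ℕ) : ℝ) ^ (1 - σ / 2) *
          (K : ℝ) ^ (1 - σ / 2) * ((lam * H : ℕ) : ℝ) ^ ((θ + ρ) * d * σ / 2)) hσ0 H K hH hK1 x hx
          hx2 hbase (fun a ha1 ha2 => by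
            refine hana (lam * H) K a hL1 hK1 (lt_of_lt_of_le hx2 ha1) ?_
            have h1 : (a : ℝ) ≤ nrm x * (1 + T * ((n + 1) * wt (nrm x))) := by exact_mod_cast ha2
            have h2 := hwtl (nrm x) hxn hxH
            have hHρ : 1 ≤ (H : ℝ) ^ ρ := Real.one_le_rpow hHR hρ0.le
            calc (a : ℝ) ≤ nrm x * (1 + T * ((n + 1) * wt (nrm x))) := h1
              _ ≤ (H : ℝ) ^ θ * (1 + T * ((n + 1) * (C₁ * (H : ℝ) ^ ρ))) := by gcongr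
              _ ≤ (H : ℝ) ^ θ * ((H : ℝ) ^ ρ * (1 + T * ((n + 1) * C₁))) := by
                  refine mul_le_mul_of_nonneg_left ?_ (by positivity)
                  generalize (H : ℝ) ^ ρ = X at hHρ
                  calc 1 + (T : ℝ) * ((n + 1) * (C₁ * X)) = 1 + X * (T * ((n + 1) * C₁)) := by ring
                    _ ≤ X + X * (T * ((n + 1) * C₁)) := add_le_add_left hHρ _
                    _ = _ := by ring
              _ ≤ (H : ℝ) ^ θ * ((H : ℝ) ^ ρ * lam) := by gcongr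
              _ = lam * (H : ℝ) ^ (θ + ρ) := by
                  rw [Real.rpow_add hHR0]
                  ring
              _ ≤ (lam : ℝ) ^ (θ + ρ) * (H : ℝ) ^ (θ + ρ) := by
                  refine mul_le_mul_of_nonneg_right ?_ (by positivity)
                  calc (lam : ℝ) = (lam : ℝ) ^ (1 : ℝ) := (Real.rpow_one _).symm
                    _ ≤ (lam : ℝ) ^ (θ + ρ) :=
                        Real.rpow_le_rpow_of_exponent_le hlamR (by linarith)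
              _ = ((lam * H : ℕ) : ℝ) ^ (θ + ρ) := by
                  rw [hLmul, Real.mul_rpow hlamR0.le hHR0.le])
      exact ⟨V, fun _ _ _ => ⟨hV1, hV2⟩⟩
    · exact ⟨∅, fun h1 h2 h3 => absurd ⟨h1, h2, h3⟩ h⟩
  choose Vl hVl using hl
  set As := A.filter (fun x => Prim x ∧ nrm x ≤ 2 * (lam * H)) with hAs
  set Al := A.filter (fun x => Prim x ∧ 2 * (lam * H) < nrm x) with hAl
  refine ⟨As.biUnion Vs ∪ Al.biUnion Vl, ?_, ?_⟩
  · intro f hf s k m hs0 hsK hk x hxA hx hN'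
    have hsK' : s.natAbs ≤ K := Nat.le_floor hsK
    rw [Finset.mem_union, Finset.mem_biUnion, Finset.mem_biUnion]
    rcases Nat.lt_or_ge (2 * (lam * H)) (nrm x) with h | h
    · right
      refine ⟨x, Finset.mem_filter.mpr ⟨hxA, hx, h⟩, ?_⟩
      exact (hVl x hx h (hAB x hxA)).1 f hf s k m hs0 hsK' hk hN'
    · left
      refine ⟨x, Finset.mem_filter.mpr ⟨hxA, hx, h⟩, ?_⟩
      exact (hVs x hx h).1 f hf s k m hs0 hsK' hk hN'
  -- exponents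
  have hKpow : ∀ t : ℝ, 0 ≤ t → (K : ℝ) ^ t ≤ (H : ℝ) ^ (κ * t) := by
    intro t ht
    rw [Real.rpow_mul hHR0.le]
    exact Real.rpow_le_rpow (Nat.cast_nonneg _) hKr ht
  set R : ℝ := (H : ℝ) ^ ((N : ℝ) - η) with hR
  have hR0 : 0 < R := by positivity
  have hrs : ∀ x ∈ A, Prim x → ratio n d H (lam * H) (1 + T * wt (nrm x)) ≤
      C₂ * (H : ℝ) ^ ((N : ℝ) + μ / 8 - (d + 1)) := by
    intro x hxA hx
    have hxH : (nrm x : ℝ) ≤ (H : ℝ) ^ θ := nrm_le_of (by positivity) (hAB x hxA)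
    have h1 := hratio H (wt (nrm x)) hH (hwts (nrm x) hx.nrm_pos (Or.inr hxH))
    rwa [hNdρ] at h1
  have hsmall : ((As.biUnion Vs).card : ℝ) ≤ Cs * R := by
    have h1 : ((As.biUnion Vs).card : ℝ) ≤ ∑ x ∈ As, ((Vs x).card : ℝ) := by
      exact_mod_cast Finset.card_biUnion_le
    have h2 : ∀ x ∈ As, ((Vs x).card : ℝ) ≤ (c₀ * (C₂ * (H : ℝ) ^ ((N : ℝ) + μ / 8 - (d + 1)) *
        ((lam * H : ℕ) : ℝ) ^ ((d : ℝ) + 1 / 2) * (K : ℝ) ^ ((1 : ℝ) / 2))) *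
          (nrm x : ℝ) ^ (-((d : ℝ) / 2)) := by
      intro x hx
      obtain ⟨hxA, hxp, hxn⟩ := Finset.mem_filter.mp hx
      refine ((hVs x hxp hxn).2).trans ?_
      have h3 := hrs x hxA hxp
      calc _ ≤ c₀ * (C₂ * (H : ℝ) ^ ((N : ℝ) + μ / 8 - (d + 1)) *
            ((lam * H : ℕ) : ℝ) ^ ((d : ℝ) + 1 / 2) * (K : ℝ) ^ ((1 : ℝ) / 2) *
            (nrm x : ℝ) ^ (-((d : ℝ) / 2))) := by gcongr
        _ = _ := by ring
    have h3 : ∑ x ∈ As, (nrm x : ℝ) ^ (-((d : ℝ) / 2)) ≤ W :=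
      hsum d (2 * (lam * H)) hd As (fun x hx => by
        obtain ⟨hxA, hxp, hxn⟩ := Finset.mem_filter.mp hx
        exact ⟨hxp.nrm_pos, hxn⟩)
    have h3' : 0 ≤ ∑ x ∈ As, (nrm x : ℝ) ^ (-((d : ℝ) / 2)) :=
      Finset.sum_nonneg fun x _ => Real.rpow_nonneg (Nat.cast_nonneg _) _
    have h1' : ((As.biUnion Vs).card : ℝ) ≤ (c₀ * (C₂ * (H : ℝ) ^ ((N : ℝ) + μ / 8 - (d + 1)) *
        ((lam * H : ℕ) : ℝ) ^ ((d : ℝ) + 1 / 2) * (K : ℝ) ^ ((1 : ℝ) / 2))) *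
          ∑ x ∈ As, (nrm x : ℝ) ^ (-((d : ℝ) / 2)) := by
      refine h1.trans ((Finset.sum_le_sum h2).trans (le_of_eq ?_))
      rw [Finset.mul_sum]
    generalize ∑ x ∈ As, (nrm x : ℝ) ^ (-((d : ℝ) / 2)) = X at h3 h3' h1'
    calc ((As.biUnion Vs).card : ℝ) ≤ _ := h1'
      _ ≤ (c₀ * (C₂ * (H : ℝ) ^ ((N : ℝ) + μ / 8 - (d + 1)) *
        ((lam : ℝ) ^ ((d : ℝ) + 1 / 2) * (H : ℝ) ^ ((d : ℝ) + 1 / 2)) *
          (H : ℝ) ^ (κ * ((1 : ℝ) / 2)))) * W := by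
          have h4 := hKpow (1 / 2) (by norm_num)
          rw [hLmul, Real.mul_rpow hlamR0.le hHR0.le]
          gcongr
      _ = Cs * (H : ℝ) ^ (((N : ℝ) + μ / 8 - (d + 1)) + (((d : ℝ) + 1 / 2) +
          κ * ((1 : ℝ) / 2))) := by
          rw [Real.rpow_add hHR0 ((N : ℝ) + μ / 8 - (d + 1)),
            Real.rpow_add hHR0 ((d : ℝ) + 1 / 2), hCs]
          ring
      _ ≤ Cs * R := by
          rw [hR]
          refine mul_le_mul_of_nonneg_left ?_ hCs0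
          refine Real.rpow_le_rpow_of_exponent_le hHR ?_
          linarith
  have hlarge : ((Al.biUnion Vl).card : ℝ) ≤ Cl * R := by
    have h1 : ((Al.biUnion Vl).card : ℝ) ≤ ∑ x ∈ Al, ((Vl x).card : ℝ) := by
      exact_mod_cast Finset.card_biUnion_le
    have hE : (1 + ((T : ℝ) + 1) *
        ((C₃ * ((lam * H : ℕ) : ℝ) ^ (μ / 8)) * (((lam * H : ℕ) : ℝ) ^ (1 - σ / 2) *
          (K : ℝ) ^ (1 - σ / 2) * ((lam * H : ℕ) : ℝ) ^ ((θ + ρ) * d * σ / 2)))) ≤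
        (1 + (T + 1) * C₃) * ((lam : ℝ) ^ e * (H : ℝ) ^ e) := by
      have h2 : ((lam * H : ℕ) : ℝ) ^ (μ / 8) * (((lam * H : ℕ) : ℝ) ^ (1 - σ / 2) *
          (K : ℝ) ^ (1 - σ / 2) * ((lam * H : ℕ) : ℝ) ^ ((θ + ρ) * d * σ / 2)) ≤
          ((lam * H : ℕ) : ℝ) ^ e := by
        have h3 : (K : ℝ) ^ (1 - σ / 2) ≤ ((lam * H : ℕ) : ℝ) ^ (κ * (1 - σ / 2)) :=
          (hKpow _ (by linarith)).trans
            (Real.rpow_le_rpow hHR0.le hHL (mul_nonneg hκ0 (by linarith)))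
        calc _ ≤ ((lam * H : ℕ) : ℝ) ^ (μ / 8) * (((lam * H : ℕ) : ℝ) ^ (1 - σ / 2) *
          ((lam * H : ℕ) : ℝ) ^ (κ * (1 - σ / 2)) *
            ((lam * H : ℕ) : ℝ) ^ ((θ + ρ) * d * σ / 2)) := by gcongr
          _ = _ := by
            rw [he, Real.rpow_add hLR0, Real.rpow_add hLR0, Real.rpow_add hLR0]
      have h4 : 1 ≤ ((lam * H : ℕ) : ℝ) ^ e := Real.one_le_rpow hLR he0
      calc _ = 1 + ((T : ℝ) + 1) * C₃ * (((lam * H : ℕ) : ℝ) ^ (μ / 8) *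
            (((lam * H : ℕ) : ℝ) ^ (1 - σ / 2) *
            (K : ℝ) ^ (1 - σ / 2) * ((lam * H : ℕ) : ℝ) ^ ((θ + ρ) * d * σ / 2))) := by ring
        _ ≤ ((lam * H : ℕ) : ℝ) ^ e + ((T : ℝ) + 1) * C₃ * ((lam * H : ℕ) : ℝ) ^ e := by
            gcongr
        _ = (1 + (T + 1) * C₃) * ((lam * H : ℕ) : ℝ) ^ e := by ring
        _ = _ := by rw [hLmul, Real.mul_rpow hlamR0.le hHR0.le]
    have h2 : ∀ x ∈ Al, ((Vl x).card : ℝ) ≤ C₂ * (H : ℝ) ^ ((N : ℝ) + μ / 8 - (d + 1)) *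
        ((1 + (T + 1) * C₃) * ((lam : ℝ) ^ e * (H : ℝ) ^ e)) := by
      intro x hx
      obtain ⟨hxA, hxp, hxn⟩ := Finset.mem_filter.mp hx
      refine ((hVl x hxp hxn (hAB x hxA)).2).trans ?_
      refine mul_le_mul (hrs x hxA hxp) hE (by positivity) (by positivity)
    have hAlc : (Al.card : ℝ) ≤ 3 ^ (n + 1) * (H : ℝ) ^ φ := by
      refine le_trans ?_ hA
      exact_mod_cast Finset.card_filter_le _ _
    calc ((Al.biUnion Vl).card : ℝ) ≤ ∑ x ∈ Al, ((Vl x).card : ℝ) := h1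
      _ ≤ ∑ _x ∈ Al, C₂ * (H : ℝ) ^ ((N : ℝ) + μ / 8 - (d + 1)) *
        ((1 + (T + 1) * C₃) * ((lam : ℝ) ^ e * (H : ℝ) ^ e)) := Finset.sum_le_sum h2
      _ = Al.card * (C₂ * (H : ℝ) ^ ((N : ℝ) + μ / 8 - (d + 1)) *
        ((1 + (T + 1) * C₃) * ((lam : ℝ) ^ e * (H : ℝ) ^ e))) := by
          rw [Finset.sum_const, nsmul_eq_mul]
      _ ≤ (3 ^ (n + 1) * (H : ℝ) ^ φ) * (C₂ * (H : ℝ) ^ ((N : ℝ) + μ / 8 - (d + 1)) *
        ((1 + (T + 1) * C₃) * ((lam : ℝ) ^ e * (H : ℝ) ^ e))) := by gcongr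
      _ = Cl * (H : ℝ) ^ (φ + (((N : ℝ) + μ / 8 - (d + 1)) + e)) := by
          rw [Real.rpow_add hHR0 φ, Real.rpow_add hHR0 ((N : ℝ) + μ / 8 - (d + 1)), hCl]
          ring
      _ ≤ Cl * R := by
          rw [hR]
          refine mul_le_mul_of_nonneg_left ?_ (by positivity)
          refine Real.rpow_le_rpow_of_exponent_le hHR ?_
          have h5 : ρ * d * σ / 2 ≤ μ / 16 := by
            have h6 : ρ * d * σ ≤ ρ * d * 1 := mul_le_mul_of_nonneg_left hσ1 (by positivity)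
            linarith
          have h7 : e = μ / 8 + (1 + κ) * (1 - σ / 2) + θ * d * σ / 2 + ρ * d * σ / 2 := by
            rw [he]
            ring
          rw [h7]
          rw [hgap] at hμ1 hη1
          linarith
  have h3 := Finset.card_union_le (As.biUnion Vs) (Al.biUnion Vl)
  calc ((As.biUnion Vs ∪ Al.biUnion Vl).card : ℝ)
      ≤ ((As.biUnion Vs).card : ℝ) + ((Al.biUnion Vl).card : ℝ) := by exact_mod_cast h3
    _ ≤ Cs * R + Cl * R := add_le_add hsmall hlarge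
    _ = _ := by ring

end Pool.Agent.TH390.Tw
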