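import Pool.Agent.TH390.Tw.M7

set_option autoImplicit false

namespace Pool.Agent.TH390.Tw

open Finset

/-- `c = w ^ M * t` with `t` dividing a power of `Y`, if the primes which divide `c`, but to an
exponent not divisible by `M`, divide `Y w` -/
theorem pow_decomp (M : ℕ) (hM : 1 ≤ M) (c q : ℕ) (hc : c ≠ 0) :
    ∃ w t : ℕ, c = w ^ M * t ∧
      ((∀ p : ℕ, p.Prime → ¬ p ∣ q → p ∣ c → p ^ M ∣ c) → t ∣ (w * q) ^ (M - 1)) ∧
      ((∀ p : ℕ, p.Prime → p ∣ c → p ∣ q) → t ∣ q ^ (M - 1)) := by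
  classical
  set w := ∏ p ∈ c.primeFactors, p ^ (c.factorization p / M) with hw
  set t := ∏ p ∈ c.primeFactors, p ^ (c.factorization p % M) with ht
  have hct : c = w ^ M * t := by
    rw [hw, ht, ← Finset.prod_pow, ← Finset.prod_mul_distrib]
    conv_lhs => rw [← Nat.prod_factorization_pow_eq_self hc]
    rw [Finsupp.prod, Nat.support_factorization]
    refine Finset.prod_congr rfl fun p _ => ?_
    rw [← pow_mul, ← pow_add, mul_comm, Nat.div_add_mod]
  have hdv : ∀ Y : ℕ, (∀ p ∈ c.primeFactors, c.factorization p % M ≠ 0 → p ∣ Y) →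
      t ∣ Y ^ (M - 1) := by
    intro Y hY
    rw [ht]
    refine Finset.prod_dvd_of_isRelPrime ?_ ?_
    · intro p hp p' hp' hne
      have h1 := Nat.prime_of_mem_primeFactors (Finset.mem_coe.mp hp)
      have h2 := Nat.prime_of_mem_primeFactors (Finset.mem_coe.mp hp')
      have h3 : Nat.Coprime p p' := (Nat.coprime_primes h1 h2).mpr hne
      exact Nat.coprime_iff_isRelPrime.mp (h3.pow _ _)
    · intro p hp
      by_cases h0 : c.factorization p % M = 0
      · rw [h0, pow_zero]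
        exact one_dvd _
      · have h1 : c.factorization p % M ≤ M - 1 := by
          have := Nat.mod_lt (c.factorization p) (by omega : M > 0)
          omega
        exact (pow_dvd_pow_of_dvd (hY p hp h0) _).trans (pow_dvd_pow _ h1)
  refine ⟨w, t, hct, ?_, ?_⟩
  · intro h
    apply hdv
    intro p hp h0
    have hpp := Nat.prime_of_mem_primeFactors hp
    have hpc := Nat.dvd_of_mem_primeFactors hp
    by_cases hq : p ∣ q
    · exact hq.mul_left _
    · have h1 := h p hpp hq hpc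
      have h2 : M ≤ c.factorization p := (hpp.pow_dvd_iff_le_factorization hc).mp h1
      have h3 : c.factorization p / M ≠ 0 := by
        have := Nat.div_pos h2 (by omega)
        omega
      have h4 : p ∣ w := by
        rw [hw]
        exact (dvd_pow_self p h3).trans (Finset.dvd_prod_of_mem
          (fun p => p ^ (c.factorization p / M)) hp)
      exact h4.mul_right _
  · intro h
    apply hdv
    intro p hp _
    exact h p (Nat.prime_of_mem_primeFactors hp) (Nat.dvd_of_mem_primeFactors hp)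

/-- the integers of absolute value at most `X` which are nonzero and `e`-full away from `q` -/
noncomputable def cA (e q X : ℕ) : Finset ℤ := by
  classical
  exact (Icc (-(X : ℤ)) X).filter (fun c => c ≠ 0 ∧
    ∀ p : ℕ, p.Prime → ¬ p ∣ q → (p : ℤ) ∣ c → (p : ℤ) ^ e ∣ c)

/-- the nonzero integers of absolute value at most `X` whose prime factors divide `q` -/
noncomputable def cB (q X : ℕ) : Finset ℤ := by
  classical
  exact (Icc (-(X : ℤ)) X).filter (fun c => c ≠ 0 ∧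
    ∀ p : ℕ, p.Prime → (p : ℤ) ∣ c → p ∣ q)

theorem card_of_decomp (M X : ℕ) (hM : 1 ≤ M) (Y : ℕ → ℕ)
    (hY : ∀ w, 1 ≤ w → 1 ≤ Y w) (D : Finset ℤ)
    (hD : ∀ c ∈ D, c ≠ 0 ∧ c.natAbs ≤ X ∧ ∃ w t : ℕ, c.natAbs = w ^ M * t ∧ t ∣ Y w) (B : ℝ)
    (hB : ∀ w : ℕ, 1 ≤ w → w ≤ X → ((Y w).divisors.card : ℝ) ≤ B) (hB0 : 0 ≤ B) :
    (D.card : ℝ) ≤ 2 * (X : ℝ) ^ ((1 : ℝ) / M) * B := by
  classical
  set W : ℕ := ⌊(X : ℝ) ^ ((1 : ℝ) / M)⌋₊ with hW
  set E : Finset (Bool × (Σ _ : ℕ, ℕ)) :=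
    Finset.univ ×ˢ (Icc 1 (min W X)).sigma fun w => (Y w).divisors with hE
  have hsub : D ⊆ E.image (fun z => if z.1 then ((z.2.1 ^ M * z.2.2 : ℕ) : ℤ) else
      -((z.2.1 ^ M * z.2.2 : ℕ) : ℤ)) := by
    intro c hc
    obtain ⟨hc0, hcX, w, t, hwt, htY⟩ := hD c hc
    have hn0 : c.natAbs ≠ 0 := Int.natAbs_ne_zero.mpr hc0
    have hw0 : w ≠ 0 := by
      rintro rfl
      rw [zero_pow (by omega), zero_mul] at hwt
      exact hn0 hwt
    have ht0 : t ≠ 0 := by
      rintro rfl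
      rw [mul_zero] at hwt
      exact hn0 hwt
    have hwM : w ^ M ≤ X := by
      calc w ^ M ≤ w ^ M * t := Nat.le_mul_of_pos_right _ (by omega)
        _ = c.natAbs := hwt.symm
        _ ≤ X := hcX
    have hwX : w ≤ X := (Nat.le_self_pow (by omega) w).trans hwM
    have hwW : w ≤ W := by
      rw [hW]
      apply Nat.le_floor
      have h1 : ((w ^ M : ℕ) : ℝ) ≤ X := by exact_mod_cast hwM
      push_cast at h1
      calc (w : ℝ) = ((w : ℝ) ^ M) ^ ((1 : ℝ) / M) := by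
            rw [← Real.rpow_natCast, ← Real.rpow_mul (Nat.cast_nonneg _)]
            have : (M : ℝ) ≠ 0 := by
              have : M ≠ 0 := by omega
              exact_mod_cast this
            rw [mul_one_div_cancel this, Real.rpow_one]
        _ ≤ (X : ℝ) ^ ((1 : ℝ) / M) := Real.rpow_le_rpow (by positivity) h1 (by positivity)
    rw [Finset.mem_image]
    have hmem : (⟨w, t⟩ : Σ _ : ℕ, ℕ) ∈ (Icc 1 (min W X)).sigma fun w => (Y w).divisors := by
      rw [Finset.mem_sigma]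
      refine ⟨mem_Icc.mpr ⟨Nat.pos_of_ne_zero hw0, le_min hwW hwX⟩, ?_⟩
      rw [Nat.mem_divisors]
      refine ⟨htY, ?_⟩
      have h7 := hY w (Nat.pos_of_ne_zero hw0)
      have h8 : Y w ≠ 0 := Nat.pos_iff_ne_zero.mp h7
      exact h8
    rcases le_or_gt 0 c with h0 | h0
    · refine ⟨(true, ⟨w, t⟩), Finset.mem_product.mpr ⟨Finset.mem_univ _, hmem⟩, ?_⟩
      simp only [if_true]
      rw [← hwt]
      exact Int.natAbs_of_nonneg h0
    · refine ⟨(false, ⟨w, t⟩), Finset.mem_product.mpr ⟨Finset.mem_univ _, hmem⟩, ?_⟩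
      simp only [Bool.false_eq_true, if_false]
      rw [← hwt, Int.ofNat_natAbs_of_nonpos h0.le]
      ring
  have h1 : D.card ≤ 2 * ∑ w ∈ Icc 1 (min W X), (Y w).divisors.card := by
    refine (Finset.card_le_card hsub).trans (Finset.card_image_le.trans ?_)
    rw [hE, Finset.card_product, Finset.card_sigma]
    simp
  have h2 : ∑ w ∈ Icc 1 (min W X), ((Y w).divisors.card : ℝ) ≤ W * B := by
    calc ∑ w ∈ Icc 1 (min W X), ((Y w).divisors.card : ℝ) ≤ ∑ _w ∈ Icc 1 (min W X), B := by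
          refine Finset.sum_le_sum fun w hw => ?_
          obtain ⟨hw1, hw2⟩ := mem_Icc.mp hw
          exact hB w hw1 (hw2.trans (min_le_right _ _))
      _ = (min W X : ℕ) * B := by
          rw [Finset.sum_const, Nat.card_Icc, nsmul_eq_mul]
          simp
      _ ≤ W * B := by
          refine mul_le_mul_of_nonneg_right ?_ hB0
          exact_mod_cast min_le_left W X
  have h3 : (W : ℝ) ≤ (X : ℝ) ^ ((1 : ℝ) / M) := Nat.floor_le (by positivity)
  calc (D.card : ℝ) ≤ ((2 * ∑ w ∈ Icc 1 (min W X), (Y w).divisors.card : ℕ) : ℝ) := by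
        exact_mod_cast h1
    _ = 2 * ∑ w ∈ Icc 1 (min W X), ((Y w).divisors.card : ℝ) := by push_cast; ring
    _ ≤ 2 * (W * B) := by linarith
    _ ≤ 2 * ((X : ℝ) ^ ((1 : ℝ) / M) * B) := by
        have := mul_le_mul_of_nonneg_right h3 hB0
        linarith
    _ = _ := by ring

theorem card_cA (e : ℕ) (he : 1 ≤ e) (ε : ℝ) (hε : 0 < ε) : ∃ C : ℝ, 0 < C ∧
    ∀ q X : ℕ, 1 ≤ q → 1 ≤ X →
      ((cA e q X).card : ℝ) ≤ C * (X : ℝ) ^ ((1 : ℝ) / e) * ((X : ℝ) * q) ^ ε := by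
  classical
  have heR : (0 : ℝ) < e := by exact_mod_cast he
  obtain ⟨C, hC, hdiv⟩ := divisor_bound (ε / e) (by positivity)
  refine ⟨2 * C, by positivity, ?_⟩
  intro q X hq hX
  have hXR : (1 : ℝ) ≤ X := by exact_mod_cast hX
  have hqR : (1 : ℝ) ≤ q := by exact_mod_cast hq
  have h1 := card_of_decomp e X he (fun w => (w * q) ^ (e - 1))
    (fun w hw => Nat.one_le_pow _ _ (Nat.mul_pos (by omega) (by omega))) (cA e q X) ?_
    (C * ((X : ℝ) * q) ^ ε) ?_ (by positivity)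
  · calc ((cA e q X).card : ℝ) ≤ _ := h1
      _ = _ := by ring
  · intro c hc
    unfold cA at hc
    obtain ⟨hc1, hc2, hc3⟩ := Finset.mem_filter.mp hc
    refine ⟨hc2, ?_, ?_⟩
    · have := abs_le.mpr (mem_Icc.mp hc1)
      rw [Int.abs_eq_natAbs] at this
      exact_mod_cast this
    · obtain ⟨w, t, hwt, h2, _⟩ := pow_decomp e he c.natAbs q (Int.natAbs_ne_zero.mpr hc2)
      refine ⟨w, t, hwt, h2 ?_⟩
      intro p hp hpq hpc
      have h3 := hc3 p hp hpq (Int.natCast_dvd.mpr hpc)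
      have h4 : ((p ^ e : ℕ) : ℤ) ∣ c := by exact_mod_cast h3
      exact Int.natCast_dvd.mp h4
  · intro w hw1 hw2
    have hw0 : 1 ≤ w * q := Nat.mul_pos (by omega) (by omega)
    have h2 := hdiv ((w * q) ^ (e - 1)) (Nat.one_le_pow _ _ (by omega))
    refine h2.trans (mul_le_mul_of_nonneg_left ?_ hC.le)
    have h3 : (((w * q) ^ (e - 1) : ℕ) : ℝ) ≤ ((X : ℝ) * q) ^ (e : ℝ) := by
      rw [Real.rpow_natCast]
      have h4 : (w * q) ^ (e - 1) ≤ (X * q) ^ e :=
        (Nat.pow_le_pow_right hw0 (by omega)).trans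
          (Nat.pow_le_pow_left (Nat.mul_le_mul_right _ hw2) _)
      exact_mod_cast h4
    calc ((((w * q) ^ (e - 1) : ℕ) : ℝ)) ^ (ε / e) ≤ (((X : ℝ) * q) ^ (e : ℝ)) ^ (ε / e) :=
          Real.rpow_le_rpow (Nat.cast_nonneg _) h3 (by positivity)
      _ = _ := by
          rw [← Real.rpow_mul (by positivity)]
          congr 1
          field_simp

theorem card_cB (ε : ℝ) (hε : 0 < ε) : ∃ C : ℝ, 0 < C ∧
    ∀ q X : ℕ, 1 ≤ q → 1 ≤ X → ((cB q X).card : ℝ) ≤ C * ((X : ℝ) * q) ^ ε := by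
  classical
  obtain ⟨M, hM⟩ := exists_nat_ge (1 / ε)
  have hMR : (0 : ℝ) < M := lt_of_lt_of_le (by positivity) hM
  have hM1 : 1 ≤ M := by exact_mod_cast hMR
  obtain ⟨C, hC, hdiv⟩ := divisor_bound (ε / M) (by positivity)
  refine ⟨2 * C, by positivity, ?_⟩
  intro q X hq hX
  have hXR : (1 : ℝ) ≤ X := by exact_mod_cast hX
  have hqR : (1 : ℝ) ≤ q := by exact_mod_cast hq
  have h1 := card_of_decomp M X hM1 (fun _ => q ^ (M - 1))
    (fun w hw => Nat.one_le_pow _ _ (by omega)) (cB q X) ?_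
    (C * (q : ℝ) ^ ε) ?_ (by positivity)
  · calc ((cB q X).card : ℝ) ≤ 2 * (X : ℝ) ^ ((1 : ℝ) / M) * (C * (q : ℝ) ^ ε) := h1
      _ ≤ 2 * (X : ℝ) ^ ε * (C * (q : ℝ) ^ ε) := by
          have h2 : (X : ℝ) ^ ((1 : ℝ) / M) ≤ (X : ℝ) ^ ε := by
            refine Real.rpow_le_rpow_of_exponent_le hXR ?_
            rw [div_le_iff₀ hMR]
            rw [div_le_iff₀ hε] at hM
            linarith
          gcongr
      _ = _ := by
          rw [Real.mul_rpow (by positivity) (by positivity)]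
          ring
  · intro c hc
    unfold cB at hc
    obtain ⟨hc1, hc2, hc3⟩ := Finset.mem_filter.mp hc
    refine ⟨hc2, ?_, ?_⟩
    · have := abs_le.mpr (mem_Icc.mp hc1)
      rw [Int.abs_eq_natAbs] at this
      exact_mod_cast this
    · obtain ⟨w, t, hwt, _, h2⟩ := pow_decomp M hM1 c.natAbs q (Int.natAbs_ne_zero.mpr hc2)
      refine ⟨w, t, hwt, h2 ?_⟩
      intro p hp hpc
      exact hc3 p hp (Int.natCast_dvd.mpr hpc)
  · intro w hw1 hw2
    have h2 := hdiv (q ^ (M - 1)) (Nat.one_le_pow _ _ (by omega))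
    refine h2.trans (mul_le_mul_of_nonneg_left ?_ hC.le)
    have h3 : ((q ^ (M - 1) : ℕ) : ℝ) ≤ (q : ℝ) ^ (M : ℝ) := by
      rw [Real.rpow_natCast]
      have h4 : q ^ (M - 1) ≤ q ^ M := Nat.pow_le_pow_right (by omega) (by omega)
      exact_mod_cast h4
    calc (((q ^ (M - 1) : ℕ) : ℝ)) ^ (ε / M) ≤ ((q : ℝ) ^ (M : ℝ)) ^ (ε / M) :=
          Real.rpow_le_rpow (Nat.cast_nonneg _) h3 (by positivity)
      _ = _ := by
          rw [← Real.rpow_mul (by positivity)]
          congr 1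
          field_simp

/-- the sum over primitive vectors -/
theorem sum_nrm' (n : ℕ) (s : ℝ) (hs : (n : ℝ) + 1 < s) : ∃ W : ℝ, 0 < W ∧
    ∀ P : Finset (Fin (n + 1) → ℤ), (∀ x ∈ P, 1 ≤ nrm x) →
      ∑ x ∈ P, (nrm x : ℝ) ^ (-s) ≤ W := by
  classical
  set s' : ℝ := s / (n + 1) with hs'
  have hs1 : 1 < s' := by
    rw [hs', lt_div_iff₀ (by positivity)]
    linarith
  set W₁ : ℝ := ∑' z : ℤ, psi s' z with hW₁
  have hW₁0 : 0 ≤ W₁ := tsum_nonneg fun z => psi_nonneg s' z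
  refine ⟨W₁ ^ (n + 1) + 1, by positivity, ?_⟩
  intro P hP
  have h1 : ∀ x ∈ P, (nrm x : ℝ) ^ (-s) ≤ ∏ j, psi s' (x j) := by
    intro x hx
    have hx1 := hP x hx
    have hxR : (1 : ℝ) ≤ nrm x := by exact_mod_cast hx1
    have hxR0 : (0 : ℝ) < nrm x := by linarith
    have h2 : ∀ j, (nrm x : ℝ) ^ (-s') ≤ psi s' (x j) := by
      intro j
      unfold psi
      by_cases h0 : x j = 0
      · rw [if_pos h0]
        have h3 : (nrm x : ℝ) ^ (-s') ≤ 1 := Real.rpow_le_one_of_one_le_of_nonpos hxR (by linarith)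
        have h4 : (0 : ℝ) ≤ |(x j : ℝ)| ^ (-s') := by positivity
        linarith
      · rw [if_neg h0, add_zero]
        have h3 : |(x j : ℝ)| ≤ nrm x := by exact_mod_cast le_nrm x j
        have h4 : (0 : ℝ) < |(x j : ℝ)| := abs_pos.mpr (by exact_mod_cast h0)
        exact Real.rpow_le_rpow_of_nonpos h4 h3 (by linarith)
    calc (nrm x : ℝ) ^ (-s) = ((nrm x : ℝ) ^ (-s')) ^ (n + 1) := by
          rw [← Real.rpow_natCast, ← Real.rpow_mul hxR0.le]
          congr 1
          rw [hs']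
          push_cast
          field_simp
      _ = ∏ _j : Fin (n + 1), (nrm x : ℝ) ^ (-s') := by
          rw [Finset.prod_const, Finset.card_univ, Fintype.card_fin]
      _ ≤ ∏ j, psi s' (x j) := Finset.prod_le_prod (fun _ _ => by positivity) (fun j _ => h2 j)
  set M : ℕ := P.sup nrm with hM
  have hsub : P ⊆ Fintype.piFinset fun _ : Fin (n + 1) => Icc (-(M : ℤ)) M := by
    intro x hx
    rw [Fintype.mem_piFinset]
    intro j
    have h2 : nrm x ≤ M := Finset.le_sup (f := nrm) hx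
    have h3 := (le_nrm x j).trans (by exact_mod_cast h2 : (nrm x : ℤ) ≤ (M : ℤ))
    exact mem_Icc.mpr (abs_le.mp h3)
  calc ∑ x ∈ P, (nrm x : ℝ) ^ (-s) ≤ ∑ x ∈ P, ∏ j, psi s' (x j) :=
        Finset.sum_le_sum h1
    _ ≤ ∑ x ∈ Fintype.piFinset fun _ : Fin (n + 1) => Icc (-(M : ℤ)) M, ∏ j, psi s' (x j) :=
        Finset.sum_le_sum_of_subset_of_nonneg hsub
          (fun x _ _ => Finset.prod_nonneg fun j _ => psi_nonneg s' _)
    _ = ∏ _j : Fin (n + 1), ∑ z ∈ Icc (-(M : ℤ)) M, psi s' z :=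
        (Finset.prod_univ_sum _ _).symm
    _ ≤ ∏ _j : Fin (n + 1), W₁ := by
        refine Finset.prod_le_prod (fun _ _ => Finset.sum_nonneg fun z _ => psi_nonneg s' z)
          (fun _ _ => ?_)
        exact (psi_summable s' hs1).sum_le_tsum _ (fun z _ => psi_nonneg s' z)
    _ = W₁ ^ (n + 1) := by rw [Finset.prod_const, Finset.card_univ, Fintype.card_fin]
    _ ≤ W₁ ^ (n + 1) + 1 := by linarith

end Pool.Agent.TH390.Tw
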