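import Pool.Agent.TH390.Tw.N1

set_option autoImplicit false

namespace Pool.Agent.TH390.Tw

open Finset

/-- the forms with value `c` at `x` -/
noncomputable def valFib (n d H : ℕ) (x : Fin (n + 1) → ℤ) (c : ℤ) : Finset (Idx n d → ℤ) := by
  classical
  exact (vbox n d H).filter (fun f => ev x f = c)

/-- the bound for the fibres -/
noncomputable def fb (L a d : ℕ) : ℝ := if a ≤ 2 * L then ((4 * L : ℝ) / a) ^ d else 1

theorem fb_nonneg (L a d : ℕ) : 0 ≤ fb L a d := by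
  unfold fb
  split_ifs
  · positivity
  · norm_num

theorem card_valFib (n d H L : ℕ) (x : Fin (n + 1) → ℤ) (hx : Prim x) (c : ℤ) :
    ((valFib n d H x c).card : ℝ) ≤ ratio n d H L (1 + 1 * wt (nrm x)) * fb L (nrm x) d := by
  classical
  obtain ⟨a, b, α, β, ha₀, hxa, hxa', hα, hβ, hax, hbx, hcop, _⟩ := dirs x hx
  have hnrm := nrm_eq x a hxa hxa'
  rw [hnrm]
  have hwt := one_le_wt a
  have hα1 : ∀ j, |α j| ≤ ((1 + 1 * wt a : ℕ) : ℤ) := fun j => (hα j).trans (by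
    push_cast
    have : (0 : ℤ) ≤ wt a := Int.natCast_nonneg _
    linarith)
  have hβ1 : ∀ j, |β j| ≤ ((1 + 1 * wt a : ℕ) : ℤ) := fun j => (hβ j).trans (by
    push_cast
    linarith)
  have hsub : valFib n d H x c ⊆ vbox n d H := by
    unfold valFib
    exact Finset.filter_subset _ _
  refine card_avg H _ L α β (1 + 1 * wt a) hα1 hβ1 (le_refl _) (valFib n d H x c) hsub
    (fb L a d) ?_
  intro R G hG hGS
  have hw : ∀ i, IsCoprime ((fun i => b ^ (d - i)) i : ℤ) (a : ℤ) := fun i =>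
    hcop.symm.pow_left
  have hwn : (fun i => b ^ (d - i)) d ≠ (0 : ℤ) := by simp
  have hGsub : G ⊆ (box (d + 1) L).filter (fun g => val a (fun i => b ^ (d - i)) (d + 1) g =
      c - ev x R) := by
    intro g hg
    rw [Finset.mem_filter]
    refine ⟨hG hg, ?_⟩
    have h2 := hGS g hg
    unfold valFib at h2
    have h3 := (Finset.mem_filter.mp h2).2
    rw [ev_translate hax hbx] at h3
    rw [← frm_eq_val]
    linarith
  have hGc : (G.card : ℝ) ≤ (((box (d + 1) L).filter (fun g =>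
      val a (fun i => b ^ (d - i)) (d + 1) g = c - ev x R)).card : ℝ) := by
    exact_mod_cast Finset.card_le_card hGsub
  refine hGc.trans ?_
  unfold fb
  split_ifs with h
  · exact card_sol L a ha₀ (4 * L / a) (by positivity) (card_digit L a ha₀ h) d _ hw hwn _
  · have h1 := card_sol L a ha₀ 1 zero_le_one (card_digit_one L a (by omega)) d _ hw hwn
      (c - ev x R)
    rwa [one_pow] at h1

/-- the admissible values of the `i`-th form -/
noncomputable def cset {r : ℕ} (e : Fin r → ℕ) (J : Finset (Fin r)) (q ρ X : ℕ) (i : Fin r) :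
    Finset ℤ := by
  classical
  exact if i ∈ J then cB (q * ρ) X else insert 0 (cA (e i) q X)

/-- the weight of the `i`-th form -/
noncomputable def uw {r : ℕ} (e : Fin r → ℕ) (J : Finset (Fin r)) (i : Fin r) : ℝ := by
  classical
  exact if i ∈ J then 0 else 1 / (e i : ℝ)

theorem uw_nonneg {r : ℕ} (e : Fin r → ℕ) (J : Finset (Fin r)) (i : Fin r) : 0 ≤ uw e J i := by
  unfold uw
  split_ifs
  · exact le_refl _
  · positivity

theorem card_cset {r : ℕ} (e : Fin r → ℕ) (he : ∀ i, 1 ≤ e i) (J : Finset (Fin r)) (ε : ℝ)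
    (hε : 0 < ε) (i : Fin r) : ∃ C : ℝ, 0 < C ∧ ∀ q ρ X : ℕ, 1 ≤ q → 1 ≤ ρ → 1 ≤ X →
      ((cset e J q ρ X i).card : ℝ) ≤ C * (X : ℝ) ^ uw e J i * ((X : ℝ) * q * ρ) ^ ε := by
  classical
  by_cases hi : i ∈ J
  · obtain ⟨C, hC, h⟩ := card_cB ε hε
    refine ⟨C, hC, ?_⟩
    intro q ρ X hq hρ hX
    have h1 := h (q * ρ) X (Nat.mul_pos (by omega) (by omega)) hX
    unfold cset uw
    rw [if_pos hi, if_pos hi, Real.rpow_zero, mul_one]
    refine h1.trans (le_of_eq ?_)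
    push_cast
    rw [mul_assoc]
  · obtain ⟨C, hC, h⟩ := card_cA (e i) (he i) ε hε
    refine ⟨1 + C, by linarith, ?_⟩
    intro q ρ X hq hρ hX
    have h1 := h q X hq hX
    have hXR : (1 : ℝ) ≤ X := by exact_mod_cast hX
    have hqR : (1 : ℝ) ≤ q := by exact_mod_cast hq
    have hρR : (1 : ℝ) ≤ ρ := by exact_mod_cast hρ
    unfold cset uw
    rw [if_neg hi, if_neg hi]
    have h2 : ((insert 0 (cA (e i) q X)).card : ℝ) ≤ 1 + ((cA (e i) q X).card : ℝ) := by
      have := Finset.card_insert_le (0 : ℤ) (cA (e i) q X)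
      have h3 : ((insert 0 (cA (e i) q X)).card : ℝ) ≤ (((cA (e i) q X).card + 1 : ℕ) : ℝ) := by
        exact_mod_cast this
      push_cast at h3
      linarith
    have hA1 : 1 ≤ (X : ℝ) ^ (1 / (e i : ℝ)) := Real.one_le_rpow hXR (by positivity)
    have hqρ : (1 : ℝ) ≤ (X : ℝ) * q * ρ :=
      one_le_mul_of_one_le_of_one_le (one_le_mul_of_one_le_of_one_le hXR hqR) hρR
    have hA2 : 1 ≤ ((X : ℝ) * q * ρ) ^ ε := Real.one_le_rpow hqρ hε.le
    have hA3 : ((X : ℝ) * q) ^ ε ≤ ((X : ℝ) * q * ρ) ^ ε :=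
      Real.rpow_le_rpow (by positivity) (le_mul_of_one_le_right (by positivity) hρR) hε.le
    calc ((insert 0 (cA (e i) q X)).card : ℝ) ≤ 1 + ((cA (e i) q X).card : ℝ) := h2
      _ ≤ 1 * ((X : ℝ) ^ (1 / (e i : ℝ)) * ((X : ℝ) * q * ρ) ^ ε) +
          C * (X : ℝ) ^ ((1 : ℝ) / (e i : ℝ)) * ((X : ℝ) * q * ρ) ^ ε := by
          refine add_le_add ?_ (h1.trans ?_)
          · rw [one_mul]
            exact one_le_mul_of_one_le_of_one_le hA1 hA2
          · exact mul_le_mul_of_nonneg_left hA3 (by positivity)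
      _ = _ := by ring

/-- the exceptional tuples for the point `x` -/
noncomputable def VV (n : ℕ) {r : ℕ} (d e : Fin r → ℕ) (J : Finset (Fin r)) (H L K R : ℕ)
    (x : Fin (n + 1) → ℤ) : Finset (∀ i : Fin r, Idx n (d i) → ℤ) := by
  classical
  exact (Icc 1 K ×ˢ Icc 1 R).biUnion fun z => Fintype.piFinset fun i =>
    (cset e J z.1 z.2 (L * nrm x ^ d i) i).biUnion fun c => valFib n (d i) H x c

theorem mem_VV (n : ℕ) {r : ℕ} (d e : Fin r → ℕ) (J : Finset (Fin r)) (H L K R : ℕ)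
    (hNL : ∀ i, (n + d i).choose n * H ≤ L) (x : Fin (n + 1) → ℤ)
    (f : ∀ i : Fin r, Idx n (d i) → ℤ) (hf : ∀ i, f i ∈ vbox n (d i) H) (q ρ : ℕ)
    (hq : 1 ≤ q) (hqK : q ≤ K) (hρ : 1 ≤ ρ) (hρR : ρ ≤ R)
    (h1 : ∀ i, i ∉ J → ∀ p : ℕ, p.Prime → ¬ p ∣ q → (p : ℤ) ∣ ev x (f i) →
      (p : ℤ) ^ e i ∣ ev x (f i))
    (h2 : ∀ i ∈ J, ev x (f i) ≠ 0 ∧ ∀ p : ℕ, p.Prime → (p : ℤ) ∣ ev x (f i) → p ∣ q * ρ) :
    f ∈ VV n d e J H L K R x := by
  classical
  unfold VV
  rw [Finset.mem_biUnion]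
  refine ⟨(q, ρ), Finset.mem_product.mpr ⟨mem_Icc.mpr ⟨hq, hqK⟩, mem_Icc.mpr ⟨hρ, hρR⟩⟩, ?_⟩
  rw [Fintype.mem_piFinset]
  intro i
  rw [Finset.mem_biUnion]
  refine ⟨ev x (f i), ?_, ?_⟩
  · have hle : |ev x (f i)| ≤ ((L * nrm x ^ d i : ℕ) : ℤ) := by
      refine (abs_ev_le H (nrm x) x (le_nrm x) (f i) (hf i)).trans ?_
      exact_mod_cast Nat.mul_le_mul_right _ (hNL i)
    have hIcc := mem_Icc.mpr (abs_le.mp hle)
    unfold cset
    split_ifs with hi
    · obtain ⟨h3, h4⟩ := h2 i hi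
      unfold cB
      exact Finset.mem_filter.mpr ⟨hIcc, h3, h4⟩
    · rw [Finset.mem_insert]
      by_cases h0 : ev x (f i) = 0
      · exact Or.inl h0
      · right
        unfold cA
        exact Finset.mem_filter.mpr ⟨hIcc, h0, h1 i hi⟩
  · unfold valFib
    exact Finset.mem_filter.mpr ⟨hf i, rfl⟩

theorem card_VV (n : ℕ) {r : ℕ} (d e : Fin r → ℕ) (he : ∀ i, 1 ≤ e i) (J : Finset (Fin r))
    (ε : ℝ) (hε : 0 < ε) : ∃ C : ℝ, 0 < C ∧ ∀ (H L K R : ℕ) (x : Fin (n + 1) → ℤ) (Y : ℝ),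
      Prim x → 1 ≤ L → (∀ i, ((L * nrm x ^ d i : ℕ) : ℝ) * K * R ≤ Y) → 0 ≤ Y →
      ((VV n d e J H L K R x).card : ℝ) ≤ C * (K * R) * Y ^ (r * ε) *
        ∏ i, (((L * nrm x ^ d i : ℕ) : ℝ) ^ uw e J i *
          (ratio n (d i) H L (1 + 1 * wt (nrm x)) * fb L (nrm x) (d i))) := by
  classical
  choose C hC hcard using fun i => card_cset e he J ε hε i
  refine ⟨∏ i, C i, Finset.prod_pos fun i _ => hC i, ?_⟩
  intro H L K R x Y hx hL hY hY0
  have hxn := hx.nrm_pos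
  have hz : ∀ z ∈ Icc 1 K ×ˢ Icc 1 R, (((Fintype.piFinset fun i =>
      (cset e J z.1 z.2 (L * nrm x ^ d i) i).biUnion fun c => valFib n (d i) H x c)).card : ℝ) ≤
      (∏ i, C i) * Y ^ (r * ε) * ∏ i, (((L * nrm x ^ d i : ℕ) : ℝ) ^ uw e J i *
          (ratio n (d i) H L (1 + 1 * wt (nrm x)) * fb L (nrm x) (d i))) := by
    intro z hz
    obtain ⟨hz1, hz2⟩ := Finset.mem_product.mp hz
    obtain ⟨hz1a, hz1b⟩ := mem_Icc.mp hz1
    obtain ⟨hz2a, hz2b⟩ := mem_Icc.mp hz2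
    have hi : ∀ i, (((cset e J z.1 z.2 (L * nrm x ^ d i) i).biUnion
        fun c => valFib n (d i) H x c).card : ℝ) ≤ C i * Y ^ ε *
          (((L * nrm x ^ d i : ℕ) : ℝ) ^ uw e J i *
          (ratio n (d i) H L (1 + 1 * wt (nrm x)) * fb L (nrm x) (d i))) := by
      intro i
      have hr := ratio_nonneg n (d i) H L (1 + 1 * wt (nrm x))
      have hf := fb_nonneg L (nrm x) (d i)
      have hX1 : 1 ≤ L * nrm x ^ d i := Nat.mul_pos (by omega) (by positivity)
      have h1 := hcard i z.1 z.2 (L * nrm x ^ d i) hz1a hz2a hX1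
      have h2 : (((L * nrm x ^ d i : ℕ) : ℝ) * z.1 * z.2) ^ ε ≤ Y ^ ε := by
        refine Real.rpow_le_rpow (by positivity) ((hY i).trans' ?_) hε.le
        have h3 : (z.1 : ℝ) ≤ K := by exact_mod_cast hz1b
        have h4 : (z.2 : ℝ) ≤ R := by exact_mod_cast hz2b
        gcongr
      calc (((cset e J z.1 z.2 (L * nrm x ^ d i) i).biUnion
            fun c => valFib n (d i) H x c).card : ℝ)
          ≤ ∑ c ∈ cset e J z.1 z.2 (L * nrm x ^ d i) i, ((valFib n (d i) H x c).card : ℝ) := by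
            exact_mod_cast Finset.card_biUnion_le
        _ ≤ ∑ _c ∈ cset e J z.1 z.2 (L * nrm x ^ d i) i,
            ratio n (d i) H L (1 + 1 * wt (nrm x)) * fb L (nrm x) (d i) :=
            Finset.sum_le_sum fun c _ => card_valFib n (d i) H L x hx c
        _ = ((cset e J z.1 z.2 (L * nrm x ^ d i) i).card : ℝ) *
            (ratio n (d i) H L (1 + 1 * wt (nrm x)) * fb L (nrm x) (d i)) := by
            rw [Finset.sum_const, nsmul_eq_mul]
        _ ≤ (C i * ((L * nrm x ^ d i : ℕ) : ℝ) ^ uw e J i * Y ^ ε) *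
            (ratio n (d i) H L (1 + 1 * wt (nrm x)) * fb L (nrm x) (d i)) := by
            refine mul_le_mul_of_nonneg_right (h1.trans ?_) (mul_nonneg hr hf)
            exact mul_le_mul_of_nonneg_left h2
              (mul_nonneg (hC i).le (Real.rpow_nonneg (Nat.cast_nonneg _) _))
        _ = _ := by ring
    rw [Fintype.card_piFinset]
    push_cast
    calc ∏ i, (((cset e J z.1 z.2 (L * nrm x ^ d i) i).biUnion
            fun c => valFib n (d i) H x c).card : ℝ)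
        ≤ ∏ i, (C i * Y ^ ε * (((L * nrm x ^ d i : ℕ) : ℝ) ^ uw e J i *
          (ratio n (d i) H L (1 + 1 * wt (nrm x)) * fb L (nrm x) (d i)))) :=
          Finset.prod_le_prod (fun i _ => Nat.cast_nonneg _) (fun i _ => hi i)
      _ = _ := by
          rw [Finset.prod_mul_distrib, Finset.prod_mul_distrib, Finset.prod_const,
            Finset.card_univ, Fintype.card_fin, ← Real.rpow_natCast (Y ^ ε) r,
            ← Real.rpow_mul hY0, mul_comm ε]
          push_cast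
          rfl
  have hcardU : ((VV n d e J H L K R x).card : ℝ) ≤ ∑ z ∈ Icc 1 K ×ˢ Icc 1 R,
      (((Fintype.piFinset fun i => (cset e J z.1 z.2 (L * nrm x ^ d i) i).biUnion
        fun c => valFib n (d i) H x c)).card : ℝ) := by
    unfold VV
    exact_mod_cast Finset.card_biUnion_le
  refine hcardU.trans ((Finset.sum_le_sum hz).trans (le_of_eq ?_))
  rw [Finset.sum_const, Finset.card_product, Nat.card_Icc, Nat.card_Icc, nsmul_eq_mul]
  simp only [Nat.add_sub_cancel]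
  push_cast
  ring

end Pool.Agent.TH390.Tw
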