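import Pool.Agent.TH390.Tw.N2

set_option autoImplicit false

namespace Pool.Agent.TH390.Tw

open Finset

/-- one factor for a small point -/
theorem g_small (d lam H a : ℕ) (u c E ra : ℝ) (hlam : 1 ≤ lam) (hH : 1 ≤ H) (ha : 1 ≤ a)
    (hu : 0 ≤ u) (hra0 : 0 ≤ ra) (hra : ra ≤ c * (H : ℝ) ^ E) (hsm : a ≤ 2 * (lam * H)) :
    (((lam * H) * a ^ d : ℕ) : ℝ) ^ u * (ra * fb (lam * H) a d) ≤
      ((lam : ℝ) ^ u * c * (4 * lam) ^ d) * (H : ℝ) ^ (u + E + d) * (a : ℝ) ^ (-((1 - u) * d)) := by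
  have hHR : (0 : ℝ) < H := by exact_mod_cast hH
  have haR : (0 : ℝ) < a := by exact_mod_cast ha
  have hlR : (0 : ℝ) < lam := by exact_mod_cast hlam
  have e1 : (((lam * H) * a ^ d : ℕ) : ℝ) ^ u = (lam : ℝ) ^ u * (H : ℝ) ^ u *
      (a : ℝ) ^ (d * u) := by
    push_cast
    rw [Real.mul_rpow (by positivity) (by positivity), Real.mul_rpow hlR.le hHR.le,
      Real.rpow_mul haR.le, Real.rpow_natCast]
  have e2 : fb (lam * H) a d = (4 * (lam : ℝ)) ^ d * (H : ℝ) ^ (d : ℝ) * (a : ℝ) ^ (-(d : ℝ)) := by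
    unfold fb
    rw [if_pos hsm, Real.rpow_neg haR.le, Real.rpow_natCast, Real.rpow_natCast, div_pow]
    push_cast
    rw [div_eq_mul_inv, ← mul_pow]
    ring
  rw [e1, e2]
  calc (lam : ℝ) ^ u * (H : ℝ) ^ u * (a : ℝ) ^ (d * u) * (ra * ((4 * (lam : ℝ)) ^ d *
        (H : ℝ) ^ (d : ℝ) * (a : ℝ) ^ (-(d : ℝ))))
      ≤ (lam : ℝ) ^ u * (H : ℝ) ^ u * (a : ℝ) ^ (d * u) * ((c * (H : ℝ) ^ E) *
        ((4 * (lam : ℝ)) ^ d * (H : ℝ) ^ (d : ℝ) * (a : ℝ) ^ (-(d : ℝ)))) := by gcongr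
    _ = ((lam : ℝ) ^ u * c * (4 * lam) ^ d) * ((H : ℝ) ^ u * (H : ℝ) ^ E * (H : ℝ) ^ (d : ℝ)) *
        ((a : ℝ) ^ (d * u) * (a : ℝ) ^ (-(d : ℝ))) := by ring
    _ = _ := by
        rw [← Real.rpow_add hHR, ← Real.rpow_add hHR, ← Real.rpow_add haR]
        congr 2
        ring

/-- one factor for a large point -/
theorem g_large (d lam H a : ℕ) (u c E ra θ : ℝ) (hlam : 1 ≤ lam) (hH : 1 ≤ H) (ha : 1 ≤ a)
    (hu : 0 ≤ u) (hra0 : 0 ≤ ra) (hc : 0 ≤ c) (hra : ra ≤ c * (H : ℝ) ^ E)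
    (hla : 2 * (lam * H) < a) (haθ : (a : ℝ) ≤ (H : ℝ) ^ θ) :
    (((lam * H) * a ^ d : ℕ) : ℝ) ^ u * (ra * fb (lam * H) a d) ≤
      ((lam : ℝ) ^ u * c * (4 * lam) ^ d) * (H : ℝ) ^ (u + E + θ * (d * u)) := by
  have hHR : (0 : ℝ) < H := by exact_mod_cast hH
  have haR : (0 : ℝ) < a := by exact_mod_cast ha
  have hlR1 : (1 : ℝ) ≤ lam := by exact_mod_cast hlam
  have hlR : (0 : ℝ) < lam := by linarith
  have e1 : (((lam * H) * a ^ d : ℕ) : ℝ) ^ u = (lam : ℝ) ^ u * (H : ℝ) ^ u *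
      (a : ℝ) ^ (d * u) := by
    push_cast
    rw [Real.mul_rpow (by positivity) (by positivity), Real.mul_rpow hlR.le hHR.le,
      Real.rpow_mul haR.le, Real.rpow_natCast]
  have e2 : fb (lam * H) a d = 1 := by
    unfold fb
    rw [if_neg (by omega)]
  have e3 : (1 : ℝ) ≤ (4 * (lam : ℝ)) ^ d := one_le_pow₀ (by linarith)
  have e4 : (a : ℝ) ^ (d * u) ≤ (H : ℝ) ^ (θ * (d * u)) := by
    rw [Real.rpow_mul hHR.le]
    exact Real.rpow_le_rpow haR.le haθ (by positivity)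
  rw [e1, e2, mul_one]
  calc (lam : ℝ) ^ u * (H : ℝ) ^ u * (a : ℝ) ^ (d * u) * ra
      ≤ (lam : ℝ) ^ u * (H : ℝ) ^ u * (H : ℝ) ^ (θ * (d * u)) * (c * (H : ℝ) ^ E) := by gcongr
    _ = ((lam : ℝ) ^ u * c * 1) * ((H : ℝ) ^ u * (H : ℝ) ^ E * (H : ℝ) ^ (θ * (d * u))) := by ring
    _ = ((lam : ℝ) ^ u * c * 1) * (H : ℝ) ^ (u + E + θ * (d * u)) := by
        rw [← Real.rpow_add hHR, ← Real.rpow_add hHR]
    _ ≤ _ := by gcongr

theorem mainTuples (n : ℕ) {r : ℕ} (d e : Fin r → ℕ) (he : ∀ i, 1 ≤ e i) (J : Finset (Fin r))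
    (κ lm τ θ φ : ℝ) (hκ0 : 0 ≤ κ) (hlm : 0 ≤ lm) (hτ : 0 ≤ τ) (hθ : 1 ≤ θ)
    (h1 : (n : ℝ) + 1 + τ < ∑ i, (1 - uw e J i) * d i)
    (h2 : κ + lm < ∑ i, (1 - uw e J i))
    (h3 : φ + κ + lm + τ * θ + ∑ i, (1 + θ * d i) * uw e J i < ∑ i, ((d i : ℝ) + 1)) :
    ∃ η C : ℝ, 0 < η ∧ ∀ H : ℕ, 1 ≤ H → ∀ A : Finset (Fin (n + 1) → ℤ),
      (A.card : ℝ) ≤ 3 ^ (n + 1) * (H : ℝ) ^ φ →
      (∀ x ∈ A, ∀ j, |(x j : ℝ)| ≤ (H : ℝ) ^ θ) →
      ∃ V : Finset (∀ i : Fin r, Idx n (d i) → ℤ),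
      (∀ f : (∀ i : Fin r, Idx n (d i) → ℤ), (∀ i, f i ∈ vbox n (d i) H) → ∀ x ∈ A, Prim x →
        ∀ q ρ : ℕ, 1 ≤ q → (q : ℝ) ≤ (H : ℝ) ^ κ → 1 ≤ ρ →
        (ρ : ℝ) ≤ (H : ℝ) ^ lm * (nrm x : ℝ) ^ τ →
        (∀ i, i ∉ J → ∀ p : ℕ, p.Prime → ¬ p ∣ q → (p : ℤ) ∣ ev x (f i) →
          (p : ℤ) ^ e i ∣ ev x (f i)) →
        (∀ i ∈ J, ev x (f i) ≠ 0 ∧ ∀ p : ℕ, p.Prime → (p : ℤ) ∣ ev x (f i) → p ∣ q * ρ) →
        f ∈ V) ∧
      (V.card : ℝ) ≤ C * (H : ℝ) ^ (∑ i, (((n + d i).choose n : ℕ) : ℝ) - η) := by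
  classical
  have hθ0 : 0 < θ := by linarith
  -- sums
  set D : ℕ := ∑ i, d i with hD
  set SN : ℝ := ∑ i, (((n + d i).choose n : ℕ) : ℝ) with hSN
  set SND : ℝ := ∑ i, (((n + d i).choose n : ℕ) : ℝ) * d i with hSND
  set Su : ℝ := ∑ i, uw e J i with hSu
  set Sud : ℝ := ∑ i, uw e J i * d i with hSud
  have hSND0 : 0 ≤ SND := Finset.sum_nonneg fun i _ => by positivity
  have hSu0 : 0 ≤ Su := Finset.sum_nonneg fun i _ => uw_nonneg e J i
  have hSud0 : 0 ≤ Sud := Finset.sum_nonneg fun i _ =>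
    mul_nonneg (uw_nonneg e J i) (Nat.cast_nonneg _)
  have hDR : (D : ℝ) = ∑ i, (d i : ℝ) := by rw [hD]; push_cast; rfl
  have q1 : ∑ i, (1 - uw e J i) * (d i : ℝ) = D - Sud := by
    rw [hDR, hSud, ← Finset.sum_sub_distrib]
    exact Finset.sum_congr rfl fun i _ => by ring
  have q2 : ∑ i, (1 - uw e J i) = r - Su := by
    rw [hSu, Finset.sum_sub_distrib]
    simp
  have q3 : ∑ i, (1 + θ * (d i : ℝ)) * uw e J i = Su + θ * Sud := by
    rw [hSu, hSud, Finset.mul_sum, ← Finset.sum_add_distrib]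
    exact Finset.sum_congr rfl fun i _ => by ring
  have q4 : ∑ i, ((d i : ℝ) + 1) = D + r := by
    rw [hDR, Finset.sum_add_distrib]
    simp
  rw [q1] at h1
  rw [q2] at h2
  rw [q3, q4] at h3
  set μ : ℝ := min (r - Su - κ - lm) (D + r - (φ + κ + lm + τ * θ + (Su + θ * Sud))) with hμ
  have hμ0 : 0 < μ := lt_min (by linarith) (by linarith)
  have hμ1 : μ ≤ r - Su - κ - lm := min_le_left _ _
  have hμ2 : μ ≤ D + r - (φ + κ + lm + τ * θ + (Su + θ * Sud)) := min_le_right _ _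
  set ρ₀ : ℝ := min 1 (μ / (8 * (SND + 1))) with hρ₀
  have hρ0 : 0 < ρ₀ := lt_min one_pos (by positivity)
  have hρle : ρ₀ ≤ 1 := min_le_left _ _
  have hSNDρ : SND * ρ₀ ≤ μ / 8 := by
    have h4 : ρ₀ ≤ μ / (8 * (SND + 1)) := min_le_right _ _
    calc SND * ρ₀ ≤ (SND + 1) * (μ / (8 * (SND + 1))) :=
          mul_le_mul (by linarith) h4 hρ0.le (by linarith)
      _ = μ / 8 := by
          field_simp
  set B : ℝ := 1 + θ * D + κ + lm + τ * θ with hB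
  have hB0 : 0 ≤ B := by
    have : 0 ≤ θ * D := by positivity
    have : 0 ≤ τ * θ := by positivity
    rw [hB]
    linarith
  set ε : ℝ := μ / (8 * ((r + 1) * (B + 1))) with hε
  have hε0 : 0 < ε := by positivity
  have hrεB : B * (r * ε) ≤ μ / 8 := by
    have h4 : B * r ≤ (B + 1) * (r + 1) :=
      mul_le_mul (by linarith) (by linarith) (Nat.cast_nonneg _) (by linarith)
    calc B * (r * ε) = (B * r) * ε := by ring
      _ ≤ ((B + 1) * (r + 1)) * ε := mul_le_mul_of_nonneg_right h4 hε0.le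
      _ = μ / 8 := by
          rw [hε]
          field_simp
  obtain ⟨C₁, hC₁, hwt⟩ := wt_bound (ρ₀ / θ) (by positivity)
  set lam : ℕ := 1 + ∑ i, (n + d i).choose n with hlam
  have hlam1 : 1 ≤ lam := by rw [hlam]; exact Nat.le_add_right _ _
  have hlamN : ∀ i, (n + d i).choose n ≤ lam := fun i => by
    rw [hlam]
    exact (Finset.single_le_sum (f := fun i => (n + d i).choose n) (fun _ _ => Nat.zero_le _)
      (Finset.mem_univ i)).trans (Nat.le_add_left _ _)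
  clear_value lam
  have hlamR : (1 : ℝ) ≤ lam := by exact_mod_cast hlam1
  have hlamR0 : (0 : ℝ) < lam := by linarith
  have hC₆ : 1 ≤ C₁ * (2 * lam) := one_le_mul_of_one_le_of_one_le hC₁ (by linarith)
  choose Cr hCr hratio using fun i => ratio_bound n (d i) lam 1 hlam1 ρ₀ (C₁ * (2 * lam)) hρ0.le hC₆
  obtain ⟨CV, hCV, hVV⟩ := card_VV n d e he J ε hε0
  obtain ⟨W, hW, hsum⟩ := sum_nrm' n (D - Sud - τ) (by linarith)
  set CY : ℝ := lam * ((2 * lam) ^ (D : ℝ) * (2 * lam) ^ τ) with hCY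
  have hCY0 : 0 < CY := by positivity
  set cc : ℝ := ∏ i, ((lam : ℝ) ^ uw e J i * Cr i * (4 * lam) ^ d i) with hcc
  have hcc0 : 0 < cc := Finset.prod_pos fun i _ => by
    have := hCr i
    positivity
  set C₅ : ℝ := CV * CY ^ (r * ε) * cc with hC₅
  have hC₅0 : 0 < C₅ := by positivity
  refine ⟨μ / 2, C₅ * W + C₅ * 3 ^ (n + 1), by linarith, ?_⟩
  intro H hH A hA hAB
  have hHR : (1 : ℝ) ≤ H := by exact_mod_cast hH
  have hHR0 : (0 : ℝ) < H := by linarith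
  set K : ℕ := ⌊(H : ℝ) ^ κ⌋₊ with hK
  have hKr : (K : ℝ) ≤ (H : ℝ) ^ κ := Nat.floor_le (by positivity)
  set Rf : (Fin (n + 1) → ℤ) → ℕ := fun x => ⌊(H : ℝ) ^ lm * (nrm x : ℝ) ^ τ⌋₊ with hRf
  have hRr : ∀ x, (Rf x : ℝ) ≤ (H : ℝ) ^ lm * (nrm x : ℝ) ^ τ := fun x =>
    Nat.floor_le (by positivity)
  have hL1 : 1 ≤ lam * H := Nat.mul_pos (by omega) hH
  have hNL : ∀ i, (n + d i).choose n * H ≤ lam * H := fun i => Nat.mul_le_mul_right _ (hlamN i)
  -- the basic bound for a point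
  set E : Fin r → ℝ := fun i => (((n + d i).choose n : ℕ) : ℝ) +
    (((n + d i).choose n : ℕ) : ℝ) * d i * ρ₀ - (d i + 1) with hE
  have hEsum : ∑ i, E i = SN + SND * ρ₀ - (D + r) := by
    simp only [hE]
    rw [Finset.sum_sub_distrib, Finset.sum_add_distrib, ← Finset.sum_mul, q4]
  have hpt : ∀ x ∈ A, Prim x → (wt (nrm x) : ℝ) ≤ C₁ * (2 * lam) * (H : ℝ) ^ ρ₀ ∧
      ((VV n d e J H (lam * H) K (Rf x) x).card : ℝ) ≤
        CV * ((H : ℝ) ^ κ * ((H : ℝ) ^ lm * (nrm x : ℝ) ^ τ)) * (CY ^ (r * ε) * (H : ℝ) ^ (μ / 8)) *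
        ∏ i, ((((lam * H) * nrm x ^ d i : ℕ) : ℝ) ^ uw e J i *
          (ratio n (d i) H (lam * H) (1 + 1 * wt (nrm x)) * fb (lam * H) (nrm x) (d i))) := by
    intro x hxA hx
    have hxn := hx.nrm_pos
    have hxR1 : (1 : ℝ) ≤ nrm x := by exact_mod_cast hxn
    have hxR0 : (0 : ℝ) < nrm x := by linarith
    have hxH : (nrm x : ℝ) ≤ (H : ℝ) ^ θ := nrm_le_of (by positivity) (hAB x hxA)
    constructor
    · have h4 : (nrm x : ℝ) ^ (ρ₀ / θ) ≤ (H : ℝ) ^ ρ₀ := by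
        calc (nrm x : ℝ) ^ (ρ₀ / θ) ≤ ((H : ℝ) ^ θ) ^ (ρ₀ / θ) :=
              Real.rpow_le_rpow hxR0.le hxH (by positivity)
          _ = (H : ℝ) ^ ρ₀ := by
              rw [← Real.rpow_mul hHR0.le]
              congr 1
              field_simp
      calc (wt (nrm x) : ℝ) ≤ C₁ * (nrm x : ℝ) ^ (ρ₀ / θ) := hwt (nrm x) hxn
        _ ≤ C₁ * (H : ℝ) ^ ρ₀ := mul_le_mul_of_nonneg_left h4 (by linarith)
        _ ≤ C₁ * (2 * lam) * (H : ℝ) ^ ρ₀ := by
            refine mul_le_mul_of_nonneg_right ?_ (by positivity)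
            exact le_mul_of_one_le_right (by linarith) (by linarith)
    · set Y : ℝ := CY * (H : ℝ) ^ B with hY
      have hY0 : 0 ≤ Y := by positivity
      have hA₀ : (nrm x : ℝ) ≤ 2 * lam * (H : ℝ) ^ θ :=
        hxH.trans (le_mul_of_one_le_left (by positivity) (by linarith))
      have hA1 : 1 ≤ 2 * lam * (H : ℝ) ^ θ := hxR1.trans hA₀
      have hYi : ∀ i, (((lam * H) * nrm x ^ d i : ℕ) : ℝ) * K * (Rf x) ≤ Y := by
        intro i
        have hdi : d i ≤ D := Finset.single_le_sum (f := d) (fun _ _ => Nat.zero_le _)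
          (Finset.mem_univ i)
        have e1 : (nrm x : ℝ) ^ d i ≤ (2 * lam * (H : ℝ) ^ θ) ^ D :=
          (pow_le_pow_left₀ hxR0.le hA₀ _).trans (pow_le_pow_right₀ hA1 hdi)
        have e2 : (nrm x : ℝ) ^ τ ≤ (2 * lam * (H : ℝ) ^ θ) ^ τ :=
          Real.rpow_le_rpow hxR0.le hA₀ hτ
        have e3 : (2 * lam * (H : ℝ) ^ θ) ^ D = (2 * (lam : ℝ)) ^ (D : ℝ) * (H : ℝ) ^ (θ * D) := by
          rw [mul_pow, Real.rpow_natCast, Real.rpow_mul hHR0.le, Real.rpow_natCast]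
        have e4 : (2 * lam * (H : ℝ) ^ θ) ^ τ = (2 * (lam : ℝ)) ^ τ * (H : ℝ) ^ (τ * θ) := by
          rw [Real.mul_rpow (by positivity) (by positivity), ← Real.rpow_mul hHR0.le,
            mul_comm θ τ]
        push_cast
        calc (lam : ℝ) * H * (nrm x : ℝ) ^ d i * K * (Rf x)
            ≤ (lam : ℝ) * H * (2 * lam * (H : ℝ) ^ θ) ^ D * (H : ℝ) ^ κ *
              ((H : ℝ) ^ lm * (2 * lam * (H : ℝ) ^ θ) ^ τ) := by
              have h4 := hRr x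
              gcongr
              exact h4.trans (mul_le_mul_of_nonneg_left e2 (by positivity))
          _ = CY * ((H : ℝ) ^ (1 : ℝ) * (H : ℝ) ^ (θ * D) * (H : ℝ) ^ κ * (H : ℝ) ^ lm *
              (H : ℝ) ^ (τ * θ)) := by
              rw [e3, e4, hCY, Real.rpow_one]
              ring
          _ = Y := by
              rw [hY, hB, Real.rpow_add hHR0, Real.rpow_add hHR0, Real.rpow_add hHR0,
                Real.rpow_add hHR0]
      have hv := hVV H (lam * H) K (Rf x) x Y hx hL1 hYi hY0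
      refine hv.trans ?_
      refine mul_le_mul_of_nonneg_right ?_ (Finset.prod_nonneg fun i _ =>
        mul_nonneg (Real.rpow_nonneg (Nat.cast_nonneg _) _)
          (mul_nonneg (ratio_nonneg _ _ _ _ _) (fb_nonneg _ _ _)))
      have e5 : Y ^ (r * ε) ≤ CY ^ (r * ε) * (H : ℝ) ^ (μ / 8) := by
        rw [hY, Real.mul_rpow hCY0.le (by positivity), ← Real.rpow_mul hHR0.le]
        refine mul_le_mul_of_nonneg_left ?_ (by positivity)
        exact Real.rpow_le_rpow_of_exponent_le hHR hrεB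
      have e6 := hRr x
      have e7 : (K : ℝ) * (Rf x) ≤ (H : ℝ) ^ κ * ((H : ℝ) ^ lm * (nrm x : ℝ) ^ τ) :=
        mul_le_mul hKr e6 (Nat.cast_nonneg _) (by positivity)
      exact mul_le_mul (mul_le_mul_of_nonneg_left e7 hCV.le) e5 (by positivity) (by positivity)
  have hsmall : ∀ x ∈ A, Prim x → nrm x ≤ 2 * (lam * H) →
      ((VV n d e J H (lam * H) K (Rf x) x).card : ℝ) ≤
        C₅ * (H : ℝ) ^ (SN - μ / 2) * (nrm x : ℝ) ^ (-(D - Sud - τ)) := by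
    intro x hxA hx hsm
    obtain ⟨hw, hv⟩ := hpt x hxA hx
    have hxn := hx.nrm_pos
    have hxR1 : (1 : ℝ) ≤ nrm x := by exact_mod_cast hxn
    have hxR0 : (0 : ℝ) < nrm x := by linarith
    have hprod : ∏ i, ((((lam * H) * nrm x ^ d i : ℕ) : ℝ) ^ uw e J i *
          (ratio n (d i) H (lam * H) (1 + 1 * wt (nrm x)) * fb (lam * H) (nrm x) (d i))) ≤
        cc * (H : ℝ) ^ (Su + (SN + SND * ρ₀ - (D + r)) + D) * (nrm x : ℝ) ^ (-(D - Sud)) := by
      calc _ ≤ ∏ i, (((lam : ℝ) ^ uw e J i * Cr i * (4 * lam) ^ d i) *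
            (H : ℝ) ^ (uw e J i + E i + d i) * (nrm x : ℝ) ^ (-((1 - uw e J i) * d i))) := by
            refine Finset.prod_le_prod (fun i _ => mul_nonneg
              (Real.rpow_nonneg (Nat.cast_nonneg _) _)
              (mul_nonneg (ratio_nonneg _ _ _ _ _) (fb_nonneg _ _ _))) (fun i _ => ?_)
            exact g_small (d i) lam H (nrm x) (uw e J i) (Cr i) (E i) _ hlam1 hH hxn
              (uw_nonneg e J i) (ratio_nonneg _ _ _ _ _) (hratio i H _ hH hw) hsm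
        _ = _ := by
            rw [Finset.prod_mul_distrib, Finset.prod_mul_distrib, ← hcc,
              ← Real.rpow_sum_of_pos hHR0, ← Real.rpow_sum_of_pos hxR0, Finset.sum_neg_distrib,
              q1, Finset.sum_add_distrib, Finset.sum_add_distrib, hEsum, ← hDR, ← hSu]
    refine hv.trans ?_
    calc _ ≤ CV * ((H : ℝ) ^ κ * ((H : ℝ) ^ lm * (nrm x : ℝ) ^ τ)) *
          (CY ^ (r * ε) * (H : ℝ) ^ (μ / 8)) *
          (cc * (H : ℝ) ^ (Su + (SN + SND * ρ₀ - (D + r)) + D) * (nrm x : ℝ) ^ (-(D - Sud))) :=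
          mul_le_mul_of_nonneg_left hprod (by positivity)
      _ = C₅ * ((H : ℝ) ^ κ * (H : ℝ) ^ lm * (H : ℝ) ^ (μ / 8) *
          (H : ℝ) ^ (Su + (SN + SND * ρ₀ - (D + r)) + D)) *
          ((nrm x : ℝ) ^ τ * (nrm x : ℝ) ^ (-(D - Sud))) := by
          rw [hC₅]
          ring
      _ = C₅ * (H : ℝ) ^ (κ + lm + μ / 8 + (Su + (SN + SND * ρ₀ - (D + r)) + D)) *
          (nrm x : ℝ) ^ (-(D - Sud - τ)) := by
          rw [← Real.rpow_add hHR0, ← Real.rpow_add hHR0, ← Real.rpow_add hHR0,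
            ← Real.rpow_add hxR0]
          congr 2
          ring
      _ ≤ _ := by
          refine mul_le_mul_of_nonneg_right (mul_le_mul_of_nonneg_left ?_ hC₅0.le)
            (by positivity)
          refine Real.rpow_le_rpow_of_exponent_le hHR ?_
          linarith
  have hlarge : ∀ x ∈ A, Prim x → 2 * (lam * H) < nrm x →
      ((VV n d e J H (lam * H) K (Rf x) x).card : ℝ) ≤
        C₅ * (H : ℝ) ^ (SN - μ / 2 - φ) := by
    intro x hxA hx hla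
    obtain ⟨hw, hv⟩ := hpt x hxA hx
    have hxn := hx.nrm_pos
    have hxR1 : (1 : ℝ) ≤ nrm x := by exact_mod_cast hxn
    have hxR0 : (0 : ℝ) < nrm x := by linarith
    have hxH : (nrm x : ℝ) ≤ (H : ℝ) ^ θ := nrm_le_of (by positivity) (hAB x hxA)
    have hprod : ∏ i, ((((lam * H) * nrm x ^ d i : ℕ) : ℝ) ^ uw e J i *
          (ratio n (d i) H (lam * H) (1 + 1 * wt (nrm x)) * fb (lam * H) (nrm x) (d i))) ≤
        cc * (H : ℝ) ^ (Su + (SN + SND * ρ₀ - (D + r)) + θ * Sud) := by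
      calc _ ≤ ∏ i, (((lam : ℝ) ^ uw e J i * Cr i * (4 * lam) ^ d i) *
            (H : ℝ) ^ (uw e J i + E i + θ * (d i * uw e J i))) := by
            refine Finset.prod_le_prod (fun i _ => mul_nonneg
              (Real.rpow_nonneg (Nat.cast_nonneg _) _)
              (mul_nonneg (ratio_nonneg _ _ _ _ _) (fb_nonneg _ _ _))) (fun i _ => ?_)
            exact g_large (d i) lam H (nrm x) (uw e J i) (Cr i) (E i) _ θ hlam1 hH hxn
              (uw_nonneg e J i) (ratio_nonneg _ _ _ _ _) (hCr i).le (hratio i H _ hH hw) hla hxH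
        _ = _ := by
            rw [Finset.prod_mul_distrib, ← hcc,
              ← Real.rpow_sum_of_pos hHR0, Finset.sum_add_distrib, Finset.sum_add_distrib,
              hEsum, ← hSu, ← Finset.mul_sum]
            congr 4
            rw [hSud]
            exact Finset.sum_congr rfl fun i _ => mul_comm _ _
    have hxτ : (nrm x : ℝ) ^ τ ≤ (H : ℝ) ^ (τ * θ) := by
      rw [mul_comm, Real.rpow_mul hHR0.le]
      exact Real.rpow_le_rpow hxR0.le hxH hτ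
    refine hv.trans ?_
    calc _ ≤ CV * ((H : ℝ) ^ κ * ((H : ℝ) ^ lm * (H : ℝ) ^ (τ * θ))) *
          (CY ^ (r * ε) * (H : ℝ) ^ (μ / 8)) *
          (cc * (H : ℝ) ^ (Su + (SN + SND * ρ₀ - (D + r)) + θ * Sud)) := by
          refine mul_le_mul ?_ hprod (Finset.prod_nonneg fun i _ => mul_nonneg
              (Real.rpow_nonneg (Nat.cast_nonneg _) _)
              (mul_nonneg (ratio_nonneg _ _ _ _ _) (fb_nonneg _ _ _))) (by positivity)
          gcongr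
      _ = C₅ * ((H : ℝ) ^ κ * (H : ℝ) ^ lm * (H : ℝ) ^ (τ * θ) * (H : ℝ) ^ (μ / 8) *
          (H : ℝ) ^ (Su + (SN + SND * ρ₀ - (D + r)) + θ * Sud)) := by
          rw [hC₅]
          ring
      _ = C₅ * (H : ℝ) ^ (κ + lm + τ * θ + μ / 8 +
          (Su + (SN + SND * ρ₀ - (D + r)) + θ * Sud)) := by
          rw [← Real.rpow_add hHR0, ← Real.rpow_add hHR0, ← Real.rpow_add hHR0,
            ← Real.rpow_add hHR0]
      _ ≤ _ := by
          refine mul_le_mul_of_nonneg_left ?_ hC₅0.le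
          refine Real.rpow_le_rpow_of_exponent_le hHR ?_
          linarith
  set As := A.filter (fun x => Prim x ∧ nrm x ≤ 2 * (lam * H)) with hAs
  set Al := A.filter (fun x => Prim x ∧ 2 * (lam * H) < nrm x) with hAl
  refine ⟨(As.biUnion fun x => VV n d e J H (lam * H) K (Rf x) x) ∪
    (Al.biUnion fun x => VV n d e J H (lam * H) K (Rf x) x), ?_, ?_⟩
  · intro f hf x hxA hx q ρ hq hqK hρ hρR h5 h6
    have hmem := mem_VV n d e J H (lam * H) K (Rf x) hNL x f hf q ρ hq (Nat.le_floor hqK) hρ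
      (Nat.le_floor hρR) h5 h6
    rw [Finset.mem_union, Finset.mem_biUnion, Finset.mem_biUnion]
    rcases Nat.lt_or_ge (2 * (lam * H)) (nrm x) with h | h
    · exact Or.inr ⟨x, Finset.mem_filter.mpr ⟨hxA, hx, h⟩, hmem⟩
    · exact Or.inl ⟨x, Finset.mem_filter.mpr ⟨hxA, hx, h⟩, hmem⟩
  set R : ℝ := (H : ℝ) ^ (SN - μ / 2) with hR
  have hR0 : 0 < R := by positivity
  have hs : ((As.biUnion fun x => VV n d e J H (lam * H) K (Rf x) x).card : ℝ) ≤
      C₅ * W * R := by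
    have h4 : ∑ x ∈ As, (nrm x : ℝ) ^ (-(D - Sud - τ)) ≤ W :=
      hsum As (fun x hx => (Finset.mem_filter.mp hx).2.1.nrm_pos)
    calc ((As.biUnion fun x => VV n d e J H (lam * H) K (Rf x) x).card : ℝ)
        ≤ ∑ x ∈ As, ((VV n d e J H (lam * H) K (Rf x) x).card : ℝ) := by
          exact_mod_cast Finset.card_biUnion_le
      _ ≤ ∑ x ∈ As, C₅ * R * (nrm x : ℝ) ^ (-(D - Sud - τ)) := by
          refine Finset.sum_le_sum fun x hx => ?_
          obtain ⟨hxA, hxp, hxs⟩ := Finset.mem_filter.mp hx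
          exact hsmall x hxA hxp hxs
      _ = C₅ * R * ∑ x ∈ As, (nrm x : ℝ) ^ (-(D - Sud - τ)) := by rw [Finset.mul_sum]
      _ ≤ C₅ * R * W := mul_le_mul_of_nonneg_left h4 (by positivity)
      _ = _ := by ring
  have hl : ((Al.biUnion fun x => VV n d e J H (lam * H) K (Rf x) x).card : ℝ) ≤
      C₅ * 3 ^ (n + 1) * R := by
    have hAlc : (Al.card : ℝ) ≤ 3 ^ (n + 1) * (H : ℝ) ^ φ := by
      refine le_trans ?_ hA
      exact_mod_cast Finset.card_filter_le _ _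
    calc ((Al.biUnion fun x => VV n d e J H (lam * H) K (Rf x) x).card : ℝ)
        ≤ ∑ x ∈ Al, ((VV n d e J H (lam * H) K (Rf x) x).card : ℝ) := by
          exact_mod_cast Finset.card_biUnion_le
      _ ≤ ∑ _x ∈ Al, C₅ * (H : ℝ) ^ (SN - μ / 2 - φ) := by
          refine Finset.sum_le_sum fun x hx => ?_
          obtain ⟨hxA, hxp, hxs⟩ := Finset.mem_filter.mp hx
          exact hlarge x hxA hxp hxs
      _ = Al.card * (C₅ * (H : ℝ) ^ (SN - μ / 2 - φ)) := by rw [Finset.sum_const, nsmul_eq_mul]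
      _ ≤ (3 ^ (n + 1) * (H : ℝ) ^ φ) * (C₅ * (H : ℝ) ^ (SN - μ / 2 - φ)) :=
          mul_le_mul_of_nonneg_right hAlc (by positivity)
      _ = C₅ * 3 ^ (n + 1) * ((H : ℝ) ^ φ * (H : ℝ) ^ (SN - μ / 2 - φ)) := by ring
      _ = _ := by
          rw [← Real.rpow_add hHR0, hR]
          congr 2
          ring
  have h7 := Finset.card_union_le (As.biUnion fun x => VV n d e J H (lam * H) K (Rf x) x)
    (Al.biUnion fun x => VV n d e J H (lam * H) K (Rf x) x)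
  calc _ ≤ ((As.biUnion fun x => VV n d e J H (lam * H) K (Rf x) x).card : ℝ) +
        ((Al.biUnion fun x => VV n d e J H (lam * H) K (Rf x) x).card : ℝ) := by
        exact_mod_cast h7
    _ ≤ C₅ * W * R + C₅ * 3 ^ (n + 1) * R := add_le_add hs hl
    _ = _ := by ring

end Pool.Agent.TH390.Tw
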