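import Pool.Agent.TH390.Tw.Full

set_option autoImplicit false

namespace Pool.Agent.TH390.Tw

open Finset

/-- large `a`, no digit is used -/
theorem card_nodigit (H a : ℕ) (ha : 2 * H < a) (n : ℕ) (w : ℕ → ℤ)
    (hw : ∀ i, IsCoprime (w i) (a : ℤ)) (hwn : w n ≠ 0) (k : ℤ) (X : ℝ)
    (hX : 0 ≤ X) (S : Finset (Fin (n + 1) → ℤ)) (hS : ∀ f ∈ S, f ∈ box _ H)
    (hSc : ∀ f ∈ S, ∃ c : ℤ, |(c : ℝ)| ≤ X ∧ val a w (n + 1) f = k * c ^ 2) :
    (S.card : ℝ) ≤ 2 * X + 1 := by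
  classical
  have ha0 : 0 < a := by omega
  have hsub : S ⊆ (Icc (-⌊X⌋) ⌊X⌋).biUnion fun c =>
      (box (n + 1) H).filter (fun f => val a w (n + 1) f = k * c ^ 2) := by
    intro f hf
    obtain ⟨c, hc1, hc2⟩ := hSc f hf
    rw [Finset.mem_biUnion]
    refine ⟨c, ?_, ?_⟩
    · have h1 : |c| ≤ ⌊X⌋ := by
        rw [Int.le_floor]
        push_cast
        exact hc1
      exact mem_Icc.mpr (abs_le.mp h1)
    · rw [Finset.mem_filter]
      exact ⟨hS f hf, hc2⟩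
  have hfl0 : 0 ≤ ⌊X⌋ := Int.floor_nonneg.mpr hX
  have h5 : ((Icc (-⌊X⌋) ⌊X⌋).card : ℝ) ≤ 2 * X + 1 := by
    rw [Int.card_Icc]
    have e7 : (((⌊X⌋ + 1 - -⌊X⌋).toNat : ℕ) : ℝ) = 2 * ((⌊X⌋ : ℤ) : ℝ) + 1 := by
      have h7 : (((⌊X⌋ + 1 - -⌊X⌋).toNat : ℕ) : ℤ) = 2 * ⌊X⌋ + 1 := by
        rw [Int.toNat_of_nonneg (by omega)]
        ring
      calc (((⌊X⌋ + 1 - -⌊X⌋).toNat : ℕ) : ℝ) = ((((⌊X⌋ + 1 - -⌊X⌋).toNat : ℕ) : ℤ) : ℝ) :=
            (Int.cast_natCast _).symm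
        _ = ((2 * ⌊X⌋ + 1 : ℤ) : ℝ) := by rw [h7]
        _ = 2 * ((⌊X⌋ : ℤ) : ℝ) + 1 := by push_cast; ring
    rw [e7]
    have := Int.floor_le X
    linarith
  calc (S.card : ℝ) ≤ (((Icc (-⌊X⌋) ⌊X⌋).biUnion fun c =>
      (box (n + 1) H).filter (fun f => val a w (n + 1) f = k * c ^ 2)).card : ℝ) := by
        exact_mod_cast Finset.card_le_card hsub
    _ ≤ ∑ c ∈ Icc (-⌊X⌋) ⌊X⌋,
        (((box (n + 1) H).filter (fun f => val a w (n + 1) f = k * c ^ 2)).card : ℝ) := by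
        exact_mod_cast Finset.card_biUnion_le
    _ ≤ ∑ _c ∈ Icc (-⌊X⌋) ⌊X⌋, (1 : ℝ) := by
        refine Finset.sum_le_sum fun c _ => ?_
        have := card_sol H a ha0 1 zero_le_one (card_digit_one H a ha) n w hw hwn (k * c ^ 2)
        rwa [one_pow] at this
    _ = ((Icc (-⌊X⌋) ⌊X⌋).card : ℝ) := by
        rw [Finset.sum_const, nsmul_eq_mul, mul_one]
    _ ≤ 2 * X + 1 := h5

/-- the forms of degree `d` with nonzero first coefficient having a value `c m²` at `(a, b)` -/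
noncomputable def TT (d H : ℕ) (a b c : ℤ) : Finset (Fin (d + 1) → ℤ) := by
  classical
  exact (box (d + 1) H).filter (fun f => f 0 ≠ 0 ∧ ∃ m : ℤ, frm d f a b = c * m ^ 2)

theorem TT_aux (d H a : ℕ) (b c : ℤ) (hb : |b| ≤ a) (hc : c ≠ 0) :
    ∀ f ∈ TT d H a b c, ∃ m : ℤ, |(m : ℝ)| ≤ Real.sqrt ((d + 1) * H * (a : ℝ) ^ d / |(c : ℝ)|) ∧
      val a (fun i => b ^ (d - i)) (d + 1) f = c * m ^ 2 := by
  classical
  intro f hf
  unfold TT at hf
  obtain ⟨hfb, hf0, m, hm⟩ := Finset.mem_filter.mp hf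
  refine ⟨m, ?_, by rw [← frm_eq_val]; exact hm⟩
  have hkR0 : (0 : ℝ) < |(c : ℝ)| := abs_pos.mpr (by exact_mod_cast hc)
  have h1 := abs_frm_le d H f hfb a b hb
  rw [hm] at h1
  push_cast at h1
  rw [abs_mul, abs_pow] at h1
  apply Real.le_sqrt_of_sq_le
  rw [le_div_iff₀ hkR0]
  linarith

theorem tt_small (d H a : ℕ) (ha0 : 0 < a) (ha : a ≤ 2 * H) (b c : ℤ) (hb : |b| ≤ a)
    (hab : IsCoprime (a : ℤ) b) (hc : c ≠ 0) (hcM : |(c : ℝ)| ≤ (d + 1) * H * (a : ℝ) ^ d) :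
    ((TT d H a b c).card : ℝ) ≤ 3 * (4 * H / a) ^ d *
      ((d + 1) * H * (a : ℝ) ^ d / |(c : ℝ)|) ^ ((1 : ℝ) / 2) := by
  classical
  have hkR0 : (0 : ℝ) < |(c : ℝ)| := abs_pos.mpr (by exact_mod_cast hc)
  rw [← Real.sqrt_eq_rpow]
  set X := Real.sqrt ((d + 1) * H * (a : ℝ) ^ d / |(c : ℝ)|) with hX
  have hX1 : 1 ≤ X := by
    rw [hX]
    apply Real.one_le_sqrt.mpr
    rw [le_div_iff₀ hkR0]
    linarith
  have hw : ∀ i, IsCoprime ((fun i => b ^ (d - i)) i : ℤ) (a : ℤ) := fun i =>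
    hab.symm.pow_left
  have hwn : (fun i => b ^ (d - i)) d ≠ (0 : ℤ) := by simp
  have h1 := card_small H a ha0 ha d (fun i => b ^ (d - i)) hw hwn c X (by linarith)
    (TT d H a b c) (fun f hf => by unfold TT at hf; exact (Finset.mem_filter.mp hf).1)
    (TT_aux d H a b c hb hc)
  refine h1.trans ?_
  have h2 : (0 : ℝ) ≤ (4 * H / a) ^ d := by positivity
  nlinarith

theorem tt_large (d H a : ℕ) (hd : 1 ≤ d) (hH : 1 ≤ H) (ha : 2 * H < a) (b c : ℤ) (hb : |b| ≤ a)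
    (hab : IsCoprime (a : ℤ) b) (hc : c ≠ 0) (hcM : |(c : ℝ)| ≤ (d + 1) * H * (a : ℝ) ^ d)
    (σ : ℝ) (hσ0 : 0 ≤ σ) (hσ1 : σ ≤ 1) (hHσ : (H : ℝ) ≤ (a : ℝ) ^ σ) :
    ((TT d H a b c).card : ℝ) ≤ 5 * 4 ^ d * ((a ^ d).divisors.card : ℝ) ^ 2 * (H : ℝ) ^ (1 - σ) *
      ((d + 1) * H * (a : ℝ) ^ d / |(c : ℝ)|) ^ (σ / 2) := by
  classical
  have hkR0 : (0 : ℝ) < |(c : ℝ)| := abs_pos.mpr (by exact_mod_cast hc)
  have hk1 : (1 : ℝ) ≤ |(c : ℝ)| := by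
    have : (1 : ℤ) ≤ |c| := Int.one_le_abs hc
    exact_mod_cast this
  have ha0 : 0 < a := by omega
  have ha3 : 3 ≤ a := by omega
  have haR : (0 : ℝ) < a := by exact_mod_cast ha0
  have haR3 : (3 : ℝ) ≤ a := by exact_mod_cast ha3
  have hHR : (1 : ℝ) ≤ H := by exact_mod_cast hH
  have hHR0 : (0 : ℝ) < H := by linarith
  have haH : 2 * (H : ℝ) < a := by exact_mod_cast ha
  set Q : ℝ := (d + 1) * H * (a : ℝ) ^ d / |(c : ℝ)| with hQ
  have hQ1 : 1 ≤ Q := by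
    rw [hQ, le_div_iff₀ hkR0]
    linarith
  set X := Real.sqrt Q with hX
  have hX1 : 1 ≤ X := Real.one_le_sqrt.mpr hQ1
  have hX0 : 0 < X := by linarith
  have hXQ : Q ^ (σ / 2) = X ^ σ := by
    rw [hX, Real.sqrt_eq_rpow, ← Real.rpow_mul (by linarith)]
    congr 1
    ring
  rw [hXQ]
  -- `X < a ^ d`
  have hXad : X < (a : ℝ) ^ d := by
    rw [hX, Real.sqrt_lt' (by positivity)]
    have h1 : Q ≤ (d + 1) * H * (a : ℝ) ^ d := by
      rw [hQ]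
      exact div_le_self (by positivity) hk1
    have h2 : ((d : ℝ) + 1) * H < (a : ℝ) ^ d := by
      obtain ⟨e, rfl⟩ : ∃ e, d = e + 1 := ⟨d - 1, by omega⟩
      have h3 : ((e : ℝ) + 2) ≤ 2 * 3 ^ e := by
        have h4 : e + 2 ≤ 2 * 3 ^ e := by
          clear * -
          induction e with
          | zero => norm_num
          | succ n ih =>
            rw [pow_succ]
            omega
        exact_mod_cast h4
      have h5 : (3 : ℝ) ^ e ≤ (a : ℝ) ^ e := pow_le_pow_left₀ (by norm_num) haR3 e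
      have h6 : (0 : ℝ) < (a : ℝ) ^ e := by positivity
      push_cast
      calc ((e : ℝ) + 1 + 1) * H ≤ (2 * (a : ℝ) ^ e) * H := by
            refine mul_le_mul_of_nonneg_right ?_ hHR0.le
            linarith
        _ = (a : ℝ) ^ e * (2 * H) := by ring
        _ < (a : ℝ) ^ e * a := mul_lt_mul_of_pos_left haH h6
        _ = (a : ℝ) ^ (e + 1) := (pow_succ _ _).symm
    calc Q ≤ ((d + 1) * H) * (a : ℝ) ^ d := h1
      _ < (a : ℝ) ^ d * (a : ℝ) ^ d := mul_lt_mul_of_pos_right h2 (by positivity)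
      _ = ((a : ℝ) ^ d) ^ 2 := by ring
  -- the number of digits
  set i := Nat.log a ⌊X⌋₊ with hi
  have hfl : ⌊X⌋₊ ≠ 0 := by
    have : 1 ≤ ⌊X⌋₊ := Nat.le_floor (by exact_mod_cast hX1)
    omega
  have hiX : (a : ℝ) ^ i ≤ X := by
    have h1 : a ^ i ≤ ⌊X⌋₊ := Nat.pow_log_le_self a hfl
    have h2 : ((a ^ i : ℕ) : ℝ) ≤ (⌊X⌋₊ : ℝ) := by exact_mod_cast h1
    push_cast at h2
    exact h2.trans (Nat.floor_le hX0.le)
  have hXi : X < (a : ℝ) ^ (i + 1) := by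
    have h1 : ⌊X⌋₊ < a ^ (i + 1) := Nat.lt_pow_succ_log_self (by omega) _
    have h2 := (Nat.floor_lt hX0.le).mp h1
    push_cast at h2
    exact h2
  have hid : i < d := by
    by_contra hcon
    push Not at hcon
    have h1 : (a : ℝ) ^ d ≤ (a : ℝ) ^ i := pow_le_pow_right₀ (by linarith) hcon
    linarith
  set D : ℝ := ((a ^ d).divisors.card : ℝ) with hD
  have hDj : ∀ j ≤ d, ((a ^ j).divisors.card : ℝ) ≤ D := by
    intro j hj
    have : (a ^ j).divisors.card ≤ (a ^ d).divisors.card :=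
      Finset.card_le_card (Nat.divisors_subset_of_dvd (by positivity) (pow_dvd_pow a hj))
    rw [hD]
    exact Nat.cast_le.mpr this
  have hD1 : 1 ≤ D := by
    have := hDj 0 (by omega)
    simpa using this
  -- the general bound
  have hw : ∀ i, IsCoprime ((fun i => b ^ (d - i)) i : ℤ) (a : ℤ) := fun i =>
    hab.symm.pow_left
  have hSbox : ∀ f ∈ TT d H a b c, f ∈ box (d + 1) H := by
    intro f hf
    unfold TT at hf
    exact (Finset.mem_filter.mp hf).1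
  have hS0 : ∀ f ∈ TT d H a b c, f 0 ≠ 0 := by
    intro f hf
    unfold TT at hf
    exact (Finset.mem_filter.mp hf).2.1
  have hSc := TT_aux d H a b c hb hc
  rw [← hQ, ← hX] at hSc
  have hdig : ∀ j, j < d → ((TT d H a b c).card : ℝ) ≤
      D ^ 2 * (4 * H) ^ (j + 1) * (4 * X / (a : ℝ) ^ (j + 1) + 1) := by
    intro j hj
    have key : ∀ (n : ℕ) (_ : n = j + 1 + (d - (j + 1) + 1)) (S : Finset (Fin n → ℤ))
        (_ : ∀ f ∈ S, f ∈ box n H) (_ : ∀ f ∈ S, ∀ h : 0 < n, f ⟨0, h⟩ ≠ 0)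
        (_ : ∀ f ∈ S, ∃ m : ℤ, |(m : ℝ)| ≤ X ∧
          val a (fun i => b ^ (d - i)) n f = c * m ^ 2),
        (S.card : ℝ) ≤ ((a ^ (j + 1)).divisors.card : ℝ) ^ 2 * (4 * H) ^ (j + 1) *
          (4 * X / (a : ℝ) ^ (j + 1) + 1) := by
      intro n hn S h1 h2 h3
      subst hn
      refine card_large H a ha j (d - (j + 1)) (fun i => b ^ (d - i)) hw ?_ c hc X hX0.le S h1 ?_ h3
      · have : d - (j + 1 + (d - (j + 1))) = 0 := by omega
        simp only [this, pow_zero]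
        exact one_ne_zero
      · intro f hf
        exact h2 f hf (by omega)
    have h1 := key (d + 1) (by omega) (TT d H a b c) hSbox (fun f hf _ => hS0 f hf) hSc
    refine h1.trans ?_
    have h2 := hDj (j + 1) (by omega)
    have h3 : ((a ^ (j + 1)).divisors.card : ℝ) ^ 2 ≤ D ^ 2 :=
      pow_le_pow_left₀ (Nat.cast_nonneg _) h2 2
    have h4 : 0 ≤ (4 * (H : ℝ)) ^ (j + 1) * (4 * X / (a : ℝ) ^ (j + 1) + 1) := by positivity
    calc _ = ((a ^ (j + 1)).divisors.card : ℝ) ^ 2 *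
          ((4 * (H : ℝ)) ^ (j + 1) * (4 * X / (a : ℝ) ^ (j + 1) + 1)) := by ring
      _ ≤ D ^ 2 * ((4 * (H : ℝ)) ^ (j + 1) * (4 * X / (a : ℝ) ^ (j + 1) + 1)) :=
          mul_le_mul_of_nonneg_right h3 h4
      _ = _ := by ring
  -- first bound: `i + 1` digits
  have hB : ((TT d H a b c).card : ℝ) ≤ 5 * D ^ 2 * 4 ^ d * (H : ℝ) ^ i * H := by
    refine (hdig i hid).trans ?_
    have h1 : 4 * X / (a : ℝ) ^ (i + 1) + 1 ≤ 5 := by
      have : X / (a : ℝ) ^ (i + 1) ≤ 1 := by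
        rw [div_le_one (by positivity)]
        exact hXi.le
      have e : 4 * X / (a : ℝ) ^ (i + 1) = 4 * (X / (a : ℝ) ^ (i + 1)) := by ring
      rw [e]
      linarith
    have h2 : (4 : ℝ) ^ (i + 1) ≤ 4 ^ d := pow_le_pow_right₀ (by norm_num) hid
    calc D ^ 2 * (4 * H) ^ (i + 1) * (4 * X / (a : ℝ) ^ (i + 1) + 1)
        ≤ D ^ 2 * (4 * H) ^ (i + 1) * 5 := by gcongr
      _ = 5 * D ^ 2 * 4 ^ (i + 1) * (H ^ i * H) := by rw [mul_pow, pow_succ (H : ℝ)]; ring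
      _ ≤ 5 * D ^ 2 * 4 ^ d * (H ^ i * H) := by gcongr
      _ = _ := by ring
  have hA : ((TT d H a b c).card : ℝ) ≤ 5 * D ^ 2 * 4 ^ d * (H : ℝ) ^ i * (X / (a : ℝ) ^ i) := by
    rcases Nat.eq_zero_or_pos i with h0 | h0
    · have hwn : (fun i => b ^ (d - i)) d ≠ (0 : ℤ) := by simp
      have h1 := card_nodigit H a ha d (fun i => b ^ (d - i)) hw hwn c X hX0.le
        (TT d H a b c) hSbox hSc
      rw [h0, pow_zero, pow_zero, div_one, mul_one]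
      refine h1.trans ?_
      have h2 : (1 : ℝ) ≤ D ^ 2 := one_le_pow₀ hD1
      have h3 : (1 : ℝ) ≤ 4 ^ d := one_le_pow₀ (by norm_num)
      have h4 : (1 : ℝ) ≤ D ^ 2 * 4 ^ d := one_le_mul_of_one_le_of_one_le h2 h3
      nlinarith
    · obtain ⟨j, hj⟩ : ∃ j, i = j + 1 := ⟨i - 1, by omega⟩
      have h1 := hdig j (by omega)
      rw [← hj] at h1
      refine h1.trans ?_
      have h2 : 4 * X / (a : ℝ) ^ i + 1 ≤ 5 * (X / (a : ℝ) ^ i) := by
        have : 1 ≤ X / (a : ℝ) ^ i := by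
          rw [le_div_iff₀ (by positivity)]
          linarith
        have e : 4 * X / (a : ℝ) ^ i = 4 * (X / (a : ℝ) ^ i) := by ring
        rw [e]
        linarith
      have h3 : (4 : ℝ) ^ i ≤ 4 ^ d := pow_le_pow_right₀ (by norm_num) hid.le
      calc D ^ 2 * (4 * H) ^ i * (4 * X / (a : ℝ) ^ i + 1)
          ≤ D ^ 2 * (4 * H) ^ i * (5 * (X / (a : ℝ) ^ i)) := by gcongr
        _ = 5 * D ^ 2 * 4 ^ i * (H ^ i * (X / (a : ℝ) ^ i)) := by rw [mul_pow]; ring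
        _ ≤ 5 * D ^ 2 * 4 ^ d * (H ^ i * (X / (a : ℝ) ^ i)) := by gcongr
        _ = _ := by ring
  -- interpolation
  set W : ℝ := 5 * D ^ 2 * 4 ^ d * (H : ℝ) ^ i with hW
  have hW0 : 0 < W := by positivity
  have hmin : ((TT d H a b c).card : ℝ) ≤ W * ((X / (a : ℝ) ^ i) ^ σ * (H : ℝ) ^ (1 - σ)) := by
    set u : ℝ := ((TT d H a b c).card : ℝ) / W with hu
    have hu0 : 0 ≤ u := by positivity
    have hu1 : u ≤ X / (a : ℝ) ^ i := by
      rw [hu, div_le_iff₀ hW0]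
      linarith
    have hu2 : u ≤ H := by
      rw [hu, div_le_iff₀ hW0]
      linarith
    have h1 : u ≤ (X / (a : ℝ) ^ i) ^ σ * (H : ℝ) ^ (1 - σ) := by
      rcases hu0.eq_or_lt with h0 | h0
      · rw [← h0]
        positivity
      · calc u = u ^ σ * u ^ (1 - σ) := by
              rw [← Real.rpow_add h0]
              simp
          _ ≤ (X / (a : ℝ) ^ i) ^ σ * (H : ℝ) ^ (1 - σ) := by
              have e1 := Real.rpow_le_rpow hu0 hu1 hσ0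
              have e2 := Real.rpow_le_rpow hu0 hu2 (by linarith : 0 ≤ 1 - σ)
              have e3 : 0 ≤ u ^ (1 - σ) := by positivity
              have e4 : 0 ≤ (X / (a : ℝ) ^ i) ^ σ := by positivity
              exact mul_le_mul e1 e2 e3 e4
    have h2 : ((TT d H a b c).card : ℝ) = W * u := by
      rw [hu]
      field_simp
    rw [h2]
    exact mul_le_mul_of_nonneg_left h1 hW0.le
  refine hmin.trans ?_
  have h1 : (H : ℝ) ^ i * (X / (a : ℝ) ^ i) ^ σ ≤ X ^ σ := by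
    rw [Real.div_rpow hX0.le (by positivity)]
    have e1 : ((a : ℝ) ^ i) ^ σ = ((a : ℝ) ^ σ) ^ i := by
      rw [← Real.rpow_natCast, ← Real.rpow_natCast, ← Real.rpow_mul haR.le, ← Real.rpow_mul haR.le,
        mul_comm]
    rw [e1]
    have e2 : (H : ℝ) ^ i ≤ ((a : ℝ) ^ σ) ^ i := pow_le_pow_left₀ hHR0.le hHσ i
    have e3 : (0 : ℝ) < ((a : ℝ) ^ σ) ^ i := by positivity
    have e4 : 0 ≤ X ^ σ := by positivity
    rw [mul_div_assoc', div_le_iff₀ e3]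
    calc (H : ℝ) ^ i * X ^ σ ≤ ((a : ℝ) ^ σ) ^ i * X ^ σ := mul_le_mul_of_nonneg_right e2 e4
      _ = _ := by ring
  calc W * ((X / (a : ℝ) ^ i) ^ σ * (H : ℝ) ^ (1 - σ))
      = 5 * 4 ^ d * D ^ 2 * (H : ℝ) ^ (1 - σ) * ((H : ℝ) ^ i * (X / (a : ℝ) ^ i) ^ σ) := by
        rw [hW]
        ring
    _ ≤ 5 * 4 ^ d * D ^ 2 * (H : ℝ) ^ (1 - σ) * X ^ σ :=
        mul_le_mul_of_nonneg_left h1 (by positivity)

end Pool.Agent.TH390.Tw
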