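import Pool.Agent.TH390.Tw.PairB

set_option autoImplicit false

namespace Pool.Agent.TH390.Tw

open Finset

theorem sum_s (K : ℕ) (σ : ℝ) (hσ1 : σ ≤ 1) :
    ∑ s ∈ Icc 1 K, ((s : ℕ) : ℝ) ^ (-(σ / 2)) ≤ 2 * (K : ℝ) ^ (1 - σ / 2) := by
  rcases Nat.eq_zero_or_pos K with h0 | h0
  · subst h0
    simp only [Finset.Icc_eq_empty_of_lt (by norm_num : (0 : ℕ) < 1), Finset.sum_empty]
    positivity
  have hK0 : (0 : ℝ) < K := by exact_mod_cast h0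
  have h1 : ∀ s ∈ Icc 1 K, ((s : ℕ) : ℝ) ^ (-(σ / 2)) ≤ 1 / Real.sqrt (s : ℝ) * (K : ℝ) ^ ((1 - σ) / 2) := by
    intro s hs
    obtain ⟨hs1, hs2⟩ := mem_Icc.mp hs
    have hs0 : (0 : ℝ) < s := by exact_mod_cast hs1
    have hsK : (s : ℝ) ≤ K := by exact_mod_cast hs2
    rw [Real.sqrt_eq_rpow, one_div, ← Real.rpow_neg hs0.le]
    calc (s : ℝ) ^ (-(σ / 2)) = (s : ℝ) ^ (-((1 : ℝ) / 2)) * (s : ℝ) ^ ((1 - σ) / 2) := by
          rw [← Real.rpow_add hs0]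
          congr 1
          ring
      _ ≤ (s : ℝ) ^ (-((1 : ℝ) / 2)) * (K : ℝ) ^ ((1 - σ) / 2) := by
          refine mul_le_mul_of_nonneg_left ?_ (by positivity)
          exact Real.rpow_le_rpow hs0.le hsK (by linarith)
  refine (Finset.sum_le_sum h1).trans ?_
  rw [← Finset.sum_mul]
  have h2 := sum_inv_sqrt K
  have h3 : (0 : ℝ) ≤ (K : ℝ) ^ ((1 - σ) / 2) := by positivity
  calc (∑ s ∈ Icc 1 K, 1 / Real.sqrt (s : ℝ)) * (K : ℝ) ^ ((1 - σ) / 2)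
      ≤ (2 * Real.sqrt K) * (K : ℝ) ^ ((1 - σ) / 2) := mul_le_mul_of_nonneg_right h2 h3
    _ = 2 * (K : ℝ) ^ (1 - σ / 2) := by
        rw [Real.sqrt_eq_rpow, mul_assoc, ← Real.rpow_add hK0]
        congr 2
        ring

/-- the zeta value bounding the sums over the cubes -/
noncomputable def Zc (σ : ℝ) : ℝ := ∑' n : ℕ, 1 / (n : ℝ) ^ (3 * σ / 2)

theorem Zc_summable (σ : ℝ) (hσ : 2 / 3 < σ) : Summable (fun n : ℕ => 1 / (n : ℝ) ^ (3 * σ / 2)) :=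
  Real.summable_one_div_nat_rpow.mpr (by linarith)

theorem Zc_nonneg (σ : ℝ) : 0 ≤ Zc σ := tsum_nonneg fun n => by positivity

theorem sum_k (L : ℕ) (σ₀ σ : ℝ) (hσ0 : 2 / 3 < σ₀) (hσ : σ₀ ≤ σ) :
    ∑ k ∈ Icc 1 L, ((k : ℕ) : ℝ) ^ (-(3 * σ / 2)) ≤ Zc σ₀ := by
  have h1 : ∀ k ∈ Icc 1 L, ((k : ℕ) : ℝ) ^ (-(3 * σ / 2)) ≤ 1 / (k : ℝ) ^ (3 * σ₀ / 2) := by
    intro k hk
    obtain ⟨hk1, _⟩ := mem_Icc.mp hk
    have hk1R : (1 : ℝ) ≤ k := by exact_mod_cast hk1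
    rw [one_div, ← Real.rpow_neg (by linarith)]
    exact Real.rpow_le_rpow_of_exponent_le hk1R (by linarith)
  refine (Finset.sum_le_sum h1).trans ?_
  exact (Zc_summable σ₀ hσ0).sum_le_tsum _ (fun n _ => by positivity)

/-- the forms with nonzero first coefficient and value `± s k³ m²` at `(a, b)` with `s ≤ K` -/
noncomputable def UU (d H K a : ℕ) (b : ℤ) : Finset (Fin (d + 1) → ℤ) := by
  classical
  exact (Icc 1 K).biUnion fun s : ℕ =>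
    ((Icc 1 ((d + 1) * H * a ^ d)).filter (fun k => s * k ^ 3 ≤ (d + 1) * H * a ^ d)).biUnion
      fun k : ℕ => TT d H a b ((s * k ^ 3 : ℕ) : ℤ) ∪ TT d H a b (-((s * k ^ 3 : ℕ) : ℤ))

theorem card_UU (d H K a : ℕ) (b : ℤ) (σ₀ σ β : ℝ) (hβ : 0 ≤ β) (hσ0 : 2 / 3 < σ₀) (hσ : σ₀ ≤ σ)
    (hσ1 : σ ≤ 1)
    (h : ∀ c : ℤ, c ≠ 0 → |(c : ℝ)| ≤ (d + 1) * H * (a : ℝ) ^ d →
      ((TT d H a b c).card : ℝ) ≤ β * ((d + 1) * H * (a : ℝ) ^ d / |(c : ℝ)|) ^ (σ / 2)) :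
    ((UU d H K a b).card : ℝ) ≤
      4 * β * Zc σ₀ * ((d + 1) * H * (a : ℝ) ^ d) ^ (σ / 2) * (K : ℝ) ^ (1 - σ / 2) := by
  classical
  set M : ℝ := (d + 1) * H * (a : ℝ) ^ d with hM
  have hM0 : 0 ≤ M := by positivity
  have hZ0 := Zc_nonneg σ₀
  have h1 : ∀ s ∈ Icc 1 K, ∀ k ∈ (Icc 1 ((d + 1) * H * a ^ d)).filter
      (fun k => s * k ^ 3 ≤ (d + 1) * H * a ^ d),
      ((TT d H a b ((s * k ^ 3 : ℕ) : ℤ) ∪ TT d H a b (-((s * k ^ 3 : ℕ) : ℤ))).card : ℝ) ≤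
        2 * β * M ^ (σ / 2) * ((s : ℕ) : ℝ) ^ (-(σ / 2)) * ((k : ℕ) : ℝ) ^ (-(3 * σ / 2)) := by
    intro s hs k hk
    obtain ⟨hs1, _⟩ := mem_Icc.mp hs
    obtain ⟨hk1, hk2⟩ := Finset.mem_filter.mp hk
    obtain ⟨hk1, _⟩ := mem_Icc.mp hk1
    have hs0 : (0 : ℝ) < s := by exact_mod_cast hs1
    have hk0 : (0 : ℝ) < k := by exact_mod_cast hk1
    have hc0 : ((s * k ^ 3 : ℕ) : ℤ) ≠ 0 := by
      have : s * k ^ 3 ≠ 0 := by positivity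
      exact_mod_cast this
    have hcabs : |(((s * k ^ 3 : ℕ) : ℤ) : ℝ)| = (s : ℝ) * (k : ℝ) ^ 3 := by
      push_cast
      rw [abs_of_nonneg (by positivity)]
    have hcabs' : |((-((s * k ^ 3 : ℕ) : ℤ) : ℤ) : ℝ)| = (s : ℝ) * (k : ℝ) ^ 3 := by
      rw [Int.cast_neg, abs_neg, hcabs]
    have hcM : (s : ℝ) * (k : ℝ) ^ 3 ≤ M := by
      rw [hM]
      exact_mod_cast hk2
    have e1 := h _ hc0 (by rw [hcabs]; exact hcM)
    have e2 := h _ (neg_ne_zero.mpr hc0) (by rw [hcabs']; exact hcM)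
    rw [hcabs] at e1
    rw [hcabs'] at e2
    have e3 : (M / ((s : ℝ) * (k : ℝ) ^ 3)) ^ (σ / 2) =
        M ^ (σ / 2) * (s : ℝ) ^ (-(σ / 2)) * (k : ℝ) ^ (-(3 * σ / 2)) := by
      rw [Real.div_rpow hM0 (by positivity), Real.mul_rpow hs0.le (by positivity),
        ← Real.rpow_natCast, ← Real.rpow_mul hk0.le, Real.rpow_neg hs0.le, Real.rpow_neg hk0.le]
      have : ((3 : ℕ) : ℝ) * (σ / 2) = 3 * σ / 2 := by push_cast; ring
      rw [this]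
      field_simp
    rw [e3] at e1 e2
    have e4 : ((TT d H a b ((s * k ^ 3 : ℕ) : ℤ) ∪ TT d H a b (-((s * k ^ 3 : ℕ) : ℤ))).card : ℝ) ≤
        ((TT d H a b ((s * k ^ 3 : ℕ) : ℤ)).card : ℝ) +
          (TT d H a b (-((s * k ^ 3 : ℕ) : ℤ))).card := by
      exact_mod_cast Finset.card_union_le _ _
    linarith
  have h2 : ∀ s ∈ Icc 1 K, ((((Icc 1 ((d + 1) * H * a ^ d)).filter
      (fun k => s * k ^ 3 ≤ (d + 1) * H * a ^ d)).biUnion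
      fun k : ℕ => TT d H a b ((s * k ^ 3 : ℕ) : ℤ) ∪ TT d H a b (-((s * k ^ 3 : ℕ) : ℤ))).card : ℝ)
      ≤ 2 * β * M ^ (σ / 2) * ((s : ℕ) : ℝ) ^ (-(σ / 2)) * Zc σ₀ := by
    intro s hs
    obtain ⟨hs1, _⟩ := mem_Icc.mp hs
    have hs0 : (0 : ℝ) < s := by exact_mod_cast hs1
    calc _ ≤ ∑ k ∈ (Icc 1 ((d + 1) * H * a ^ d)).filter (fun k => s * k ^ 3 ≤ (d + 1) * H * a ^ d),
        ((TT d H a b ((s * k ^ 3 : ℕ) : ℤ) ∪ TT d H a b (-((s * k ^ 3 : ℕ) : ℤ))).card : ℝ) := by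
          exact_mod_cast Finset.card_biUnion_le
      _ ≤ ∑ k ∈ (Icc 1 ((d + 1) * H * a ^ d)).filter (fun k => s * k ^ 3 ≤ (d + 1) * H * a ^ d),
          2 * β * M ^ (σ / 2) * ((s : ℕ) : ℝ) ^ (-(σ / 2)) * ((k : ℕ) : ℝ) ^ (-(3 * σ / 2)) :=
          Finset.sum_le_sum (h1 s hs)
      _ ≤ ∑ k ∈ Icc 1 ((d + 1) * H * a ^ d),
          2 * β * M ^ (σ / 2) * ((s : ℕ) : ℝ) ^ (-(σ / 2)) * ((k : ℕ) : ℝ) ^ (-(3 * σ / 2)) :=
          Finset.sum_le_sum_of_subset_of_nonneg (Finset.filter_subset _ _)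
            (fun k _ _ => by positivity)
      _ = 2 * β * M ^ (σ / 2) * ((s : ℕ) : ℝ) ^ (-(σ / 2)) *
          ∑ k ∈ Icc 1 ((d + 1) * H * a ^ d), ((k : ℕ) : ℝ) ^ (-(3 * σ / 2)) := by
          rw [Finset.mul_sum]
      _ ≤ _ := by
          refine mul_le_mul_of_nonneg_left ?_ (by positivity)
          exact sum_k _ σ₀ σ hσ0 hσ
  unfold UU
  calc _ ≤ ∑ s ∈ Icc 1 K, ((((Icc 1 ((d + 1) * H * a ^ d)).filter
      (fun k => s * k ^ 3 ≤ (d + 1) * H * a ^ d)).biUnion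
      fun k : ℕ => TT d H a b ((s * k ^ 3 : ℕ) : ℤ) ∪
        TT d H a b (-((s * k ^ 3 : ℕ) : ℤ))).card : ℝ) := by
        exact_mod_cast Finset.card_biUnion_le
    _ ≤ ∑ s ∈ Icc 1 K, 2 * β * M ^ (σ / 2) * ((s : ℕ) : ℝ) ^ (-(σ / 2)) * Zc σ₀ :=
        Finset.sum_le_sum h2
    _ = 2 * β * M ^ (σ / 2) * Zc σ₀ * ∑ s ∈ Icc 1 K, ((s : ℕ) : ℝ) ^ (-(σ / 2)) := by
        rw [Finset.mul_sum]
        refine Finset.sum_congr rfl fun s _ => ?_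
        ring
    _ ≤ 2 * β * M ^ (σ / 2) * Zc σ₀ * (2 * (K : ℝ) ^ (1 - σ / 2)) := by
        refine mul_le_mul_of_nonneg_left (sum_s K σ hσ1) (by positivity)
    _ = _ := by ring

theorem mem_UU (d H K a : ℕ) (b : ℤ) (hH : 1 ≤ H) (hK : 1 ≤ K) (ha0 : 0 < a) (hb : |b| ≤ a)
    (f : Fin (d + 1) → ℤ) (hf : f ∈ box (d + 1) H) (hf0 : f 0 ≠ 0) (s : ℤ) (k : ℕ) (m : ℤ)
    (hs : s ≠ 0) (hsK : s.natAbs ≤ K) (hk : 1 ≤ k)
    (hN : frm d f a b = s * (k : ℤ) ^ 3 * m ^ 2) : f ∈ UU d H K a b := by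
  classical
  have hM1 : 1 ≤ (d + 1) * H * a ^ d := Nat.succ_le_of_lt (by positivity)
  unfold UU
  rw [Finset.mem_biUnion]
  by_cases hm : m = 0
  · refine ⟨1, mem_Icc.mpr ⟨le_refl _, hK⟩, ?_⟩
    rw [Finset.mem_biUnion]
    refine ⟨1, ?_, ?_⟩
    · rw [Finset.mem_filter]
      exact ⟨mem_Icc.mpr ⟨le_refl _, hM1⟩, by simpa using hM1⟩
    · rw [Finset.mem_union]
      left
      unfold TT
      rw [Finset.mem_filter]
      refine ⟨hf, hf0, 0, ?_⟩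
      rw [hN, hm]
      ring
  · have h1 := abs_frm_le d H f hf a b hb
    have h2 : |frm d f a b| ≤ (((d + 1) * H * a ^ d : ℕ) : ℤ) := by
      have : ((|frm d f a b| : ℤ) : ℝ) ≤ (((((d + 1) * H * a ^ d : ℕ) : ℤ)) : ℝ) := by
        push_cast
        exact h1
      exact_mod_cast this
    have h3 : s.natAbs * k ^ 3 ≤ (d + 1) * H * a ^ d := by
      have h4 : (frm d f a b).natAbs ≤ (d + 1) * H * a ^ d := by
        rw [Int.abs_eq_natAbs] at h2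
        exact_mod_cast h2
      rw [hN, Int.natAbs_mul, Int.natAbs_mul, Int.natAbs_pow, Int.natAbs_pow,
        Int.natAbs_natCast] at h4
      have h5 : 1 ≤ m.natAbs ^ 2 := Nat.one_le_pow _ _ (Int.natAbs_pos.mpr hm)
      calc s.natAbs * k ^ 3 = s.natAbs * k ^ 3 * 1 := (mul_one _).symm
        _ ≤ s.natAbs * k ^ 3 * m.natAbs ^ 2 := Nat.mul_le_mul_left _ h5
        _ ≤ _ := h4
    have hs1 : 1 ≤ s.natAbs := Int.natAbs_pos.mpr hs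
    have hkM : k ≤ (d + 1) * H * a ^ d := by
      refine le_trans ?_ h3
      calc k = k ^ 1 := (pow_one k).symm
        _ ≤ k ^ 3 := Nat.pow_le_pow_right hk (by norm_num)
        _ = 1 * k ^ 3 := (one_mul _).symm
        _ ≤ _ := Nat.mul_le_mul_right _ hs1
    refine ⟨s.natAbs, mem_Icc.mpr ⟨hs1, hsK⟩, ?_⟩
    rw [Finset.mem_biUnion]
    refine ⟨k, ?_, ?_⟩
    · rw [Finset.mem_filter]
      exact ⟨mem_Icc.mpr ⟨hk, hkM⟩, h3⟩
    · rw [Finset.mem_union]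
      rcases le_or_gt 0 s with h6 | h6
      · left
        unfold TT
        rw [Finset.mem_filter]
        refine ⟨hf, hf0, m, ?_⟩
        rw [hN]
        push_cast
        rw [abs_of_nonneg h6]
      · right
        unfold TT
        rw [Finset.mem_filter]
        refine ⟨hf, hf0, m, ?_⟩
        rw [hN]
        push_cast
        rw [abs_of_neg h6]
        ring

/-- small pairs -/
noncomputable def Bs (d H K : ℕ) : Finset (Fin (d + 1) → ℤ) := by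
  classical
  exact (Icc 1 (2 * H)).biUnion fun a : ℕ =>
    ((Icc (-(a : ℤ)) a).filter (fun b => IsCoprime (a : ℤ) b)).biUnion fun b => UU d H K a b

theorem card_Bs (d : ℕ) (hd : 5 ≤ d) : ∃ C : ℝ, 0 < C ∧ ∀ H K : ℕ,
    ((Bs d H K).card : ℝ) ≤ C * ((H : ℝ) ^ ((1 : ℝ) / 2) * (K : ℝ) ^ ((1 : ℝ) / 2)) * (H : ℝ) ^ d := by
  classical
  set Z : ℝ := ∑' n : ℕ, 1 / (n : ℝ) ^ ((3 : ℝ) / 2) with hZ
  have hZs : Summable (fun n : ℕ => 1 / (n : ℝ) ^ ((3 : ℝ) / 2)) :=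
    Real.summable_one_div_nat_rpow.mpr (by norm_num)
  have hZ0 : 0 ≤ Z := tsum_nonneg fun n => by positivity
  have hc0 := Zc_nonneg 1
  refine ⟨(36 * 4 ^ d * (Zc 1 + 1) * ((d : ℝ) + 1) ^ ((1 : ℝ) / 2)) * (Z + 1), by positivity, ?_⟩
  intro H K
  set W : ℝ := (36 * 4 ^ d * (Zc 1 + 1) * ((d : ℝ) + 1) ^ ((1 : ℝ) / 2)) *
    ((H : ℝ) ^ ((1 : ℝ) / 2) * (K : ℝ) ^ ((1 : ℝ) / 2)) * (H : ℝ) ^ d with hW
  have hW0 : 0 ≤ W := by positivity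
  have hone : ∀ a ∈ Icc 1 (2 * H),
      ((((Icc (-(a : ℤ)) a).filter (fun b => IsCoprime (a : ℤ) b)).biUnion fun b =>
        UU d H K a b).card : ℝ) ≤ W * (1 / (a : ℝ) ^ ((3 : ℝ) / 2)) := by
    intro a ha
    obtain ⟨ha1, ha2⟩ := mem_Icc.mp ha
    have haR : (1 : ℝ) ≤ a := by exact_mod_cast ha1
    have haR0 : (0 : ℝ) < a := by linarith
    have hb : ∀ b ∈ (Icc (-(a : ℤ)) a).filter (fun b => IsCoprime (a : ℤ) b),
        ((UU d H K a b).card : ℝ) ≤ 4 * (3 * (4 * H / a) ^ d) * Zc 1 *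
          ((d + 1) * H * (a : ℝ) ^ d) ^ ((1 : ℝ) / 2) * (K : ℝ) ^ ((1 : ℝ) - 1 / 2) := by
      intro b hb
      obtain ⟨hb1, hb2⟩ := Finset.mem_filter.mp hb
      exact card_UU d H K a b 1 1 (3 * (4 * H / a) ^ d) (by positivity) (by norm_num) (le_refl _)
        (le_refl _) fun c hc hcM =>
        tt_small d H a (by omega) ha2 b c (abs_le.mpr (mem_Icc.mp hb1)) hb2 hc hcM
    have hcb : (((Icc (-(a : ℤ)) a).filter (fun b => IsCoprime (a : ℤ) b)).card : ℝ) ≤ 3 * a := by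
      have h1 : ((Icc (-(a : ℤ)) a).filter (fun b => IsCoprime (a : ℤ) b)).card ≤ 3 * a := by
        refine (Finset.card_filter_le _ _).trans ?_
        rw [Int.card_Icc]
        omega
      exact_mod_cast h1
    have e1 : ((d + 1) * H * (a : ℝ) ^ d) ^ ((1 : ℝ) / 2) =
        ((d : ℝ) + 1) ^ ((1 : ℝ) / 2) * (H : ℝ) ^ ((1 : ℝ) / 2) * ((a : ℝ) ^ d) ^ ((1 : ℝ) / 2) := by
      rw [Real.mul_rpow (by positivity) (by positivity), Real.mul_rpow (by positivity) (by positivity)]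
    have e2 : (a : ℝ) * (((a : ℝ) ^ d) ^ ((1 : ℝ) / 2) / (a : ℝ) ^ d) ≤
        1 / (a : ℝ) ^ ((3 : ℝ) / 2) := by
      have f1 : (a : ℝ) * (((a : ℝ) ^ d) ^ ((1 : ℝ) / 2) / (a : ℝ) ^ d) =
          (a : ℝ) ^ ((1 : ℝ) + ((d : ℝ) * (1 / 2) - d)) := by
        rw [← Real.rpow_natCast, ← Real.rpow_mul haR0.le, ← Real.rpow_sub haR0,
          Real.rpow_add haR0, Real.rpow_one]
      have f2 : 1 / (a : ℝ) ^ ((3 : ℝ) / 2) = (a : ℝ) ^ (-((3 : ℝ) / 2)) := by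
        rw [Real.rpow_neg haR0.le, one_div]
      rw [f1, f2]
      refine Real.rpow_le_rpow_of_exponent_le haR ?_
      have : (5 : ℝ) ≤ d := by exact_mod_cast hd
      linarith
    have e3 : ((1 : ℝ) - 1 / 2) = 1 / 2 := by norm_num
    calc ((((Icc (-(a : ℤ)) a).filter (fun b => IsCoprime (a : ℤ) b)).biUnion fun b =>
        UU d H K a b).card : ℝ)
        ≤ ∑ b ∈ (Icc (-(a : ℤ)) a).filter (fun b => IsCoprime (a : ℤ) b),
          ((UU d H K a b).card : ℝ) := by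
          exact_mod_cast Finset.card_biUnion_le
      _ ≤ ∑ _b ∈ (Icc (-(a : ℤ)) a).filter (fun b => IsCoprime (a : ℤ) b),
          4 * (3 * (4 * H / a) ^ d) * Zc 1 *
          ((d + 1) * H * (a : ℝ) ^ d) ^ ((1 : ℝ) / 2) * (K : ℝ) ^ ((1 : ℝ) - 1 / 2) :=
          Finset.sum_le_sum hb
      _ = (((Icc (-(a : ℤ)) a).filter (fun b => IsCoprime (a : ℤ) b)).card : ℝ) *
          (4 * (3 * (4 * H / a) ^ d) * Zc 1 *
          ((d + 1) * H * (a : ℝ) ^ d) ^ ((1 : ℝ) / 2) * (K : ℝ) ^ ((1 : ℝ) - 1 / 2)) := by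
          rw [Finset.sum_const, nsmul_eq_mul]
      _ ≤ 3 * a * (4 * (3 * (4 * H / a) ^ d) * Zc 1 *
          ((d + 1) * H * (a : ℝ) ^ d) ^ ((1 : ℝ) / 2) * (K : ℝ) ^ ((1 : ℝ) - 1 / 2)) :=
          mul_le_mul_of_nonneg_right hcb (by positivity)
      _ = (36 * 4 ^ d * Zc 1 * ((d : ℝ) + 1) ^ ((1 : ℝ) / 2)) *
          ((H : ℝ) ^ ((1 : ℝ) / 2) * (K : ℝ) ^ ((1 : ℝ) / 2)) * (H : ℝ) ^ d *
          ((a : ℝ) * (((a : ℝ) ^ d) ^ ((1 : ℝ) / 2) / (a : ℝ) ^ d)) := by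
          rw [e1, e3, div_pow, mul_pow]
          field_simp
          ring
      _ ≤ W * (1 / (a : ℝ) ^ ((3 : ℝ) / 2)) := by
          refine mul_le_mul ?_ e2 (by positivity) hW0
          rw [hW]
          gcongr
          linarith
  unfold Bs
  calc _ ≤ ∑ a ∈ Icc 1 (2 * H), ((((Icc (-(a : ℤ)) a).filter
        (fun b => IsCoprime (a : ℤ) b)).biUnion fun b => UU d H K a b).card : ℝ) := by
        exact_mod_cast Finset.card_biUnion_le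
    _ ≤ ∑ a ∈ Icc 1 (2 * H), W * (1 / (a : ℝ) ^ ((3 : ℝ) / 2)) := Finset.sum_le_sum hone
    _ = W * ∑ a ∈ Icc 1 (2 * H), 1 / (a : ℝ) ^ ((3 : ℝ) / 2) := by rw [Finset.mul_sum]
    _ ≤ W * (Z + 1) := by
        refine mul_le_mul_of_nonneg_left ?_ hW0
        have := hZs.sum_le_tsum (Icc 1 (2 * H)) (fun n _ => by positivity)
        linarith
    _ = _ := by
        rw [hW]
        ring

/-- the bound for one large pair -/
theorem card_UU_large (d : ℕ) (hd : 1 ≤ d) (θ σ₀ ε : ℝ) (hθ : 0 < θ) (hσ0 : 2 / 3 < σ₀)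
    (hσ1 : σ₀ ≤ 1) (hθσ : 1 ≤ θ * σ₀) (hε : 0 < ε) :
    ∃ C : ℝ, 0 < C ∧ ∀ (H K a : ℕ) (b : ℤ), 1 ≤ H → 1 ≤ K → 2 * H < a → (a : ℝ) ≤ (H : ℝ) ^ θ →
      |b| ≤ a → IsCoprime (a : ℤ) b → ((UU d H K a b).card : ℝ) ≤
        C * (H : ℝ) ^ ε * ((H : ℝ) ^ (1 - σ₀ / 2) * (K : ℝ) ^ (1 - σ₀ / 2) *
          (H : ℝ) ^ (θ * d * σ₀ / 2)) := by
  classical
  have hdR : (1 : ℝ) ≤ d := by exact_mod_cast hd
  set ε' : ℝ := ε / (2 * d * θ) with hε'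
  have hε'0 : 0 < ε' := by positivity
  obtain ⟨C₀, hC₀, hdiv⟩ := divisor_bound ε' hε'0
  have hZ0 := Zc_nonneg σ₀
  refine ⟨4 * (5 * 4 ^ d * C₀ ^ 2) * (Zc σ₀ + 1) * (d + 1), by positivity, ?_⟩
  intro H K a b hH hK ha haθ hb hab
  have hHR : (1 : ℝ) ≤ H := by exact_mod_cast hH
  have hHR0 : (0 : ℝ) < H := by linarith
  have hKR : (1 : ℝ) ≤ K := by exact_mod_cast hK
  have ha0 : 0 < a := by omega
  have haR3 : (3 : ℝ) ≤ a := by exact_mod_cast (by omega : 3 ≤ a)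
  have haR0 : (0 : ℝ) < a := by linarith
  have hHa : (H : ℝ) ≤ a := by exact_mod_cast (by omega : H ≤ a)
  have hla : 0 < Real.log a := Real.log_pos (by linarith)
  have hlH : 0 ≤ Real.log H := Real.log_nonneg hHR
  set σ : ℝ := max σ₀ (Real.log H / Real.log a) with hσ
  have hσ₀σ : σ₀ ≤ σ := le_max_left _ _
  have hσ2 : Real.log H / Real.log a ≤ σ := le_max_right _ _
  have hσle : σ ≤ 1 := by
    refine max_le hσ1 ?_
    rw [div_le_one hla]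
    exact Real.log_le_log hHR0 hHa
  have hpowlog : (a : ℝ) ^ (Real.log H / Real.log a) = H := by
    rw [Real.rpow_def_of_pos haR0, mul_div_assoc', mul_comm, mul_div_assoc, div_self hla.ne',
      mul_one, Real.exp_log hHR0]
  have hHσ : (H : ℝ) ≤ (a : ℝ) ^ σ := by
    rw [← hpowlog]
    nth_rw 1 [hpowlog]
    nth_rw 1 [← hpowlog]
    exact Real.rpow_le_rpow_of_exponent_le (by linarith) hσ2
  have haσ : (a : ℝ) ^ σ ≤ (H : ℝ) ^ (θ * σ₀) := by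
    rcases le_total (Real.log H / Real.log a) σ₀ with h1 | h1
    · have : σ = σ₀ := max_eq_left h1
      rw [this, Real.rpow_mul hHR0.le]
      exact Real.rpow_le_rpow haR0.le haθ (by linarith)
    · have : σ = Real.log H / Real.log a := max_eq_right h1
      rw [this, hpowlog]
      calc (H : ℝ) = (H : ℝ) ^ (1 : ℝ) := (Real.rpow_one _).symm
        _ ≤ (H : ℝ) ^ (θ * σ₀) := Real.rpow_le_rpow_of_exponent_le hHR hθσ
  have h1 := card_UU d H K a b σ₀ σ (5 * 4 ^ d * ((a ^ d).divisors.card : ℝ) ^ 2 *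
    (H : ℝ) ^ (1 - σ)) (by positivity) hσ0 hσ₀σ hσle fun c hc hcM =>
      tt_large d H a hd hH ha b c hb hab hc hcM σ (by linarith) hσle hHσ
  refine h1.trans ?_
  -- the divisor bound
  have hτ : ((a ^ d).divisors.card : ℝ) ^ 2 ≤ C₀ ^ 2 * (H : ℝ) ^ ε := by
    have h2 := hdiv (a ^ d) (Nat.one_le_pow _ _ ha0)
    have h3 : ((a ^ d : ℕ) : ℝ) ^ ε' ≤ (H : ℝ) ^ (ε / 2) := by
      push_cast
      calc ((a : ℝ) ^ d) ^ ε' ≤ (((H : ℝ) ^ θ) ^ d) ^ ε' :=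
            Real.rpow_le_rpow (by positivity) (pow_le_pow_left₀ haR0.le haθ d) hε'0.le
        _ = (H : ℝ) ^ (ε / 2) := by
            rw [← Real.rpow_natCast, ← Real.rpow_mul hHR0.le, ← Real.rpow_mul hHR0.le]
            congr 1
            rw [hε']
            field_simp
    calc ((a ^ d).divisors.card : ℝ) ^ 2 ≤ (C₀ * (H : ℝ) ^ (ε / 2)) ^ 2 := by
          refine pow_le_pow_left₀ (Nat.cast_nonneg _) (h2.trans ?_) 2
          exact mul_le_mul_of_nonneg_left h3 hC₀.le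
      _ = C₀ ^ 2 * (H : ℝ) ^ ε := by
          rw [mul_pow]
          congr 1
          rw [← Real.rpow_natCast, ← Real.rpow_mul hHR0.le]
          congr 1
          push_cast
          ring
  have e1 : ((d + 1) * H * (a : ℝ) ^ d) ^ (σ / 2) ≤
      ((d : ℝ) + 1) * (H : ℝ) ^ (σ / 2) * (H : ℝ) ^ (θ * d * σ₀ / 2) := by
    rw [Real.mul_rpow (by positivity) (by positivity), Real.mul_rpow (by positivity) (by positivity)]
    have e2 : ((d : ℝ) + 1) ^ (σ / 2) ≤ (d : ℝ) + 1 := by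
      calc ((d : ℝ) + 1) ^ (σ / 2) ≤ ((d : ℝ) + 1) ^ (1 : ℝ) :=
            Real.rpow_le_rpow_of_exponent_le (by linarith) (by linarith)
        _ = _ := Real.rpow_one _
    have e3 : ((a : ℝ) ^ d) ^ (σ / 2) ≤ (H : ℝ) ^ (θ * d * σ₀ / 2) := by
      calc ((a : ℝ) ^ d) ^ (σ / 2) = ((a : ℝ) ^ σ) ^ ((d : ℝ) / 2) := by
            rw [← Real.rpow_natCast, ← Real.rpow_mul haR0.le, ← Real.rpow_mul haR0.le]
            congr 1
            ring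
        _ ≤ ((H : ℝ) ^ (θ * σ₀)) ^ ((d : ℝ) / 2) :=
            Real.rpow_le_rpow (by positivity) haσ (by positivity)
        _ = _ := by
            rw [← Real.rpow_mul hHR0.le]
            congr 1
            ring
    gcongr
  have e4 : (H : ℝ) ^ (1 - σ) * (H : ℝ) ^ (σ / 2) ≤ (H : ℝ) ^ (1 - σ₀ / 2) := by
    rw [← Real.rpow_add hHR0]
    refine Real.rpow_le_rpow_of_exponent_le hHR ?_
    linarith
  have e5 : (K : ℝ) ^ (1 - σ / 2) ≤ (K : ℝ) ^ (1 - σ₀ / 2) :=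
    Real.rpow_le_rpow_of_exponent_le hKR (by linarith)
  calc 4 * (5 * 4 ^ d * ((a ^ d).divisors.card : ℝ) ^ 2 * (H : ℝ) ^ (1 - σ)) * Zc σ₀ *
        ((d + 1) * H * (a : ℝ) ^ d) ^ (σ / 2) * (K : ℝ) ^ (1 - σ / 2)
      ≤ 4 * (5 * 4 ^ d * (C₀ ^ 2 * (H : ℝ) ^ ε) * (H : ℝ) ^ (1 - σ)) * (Zc σ₀ + 1) *
        (((d : ℝ) + 1) * (H : ℝ) ^ (σ / 2) * (H : ℝ) ^ (θ * d * σ₀ / 2)) *
          (K : ℝ) ^ (1 - σ₀ / 2) := by
        gcongr
        linarith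
    _ = 4 * (5 * 4 ^ d * C₀ ^ 2) * (Zc σ₀ + 1) * (d + 1) * (H : ℝ) ^ ε *
        (((H : ℝ) ^ (1 - σ) * (H : ℝ) ^ (σ / 2)) * (K : ℝ) ^ (1 - σ₀ / 2) *
          (H : ℝ) ^ (θ * d * σ₀ / 2)) := by ring
    _ ≤ _ := by
        gcongr

end Pool.Agent.TH390.Tw
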