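import Pool.Agent.TH390.Tw.PairC

set_option autoImplicit false

namespace Pool.Agent.TH390.Tw

open Finset

theorem frm_neg' (d : ℕ) (f : Fin (d + 1) → ℤ) (a b : ℤ) :
    frm d f (-a) (-b) = (-1) ^ d * frm d f a b := by
  unfold frm
  rw [Finset.mul_sum]
  refine Finset.sum_congr rfl fun i _ => ?_
  have hi : (i : ℕ) ≤ d := Nat.lt_succ_iff.mp i.2
  have h1 : ((-1 : ℤ)) ^ (i : ℕ) * (-1) ^ (d - (i : ℕ)) = (-1) ^ d := by
    rw [← pow_add, Nat.add_sub_cancel' hi]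
  rw [neg_pow a, neg_pow b]
  calc f i * ((-1) ^ (i : ℕ) * a ^ (i : ℕ)) * ((-1) ^ (d - (i : ℕ)) * b ^ (d - (i : ℕ)))
      = ((-1) ^ (i : ℕ) * (-1) ^ (d - (i : ℕ))) * (f i * a ^ (i : ℕ) *
        b ^ (d - (i : ℕ))) := by ring
    _ = _ := by rw [h1]

theorem frm_rev' (d : ℕ) (f : Fin (d + 1) → ℤ) (a b : ℤ) :
    frm d (fun i => f i.rev) b a = frm d f a b := by
  unfold frm
  rw [← Equiv.sum_comp Fin.revPerm (fun i => f i * a ^ (i : ℕ) * b ^ (d - (i : ℕ)))]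
  refine Finset.sum_congr rfl fun i _ => ?_
  have hi : (i : ℕ) ≤ d := Nat.lt_succ_iff.mp i.2
  simp only [Fin.revPerm_apply, Fin.val_rev]
  have h1 : d + 1 - ((i : ℕ) + 1) = d - (i : ℕ) := by omega
  have h2 : d - (d - (i : ℕ)) = (i : ℕ) := by omega
  rw [h1, h2]
  ring

theorem card_Z' (n H : ℕ) (hH : 1 ≤ H) :
    (((box (n + 1) H).filter (fun f => f 0 = 0)).card : ℝ) ≤ 3 ^ n * (H : ℝ) ^ n := by
  classical
  have h1 : ((box (n + 1) H).filter (fun f => f 0 = 0)).card ≤ (box n H).card := by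
    refine Finset.card_le_card_of_injOn (fun f => Fin.tail f) ?_ ?_
    · intro f hf
      obtain ⟨hf1, _⟩ := Finset.mem_filter.mp (Finset.mem_coe.mp hf)
      exact Finset.mem_coe.mpr (mem_box.mpr fun i => mem_box.mp hf1 i.succ)
    · intro f hf f' hf' hff
      obtain ⟨_, hf2⟩ := Finset.mem_filter.mp (Finset.mem_coe.mp hf)
      obtain ⟨_, hf2'⟩ := Finset.mem_filter.mp (Finset.mem_coe.mp hf')
      have hff' : Fin.tail f = Fin.tail f' := hff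
      rw [← Fin.cons_self_tail f, ← Fin.cons_self_tail f', hff', hf2, hf2']
  have h2 : (box n H).card = (2 * H + 1) ^ n := by
    unfold Pool.Agent.TH390.Tw.box
    rw [Fintype.card_piFinset]
    simp only [Int.card_Icc, Finset.prod_const, Finset.card_univ, Fintype.card_fin]
    congr 1
    omega
  rw [h2] at h1
  have h3 : ((2 * H + 1 : ℕ) : ℝ) ≤ 3 * H := by
    push_cast
    have : (1 : ℝ) ≤ H := by exact_mod_cast hH
    linarith
  calc (((box (n + 1) H).filter (fun f => f 0 = 0)).card : ℝ) ≤ (((2 * H + 1) ^ n : ℕ) : ℝ) := by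
        exact_mod_cast h1
    _ = ((2 * H + 1 : ℕ) : ℝ) ^ n := by push_cast; ring
    _ ≤ (3 * (H : ℝ)) ^ n := pow_le_pow_left₀ (Nat.cast_nonneg _) h3 n
    _ = 3 ^ n * (H : ℝ) ^ n := mul_pow _ _ _

/-- coefficient vectors with zero first coefficient, or bad with a small pair, or bad with a
pair in `P` -/
noncomputable def Up (d H K : ℕ) (P : Finset (ℕ × ℤ)) : Finset (Fin (d + 1) → ℤ) := by
  classical
  exact ((box (d + 1) H).filter (fun f => f 0 = 0) ∪ Bs d H K) ∪ P.biUnion fun p => UU d H K p.1 p.2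

theorem mem_Up (d H K : ℕ) (P : Finset (ℕ × ℤ)) (hH : 1 ≤ H) (hK : 1 ≤ K) (f : Fin (d + 1) → ℤ)
    (hf : f ∈ box (d + 1) H) (s : ℤ) (k : ℕ) (m : ℤ) (a b : ℤ)
    (hs : s ≠ 0) (hsK : s.natAbs ≤ K) (hk : 1 ≤ k) (hab : IsCoprime a b) (hba : |b| ≤ |a|)
    (haP : 2 * H < a.natAbs → (a.natAbs, a.sign * b) ∈ P)
    (h : frm d f a b = s * (k : ℤ) ^ 3 * m ^ 2) : f ∈ Up d H K P := by
  classical
  unfold Up
  by_cases h0 : f 0 = 0
  · rw [Finset.mem_union, Finset.mem_union]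
    left
    left
    exact Finset.mem_filter.mpr ⟨hf, h0⟩
  · have ha0 : a ≠ 0 := by
      rintro rfl
      rw [abs_zero] at hba
      have hb0 : b = 0 := abs_eq_zero.mp (le_antisymm hba (abs_nonneg b))
      rw [hb0] at hab
      exact not_isCoprime_zero_zero hab
    -- normalise the sign of `a`
    obtain ⟨s', hs', hsK', hfr⟩ : ∃ s' : ℤ, s' ≠ 0 ∧ s'.natAbs ≤ K ∧
        frm d f (a.natAbs : ℤ) (a.sign * b) = s' * (k : ℤ) ^ 3 * m ^ 2 := by
      rcases lt_or_gt_of_ne ha0 with h1 | h1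
      · have e : (a.natAbs : ℤ) = -a := Int.ofNat_natAbs_of_nonpos h1.le
        rw [e, Int.sign_eq_neg_one_of_neg h1, neg_one_mul, frm_neg', h]
        refine ⟨(-1) ^ d * s, mul_ne_zero (pow_ne_zero _ (by norm_num)) hs, ?_, by ring⟩
        rw [Int.natAbs_mul, Int.natAbs_pow]
        simpa using hsK
      · rw [Int.natAbs_of_nonneg h1.le, Int.sign_eq_one_of_pos h1, one_mul]
        exact ⟨s, hs, hsK, h⟩
    have hb' : |a.sign * b| ≤ (a.natAbs : ℤ) ∧ IsCoprime (a.natAbs : ℤ) (a.sign * b) := by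
      rcases lt_or_gt_of_ne ha0 with h1 | h1
      · have e : (a.natAbs : ℤ) = -a := Int.ofNat_natAbs_of_nonpos h1.le
        rw [e, Int.sign_eq_neg_one_of_neg h1, neg_one_mul, abs_neg, ← abs_of_neg h1]
        refine ⟨hba, ?_⟩
        rw [abs_of_neg h1]
        exact hab.neg_neg
      · rw [Int.natAbs_of_nonneg h1.le, Int.sign_eq_one_of_pos h1, one_mul]
        exact ⟨by rwa [abs_of_pos h1] at hba, hab⟩
    obtain ⟨hb', hcop⟩ := hb'
    have hUU : f ∈ UU d H K a.natAbs (a.sign * b) :=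
      mem_UU d H K a.natAbs (a.sign * b) hH hK (Int.natAbs_pos.mpr ha0) hb' f hf h0 s' k m hs'
        hsK' hk hfr
    rcases Nat.lt_or_ge (2 * H) a.natAbs with h1 | h1
    · rw [Finset.mem_union]
      right
      rw [Finset.mem_biUnion]
      exact ⟨_, haP h1, hUU⟩
    · rw [Finset.mem_union, Finset.mem_union]
      left
      right
      unfold Bs
      rw [Finset.mem_biUnion]
      refine ⟨a.natAbs, mem_Icc.mpr ⟨Int.natAbs_pos.mpr ha0, h1⟩, ?_⟩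
      rw [Finset.mem_biUnion]
      exact ⟨a.sign * b, Finset.mem_filter.mpr ⟨mem_Icc.mpr (abs_le.mp hb'), hcop⟩, hUU⟩

theorem mainPairs (d : ℕ) (hd : 5 ≤ d) (κ θ σ φ : ℝ) (hκ0 : 0 ≤ κ) (hκ : κ < 1)
    (hσ0 : 2 / 3 < σ) (hσ1 : σ ≤ 1) (hθσ : 1 ≤ θ * σ)
    (hφ : φ + (1 + κ) * (1 - σ / 2) + θ * d * σ / 2 < d + 1) :
    ∃ η C : ℝ, 0 < η ∧ ∀ H : ℕ, 1 ≤ H → ∀ A : Finset (ℤ × ℤ),
      (A.card : ℝ) ≤ 9 * (H : ℝ) ^ φ →
      (∀ x ∈ A, |(x.1 : ℝ)| ≤ (H : ℝ) ^ θ ∧ |(x.2 : ℝ)| ≤ (H : ℝ) ^ θ) →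
      ∃ V : Finset (Fin (d + 1) → ℤ),
      (∀ f : Fin (d + 1) → ℤ, (∀ i, |f i| ≤ (H : ℤ)) →
        (∃ (s : ℤ) (k : ℕ) (m : ℤ), s ≠ 0 ∧ (s.natAbs : ℝ) ≤ (H : ℝ) ^ κ ∧ 1 ≤ k ∧
          ∃ x ∈ A, IsCoprime x.1 x.2 ∧ frm d f x.1 x.2 = s * (k : ℤ) ^ 3 * m ^ 2) → f ∈ V) ∧
      (V.card : ℝ) ≤ C * (H : ℝ) ^ ((d : ℝ) + 1 - η) := by
  classical
  have hθ0 : 0 < θ := by
    by_contra h
    push Not at h
    have : θ * σ ≤ 0 := mul_nonpos_of_nonpos_of_nonneg h (by linarith)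
    linarith
  set gap : ℝ := d + 1 - φ - (1 + κ) * (1 - σ / 2) - θ * d * σ / 2 with hgap
  have hgap0 : 0 < gap := by rw [hgap]; linarith
  obtain ⟨C1, hC1, hBs⟩ := card_Bs d hd
  obtain ⟨C2, hC2, hBl⟩ := card_UU_large d (by omega) θ σ (gap / 2) hθ0 hσ0 hσ1 hθσ (by linarith)
  set η : ℝ := min ((1 - κ) / 2) (gap / 2) with hη
  have hη0 : 0 < η := lt_min (by linarith) (by linarith)
  have hη1 : η ≤ (1 - κ) / 2 := min_le_left _ _
  have hη2 : η ≤ gap / 2 := min_le_right _ _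
  refine ⟨η, 2 * (3 ^ d + C1 + 9 * C2), hη0, ?_⟩
  intro H hH A hA hAB
  have hHR : (1 : ℝ) ≤ H := by exact_mod_cast hH
  have hHR0 : (0 : ℝ) < H := by linarith
  set K : ℕ := ⌊(H : ℝ) ^ κ⌋₊ with hK
  have hKr : (K : ℝ) ≤ (H : ℝ) ^ κ := Nat.floor_le (by positivity)
  have hK1 : 1 ≤ K := by
    rw [hK]
    apply Nat.le_floor
    push_cast
    exact Real.one_le_rpow hHR hκ0
  -- the two sets of pairs
  set P1 : Finset (ℕ × ℤ) := ((A.filter (fun x => |x.2| ≤ |x.1| ∧ IsCoprime x.1 x.2)).image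
    (fun x => (x.1.natAbs, x.1.sign * x.2))).filter (fun p => 2 * H < p.1) with hP1
  set P2 : Finset (ℕ × ℤ) := ((A.filter (fun x => |x.1| ≤ |x.2| ∧ IsCoprime x.1 x.2)).image
    (fun x => (x.2.natAbs, x.2.sign * x.1))).filter (fun p => 2 * H < p.1) with hP2
  have haux : ∀ a b : ℤ, |b| ≤ |a| → IsCoprime a b → 2 * H < a.natAbs → |(a : ℝ)| ≤ (H : ℝ) ^ θ →
      |a.sign * b| ≤ (a.natAbs : ℤ) ∧ IsCoprime (a.natAbs : ℤ) (a.sign * b) ∧
      ((a.natAbs : ℕ) : ℝ) ≤ (H : ℝ) ^ θ := by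
    intro a b hba hab ha hle
    have hxn : a ≠ 0 := by
      intro h0
      rw [h0] at ha
      simp at ha
    have hsg : |a.sign| = 1 := by
      rcases Int.sign_trichotomy a with h6 | h6 | h6
      · rw [h6]; rfl
      · exact absurd (Int.sign_eq_zero_iff_zero.mp h6) hxn
      · rw [h6]; rfl
    refine ⟨?_, ?_, ?_⟩
    · rw [abs_mul, hsg, one_mul, ← Int.abs_eq_natAbs]
      exact hba
    · rcases lt_or_gt_of_ne hxn with h2 | h2
      · rw [Int.ofNat_natAbs_of_nonpos h2.le, Int.sign_eq_neg_one_of_neg h2, neg_one_mul]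
        exact hab.neg_neg
      · rw [Int.natAbs_of_nonneg h2.le, Int.sign_eq_one_of_pos h2, one_mul]
        exact hab
    · have h1 : ((a.natAbs : ℕ) : ℝ) = |(a : ℝ)| := by
        rw [Nat.cast_natAbs]
        push_cast
        rfl
      rw [h1]
      exact hle
  have hP1p : ∀ p ∈ P1, 2 * H < p.1 ∧ |p.2| ≤ p.1 ∧ IsCoprime (p.1 : ℤ) p.2 ∧
      (p.1 : ℝ) ≤ (H : ℝ) ^ θ := by
    intro p hp
    rw [hP1, Finset.mem_filter, Finset.mem_image] at hp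
    obtain ⟨⟨x, hx, rfl⟩, hp2⟩ := hp
    obtain ⟨hxA, hxle, hxc⟩ := Finset.mem_filter.mp hx
    exact ⟨hp2, haux x.1 x.2 hxle hxc hp2 (hAB x hxA).1⟩
  have hP2p : ∀ p ∈ P2, 2 * H < p.1 ∧ |p.2| ≤ p.1 ∧ IsCoprime (p.1 : ℤ) p.2 ∧
      (p.1 : ℝ) ≤ (H : ℝ) ^ θ := by
    intro p hp
    rw [hP2, Finset.mem_filter, Finset.mem_image] at hp
    obtain ⟨⟨x, hx, rfl⟩, hp2⟩ := hp
    obtain ⟨hxA, hxle, hxc⟩ := Finset.mem_filter.mp hx
    exact ⟨hp2, haux x.2 x.1 hxle hxc.symm hp2 (hAB x hxA).2⟩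
  have hP1c : (P1.card : ℝ) ≤ 9 * (H : ℝ) ^ φ := by
    refine le_trans ?_ hA
    exact_mod_cast (Finset.card_filter_le _ _).trans
      (Finset.card_image_le.trans (Finset.card_filter_le _ _))
  have hP2c : (P2.card : ℝ) ≤ 9 * (H : ℝ) ^ φ := by
    refine le_trans ?_ hA
    exact_mod_cast (Finset.card_filter_le _ _).trans
      (Finset.card_image_le.trans (Finset.card_filter_le _ _))
  set V : Finset (Fin (d + 1) → ℤ) :=
    Up d H K P1 ∪ (Up d H K P2).image (fun f i => f i.rev) with hV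
  refine ⟨V, ?_, ?_⟩
  · rintro f hfb ⟨s, k, m, hs, hsK, hk, x, hxA, hxc, hN⟩
    have hfbox : f ∈ box (d + 1) H := mem_box.mpr hfb
    have hsK' : s.natAbs ≤ K := by
      rw [hK]
      exact Nat.le_floor hsK
    rw [hV, Finset.mem_union]
    rcases le_total |x.2| |x.1| with h1 | h1
    · left
      refine mem_Up d H K P1 hH hK1 f hfbox s k m x.1 x.2 hs hsK' hk hxc h1 ?_ hN
      intro h2
      rw [hP1, Finset.mem_filter, Finset.mem_image]
      exact ⟨⟨x, Finset.mem_filter.mpr ⟨hxA, h1, hxc⟩, rfl⟩, h2⟩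
    · right
      rw [Finset.mem_image]
      refine ⟨fun i => f i.rev, ?_, ?_⟩
      · refine mem_Up d H K P2 hH hK1 (fun i => f i.rev) (mem_box.mpr fun i => hfb _) s k m
          x.2 x.1 hs hsK' hk hxc.symm h1 ?_ ?_
        · intro h2
          rw [hP2, Finset.mem_filter, Finset.mem_image]
          exact ⟨⟨x, Finset.mem_filter.mpr ⟨hxA, h1, hxc⟩, rfl⟩, h2⟩
        · rw [frm_rev']
          exact hN
      · ext i
        simp
  have h2 : V.card ≤ (Up d H K P1).card + (Up d H K P2).card := by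
    rw [hV]
    refine (Finset.card_union_le _ _).trans ?_
    have := Finset.card_image_le (s := Up d H K P2) (f := fun f i => f (Fin.rev i))
    omega
  -- the exponents
  set R : ℝ := (H : ℝ) ^ ((d : ℝ) + 1 - η) with hR
  have hR0 : 0 < R := by positivity
  have hpow : (H : ℝ) ^ d = (H : ℝ) ^ (d : ℝ) := (Real.rpow_natCast _ _).symm
  have hX1 : (H : ℝ) ^ d ≤ R := by
    rw [hpow, hR]
    refine Real.rpow_le_rpow_of_exponent_le hHR ?_
    linarith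
  have hKpow : ∀ t : ℝ, 0 ≤ t → (K : ℝ) ^ t ≤ (H : ℝ) ^ (κ * t) := by
    intro t ht
    rw [Real.rpow_mul hHR0.le]
    exact Real.rpow_le_rpow (Nat.cast_nonneg _) hKr ht
  have hX2 : ((H : ℝ) ^ ((1 : ℝ) / 2) * (K : ℝ) ^ ((1 : ℝ) / 2)) * (H : ℝ) ^ d ≤ R := by
    calc ((H : ℝ) ^ ((1 : ℝ) / 2) * (K : ℝ) ^ ((1 : ℝ) / 2)) * (H : ℝ) ^ d
        ≤ ((H : ℝ) ^ ((1 : ℝ) / 2) * (H : ℝ) ^ (κ * ((1 : ℝ) / 2))) * (H : ℝ) ^ (d : ℝ) := by
          rw [hpow]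
          have := hKpow (1 / 2) (by norm_num)
          gcongr
      _ = (H : ℝ) ^ (((1 : ℝ) / 2 + κ * ((1 : ℝ) / 2)) + (d : ℝ)) := by
          rw [Real.rpow_add hHR0 ((1 : ℝ) / 2 + κ * ((1 : ℝ) / 2)) (d : ℝ),
            Real.rpow_add hHR0 ((1 : ℝ) / 2) (κ * ((1 : ℝ) / 2))]
      _ ≤ R := by
          rw [hR]
          refine Real.rpow_le_rpow_of_exponent_le hHR ?_
          linarith
  have hX3 : ∀ P : Finset (ℕ × ℤ), (P.card : ℝ) ≤ 9 * (H : ℝ) ^ φ →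
      P.card * ((H : ℝ) ^ (gap / 2) * ((H : ℝ) ^ (1 - σ / 2) * (K : ℝ) ^ (1 - σ / 2) *
          (H : ℝ) ^ (θ * d * σ / 2))) ≤ 9 * R := by
    intro P hPc
    calc P.card * ((H : ℝ) ^ (gap / 2) * ((H : ℝ) ^ (1 - σ / 2) * (K : ℝ) ^ (1 - σ / 2) *
          (H : ℝ) ^ (θ * d * σ / 2)))
        ≤ (9 * (H : ℝ) ^ φ) * ((H : ℝ) ^ (gap / 2) * ((H : ℝ) ^ (1 - σ / 2) *
          (H : ℝ) ^ (κ * (1 - σ / 2)) * (H : ℝ) ^ (θ * d * σ / 2))) := by
          have := hKpow (1 - σ / 2) (by linarith)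
          gcongr
      _ = 9 * (H : ℝ) ^ (φ + (gap / 2 + (((1 - σ / 2) + κ * (1 - σ / 2)) + θ * d * σ / 2))) := by
          rw [Real.rpow_add hHR0 φ, Real.rpow_add hHR0 (gap / 2),
            Real.rpow_add hHR0 ((1 - σ / 2) + κ * (1 - σ / 2)),
            Real.rpow_add hHR0 (1 - σ / 2) (κ * (1 - σ / 2))]
          ring
      _ ≤ 9 * R := by
          rw [hR]
          refine mul_le_mul_of_nonneg_left ?_ (by norm_num)
          refine Real.rpow_le_rpow_of_exponent_le hHR ?_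
          rw [hgap] at hη2 ⊢
          linarith
  have hU : ∀ P : Finset (ℕ × ℤ), (P.card : ℝ) ≤ 9 * (H : ℝ) ^ φ → (∀ p ∈ P, 2 * H < p.1 ∧
      |p.2| ≤ p.1 ∧ IsCoprime (p.1 : ℤ) p.2 ∧ (p.1 : ℝ) ≤ (H : ℝ) ^ θ) →
      ((Up d H K P).card : ℝ) ≤ (3 ^ d + C1 + 9 * C2) * R := by
    intro P hPc hPp
    unfold Up
    have h4 := Finset.card_union_le (((box (d + 1) H).filter (fun f => f 0 = 0)) ∪
      Bs d H K) (P.biUnion fun p => UU d H K p.1 p.2)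
    have h4' := Finset.card_union_le ((box (d + 1) H).filter (fun f => f 0 = 0))
      (Bs d H K)
    have h5 := card_Z' d H hH
    have h6 := hBs H K
    have h7 : ((P.biUnion fun p => UU d H K p.1 p.2).card : ℝ) ≤ P.card *
        (C2 * (H : ℝ) ^ (gap / 2) * ((H : ℝ) ^ (1 - σ / 2) * (K : ℝ) ^ (1 - σ / 2) *
          (H : ℝ) ^ (θ * d * σ / 2))) := by
      calc ((P.biUnion fun p => UU d H K p.1 p.2).card : ℝ)
          ≤ ∑ p ∈ P, ((UU d H K p.1 p.2).card : ℝ) := by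
            exact_mod_cast Finset.card_biUnion_le
        _ ≤ ∑ _p ∈ P, (C2 * (H : ℝ) ^ (gap / 2) * ((H : ℝ) ^ (1 - σ / 2) *
            (K : ℝ) ^ (1 - σ / 2) * (H : ℝ) ^ (θ * d * σ / 2))) := by
            refine Finset.sum_le_sum fun p hp => ?_
            obtain ⟨q1, q2, q3, q4⟩ := hPp p hp
            exact hBl H K p.1 p.2 hH hK1 q1 q4 q2 q3
        _ = _ := by rw [Finset.sum_const, nsmul_eq_mul]
    have e1 : 3 ^ d * (H : ℝ) ^ d ≤ 3 ^ d * R :=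
      mul_le_mul_of_nonneg_left hX1 (by positivity)
    have e2 : C1 * ((H : ℝ) ^ ((1 : ℝ) / 2) * (K : ℝ) ^ ((1 : ℝ) / 2)) * (H : ℝ) ^ d ≤ C1 * R := by
      rw [mul_assoc]
      exact mul_le_mul_of_nonneg_left hX2 hC1.le
    have e3 : P.card *
        (C2 * (H : ℝ) ^ (gap / 2) * ((H : ℝ) ^ (1 - σ / 2) * (K : ℝ) ^ (1 - σ / 2) *
          (H : ℝ) ^ (θ * d * σ / 2))) ≤ C2 * (9 * R) := by
      calc _ = C2 * (P.card * ((H : ℝ) ^ (gap / 2) * ((H : ℝ) ^ (1 - σ / 2) *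
            (K : ℝ) ^ (1 - σ / 2) * (H : ℝ) ^ (θ * d * σ / 2)))) := by ring
        _ ≤ _ := mul_le_mul_of_nonneg_left (hX3 P hPc) hC2.le
    calc _ ≤ (((((box (d + 1) H).filter (fun f => f 0 = 0)).card : ℕ) : ℝ) +
        ((Bs d H K).card : ℝ)) + ((P.biUnion fun p => UU d H K p.1 p.2).card : ℝ) := by
          have h8 := h4.trans (Nat.add_le_add_right h4' _)
          exact_mod_cast h8
      _ ≤ (3 ^ d * R + C1 * R) + C2 * (9 * R) :=
          add_le_add (add_le_add (h5.trans e1) (h6.trans e2)) (h7.trans e3)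
      _ = _ := by ring
  have h8 : (V.card : ℝ) ≤ ((Up d H K P1).card : ℝ) + ((Up d H K P2).card : ℝ) := by
    exact_mod_cast h2
  calc (V.card : ℝ) ≤ ((Up d H K P1).card : ℝ) + ((Up d H K P2).card : ℝ) := h8
    _ ≤ (3 ^ d + C1 + 9 * C2) * R + (3 ^ d + C1 + 9 * C2) * R :=
        add_le_add (hU P1 hP1c hP1p) (hU P2 hP2c hP2p)
    _ = _ := by ring

end Pool.Agent.TH390.Tw
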