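import Pool.Agent.TH390.Tw.N3

set_option autoImplicit false

namespace Pool.Agent.TH390.Tw

open Finset

/-- the forms `G` for which `L + P G(x)` is `e`-full away from some `s ≤ K` -/
noncomputable def Vz (n q e H K : ℕ) (x : Fin (n + 1) → ℤ) (P L : ℤ) (Z : ℕ) :
    Finset (Idx n q → ℤ) := by
  classical
  exact (Icc 1 K).biUnion fun s => (insert 0 (cA e s Z)).biUnion fun c =>
    valFib n q H x ((c - L) / P)

theorem mem_Vz (n q e H K : ℕ) (x : Fin (n + 1) → ℤ) (P L : ℤ) (Z : ℕ) (hP : P ≠ 0)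
    (G : Idx n q → ℤ) (hG : G ∈ vbox n q H) (hZ : |L + P * ev x G| ≤ (Z : ℤ)) (s : ℕ)
    (hs : 1 ≤ s) (hsK : s ≤ K)
    (h : ∀ p : ℕ, p.Prime → ¬ p ∣ s → (p : ℤ) ∣ L + P * ev x G →
      (p : ℤ) ^ e ∣ L + P * ev x G) : G ∈ Vz n q e H K x P L Z := by
  classical
  unfold Vz
  rw [Finset.mem_biUnion]
  refine ⟨s, mem_Icc.mpr ⟨hs, hsK⟩, ?_⟩
  rw [Finset.mem_biUnion]
  refine ⟨L + P * ev x G, ?_, ?_⟩
  · rw [Finset.mem_insert]
    by_cases h0 : L + P * ev x G = 0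
    · exact Or.inl h0
    · right
      unfold cA
      exact Finset.mem_filter.mpr ⟨mem_Icc.mpr (abs_le.mp hZ), h0, h⟩
  · unfold valFib
    refine Finset.mem_filter.mpr ⟨hG, ?_⟩
    rw [add_sub_cancel_left, Int.mul_ediv_cancel_left _ hP]

theorem card_Vz (n q e : ℕ) (he : 1 ≤ e) (ε : ℝ) (hε : 0 < ε) : ∃ C : ℝ, 0 < C ∧
    ∀ (H K : ℕ) (x : Fin (n + 1) → ℤ) (P L : ℤ) (Z A : ℕ), Prim x → 1 ≤ Z →
      ((Vz n q e H K x P L Z).card : ℝ) ≤ K * (C * (Z : ℝ) ^ ((1 : ℝ) / e) *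
        ((Z : ℝ) * K) ^ ε) * (ratio n q H A (1 + 1 * wt (nrm x)) * fb A (nrm x) q) := by
  classical
  obtain ⟨C, hC, hcA⟩ := card_cA e he ε hε
  refine ⟨1 + C, by linarith, ?_⟩
  intro H K x P L Z A hx hZ
  set F : ℝ := ratio n q H A (1 + 1 * wt (nrm x)) * fb A (nrm x) q with hF
  have hF0 : 0 ≤ F := mul_nonneg (ratio_nonneg _ _ _ _ _) (fb_nonneg _ _ _)
  have hZR : (1 : ℝ) ≤ Z := by exact_mod_cast hZ
  have hone : ∀ s ∈ Icc 1 K, (((insert 0 (cA e s Z)).biUnion fun c =>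
      valFib n q H x ((c - L) / P)).card : ℝ) ≤
      ((1 + C) * (Z : ℝ) ^ ((1 : ℝ) / e) * ((Z : ℝ) * K) ^ ε) * F := by
    intro s hs
    obtain ⟨hs1, hs2⟩ := mem_Icc.mp hs
    have hsR : (1 : ℝ) ≤ s := by exact_mod_cast hs1
    have hsK : (s : ℝ) ≤ K := by exact_mod_cast hs2
    have h1 := hcA s Z hs1 hZ
    have h2 : ((insert 0 (cA e s Z)).card : ℝ) ≤ 1 + ((cA e s Z).card : ℝ) := by
      have h3 : ((insert 0 (cA e s Z)).card : ℝ) ≤ (((cA e s Z).card + 1 : ℕ) : ℝ) := by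
        exact_mod_cast Finset.card_insert_le (0 : ℤ) (cA e s Z)
      push_cast at h3
      linarith
    have h4 : ((Z : ℝ) * s) ^ ε ≤ ((Z : ℝ) * K) ^ ε :=
      Real.rpow_le_rpow (by positivity) (mul_le_mul_of_nonneg_left hsK (by positivity)) hε.le
    have h5 : 1 ≤ (Z : ℝ) ^ ((1 : ℝ) / e) := Real.one_le_rpow hZR (by positivity)
    have h6 : 1 ≤ ((Z : ℝ) * K) ^ ε :=
      Real.one_le_rpow (one_le_mul_of_one_le_of_one_le hZR (hsR.trans hsK)) hε.le
    have h7 : ((insert 0 (cA e s Z)).card : ℝ) ≤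
        (1 + C) * (Z : ℝ) ^ ((1 : ℝ) / e) * ((Z : ℝ) * K) ^ ε := by
      calc ((insert 0 (cA e s Z)).card : ℝ) ≤ 1 + ((cA e s Z).card : ℝ) := h2
        _ ≤ (Z : ℝ) ^ ((1 : ℝ) / e) * ((Z : ℝ) * K) ^ ε +
            C * (Z : ℝ) ^ ((1 : ℝ) / e) * ((Z : ℝ) * K) ^ ε := by
            refine add_le_add (one_le_mul_of_one_le_of_one_le h5 h6) (h1.trans ?_)
            exact mul_le_mul_of_nonneg_left h4 (by positivity)
        _ = _ := by ring
    calc (((insert 0 (cA e s Z)).biUnion fun c => valFib n q H x ((c - L) / P)).card : ℝ)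
        ≤ ∑ c ∈ insert 0 (cA e s Z), ((valFib n q H x ((c - L) / P)).card : ℝ) := by
          exact_mod_cast Finset.card_biUnion_le
      _ ≤ ∑ _c ∈ insert 0 (cA e s Z), F := Finset.sum_le_sum fun c _ => card_valFib n q H A x hx _
      _ = ((insert 0 (cA e s Z)).card : ℝ) * F := by rw [Finset.sum_const, nsmul_eq_mul]
      _ ≤ _ := mul_le_mul_of_nonneg_right h7 hF0
  have h1 : ((Vz n q e H K x P L Z).card : ℝ) ≤ ∑ s ∈ Icc 1 K,
      (((insert 0 (cA e s Z)).biUnion fun c => valFib n q H x ((c - L) / P)).card : ℝ) := by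
    unfold Vz
    exact_mod_cast Finset.card_biUnion_le
  refine h1.trans ((Finset.sum_le_sum hone).trans (le_of_eq ?_))
  rw [Finset.sum_const, Nat.card_Icc, nsmul_eq_mul]
  simp only [Nat.add_sub_cancel]
  ring

/-- `F = L + P G` with `L`, `P` fixed and `G` random -/
theorem mainSub (n m q e : ℕ) (he : 1 ≤ e) (P L : MvPolynomial (Fin (n + 1)) ℤ)
    (hP : P.IsHomogeneous m) (hL : L.IsHomogeneous (m + q)) (κ θ φ : ℝ) (hκ0 : 0 ≤ κ)
    (hθ : 1 ≤ θ) (h1 : (n : ℝ) + 1 + m < (1 - 1 / e) * (m + q)) (h2 : κ < 1 - 1 / e)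
    (h3 : φ + κ + (1 + θ * (m + q)) / e < q + 1) :
    ∃ η C : ℝ, 0 < η ∧ ∀ H : ℕ, 1 ≤ H → ∀ A : Finset (Fin (n + 1) → ℤ),
      (A.card : ℝ) ≤ 3 ^ (n + 1) * (H : ℝ) ^ φ →
      (∀ x ∈ A, ∀ j, |(x j : ℝ)| ≤ (H : ℝ) ^ θ) →
      ∃ V : Finset (Idx n q → ℤ),
      (∀ G ∈ vbox n q H, ∀ x ∈ A, Prim x → MvPolynomial.eval x P ≠ 0 → ∀ s : ℕ, 1 ≤ s →
        (s : ℝ) ≤ (H : ℝ) ^ κ →
        (∀ p : ℕ, p.Prime → ¬ p ∣ s →
          (p : ℤ) ∣ MvPolynomial.eval x L + MvPolynomial.eval x P * ev x G →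
          (p : ℤ) ^ e ∣ MvPolynomial.eval x L + MvPolynomial.eval x P * ev x G) → G ∈ V) ∧
      (V.card : ℝ) ≤ C * (H : ℝ) ^ ((((n + q).choose n : ℕ) : ℝ) - η) := by
  classical
  have hθ0 : 0 < θ := by linarith
  have heR : (0 : ℝ) < e := by exact_mod_cast he
  set N : ℕ := (n + q).choose n with hN
  have hN1 : 1 ≤ N := Nat.choose_pos (by omega)
  -- coefficient bounds
  have hcoef : ∀ (d : ℕ) (F : MvPolynomial (Fin (n + 1)) ℤ), ∃ B : ℕ, vec d F ∈ vbox n d B := by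
    intro d F
    refine ⟨∑ i, (vec (n := n) d F i).natAbs, mem_vbox.mpr fun i => ?_⟩
    rw [Int.abs_eq_natAbs]
    exact_mod_cast Finset.single_le_sum (f := fun i => (vec (n := n) d F i).natAbs)
      (fun _ _ => Nat.zero_le _) (Finset.mem_univ i)
  obtain ⟨BL, hBL⟩ := hcoef (m + q) L
  obtain ⟨BP, hBP⟩ := hcoef m P
  set CZ : ℕ := 1 + ((n + (m + q)).choose n * BL + (n + m).choose n * BP * (n + q).choose n)
    with hCZ
  have hCZ1 : 1 ≤ CZ := Nat.le_add_right _ _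
  have hCZR : (1 : ℝ) ≤ CZ := by exact_mod_cast hCZ1
  set μ : ℝ := min (1 - 1 / e - κ) (q + 1 - (φ + κ + (1 + θ * (m + q)) / e)) with hμ
  have hμ0 : 0 < μ := lt_min (by linarith) (by linarith)
  have hμ1 : μ ≤ 1 - 1 / e - κ := min_le_left _ _
  have hμ2 : μ ≤ q + 1 - (φ + κ + (1 + θ * (m + q)) / e) := min_le_right _ _
  set ρ : ℝ := μ / (8 * (N * q + 1)) with hρ
  have hρ0 : 0 < ρ := by positivity
  have hρe : (N : ℝ) * q * ρ ≤ μ / 8 := by
    have e1 : ((N : ℝ) * q + 1) * ρ = μ / 8 := by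
      rw [hρ]
      field_simp
    have e2 : (N : ℝ) * q * ρ ≤ ((N : ℝ) * q + 1) * ρ :=
      mul_le_mul_of_nonneg_right (by linarith) hρ0.le
    linarith
  set B : ℝ := 1 + θ * (m + q) + κ with hB
  have hB1 : 1 ≤ B := by
    have : 0 ≤ θ * ((m : ℝ) + q) := by positivity
    rw [hB]
    linarith
  set ε : ℝ := μ / (8 * B) with hε
  have hε0 : 0 < ε := by positivity
  have hεe : B * ε = μ / 8 := by
    rw [hε]
    field_simp
  obtain ⟨C₁, hC₁, hwt⟩ := wt_bound (ρ / θ) (by positivity)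
  obtain ⟨C₄, hC₄, hratio⟩ := ratio_bound n q 1 1 (le_refl 1) ρ C₁ hρ0.le hC₁
  obtain ⟨C₅, hC₅, hVz⟩ := card_Vz n q e he ε hε0
  obtain ⟨W, hW, hsum⟩ := sum_nrm' n (q - (m + q) / e) (by
    have e1 : ((1 : ℝ) - 1 / e) * (m + q) = m + q - (m + q) / e := by ring
    rw [e1] at h1
    linarith)
  set D : ℝ := C₅ * (CZ : ℝ) ^ ((1 : ℝ) / e) * (CZ : ℝ) ^ ε * C₄ * 4 ^ q with hD
  have hD0 : 0 ≤ D := by positivity
  have h4q : (1 : ℝ) ≤ 4 ^ q := one_le_pow₀ (by norm_num)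
  refine ⟨μ / 2, D * W + D * 3 ^ (n + 1), by linarith, ?_⟩
  intro H hH A hA hAB
  have hHR : (1 : ℝ) ≤ H := by exact_mod_cast hH
  have hHR0 : (0 : ℝ) < H := by linarith
  set K : ℕ := ⌊(H : ℝ) ^ κ⌋₊ with hK
  have hKr : (K : ℝ) ≤ (H : ℝ) ^ κ := Nat.floor_le (by positivity)
  set Zx : (Fin (n + 1) → ℤ) → ℕ := fun x => CZ * (H * nrm x ^ (m + q)) with hZx
  set VV' : (Fin (n + 1) → ℤ) → Finset (Idx n q → ℤ) := fun x =>
    Vz n q e H K x (MvPolynomial.eval x P) (MvPolynomial.eval x L) (Zx x) with hVV'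
  set E : ℝ := κ + 1 / e + μ / 8 + (N + μ / 8 - (q + 1)) with hE
  have hpt : ∀ x ∈ A, Prim x → ((VV' x).card : ℝ) ≤
      (C₅ * (CZ : ℝ) ^ ((1 : ℝ) / e) * (CZ : ℝ) ^ ε * C₄) * (H : ℝ) ^ E *
        (nrm x : ℝ) ^ (((m : ℝ) + q) / e) * fb (1 * H) (nrm x) q := by
    intro x hxA hx
    have hxn := hx.nrm_pos
    have hxR1 : (1 : ℝ) ≤ nrm x := by exact_mod_cast hxn
    have hxR0 : (0 : ℝ) < nrm x := by linarith
    have hxH : (nrm x : ℝ) ≤ (H : ℝ) ^ θ := nrm_le_of (by positivity) (hAB x hxA)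
    have hZ1 : 1 ≤ Zx x := Nat.mul_pos (by omega) (Nat.mul_pos (by omega) (by positivity))
    have hZR : (Zx x : ℝ) = CZ * (H * (nrm x : ℝ) ^ (m + q)) := by
      simp only [hZx]
      push_cast
      rfl
    have e1 : (Zx x : ℝ) ^ ((1 : ℝ) / e) = (CZ : ℝ) ^ ((1 : ℝ) / e) *
        ((H : ℝ) ^ ((1 : ℝ) / e) * (nrm x : ℝ) ^ (((m : ℝ) + q) / e)) := by
      have t : ((m + q : ℕ) : ℝ) * (1 / e) = ((m : ℝ) + q) / e := by
        push_cast
        ring
      rw [hZR, Real.mul_rpow (by positivity) (by positivity),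
        Real.mul_rpow (by positivity) (by positivity), ← Real.rpow_natCast,
        ← Real.rpow_mul hxR0.le, t]
    have e2 : ((Zx x : ℝ) * K) ^ ε ≤ (CZ : ℝ) ^ ε * (H : ℝ) ^ (μ / 8) := by
      have t1 : (nrm x : ℝ) ^ (m + q) ≤ (H : ℝ) ^ (θ * (m + q)) := by
        calc (nrm x : ℝ) ^ (m + q) ≤ ((H : ℝ) ^ θ) ^ (m + q) := pow_le_pow_left₀ hxR0.le hxH _
          _ = _ := by
              rw [← Real.rpow_natCast, ← Real.rpow_mul hHR0.le]
              push_cast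
              rfl
      have t2 : (Zx x : ℝ) * K ≤ CZ * (H : ℝ) ^ B := by
        rw [hZR]
        calc (CZ : ℝ) * (H * (nrm x : ℝ) ^ (m + q)) * K
            ≤ (CZ : ℝ) * (H * (H : ℝ) ^ (θ * (m + q))) * (H : ℝ) ^ κ :=
              mul_le_mul (mul_le_mul_of_nonneg_left (mul_le_mul_of_nonneg_left t1 hHR0.le)
                (by positivity)) hKr (Nat.cast_nonneg _) (by positivity)
          _ = CZ * ((H : ℝ) ^ (1 : ℝ) * (H : ℝ) ^ (θ * (m + q)) * (H : ℝ) ^ κ) := by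
              rw [Real.rpow_one]
              ring
          _ = CZ * (H : ℝ) ^ B := by
              rw [← Real.rpow_add hHR0, ← Real.rpow_add hHR0]
      calc ((Zx x : ℝ) * K) ^ ε ≤ (CZ * (H : ℝ) ^ B) ^ ε :=
            Real.rpow_le_rpow (by positivity) t2 hε0.le
        _ = (CZ : ℝ) ^ ε * (H : ℝ) ^ (μ / 8) := by
            rw [Real.mul_rpow (by positivity) (by positivity), ← Real.rpow_mul hHR0.le, hεe]
    have hθρ : θ * (ρ / θ) = ρ := by field_simp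
    have hr : ratio n q H (1 * H) (1 + 1 * wt (nrm x)) ≤ C₄ * (H : ℝ) ^ (N + μ / 8 - (q + 1)) := by
      have t1 : (wt (nrm x) : ℝ) ≤ C₁ * (H : ℝ) ^ ρ := by
        refine (hwt _ hxn).trans (mul_le_mul_of_nonneg_left ?_ (by linarith))
        calc (nrm x : ℝ) ^ (ρ / θ) ≤ ((H : ℝ) ^ θ) ^ (ρ / θ) :=
              Real.rpow_le_rpow hxR0.le hxH (by positivity)
          _ = (H : ℝ) ^ ρ := by rw [← Real.rpow_mul hHR0.le, hθρ]
      refine (hratio H (wt (nrm x)) hH t1).trans (mul_le_mul_of_nonneg_left ?_ hC₄.le)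
      refine Real.rpow_le_rpow_of_exponent_le hHR ?_
      linarith
    have hf := fb_nonneg (1 * H) (nrm x) q
    have hcard := hVz H K x (MvPolynomial.eval x P) (MvPolynomial.eval x L) (Zx x) (1 * H) hx hZ1
    refine hcard.trans ?_
    rw [e1]
    have g1 : 0 ≤ C₅ * ((CZ : ℝ) ^ ((1 : ℝ) / e) * ((H : ℝ) ^ ((1 : ℝ) / e) *
        (nrm x : ℝ) ^ (((m : ℝ) + q) / e))) := by positivity
    have g2 : 0 ≤ ratio n q H (1 * H) (1 + 1 * wt (nrm x)) := ratio_nonneg _ _ _ _ _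
    calc (K : ℝ) * (C₅ * ((CZ : ℝ) ^ ((1 : ℝ) / e) * ((H : ℝ) ^ ((1 : ℝ) / e) *
          (nrm x : ℝ) ^ (((m : ℝ) + q) / e))) * ((Zx x : ℝ) * K) ^ ε) *
          (ratio n q H (1 * H) (1 + 1 * wt (nrm x)) * fb (1 * H) (nrm x) q)
        ≤ (H : ℝ) ^ κ * (C₅ * ((CZ : ℝ) ^ ((1 : ℝ) / e) * ((H : ℝ) ^ ((1 : ℝ) / e) *
          (nrm x : ℝ) ^ (((m : ℝ) + q) / e))) * ((CZ : ℝ) ^ ε * (H : ℝ) ^ (μ / 8))) *
          ((C₄ * (H : ℝ) ^ (N + μ / 8 - (q + 1))) * fb (1 * H) (nrm x) q) :=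
          mul_le_mul (mul_le_mul hKr (mul_le_mul_of_nonneg_left e2 g1)
            (mul_nonneg g1 (Real.rpow_nonneg (by positivity) _)) (by positivity))
            (mul_le_mul_of_nonneg_right hr hf) (mul_nonneg g2 hf) (by positivity)
      _ = (C₅ * (CZ : ℝ) ^ ((1 : ℝ) / e) * (CZ : ℝ) ^ ε * C₄) *
          ((H : ℝ) ^ κ * (H : ℝ) ^ ((1 : ℝ) / e) * (H : ℝ) ^ (μ / 8) *
            (H : ℝ) ^ (N + μ / 8 - (q + 1))) * (nrm x : ℝ) ^ (((m : ℝ) + q) / e) *
          fb (1 * H) (nrm x) q := by ring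
      _ = _ := by
          rw [← Real.rpow_add hHR0, ← Real.rpow_add hHR0, ← Real.rpow_add hHR0]
  have hsmall : ∀ x ∈ A, Prim x → nrm x ≤ 2 * (1 * H) →
      ((VV' x).card : ℝ) ≤ D * (H : ℝ) ^ ((N : ℝ) - μ / 2) *
        (nrm x : ℝ) ^ (-((q : ℝ) - (m + q) / e)) := by
    intro x hxA hx hsm
    have hxn := hx.nrm_pos
    have hxR1 : (1 : ℝ) ≤ nrm x := by exact_mod_cast hxn
    have hxR0 : (0 : ℝ) < nrm x := by linarith
    have hfb : fb (1 * H) (nrm x) q = 4 ^ q * (H : ℝ) ^ (q : ℝ) * (nrm x : ℝ) ^ (-(q : ℝ)) := by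
      unfold fb
      rw [if_pos hsm, Real.rpow_neg hxR0.le, Real.rpow_natCast, Real.rpow_natCast, div_pow]
      push_cast
      rw [one_mul, mul_pow, div_eq_mul_inv]
    refine (hpt x hxA hx).trans ?_
    rw [hfb]
    have e0 : ((m : ℝ) + q) / e + -(q : ℝ) = -((q : ℝ) - (m + q) / e) := by ring
    calc _ = D * ((H : ℝ) ^ E * (H : ℝ) ^ (q : ℝ)) * ((nrm x : ℝ) ^ (((m : ℝ) + q) / e) *
          (nrm x : ℝ) ^ (-(q : ℝ))) := by
          rw [hD]
          ring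
      _ = D * (H : ℝ) ^ (E + q) * (nrm x : ℝ) ^ (-((q : ℝ) - (m + q) / e)) := by
          rw [← Real.rpow_add hHR0, ← Real.rpow_add hxR0, e0]
      _ ≤ _ := by
          refine mul_le_mul_of_nonneg_right (mul_le_mul_of_nonneg_left ?_ hD0) (by positivity)
          refine Real.rpow_le_rpow_of_exponent_le hHR ?_
          rw [hE]
          linarith
  have hlarge : ∀ x ∈ A, Prim x → 2 * (1 * H) < nrm x →
      ((VV' x).card : ℝ) ≤ D * (H : ℝ) ^ ((N : ℝ) - μ / 2 - φ) := by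
    intro x hxA hx hla
    have hxn := hx.nrm_pos
    have hxR1 : (1 : ℝ) ≤ nrm x := by exact_mod_cast hxn
    have hxR0 : (0 : ℝ) < nrm x := by linarith
    have hxH : (nrm x : ℝ) ≤ (H : ℝ) ^ θ := nrm_le_of (by positivity) (hAB x hxA)
    have hfb : fb (1 * H) (nrm x) q = 1 := by
      unfold fb
      rw [if_neg (by omega)]
    have e1 : (nrm x : ℝ) ^ (((m : ℝ) + q) / e) ≤ (H : ℝ) ^ (θ * (((m : ℝ) + q) / e)) := by
      rw [Real.rpow_mul hHR0.le]
      exact Real.rpow_le_rpow hxR0.le hxH (by positivity)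
    have g0 : 0 ≤ C₅ * (CZ : ℝ) ^ ((1 : ℝ) / e) * (CZ : ℝ) ^ ε * C₄ := by positivity
    have g1 : C₅ * (CZ : ℝ) ^ ((1 : ℝ) / e) * (CZ : ℝ) ^ ε * C₄ ≤ D := by
      rw [hD]
      exact le_mul_of_one_le_right g0 h4q
    refine (hpt x hxA hx).trans ?_
    rw [hfb, mul_one]
    calc _ ≤ D * (H : ℝ) ^ E * (H : ℝ) ^ (θ * (((m : ℝ) + q) / e)) :=
          mul_le_mul (mul_le_mul_of_nonneg_right g1 (by positivity)) e1 (by positivity)
            (by positivity)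
      _ = D * (H : ℝ) ^ (E + θ * (((m : ℝ) + q) / e)) := by
          rw [mul_assoc, ← Real.rpow_add hHR0]
      _ ≤ _ := by
          refine mul_le_mul_of_nonneg_left ?_ hD0
          refine Real.rpow_le_rpow_of_exponent_le hHR ?_
          have e2 : (1 + θ * ((m : ℝ) + q)) / e = 1 / e + θ * (((m : ℝ) + q) / e) := by ring
          rw [e2] at hμ2
          rw [hE]
          linarith
  set As := A.filter (fun x => Prim x ∧ nrm x ≤ 2 * (1 * H)) with hAs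
  set Al := A.filter (fun x => Prim x ∧ 2 * (1 * H) < nrm x) with hAl
  refine ⟨As.biUnion VV' ∪ Al.biUnion VV', ?_, ?_⟩
  · intro G hG x hxA hx hPx s hs hsK hful
    have hle : |MvPolynomial.eval x L + MvPolynomial.eval x P * ev x G| ≤ (Zx x : ℤ) := by
      have t1 : |MvPolynomial.eval x L| ≤
          (((n + (m + q)).choose n * BL * nrm x ^ (m + q) : ℕ) : ℤ) := by
        have t := abs_ev_le BL (nrm x) x (le_nrm x) _ hBL
        rwa [ev_vec L hL] at t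
      have t2 : |MvPolynomial.eval x P| ≤ (((n + m).choose n * BP * nrm x ^ m : ℕ) : ℤ) := by
        have t := abs_ev_le BP (nrm x) x (le_nrm x) _ hBP
        rwa [ev_vec P hP] at t
      have t3 : |ev x G| ≤ (((n + q).choose n * H * nrm x ^ q : ℕ) : ℤ) :=
        abs_ev_le H (nrm x) x (le_nrm x) _ hG
      have t4 : (n + (m + q)).choose n * BL * nrm x ^ (m + q) +
          ((n + m).choose n * BP * nrm x ^ m) * ((n + q).choose n * H * nrm x ^ q) ≤ Zx x := by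
        have u1 : (n + (m + q)).choose n * BL * nrm x ^ (m + q) ≤
            ((n + (m + q)).choose n * BL) * (H * nrm x ^ (m + q)) :=
          Nat.mul_le_mul_left _ (Nat.le_mul_of_pos_left _ (by omega))
        have u2 : ((n + m).choose n * BP * nrm x ^ m) * ((n + q).choose n * H * nrm x ^ q) =
            ((n + m).choose n * BP * (n + q).choose n) * (H * nrm x ^ (m + q)) := by
          rw [pow_add]
          ring
        rw [u2]
        calc _ ≤ ((n + (m + q)).choose n * BL) * (H * nrm x ^ (m + q)) +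
              ((n + m).choose n * BP * (n + q).choose n) * (H * nrm x ^ (m + q)) :=
              Nat.add_le_add_right u1 _
          _ = ((n + (m + q)).choose n * BL + (n + m).choose n * BP * (n + q).choose n) *
              (H * nrm x ^ (m + q)) := by ring
          _ ≤ CZ * (H * nrm x ^ (m + q)) :=
              Nat.mul_le_mul_right _ (by rw [hCZ]; exact Nat.le_add_left _ _)
      calc |MvPolynomial.eval x L + MvPolynomial.eval x P * ev x G|
          ≤ |MvPolynomial.eval x L| + |MvPolynomial.eval x P * ev x G| := abs_add_le _ _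
        _ = |MvPolynomial.eval x L| + |MvPolynomial.eval x P| * |ev x G| := by rw [abs_mul]
        _ ≤ (((n + (m + q)).choose n * BL * nrm x ^ (m + q) : ℕ) : ℤ) +
            (((n + m).choose n * BP * nrm x ^ m : ℕ) : ℤ) *
              (((n + q).choose n * H * nrm x ^ q : ℕ) : ℤ) :=
            add_le_add t1 (mul_le_mul t2 t3 (abs_nonneg _) (Int.natCast_nonneg _))
        _ ≤ _ := by exact_mod_cast t4
    have hmem := mem_Vz n q e H K x (MvPolynomial.eval x P) (MvPolynomial.eval x L) (Zx x) hPx G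
      hG hle s hs (Nat.le_floor hsK) hful
    rw [Finset.mem_union, Finset.mem_biUnion, Finset.mem_biUnion]
    rcases Nat.lt_or_ge (2 * (1 * H)) (nrm x) with h | h
    · exact Or.inr ⟨x, Finset.mem_filter.mpr ⟨hxA, hx, h⟩, hmem⟩
    · exact Or.inl ⟨x, Finset.mem_filter.mpr ⟨hxA, hx, h⟩, hmem⟩
  set T : ℝ := (H : ℝ) ^ ((N : ℝ) - μ / 2) with hT
  have hT0 : 0 < T := by positivity
  have hs : ((As.biUnion VV').card : ℝ) ≤ D * W * T := by
    have h4 : ∑ x ∈ As, (nrm x : ℝ) ^ (-((q : ℝ) - (m + q) / e)) ≤ W :=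
      hsum As (fun x hx => (Finset.mem_filter.mp hx).2.1.nrm_pos)
    calc ((As.biUnion VV').card : ℝ) ≤ ∑ x ∈ As, ((VV' x).card : ℝ) := by
          exact_mod_cast Finset.card_biUnion_le
      _ ≤ ∑ x ∈ As, D * T * (nrm x : ℝ) ^ (-((q : ℝ) - (m + q) / e)) := by
          refine Finset.sum_le_sum fun x hx => ?_
          obtain ⟨hxA, hxp, hxs⟩ := Finset.mem_filter.mp hx
          exact hsmall x hxA hxp hxs
      _ = D * T * ∑ x ∈ As, (nrm x : ℝ) ^ (-((q : ℝ) - (m + q) / e)) := by rw [Finset.mul_sum]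
      _ ≤ D * T * W := mul_le_mul_of_nonneg_left h4 (by positivity)
      _ = _ := by ring
  have e9 : φ + ((N : ℝ) - μ / 2 - φ) = N - μ / 2 := by ring
  have hl : ((Al.biUnion VV').card : ℝ) ≤ D * 3 ^ (n + 1) * T := by
    have hAlc : (Al.card : ℝ) ≤ 3 ^ (n + 1) * (H : ℝ) ^ φ := by
      refine le_trans ?_ hA
      exact_mod_cast Finset.card_filter_le _ _
    calc ((Al.biUnion VV').card : ℝ) ≤ ∑ x ∈ Al, ((VV' x).card : ℝ) := by
          exact_mod_cast Finset.card_biUnion_le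
      _ ≤ ∑ _x ∈ Al, D * (H : ℝ) ^ ((N : ℝ) - μ / 2 - φ) := by
          refine Finset.sum_le_sum fun x hx => ?_
          obtain ⟨hxA, hxp, hxs⟩ := Finset.mem_filter.mp hx
          exact hlarge x hxA hxp hxs
      _ = Al.card * (D * (H : ℝ) ^ ((N : ℝ) - μ / 2 - φ)) := by
          rw [Finset.sum_const, nsmul_eq_mul]
      _ ≤ (3 ^ (n + 1) * (H : ℝ) ^ φ) * (D * (H : ℝ) ^ ((N : ℝ) - μ / 2 - φ)) :=
          mul_le_mul_of_nonneg_right hAlc (by positivity)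
      _ = D * 3 ^ (n + 1) * ((H : ℝ) ^ φ * (H : ℝ) ^ ((N : ℝ) - μ / 2 - φ)) := by ring
      _ = _ := by rw [← Real.rpow_add hHR0, hT, e9]
  have h7 := Finset.card_union_le (As.biUnion VV') (Al.biUnion VV')
  calc _ ≤ ((As.biUnion VV').card : ℝ) + ((Al.biUnion VV').card : ℝ) := by exact_mod_cast h7
    _ ≤ D * W * T + D * 3 ^ (n + 1) * T := add_le_add hs hl
    _ = _ := by ring

end Pool.Agent.TH390.Tw
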