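import Pool.Agent.TH390.Tw.Large

set_option autoImplicit false

namespace Pool.Agent.TH390.Tw

open Finset

/-- small `a` -/
theorem card_small (H a : ℕ) (ha0 : 0 < a) (ha : a ≤ 2 * H) (n : ℕ) (w : ℕ → ℤ)
    (hw : ∀ i, IsCoprime (w i) (a : ℤ)) (hwn : w n ≠ 0) (k : ℤ) (X : ℝ)
    (hX : 0 ≤ X) (S : Finset (Fin (n + 1) → ℤ)) (hS : ∀ f ∈ S, f ∈ box _ H)
    (hSc : ∀ f ∈ S, ∃ c : ℤ, |(c : ℝ)| ≤ X ∧ val a w (n + 1) f = k * c ^ 2) :
    (S.card : ℝ) ≤ (2 * X + 1) * (4 * H / a) ^ n := by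
  classical
  have hsub : S ⊆ (Icc (-⌊X⌋) ⌊X⌋).biUnion fun c =>
      (box (n + 1) H).filter (fun f => val a w (n + 1) f = k * c ^ 2) := by
    intro f hf
    obtain ⟨c, hc1, hc2⟩ := hSc f hf
    rw [Finset.mem_biUnion]
    refine ⟨c, ?_, ?_⟩
    · have h1 : |c| ≤ ⌊X⌋ := by
        rw [Int.le_floor]
        push_cast
        exact hc1
      exact mem_Icc.mpr (abs_le.mp h1)
    · rw [Finset.mem_filter]
      exact ⟨hS f hf, hc2⟩
  have hfl0 : 0 ≤ ⌊X⌋ := Int.floor_nonneg.mpr hX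
  have h5 : ((Icc (-⌊X⌋) ⌊X⌋).card : ℝ) ≤ 2 * X + 1 := by
    rw [Int.card_Icc]
    have e7 : (((⌊X⌋ + 1 - -⌊X⌋).toNat : ℕ) : ℝ) = 2 * ((⌊X⌋ : ℤ) : ℝ) + 1 := by
      have h7 : (((⌊X⌋ + 1 - -⌊X⌋).toNat : ℕ) : ℤ) = 2 * ⌊X⌋ + 1 := by
        rw [Int.toNat_of_nonneg (by omega)]
        ring
      calc (((⌊X⌋ + 1 - -⌊X⌋).toNat : ℕ) : ℝ) = ((((⌊X⌋ + 1 - -⌊X⌋).toNat : ℕ) : ℤ) : ℝ) :=
            (Int.cast_natCast _).symm
        _ = ((2 * ⌊X⌋ + 1 : ℤ) : ℝ) := by rw [h7]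
        _ = 2 * ((⌊X⌋ : ℤ) : ℝ) + 1 := by push_cast; ring
    rw [e7]
    have := Int.floor_le X
    linarith
  calc (S.card : ℝ) ≤ (((Icc (-⌊X⌋) ⌊X⌋).biUnion fun c =>
      (box (n + 1) H).filter (fun f => val a w (n + 1) f = k * c ^ 2)).card : ℝ) := by
        exact_mod_cast Finset.card_le_card hsub
    _ ≤ ∑ c ∈ Icc (-⌊X⌋) ⌊X⌋,
        (((box (n + 1) H).filter (fun f => val a w (n + 1) f = k * c ^ 2)).card : ℝ) := by
        exact_mod_cast Finset.card_biUnion_le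
    _ ≤ ∑ _c ∈ Icc (-⌊X⌋) ⌊X⌋, (4 * (H : ℝ) / a) ^ n := by
        refine Finset.sum_le_sum fun c _ => ?_
        exact card_sol H a ha0 (4 * H / a) (by positivity) (card_digit H a ha0 ha) n w hw hwn _
    _ = ((Icc (-⌊X⌋) ⌊X⌋).card : ℝ) * (4 * (H : ℝ) / a) ^ n := by
        rw [Finset.sum_const, nsmul_eq_mul]
    _ ≤ (2 * X + 1) * (4 * H / a) ^ n := mul_le_mul_of_nonneg_right h5 (by positivity)

/-- the binary form with coefficients `f` -/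
def frm (d : ℕ) (f : Fin (d + 1) → ℤ) (a b : ℤ) : ℤ :=
  ∑ i : Fin (d + 1), f i * a ^ (i : ℕ) * b ^ (d - (i : ℕ))

theorem frm_eq_val (d : ℕ) (f : Fin (d + 1) → ℤ) (a b : ℤ) :
    frm d f a b = val a (fun i => b ^ (d - i)) (d + 1) f := by
  unfold frm val
  refine Finset.sum_congr rfl fun i _ => ?_
  ring

theorem abs_frm_le (d H : ℕ) (f : Fin (d + 1) → ℤ) (hf : f ∈ box (d + 1) H) (a : ℕ) (b : ℤ)
    (hb : |b| ≤ a) : |(frm d f a b : ℝ)| ≤ (d + 1) * H * (a : ℝ) ^ d := by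
  unfold frm
  push_cast
  refine (Finset.abs_sum_le_sum_abs _ _).trans ?_
  have h1 : ∀ i ∈ (Finset.univ : Finset (Fin (d + 1))),
      |(f i : ℝ) * (a : ℝ) ^ (i : ℕ) * (b : ℝ) ^ (d - (i : ℕ))| ≤ H * (a : ℝ) ^ d := by
    intro i _
    have hi : (i : ℕ) ≤ d := Nat.lt_succ_iff.mp i.2
    rw [abs_mul, abs_mul, abs_pow, abs_pow]
    have h2 : |(f i : ℝ)| ≤ H := by exact_mod_cast mem_box.mp hf i
    have h3 : |(b : ℝ)| ≤ a := by exact_mod_cast hb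
    have h4 : |(a : ℝ)| = a := abs_of_nonneg (Nat.cast_nonneg a)
    rw [h4]
    calc |(f i : ℝ)| * (a : ℝ) ^ (i : ℕ) * |(b : ℝ)| ^ (d - (i : ℕ))
        ≤ H * (a : ℝ) ^ (i : ℕ) * (a : ℝ) ^ (d - (i : ℕ)) := by gcongr
      _ = H * (a : ℝ) ^ d := by
          rw [mul_assoc, ← pow_add]
          congr 2
          omega
  refine (Finset.sum_le_sum h1).trans ?_
  rw [Finset.sum_const, Finset.card_univ, Fintype.card_fin, nsmul_eq_mul]
  push_cast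
  apply le_of_eq
  ring

/-- the forms of degree `2 j` having a value `k c²` at `(a, b)` -/
noncomputable def SS (j H : ℕ) (a b k : ℤ) : Finset (Fin (2 * j + 1) → ℤ) := by
  classical
  exact (box (2 * j + 1) H).filter (fun f => f 0 ≠ 0 ∧ ∃ c : ℤ, frm (2 * j) f a b = k * c ^ 2)

theorem card_SS (g H a : ℕ) (ha0 : 0 < a) (b k : ℤ) (hb : |b| ≤ a)
    (hab : IsCoprime (a : ℤ) b) (hk : k ≠ 0) (hkH : |k| ≤ H) :
    ((SS (g + 1) H a b k).card : ℝ) ≤ Real.sqrt ((2 * g + 3) * H / |(k : ℝ)|) *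
      (3 * (4 * H) ^ (2 * (g + 1)) / (a : ℝ) ^ (g + 1) +
        5 * ((a ^ (g + 1)).divisors.card : ℝ) ^ 2 * (4 * H) ^ (g + 1)) := by
  classical
  set Y : ℝ := Real.sqrt ((2 * g + 3) * H / |(k : ℝ)|) with hY
  have hkR0 : (0 : ℝ) < |(k : ℝ)| := abs_pos.mpr (by exact_mod_cast hk)
  have hkR : |(k : ℝ)| ≤ H := by exact_mod_cast hkH
  have haR : (0 : ℝ) < a := by exact_mod_cast ha0
  have hH0 : (0 : ℝ) ≤ H := Nat.cast_nonneg H
  have hY1 : 1 ≤ Y := by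
    rw [hY]
    apply Real.one_le_sqrt.mpr
    rw [le_div_iff₀ hkR0]
    have : (0 : ℝ) ≤ g := Nat.cast_nonneg g
    nlinarith
  have hY0 : 0 ≤ Y := by linarith
  set X : ℝ := (a : ℝ) ^ (g + 1) * Y with hX
  have hX0 : 0 ≤ X := by positivity
  have hw : ∀ i, IsCoprime ((fun i => b ^ (2 * (g + 1) - i)) i : ℤ) (a : ℤ) := fun i =>
    hab.symm.pow_left
  have hwn : (fun i => b ^ (2 * (g + 1) - i)) (2 * (g + 1)) ≠ (0 : ℤ) := by simp
  have hSbox : ∀ f ∈ SS (g + 1) H a b k, f ∈ box (2 * (g + 1) + 1) H := by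
    intro f hf
    unfold SS at hf
    exact (Finset.mem_filter.mp hf).1
  have hS0 : ∀ f ∈ SS (g + 1) H a b k, f 0 ≠ 0 := by
    intro f hf
    unfold SS at hf
    exact (Finset.mem_filter.mp hf).2.1
  have hSc : ∀ f ∈ SS (g + 1) H a b k, ∃ c : ℤ, |(c : ℝ)| ≤ X ∧
      val a (fun i => b ^ (2 * (g + 1) - i)) (2 * (g + 1) + 1) f = k * c ^ 2 := by
    intro f hf
    have hfb := hSbox f hf
    unfold SS at hf
    obtain ⟨c, hc⟩ := (Finset.mem_filter.mp hf).2.2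
    refine ⟨c, ?_, by rw [← frm_eq_val]; exact hc⟩
    have h1 := abs_frm_le (2 * (g + 1)) H f hfb a b hb
    rw [hc] at h1
    push_cast at h1
    rw [abs_mul, abs_pow, pow_mul'] at h1
    refine abs_le_of_sq_le_sq ?_ hX0
    rw [hX, mul_pow, hY, Real.sq_sqrt (by positivity)]
    have h2 : |(c : ℝ)| ^ 2 = (c : ℝ) ^ 2 := sq_abs _
    rw [h2] at h1
    rw [mul_div_assoc', le_div_iff₀ hkR0]
    have e1 : ((a : ℝ) ^ (g + 1)) ^ 2 * ((2 * g + 3) * H) =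
        (2 * (↑g + 1) + 1) * ↑H * (↑a ^ (g + 1)) ^ 2 := by ring
    rw [e1]
    linarith
  have hD0 : (0 : ℝ) ≤ ((a ^ (g + 1)).divisors.card : ℝ) := Nat.cast_nonneg _
  rcases Nat.lt_or_ge (2 * H) a with h | h
  · have hnum : 2 * (g + 1) + 1 = g + 1 + (g + 1 + 1) := by ring
    have key : ∀ (n : ℕ) (_ : n = g + 1 + (g + 1 + 1)) (S : Finset (Fin n → ℤ))
        (_ : ∀ f ∈ S, f ∈ box n H) (_ : ∀ f ∈ S, ∀ h : 0 < n, f ⟨0, h⟩ ≠ 0)
        (_ : ∀ f ∈ S, ∃ c : ℤ, |(c : ℝ)| ≤ X ∧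
          val a (fun i => b ^ (2 * (g + 1) - i)) n f = k * c ^ 2),
        (S.card : ℝ) ≤ ((a ^ (g + 1)).divisors.card : ℝ) ^ 2 * (4 * H) ^ (g + 1) *
          (4 * X / (a : ℝ) ^ (g + 1) + 1) := by
      intro n hn S h1 h2 h3
      subst hn
      refine card_large H a h g (g + 1) (fun i => b ^ (2 * (g + 1) - i)) hw ?_ k hk X hX0 S h1 ?_ h3
      · have : 2 * (g + 1) - (g + 1 + (g + 1)) = 0 := by omega
        simp only [this, pow_zero]
        exact one_ne_zero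
      · intro f hf
        exact h2 f hf (by omega)
    have h1 := key (2 * (g + 1) + 1) hnum (SS (g + 1) H a b k) hSbox
      (fun f hf _ => hS0 f hf) hSc
    refine h1.trans ?_
    have e1 : 4 * X / (a : ℝ) ^ (g + 1) = 4 * Y := by
      rw [hX]
      field_simp
    rw [e1]
    have h2 : ((a ^ (g + 1)).divisors.card : ℝ) ^ 2 * (4 * H) ^ (g + 1) * (4 * Y + 1) ≤
        ((a ^ (g + 1)).divisors.card : ℝ) ^ 2 * (4 * H) ^ (g + 1) * (5 * Y) := by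
      refine mul_le_mul_of_nonneg_left (by linarith) (by positivity)
    refine h2.trans ?_
    have h3 : 0 ≤ Y * (3 * (4 * H) ^ (2 * (g + 1)) / (a : ℝ) ^ (g + 1)) := by positivity
    linarith
  · have h1 := card_small H a ha0 h (2 * (g + 1)) (fun i => b ^ (2 * (g + 1) - i)) hw hwn k X hX0
      (SS (g + 1) H a b k) hSbox hSc
    refine h1.trans ?_
    have haone : (1 : ℝ) ≤ (a : ℝ) ^ (g + 1) := one_le_pow₀ (by exact_mod_cast ha0)
    have h2 : 2 * X + 1 ≤ 3 * ((a : ℝ) ^ (g + 1) * Y) := by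
      rw [hX]
      nlinarith
    calc (2 * X + 1) * (4 * H / a) ^ (2 * (g + 1))
        ≤ 3 * ((a : ℝ) ^ (g + 1) * Y) * (4 * H / a) ^ (2 * (g + 1)) :=
          mul_le_mul_of_nonneg_right h2 (by positivity)
      _ = Y * (3 * (4 * H) ^ (2 * (g + 1)) / (a : ℝ) ^ (g + 1)) := by
          rw [div_pow]
          have e1 : (a : ℝ) ^ (2 * (g + 1)) = (a : ℝ) ^ (g + 1) * (a : ℝ) ^ (g + 1) := by
            rw [← pow_add]
            congr 1
            ring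
          rw [e1]
          field_simp
      _ ≤ _ := by
          rw [mul_add]
          have : 0 ≤ Y * (5 * ((a ^ (g + 1)).divisors.card : ℝ) ^ 2 * (4 * H) ^ (g + 1)) := by
            positivity
          linarith

end Pool.Agent.TH390.Tw
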