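import Pool.Agent.TH390.Tw.Single

set_option autoImplicit false

namespace Pool.Agent.TH390.Tw

open Finset

/-- the bounds for one pair `(a, b)` and one `k`, small and large `a` separately -/
theorem card_SS_two (g H a : ℕ) (ha0 : 0 < a) (b k : ℤ) (hb : |b| ≤ a)
    (hab : IsCoprime (a : ℤ) b) (hk : k ≠ 0) (hkH : |k| ≤ H) :
    (a ≤ 2 * H → ((SS (g + 1) H a b k).card : ℝ) ≤ Real.sqrt ((2 * g + 3) * H / |(k : ℝ)|) *
      (3 * (4 * H) ^ (2 * (g + 1)) / (a : ℝ) ^ (g + 1))) ∧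
    (2 * H < a → ((SS (g + 1) H a b k).card : ℝ) ≤ Real.sqrt ((2 * g + 3) * H / |(k : ℝ)|) *
      (5 * ((a ^ (g + 1)).divisors.card : ℝ) ^ 2 * (4 * H) ^ (g + 1))) := by
  classical
  set Y : ℝ := Real.sqrt ((2 * g + 3) * H / |(k : ℝ)|) with hY
  have hkR0 : (0 : ℝ) < |(k : ℝ)| := abs_pos.mpr (by exact_mod_cast hk)
  have hkR : |(k : ℝ)| ≤ H := by exact_mod_cast hkH
  have haR : (0 : ℝ) < a := by exact_mod_cast ha0
  have hH0 : (0 : ℝ) ≤ H := Nat.cast_nonneg H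
  have hY1 : 1 ≤ Y := by
    rw [hY]
    apply Real.one_le_sqrt.mpr
    rw [le_div_iff₀ hkR0]
    have : (0 : ℝ) ≤ g := Nat.cast_nonneg g
    nlinarith
  have hY0 : 0 ≤ Y := by linarith
  set X : ℝ := (a : ℝ) ^ (g + 1) * Y with hX
  have hX0 : 0 ≤ X := by positivity
  have hw : ∀ i, IsCoprime ((fun i => b ^ (2 * (g + 1) - i)) i : ℤ) (a : ℤ) := fun i =>
    hab.symm.pow_left
  have hwn : (fun i => b ^ (2 * (g + 1) - i)) (2 * (g + 1)) ≠ (0 : ℤ) := by simp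
  have hSbox : ∀ f ∈ SS (g + 1) H a b k, f ∈ box (2 * (g + 1) + 1) H := by
    intro f hf
    unfold SS at hf
    exact (Finset.mem_filter.mp hf).1
  have hS0 : ∀ f ∈ SS (g + 1) H a b k, f 0 ≠ 0 := by
    intro f hf
    unfold SS at hf
    exact (Finset.mem_filter.mp hf).2.1
  have hSc : ∀ f ∈ SS (g + 1) H a b k, ∃ c : ℤ, |(c : ℝ)| ≤ X ∧
      val a (fun i => b ^ (2 * (g + 1) - i)) (2 * (g + 1) + 1) f = k * c ^ 2 := by
    intro f hf
    have hfb := hSbox f hf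
    unfold SS at hf
    obtain ⟨c, hc⟩ := (Finset.mem_filter.mp hf).2.2
    refine ⟨c, ?_, by rw [← frm_eq_val]; exact hc⟩
    have h1 := abs_frm_le (2 * (g + 1)) H f hfb a b hb
    rw [hc] at h1
    push_cast at h1
    rw [abs_mul, abs_pow, pow_mul'] at h1
    refine abs_le_of_sq_le_sq ?_ hX0
    rw [hX, mul_pow, hY, Real.sq_sqrt (by positivity)]
    have h2 : |(c : ℝ)| ^ 2 = (c : ℝ) ^ 2 := sq_abs _
    rw [h2] at h1
    rw [mul_div_assoc', le_div_iff₀ hkR0]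
    have e1 : ((a : ℝ) ^ (g + 1)) ^ 2 * ((2 * g + 3) * H) =
        (2 * (↑g + 1) + 1) * ↑H * (↑a ^ (g + 1)) ^ 2 := by ring
    rw [e1]
    linarith
  have hD0 : (0 : ℝ) ≤ ((a ^ (g + 1)).divisors.card : ℝ) := Nat.cast_nonneg _
  constructor
  · intro h
    have h1 := card_small H a ha0 h (2 * (g + 1)) (fun i => b ^ (2 * (g + 1) - i)) hw hwn k X hX0
      (SS (g + 1) H a b k) hSbox hSc
    refine h1.trans ?_
    have haone : (1 : ℝ) ≤ (a : ℝ) ^ (g + 1) := one_le_pow₀ (by exact_mod_cast ha0)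
    have h2 : 2 * X + 1 ≤ 3 * ((a : ℝ) ^ (g + 1) * Y) := by
      rw [hX]
      nlinarith
    calc (2 * X + 1) * (4 * H / a) ^ (2 * (g + 1))
        ≤ 3 * ((a : ℝ) ^ (g + 1) * Y) * (4 * H / a) ^ (2 * (g + 1)) :=
          mul_le_mul_of_nonneg_right h2 (by positivity)
      _ = Y * (3 * (4 * H) ^ (2 * (g + 1)) / (a : ℝ) ^ (g + 1)) := by
          rw [div_pow]
          have e1 : (a : ℝ) ^ (2 * (g + 1)) = (a : ℝ) ^ (g + 1) * (a : ℝ) ^ (g + 1) := by
            rw [← pow_add]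
            congr 1
            ring
          rw [e1]
          field_simp
  · intro h
    have hnum : 2 * (g + 1) + 1 = g + 1 + (g + 1 + 1) := by ring
    have key : ∀ (n : ℕ) (_ : n = g + 1 + (g + 1 + 1)) (S : Finset (Fin n → ℤ))
        (_ : ∀ f ∈ S, f ∈ box n H) (_ : ∀ f ∈ S, ∀ h : 0 < n, f ⟨0, h⟩ ≠ 0)
        (_ : ∀ f ∈ S, ∃ c : ℤ, |(c : ℝ)| ≤ X ∧
          val a (fun i => b ^ (2 * (g + 1) - i)) n f = k * c ^ 2),
        (S.card : ℝ) ≤ ((a ^ (g + 1)).divisors.card : ℝ) ^ 2 * (4 * H) ^ (g + 1) *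
          (4 * X / (a : ℝ) ^ (g + 1) + 1) := by
      intro n hn S h1 h2 h3
      subst hn
      refine card_large H a h g (g + 1) (fun i => b ^ (2 * (g + 1) - i)) hw ?_ k hk X hX0 S h1 ?_ h3
      · have : 2 * (g + 1) - (g + 1 + (g + 1)) = 0 := by omega
        simp only [this, pow_zero]
        exact one_ne_zero
      · intro f hf
        exact h2 f hf (by omega)
    have h1 := key (2 * (g + 1) + 1) hnum (SS (g + 1) H a b k) hSbox
      (fun f hf _ => hS0 f hf) hSc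
    refine h1.trans ?_
    have e1 : 4 * X / (a : ℝ) ^ (g + 1) = 4 * Y := by
      rw [hX]
      field_simp
    rw [e1]
    have h2 : ((a ^ (g + 1)).divisors.card : ℝ) ^ 2 * (4 * H) ^ (g + 1) * (4 * Y + 1) ≤
        ((a ^ (g + 1)).divisors.card : ℝ) ^ 2 * (4 * H) ^ (g + 1) * (5 * Y) := by
      refine mul_le_mul_of_nonneg_left (by linarith) (by positivity)
    refine h2.trans ?_
    apply le_of_eq
    ring

/-! ### the divisor bound -/

theorem prime_pow_aux (ε : ℝ) (hε : 0 < ε) : ∃ C : ℝ, 1 ≤ C ∧ ∀ p : ℕ, 2 ≤ p → ∀ v : ℕ,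
    (v : ℝ) + 1 ≤ C * ((p : ℝ) ^ v) ^ ε := by
  set c := ε * Real.log 2 with hc
  have hl2 : 0 < Real.log 2 := Real.log_pos (by norm_num)
  have hc0 : 0 < c := by positivity
  refine ⟨max 1 (1 / c), le_max_left _ _, ?_⟩
  intro p hp v
  have hp' : (2:ℝ) ≤ p := by exact_mod_cast hp
  have h1 : ((2:ℝ) ^ v) ^ ε ≤ ((p:ℝ) ^ v) ^ ε := by
    apply Real.rpow_le_rpow (by positivity) _ hε.le
    exact pow_le_pow_left₀ (by norm_num) hp' v
  have h2 : 1 + v * c ≤ ((2:ℝ) ^ v) ^ ε := by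
    have : ((2:ℝ) ^ v) ^ ε = Real.exp (v * c) := by
      rw [← Real.rpow_natCast, ← Real.rpow_mul (by norm_num), Real.rpow_def_of_pos (by norm_num)]
      congr 1; rw [hc]; ring
    rw [this]
    have := Real.add_one_le_exp (v * c)
    linarith
  have hC : (1:ℝ) ≤ max 1 (1 / c) := le_max_left _ _
  have hC2 : 1 / c ≤ max 1 (1 / c) := le_max_right _ _
  calc (v : ℝ) + 1 = 1 + v * c * (1 / c) := by field_simp; ring
    _ ≤ max 1 (1/c) * 1 + v * c * max 1 (1 / c) := by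
        have : (0:ℝ) ≤ v * c := by positivity
        have := mul_le_mul_of_nonneg_left hC2 this
        linarith
    _ = max 1 (1/c) * (1 + v * c) := by ring
    _ ≤ max 1 (1/c) * ((p:ℝ) ^ v) ^ ε := by
        apply mul_le_mul_of_nonneg_left (h2.trans h1) (by positivity)

theorem divisor_bound (ε : ℝ) (hε : 0 < ε) :
    ∃ C : ℝ, 0 < C ∧ ∀ n : ℕ, 1 ≤ n → (n.divisors.card : ℝ) ≤ C * (n : ℝ) ^ ε := by
  classical
  obtain ⟨C, hC1, hC⟩ := prime_pow_aux ε hε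
  obtain ⟨P, hP⟩ := exists_nat_ge ((2:ℝ) ^ (1/ε))
  refine ⟨C ^ P, by positivity, ?_⟩
  intro n hn
  have hn0 : n ≠ 0 := by omega
  rw [Nat.card_divisors hn0]
  push_cast
  have hnprod : (n:ℝ) ^ ε = ∏ p ∈ n.primeFactors, ((p:ℝ) ^ (n.factorization p)) ^ ε := by
    rw [Real.finsetProd_rpow _ _ (fun p _ => by positivity)]
    congr 1
    conv_lhs => rw [← Nat.prod_factorization_pow_eq_self hn0]
    rw [Finsupp.prod]
    push_cast
    rfl
  have hterm : ∀ p ∈ n.primeFactors, ((n.factorization p : ℝ) + 1) ≤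
      (if p < P then C else 1) * ((p:ℝ) ^ (n.factorization p)) ^ ε := by
    intro p hp
    have hpp := Nat.prime_of_mem_primeFactors hp
    split_ifs with h
    · exact hC p hpp.two_le _
    · push Not at h
      have h1 : (2:ℝ) ^ (1/ε) ≤ p := hP.trans (by exact_mod_cast h)
      have h2 : (2:ℝ) ≤ (p:ℝ) ^ ε := by
        have := Real.rpow_le_rpow (by positivity) h1 hε.le
        rwa [← Real.rpow_mul (by norm_num), one_div_mul_cancel hε.ne', Real.rpow_one] at this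
      have h3 : ((p:ℝ) ^ (n.factorization p)) ^ ε = ((p:ℝ) ^ ε) ^ (n.factorization p) := by
        rw [← Real.rpow_natCast, ← Real.rpow_natCast, ← Real.rpow_mul (by positivity),
          ← Real.rpow_mul (by positivity), mul_comm]
      rw [one_mul, h3]
      have h4 : ((n.factorization p : ℝ) + 1) ≤ 2 ^ (n.factorization p) := by
        exact_mod_cast Nat.lt_two_pow_self
      exact h4.trans (pow_le_pow_left₀ (by norm_num) h2 _)
  calc ∏ p ∈ n.primeFactors, ((n.factorization p : ℝ) + 1)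
      ≤ ∏ p ∈ n.primeFactors, ((if p < P then C else 1) * ((p:ℝ) ^ (n.factorization p)) ^ ε) :=
        Finset.prod_le_prod (fun p _ => by positivity) hterm
    _ = (∏ p ∈ n.primeFactors, (if p < P then C else 1)) * (n:ℝ) ^ ε := by
        rw [Finset.prod_mul_distrib, hnprod]
    _ ≤ C ^ P * (n:ℝ) ^ ε := by
        apply mul_le_mul_of_nonneg_right _ (by positivity)
        rw [← Finset.prod_filter, Finset.prod_const]
        apply pow_le_pow_right₀ hC1
        calc _ ≤ (Finset.range P).card := Finset.card_le_card (by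
              intro p hp; rw [Finset.mem_filter] at hp; exact Finset.mem_range.mpr hp.2)
          _ = P := Finset.card_range P

/-! ### summation over `k` -/

theorem sum_inv_sqrt (K : ℕ) : ∑ k ∈ Icc 1 K, 1 / Real.sqrt (k : ℝ) ≤ 2 * Real.sqrt K := by
  induction K with
  | zero => simp
  | succ n ih =>
    rw [Finset.sum_Icc_succ_top (by omega : 1 ≤ n + 1)]
    have h1 : (0 : ℝ) < Real.sqrt ((n + 1 : ℕ) : ℝ) := Real.sqrt_pos.mpr (by positivity)
    have h2 : Real.sqrt ((n + 1 : ℕ) : ℝ) ^ 2 = n + 1 := by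
      rw [Real.sq_sqrt (by positivity)]
      push_cast
      ring
    have h3 : Real.sqrt (n : ℝ) ^ 2 = n := Real.sq_sqrt (Nat.cast_nonneg n)
    have h4 : (0 : ℝ) ≤ Real.sqrt (n : ℝ) := Real.sqrt_nonneg _
    have h5 : 1 / Real.sqrt ((n + 1 : ℕ) : ℝ) ≤
        2 * Real.sqrt ((n + 1 : ℕ) : ℝ) - 2 * Real.sqrt (n : ℝ) := by
      rw [div_le_iff₀ h1]
      nlinarith [sq_nonneg (Real.sqrt ((n + 1 : ℕ) : ℝ) - Real.sqrt (n : ℝ))]
    linarith

/-- the forms in the box with nonzero first coefficient and a value `k c²`, `1 ≤ |k| ≤ K`,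
at `(a, b)` -/
noncomputable def SK (g H K : ℕ) (a : ℕ) (b : ℤ) : Finset (Fin (2 * (g + 1) + 1) → ℤ) := by
  classical
  exact (Icc 1 K).biUnion fun k : ℕ => SS (g + 1) H a b k ∪ SS (g + 1) H a b (-k)

theorem card_SK (g H K a : ℕ) (hKH : K ≤ H) (ha0 : 0 < a) (b : ℤ) (hb : |b| ≤ a)
    (hab : IsCoprime (a : ℤ) b) :
    (a ≤ 2 * H → ((SK g H K a b).card : ℝ) ≤
      4 * Real.sqrt (2 * g + 3) * (Real.sqrt H * Real.sqrt K) *
      (3 * (4 * H) ^ (2 * (g + 1)) / (a : ℝ) ^ (g + 1))) ∧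
    (2 * H < a → ((SK g H K a b).card : ℝ) ≤
      4 * Real.sqrt (2 * g + 3) * (Real.sqrt H * Real.sqrt K) *
      (5 * ((a ^ (g + 1)).divisors.card : ℝ) ^ 2 * (4 * H) ^ (g + 1))) := by
  classical
  -- a common argument for the two bounds
  have key : ∀ β : ℝ, 0 ≤ β → (∀ k : ℤ, k ≠ 0 → |k| ≤ H → ((SS (g + 1) H a b k).card : ℝ) ≤
      Real.sqrt ((2 * g + 3) * H / |(k : ℝ)|) * β) → ((SK g H K a b).card : ℝ) ≤
      4 * Real.sqrt (2 * g + 3) * (Real.sqrt H * Real.sqrt K) * β := by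
    intro β hβ hk
    have h1 : ∀ k ∈ Icc 1 K, ((SS (g + 1) H a b k ∪ SS (g + 1) H a b (-k)).card : ℝ) ≤
        2 * (Real.sqrt ((2 * g + 3) * H) * (1 / Real.sqrt k) * β) := by
      intro k hkm
      obtain ⟨hk1, hk2⟩ := mem_Icc.mp hkm
      have hkZ : (k : ℤ) ≠ 0 := by exact_mod_cast (by omega : k ≠ 0)
      have hkH : (k : ℤ) ≤ (H : ℤ) := by exact_mod_cast hk2.trans hKH
      have hk0 : (0 : ℤ) ≤ (k : ℤ) := by positivity
      have hsq : Real.sqrt ((2 * g + 3) * H / |((k : ℤ) : ℝ)|) =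
          Real.sqrt ((2 * g + 3) * H) * (1 / Real.sqrt k) := by
        rw [Int.cast_natCast, abs_of_nonneg (Nat.cast_nonneg k), Real.sqrt_div (by positivity)]
        ring
      have hsq' : Real.sqrt ((2 * g + 3) * H / |((-(k : ℤ) : ℤ) : ℝ)|) =
          Real.sqrt ((2 * g + 3) * H) * (1 / Real.sqrt k) := by
        rw [Int.cast_neg, abs_neg, hsq]
      have h1 := hk k hkZ (by rw [abs_of_nonneg hk0]; exact hkH)
      have h2 := hk (-k) (neg_ne_zero.mpr hkZ) (by rw [abs_neg, abs_of_nonneg hk0]; exact hkH)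
      rw [hsq] at h1
      rw [hsq'] at h2
      have h3 : ((SS (g + 1) H a b k ∪ SS (g + 1) H a b (-k)).card : ℝ) ≤
          ((SS (g + 1) H a b k).card : ℝ) + (SS (g + 1) H a b (-k)).card := by
        exact_mod_cast Finset.card_union_le _ _
      linarith
    unfold SK
    calc _ ≤ ∑ k ∈ Icc 1 K, ((SS (g + 1) H a b k ∪ SS (g + 1) H a b (-k)).card : ℝ) := by
          exact_mod_cast Finset.card_biUnion_le
      _ ≤ ∑ k ∈ Icc 1 K, 2 * (Real.sqrt ((2 * g + 3) * H) * (1 / Real.sqrt k) * β) :=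
          Finset.sum_le_sum h1
      _ = 2 * Real.sqrt ((2 * g + 3) * H) * (∑ k ∈ Icc 1 K, 1 / Real.sqrt (k : ℝ)) * β := by
          rw [Finset.mul_sum, Finset.sum_mul]
          refine Finset.sum_congr rfl fun k _ => ?_
          ring
      _ ≤ 2 * Real.sqrt ((2 * g + 3) * H) * (2 * Real.sqrt K) * β := by
          refine mul_le_mul_of_nonneg_right ?_ hβ
          exact mul_le_mul_of_nonneg_left (sum_inv_sqrt K) (by positivity)
      _ = _ := by
          rw [Real.sqrt_mul (by positivity)]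
          ring
  constructor
  · intro h
    exact key _ (by positivity) fun k hk hkH =>
      (card_SS_two g H a ha0 b k hb hab hk hkH).1 h
  · intro h
    exact key _ (by positivity) fun k hk hkH =>
      (card_SS_two g H a ha0 b k hb hab hk hkH).2 h

/-- bad forms from small pairs -/
noncomputable def Bsmall (g H K : ℕ) : Finset (Fin (2 * (g + 1) + 1) → ℤ) := by
  classical
  exact (Icc 1 (2 * H)).biUnion fun a : ℕ =>
    ((Icc (-(a : ℤ)) a).filter (fun b => IsCoprime (a : ℤ) b)).biUnion fun b => SK g H K a b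

theorem card_Bsmall (g : ℕ) (hg : 2 ≤ g) : ∃ C : ℝ, 0 < C ∧ ∀ H K : ℕ, K ≤ H →
    ((Bsmall g H K).card : ℝ) ≤ C * (Real.sqrt H * Real.sqrt K) * (H : ℝ) ^ (2 * (g + 1)) := by
  classical
  set Z : ℝ := ∑' n : ℕ, 1 / (n : ℝ) ^ 2 with hZ
  have hZs : Summable (fun n : ℕ => 1 / (n : ℝ) ^ 2) :=
    Real.summable_one_div_nat_pow.mpr (by norm_num)
  have hZ0 : 0 ≤ Z := tsum_nonneg fun n => by positivity
  refine ⟨4 * Real.sqrt (2 * g + 3) * (9 * 4 ^ (2 * (g + 1)) * (Z + 1)), by positivity, ?_⟩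
  intro H K hKH
  set W : ℝ := 4 * Real.sqrt (2 * g + 3) * (Real.sqrt H * Real.sqrt K) with hW
  have hW0 : 0 ≤ W := by positivity
  have hone : ∀ a ∈ Icc 1 (2 * H),
      ((((Icc (-(a : ℤ)) a).filter (fun b => IsCoprime (a : ℤ) b)).biUnion fun b =>
        SK g H K a b).card : ℝ) ≤
        W * (9 * 4 ^ (2 * (g + 1)) * (H : ℝ) ^ (2 * (g + 1))) * (1 / (a : ℝ) ^ 2) := by
    intro a ha
    obtain ⟨ha1, ha2⟩ := mem_Icc.mp ha
    have haR : (1 : ℝ) ≤ a := by exact_mod_cast ha1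
    have haR0 : (0 : ℝ) < a := by linarith
    have hb : ∀ b ∈ (Icc (-(a : ℤ)) a).filter (fun b => IsCoprime (a : ℤ) b),
        ((SK g H K a b).card : ℝ) ≤ W * (3 * (4 * H) ^ (2 * (g + 1)) / (a : ℝ) ^ (g + 1)) := by
      intro b hb
      obtain ⟨hb1, hb2⟩ := Finset.mem_filter.mp hb
      exact (card_SK g H K a hKH (by omega) b (abs_le.mpr (mem_Icc.mp hb1)) hb2).1 ha2
    have hcb : (((Icc (-(a : ℤ)) a).filter (fun b => IsCoprime (a : ℤ) b)).card : ℝ) ≤ 3 * a := by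
      have h1 : ((Icc (-(a : ℤ)) a).filter (fun b => IsCoprime (a : ℤ) b)).card ≤ 3 * a := by
        refine (Finset.card_filter_le _ _).trans ?_
        rw [Int.card_Icc]
        omega
      exact_mod_cast h1
    calc ((((Icc (-(a : ℤ)) a).filter (fun b => IsCoprime (a : ℤ) b)).biUnion fun b =>
        SK g H K a b).card : ℝ)
        ≤ ∑ b ∈ (Icc (-(a : ℤ)) a).filter (fun b => IsCoprime (a : ℤ) b),
          ((SK g H K a b).card : ℝ) := by
          exact_mod_cast Finset.card_biUnion_le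
      _ ≤ ∑ _b ∈ (Icc (-(a : ℤ)) a).filter (fun b => IsCoprime (a : ℤ) b),
          W * (3 * (4 * H) ^ (2 * (g + 1)) / (a : ℝ) ^ (g + 1)) := Finset.sum_le_sum hb
      _ = (((Icc (-(a : ℤ)) a).filter (fun b => IsCoprime (a : ℤ) b)).card : ℝ) *
          (W * (3 * (4 * H) ^ (2 * (g + 1)) / (a : ℝ) ^ (g + 1))) := by
          rw [Finset.sum_const, nsmul_eq_mul]
      _ ≤ 3 * a * (W * (3 * (4 * H) ^ (2 * (g + 1)) / (a : ℝ) ^ (g + 1))) :=
          mul_le_mul_of_nonneg_right hcb (by positivity)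
      _ = W * (9 * 4 ^ (2 * (g + 1)) * (H : ℝ) ^ (2 * (g + 1))) * (1 / (a : ℝ) ^ g) := by
          rw [mul_pow, pow_succ (a : ℝ) g]
          field_simp
          ring
      _ ≤ W * (9 * 4 ^ (2 * (g + 1)) * (H : ℝ) ^ (2 * (g + 1))) * (1 / (a : ℝ) ^ 2) := by
          refine mul_le_mul_of_nonneg_left ?_ (by positivity)
          exact one_div_le_one_div_of_le (by positivity) (pow_le_pow_right₀ haR hg)
  unfold Bsmall
  calc _ ≤ ∑ a ∈ Icc 1 (2 * H), ((((Icc (-(a : ℤ)) a).filter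
        (fun b => IsCoprime (a : ℤ) b)).biUnion fun b => SK g H K a b).card : ℝ) := by
        exact_mod_cast Finset.card_biUnion_le
    _ ≤ ∑ a ∈ Icc 1 (2 * H), W * (9 * 4 ^ (2 * (g + 1)) * (H : ℝ) ^ (2 * (g + 1))) *
        (1 / (a : ℝ) ^ 2) := Finset.sum_le_sum hone
    _ = W * (9 * 4 ^ (2 * (g + 1)) * (H : ℝ) ^ (2 * (g + 1))) *
        ∑ a ∈ Icc 1 (2 * H), 1 / (a : ℝ) ^ 2 := by rw [Finset.mul_sum]
    _ ≤ W * (9 * 4 ^ (2 * (g + 1)) * (H : ℝ) ^ (2 * (g + 1))) * (Z + 1) := by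
        refine mul_le_mul_of_nonneg_left ?_ (by positivity)
        have : ∑ a ∈ Icc 1 (2 * H), 1 / (a : ℝ) ^ 2 ≤ Z :=
          Summable.sum_le_tsum _ (fun n _ => by positivity) hZs
        linarith
    _ = _ := by
        rw [hW]
        ring

/-- bad forms from the pairs in `P` -/
noncomputable def Blarge (g H K : ℕ) (P : Finset (ℕ × ℤ)) :
    Finset (Fin (2 * (g + 1) + 1) → ℤ) := by
  classical
  exact P.biUnion fun p => SK g H K p.1 p.2

theorem card_Blarge (g : ℕ) (B ε : ℝ) (hB : 0 ≤ B) (hε : 0 < ε) : ∃ C : ℝ, 0 < C ∧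
    ∀ (H K : ℕ) (P : Finset (ℕ × ℤ)), 1 ≤ H → K ≤ H →
    (∀ p ∈ P, 2 * H < p.1 ∧ |p.2| ≤ p.1 ∧ IsCoprime (p.1 : ℤ) p.2 ∧ (p.1 : ℝ) ≤ (H : ℝ) ^ B) →
    ((Blarge g H K P).card : ℝ) ≤ C * (Real.sqrt H * Real.sqrt K) * ((H : ℝ) ^ (g + 1) *
      (P.card * (H : ℝ) ^ ε)) := by
  classical
  obtain ⟨C0, hC0, hdiv⟩ := divisor_bound (ε / (2 * (g + 1) * (B + 1))) (by positivity)
  refine ⟨4 * Real.sqrt (2 * g + 3) * (5 * 4 ^ (g + 1) * C0 ^ 2), by positivity, ?_⟩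
  intro H K P hH hKH hP
  have hHR : (1 : ℝ) ≤ H := by exact_mod_cast hH
  have hHR0 : (0 : ℝ) < H := by linarith
  set W : ℝ := 4 * Real.sqrt (2 * g + 3) * (Real.sqrt H * Real.sqrt K) with hW
  have hW0 : 0 ≤ W := by positivity
  have hone : ∀ p ∈ P, ((SK g H K p.1 p.2).card : ℝ) ≤
      W * (5 * 4 ^ (g + 1) * C0 ^ 2) * ((H : ℝ) ^ (g + 1) * (H : ℝ) ^ ε) := by
    intro p hp
    obtain ⟨h1, h2, h3, h4⟩ := hP p hp
    have hp0 : 0 < p.1 := by omega
    have h5 := (card_SK g H K p.1 hKH hp0 p.2 h2 h3).2 h1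
    have hd := hdiv (p.1 ^ (g + 1)) (Nat.one_le_pow _ _ hp0)
    have h6 : ((p.1 ^ (g + 1) : ℕ) : ℝ) ^ (ε / (2 * ((g : ℝ) + 1) * (B + 1))) ≤
        (H : ℝ) ^ (ε / 2) := by
      have h7 : ((p.1 ^ (g + 1) : ℕ) : ℝ) ≤ (H : ℝ) ^ ((B + 1) * ((g : ℝ) + 1)) := by
        push_cast
        calc (p.1 : ℝ) ^ (g + 1) ≤ ((H : ℝ) ^ (B + 1)) ^ (g + 1) := by
              refine pow_le_pow_left₀ (Nat.cast_nonneg _) (h4.trans ?_) _
              exact Real.rpow_le_rpow_of_exponent_le hHR (by linarith)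
          _ = (H : ℝ) ^ ((B + 1) * ((g : ℝ) + 1)) := by
              rw [← Real.rpow_natCast, ← Real.rpow_mul hHR0.le]
              push_cast
              rfl
      calc ((p.1 ^ (g + 1) : ℕ) : ℝ) ^ (ε / (2 * ((g : ℝ) + 1) * (B + 1)))
          ≤ ((H : ℝ) ^ ((B + 1) * ((g : ℝ) + 1))) ^ (ε / (2 * ((g : ℝ) + 1) * (B + 1))) :=
            Real.rpow_le_rpow (by positivity) h7 (by positivity)
        _ = (H : ℝ) ^ (ε / 2) := by
            rw [← Real.rpow_mul hHR0.le]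
            congr 1
            field_simp
    have h7 : ((p.1 ^ (g + 1)).divisors.card : ℝ) ≤ C0 * (H : ℝ) ^ (ε / 2) :=
      hd.trans (mul_le_mul_of_nonneg_left h6 hC0.le)
    have h8 : ((p.1 ^ (g + 1)).divisors.card : ℝ) ^ 2 ≤ C0 ^ 2 * (H : ℝ) ^ ε := by
      calc ((p.1 ^ (g + 1)).divisors.card : ℝ) ^ 2 ≤ (C0 * (H : ℝ) ^ (ε / 2)) ^ 2 :=
            pow_le_pow_left₀ (Nat.cast_nonneg _) h7 2
        _ = C0 ^ 2 * (H : ℝ) ^ ε := by
            rw [mul_pow, ← Real.rpow_natCast ((H : ℝ) ^ (ε / 2)) 2, ← Real.rpow_mul hHR0.le]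
            congr 2
            push_cast
            ring
    calc ((SK g H K p.1 p.2).card : ℝ)
        ≤ W * (5 * ((p.1 ^ (g + 1)).divisors.card : ℝ) ^ 2 * (4 * H) ^ (g + 1)) := h5
      _ ≤ W * (5 * (C0 ^ 2 * (H : ℝ) ^ ε) * (4 * H) ^ (g + 1)) := by gcongr
      _ = _ := by
          rw [mul_pow]
          ring
  unfold Blarge
  calc _ ≤ ∑ p ∈ P, ((SK g H K p.1 p.2).card : ℝ) := by
        exact_mod_cast Finset.card_biUnion_le
    _ ≤ ∑ _p ∈ P, W * (5 * 4 ^ (g + 1) * C0 ^ 2) * ((H : ℝ) ^ (g + 1) * (H : ℝ) ^ ε) :=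
        Finset.sum_le_sum hone
    _ = _ := by
        rw [Finset.sum_const, nsmul_eq_mul, hW]
        ring

end Pool.Agent.TH390.Tw
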