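import Pool.Agent.TH390.Tw.Basic

set_option autoImplicit false

namespace Pool.Agent.TH390.Tw

open Finset

/-- number of small solutions of `k c² ≡ m (mod q)` -/
theorem card_sq (q : ℕ) (hq : 0 < q) (k m : ℤ) (hk : k ≠ 0) (X : ℝ) (hX : 0 ≤ X) (S : Finset ℤ)
    (h1 : ∀ c ∈ S, |(c : ℝ)| ≤ X) (h2 : ∀ c ∈ S, (q : ℤ) ∣ k * c ^ 2 - m) :
    (S.card : ℝ) ≤ q.divisors.card * (4 * X * (Int.gcd m q) / q + 1) := by
  classical
  have hqR : (0 : ℝ) < q := by exact_mod_cast hq
  set e := Int.gcd m q with he
  have hee0 : 0 < e := Int.gcd_pos_of_ne_zero_right _ (by exact_mod_cast hq.ne')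
  have hpos : (0 : ℝ) ≤ 4 * X * e / q + 1 := by positivity
  by_cases hne : S.Nonempty
  · obtain ⟨c1, hc1⟩ := hne
    set k0 := Int.gcd k q with hk0
    have hk0pos : 0 < k0 := Int.gcd_pos_of_ne_zero_left _ hk
    have hk0q : (k0 : ℤ) ∣ q := Int.gcd_dvd_right _ _
    have hk0k : (k0 : ℤ) ∣ k := Int.gcd_dvd_left _ _
    obtain ⟨q', hq'⟩ : k0 ∣ q := by exact_mod_cast hk0q
    obtain ⟨k', hk'⟩ := hk0k
    have hq'pos : 0 < q' := by
      rcases Nat.eq_zero_or_pos q' with h | h
      · rw [h, mul_zero] at hq'; omega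
      · exact h
    have hk0Z : (k0 : ℤ) ≠ 0 := by exact_mod_cast hk0pos.ne'
    have hcop : IsCoprime (q' : ℤ) k' := by
      have h3 : Int.gcd ((k0 : ℤ) * k') (k0 * q' : ℤ) = k0 := by
        rw [← hk']
        have : ((k0 : ℤ) * q') = (q : ℤ) := by rw [hq']; push_cast; ring
        rw [this]
      rw [Int.gcd_mul_left, Int.natAbs_natCast] at h3
      have h4 : Int.gcd k' q' = 1 := by
        have : k0 * Int.gcd k' q' = k0 * 1 := by rw [h3, mul_one]
        exact Nat.eq_of_mul_eq_mul_left hk0pos this
      exact (Int.isCoprime_iff_gcd_eq_one.mpr h4).symm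
    -- k0 divides m, hence e
    have hk0m : (k0 : ℤ) ∣ m := by
      have h3 := hk0q.trans (h2 c1 hc1)
      have h4 : (k0 : ℤ) ∣ k * c1 ^ 2 := (Dvd.intro _ hk'.symm).mul_right _
      have h5 := dvd_sub h4 h3
      rwa [sub_sub_cancel] at h5
    have hk0e : k0 ≤ e := by
      refine Nat.le_of_dvd hee0 ?_
      exact_mod_cast Int.dvd_coe_gcd hk0m hk0q
    have hdiff : ∀ c ∈ S, (q' : ℤ) ∣ (c - c1) * (c + c1) := by
      intro c hc
      have h3 := dvd_sub (h2 c hc) (h2 c1 hc1)
      have h4 : (k0 : ℤ) * q' ∣ k0 * (k' * ((c - c1) * (c + c1))) := by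
        have e1 : (k0 : ℤ) * q' = q := by rw [hq']; push_cast; ring
        have e2 : (k0 : ℤ) * (k' * ((c - c1) * (c + c1))) = k * c ^ 2 - m - (k * c1 ^ 2 - m) := by
          rw [hk']; ring
        rw [e1, e2]
        exact h3
      have h5 := Int.dvd_of_mul_dvd_mul_left hk0Z h4
      exact hcop.dvd_of_dvd_mul_left h5
    -- the fibration
    have hfib : ∀ d ∈ q'.divisors,
        ((S.filter (fun c => Int.gcd q' (c - c1) = d)).card : ℝ) ≤ 4 * X * e / q + 1 := by
      intro d hd
      have hdq' : d ∣ q' := Nat.dvd_of_mem_divisors hd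
      obtain ⟨r, hr⟩ := hdq'
      have hd0 : 0 < d := Nat.pos_of_mem_divisors hd
      have hr0 : 0 < r := by
        rcases Nat.eq_zero_or_pos r with h | h
        · rw [h, mul_zero] at hr; omega
        · exact h
      set Sd := S.filter (fun c => Int.gcd q' (c - c1) = d) with hSd
      by_cases hne : Sd.Nonempty
      · obtain ⟨c2, hc2⟩ := hne
        have hprops : ∀ c ∈ Sd, (d : ℤ) ∣ c - c1 ∧ (r : ℤ) ∣ c + c1 := by
          intro c hc
          obtain ⟨hcS, hcd⟩ := Finset.mem_filter.mp hc
          have h3 : (d : ℤ) ∣ c - c1 := by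
            rw [← hcd]
            exact Int.gcd_dvd_right _ _
          refine ⟨h3, ?_⟩
          obtain ⟨t, ht⟩ := h3
          have hdZ : (d : ℤ) ≠ 0 := by exact_mod_cast hd0.ne'
          have h4 : Int.gcd (d * r : ℤ) (d * t) = d := by
            rw [← ht]
            have : ((d : ℤ) * r) = (q' : ℤ) := by rw [hr]; push_cast; ring
            rw [this]
            exact hcd
          rw [Int.gcd_mul_left, Int.natAbs_natCast] at h4
          have h5 : Int.gcd (r : ℤ) t = 1 := by
            have : d * Int.gcd (r : ℤ) t = d * 1 := by rw [h4, mul_one]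
            exact Nat.eq_of_mul_eq_mul_left hd0 this
          have h6 := hdiff c hcS
          have h7 : (d : ℤ) * r ∣ d * (t * (c + c1)) := by
            have e1 : (d : ℤ) * r = q' := by rw [hr]; push_cast; ring
            have e2 : (d : ℤ) * (t * (c + c1)) = (c - c1) * (c + c1) := by rw [ht]; ring
            rw [e1, e2]
            exact h6
          have h8 := Int.dvd_of_mul_dvd_mul_left hdZ h7
          exact (Int.isCoprime_iff_gcd_eq_one.mpr h5).dvd_of_dvd_mul_left h8
        set g := Nat.gcd d r with hg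
        have hg0 : 0 < g := Nat.gcd_pos_of_pos_left _ hd0
        set L := Nat.lcm d r with hL
        have hL0 : 0 < L := Nat.lcm_pos hd0 hr0
        have hgL : g * L = q' := by rw [hg, hL, Nat.gcd_mul_lcm, hr]
        have hclass : ∀ c ∈ Sd, (L : ℤ) ∣ c - c2 := by
          intro c hc
          obtain ⟨h3, h4⟩ := hprops c hc
          obtain ⟨h5, h6⟩ := hprops c2 hc2
          have h7 : (d : ℤ) ∣ c - c2 := by
            have := dvd_sub h3 h5
            rwa [sub_sub_sub_cancel_right] at this
          have h8 : (r : ℤ) ∣ c - c2 := by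
            have := dvd_sub h4 h6
            rwa [add_sub_add_right_eq_sub] at this
          have h9 := Nat.lcm_dvd (Int.natCast_dvd.mp h7) (Int.natCast_dvd.mp h8)
          exact Int.natCast_dvd.mpr h9
        have h3 := card_class Sd L hL0 c2 X hX (fun c hc => h1 c (Finset.mem_filter.mp hc).1) hclass
        refine h3.trans ?_
        -- the bound k0 * g ≤ 2 e
        have hkey : k0 * g ≤ 2 * e := by
          obtain ⟨h5, h6⟩ := hprops c2 hc2
          have hgd : (g : ℤ) ∣ d := by exact_mod_cast Nat.gcd_dvd_left d r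
          have hgr : (g : ℤ) ∣ r := by exact_mod_cast Nat.gcd_dvd_right d r
          have h7 : (g : ℤ) ∣ 2 * c1 := by
            have := dvd_sub (hgr.trans h6) (hgd.trans h5)
            have e1 : c2 + c1 - (c2 - c1) = 2 * c1 := by ring
            rwa [e1] at this
          have h8 : (g : ℤ) ^ 2 ∣ 4 * c1 ^ 2 := by
            have := pow_dvd_pow_of_dvd h7 2
            have e1 : (2 * c1) ^ 2 = 4 * c1 ^ 2 := by ring
            rwa [e1] at this
          have h9 : (k0 : ℤ) * (g : ℤ) ^ 2 ∣ q := by
            have h10 : (g : ℤ) ^ 2 ∣ q' := by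
              have : (q' : ℤ) = d * r := by rw [hr]; push_cast; ring
              rw [this, pow_two]
              exact mul_dvd_mul hgd hgr
            have : (q : ℤ) = k0 * q' := by rw [hq']; push_cast; ring
            rw [this]
            exact mul_dvd_mul_left _ h10
          have h10 : (k0 : ℤ) * (g : ℤ) ^ 2 ∣ 4 * (k * c1 ^ 2) := by
            have h11 := mul_dvd_mul_left (k0 : ℤ) h8
            have e1 : 4 * (k * c1 ^ 2) = (k0 * (4 * c1 ^ 2)) * k' := by rw [hk']; ring
            rw [e1]
            exact h11.mul_right _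
          have h11 : (k0 : ℤ) * (g : ℤ) ^ 2 ∣ 4 * m := by
            have h12 : (k0 : ℤ) * (g : ℤ) ^ 2 ∣ 4 * (k * c1 ^ 2 - m) :=
              (h9.trans (h2 c1 hc1)).mul_left _
            have h13 := dvd_sub h10 h12
            have e1 : 4 * (k * c1 ^ 2) - 4 * (k * c1 ^ 2 - m) = 4 * m := by ring
            rwa [e1] at h13
          have h12 : (k0 * g ^ 2 : ℕ) ∣ 4 * e := by
            have h13 : ((k0 * g ^ 2 : ℕ) : ℤ) ∣ (Int.gcd (4 * m) (4 * q) : ℤ) := by
              push_cast
              exact Int.dvd_coe_gcd h11 (h9.mul_left _)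
            rw [Int.gcd_mul_left] at h13
            exact_mod_cast h13
          have h13 := Nat.le_of_dvd (by omega) h12
          have h14 : (k0 * g) * (k0 * g) ≤ (2 * e) * (2 * e) := by
            calc (k0 * g) * (k0 * g) = k0 * (k0 * g ^ 2) := by ring
              _ ≤ e * (4 * e) := Nat.mul_le_mul hk0e h13
              _ = (2 * e) * (2 * e) := by ring
          exact Nat.mul_self_le_mul_self_iff.mp h14
        have hkeyR : (k0 : ℝ) * g ≤ 2 * e := by exact_mod_cast hkey
        have hLR : (0 : ℝ) < L := by exact_mod_cast hL0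
        have hgR : (0 : ℝ) < g := by exact_mod_cast hg0
        have hk0R : (0 : ℝ) < k0 := by exact_mod_cast hk0pos
        have hqq : (q : ℝ) = k0 * (g * L) := by
          rw [hq', ← hgL]
          push_cast
          ring
        have h4 : 2 * X / L = 2 * X * (k0 * g) / q := by
          rw [hqq]
          field_simp
        rw [h4]
        have h5 : 2 * X * (k0 * g) ≤ 4 * X * e := by nlinarith
        have := div_le_div_of_nonneg_right h5 hqR.le
        linarith
      · rw [Finset.not_nonempty_iff_eq_empty] at hne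
        rw [hne]
        simpa using hpos
    have hmap : ∀ c ∈ S, Int.gcd q' (c - c1) ∈ q'.divisors := by
      intro c _
      rw [Nat.mem_divisors]
      refine ⟨?_, hq'pos.ne'⟩
      have : ((Int.gcd q' (c - c1) : ℕ) : ℤ) ∣ (q' : ℤ) := Int.gcd_dvd_left _ _
      exact_mod_cast this
    have hcard : (S.card : ℝ) = ∑ d ∈ q'.divisors,
        ((S.filter (fun c => Int.gcd q' (c - c1) = d)).card : ℝ) := by
      exact_mod_cast Finset.card_eq_sum_card_fiberwise hmap
    rw [hcard]
    calc ∑ d ∈ q'.divisors, ((S.filter (fun c => Int.gcd q' (c - c1) = d)).card : ℝ)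
        ≤ ∑ _d ∈ q'.divisors, (4 * X * e / q + 1) := Finset.sum_le_sum hfib
      _ = q'.divisors.card * (4 * X * e / q + 1) := by rw [Finset.sum_const, nsmul_eq_mul]
      _ ≤ q.divisors.card * (4 * X * e / q + 1) := by
          refine mul_le_mul_of_nonneg_right ?_ hpos
          have : q'.divisors.card ≤ q.divisors.card :=
            Finset.card_le_card (Nat.divisors_subset_of_dvd hq.ne' ⟨k0, by rw [hq']; ring⟩)
          exact_mod_cast this
  · rw [Finset.not_nonempty_iff_eq_empty] at hne
    rw [hne]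
    simp only [Finset.card_empty, Nat.cast_zero]
    positivity

end Pool.Agent.TH390.Tw
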